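import Pool.Agent.Helper74.MU.Defs

set_option autoImplicit false

namespace Pool.Agent.Helper74.MU

section

variable {G ι : Type} [Group G]

/-- letters: `(i, true) ↦ t i`, `(i, false) ↦ (t i)⁻¹` -/
def lt (t : ι → G) (e : ι × Bool) : G := if e.2 then t e.1 else (t e.1)⁻¹

/-- the commutator `a b a⁻¹ b⁻¹` -/
def cm (a b : G) : G := a * b * a⁻¹ * b⁻¹

/-- value of a word in the letters -/
def wv (t : ι → G) (l : List (ι × Bool)) : G := (l.map (lt t)).prod

open Classical in
/-- exponent vector of a word -/
noncomputable def ev (l : List (ι × Bool)) : ι → ℤ := fun i => (l.map fun e => if e.1 = i then (if e.2 then (1 : ℤ) else -1) else 0).sum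

private theorem wv_cons (t : ι → G) (x : ι × Bool) (l : List (ι × Bool)) : wv t (x :: l) = lt t x * wv t l := by
  simp [wv]

private theorem wv_append (t : ι → G) (l m : List (ι × Bool)) : wv t (l ++ m) = wv t l * wv t m := by
  simp [wv]

private theorem move (t : ι → G) (x y : ι × Bool) (hxy : lt t x * lt t y = 1) (u : List (ι × Bool)) :
    ∃ L : List (List (ι × Bool) × (ι × Bool) × (ι × Bool)), L.length = u.length ∧ (∀ e ∈ L, e.1.length ≤ u.length) ∧
      wv t (x :: u) * lt t y =
        (L.map fun e => wv t e.1 * cm (lt t e.2.1) (lt t e.2.2) * (wv t e.1)⁻¹).prod * wv t u := by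
  induction u using List.reverseRecOn with
  | nil =>
    refine ⟨[], rfl, by simp, ?_⟩
    simp [wv, hxy]
  | append_singleton u a ih =>
    obtain ⟨L, h1, h2, h3⟩ := ih
    refine ⟨(x :: u, a, y) :: L, by simp [h1], ?_, ?_⟩
    · intro e he
      rcases List.mem_cons.mp he with rfl | he
      · simp
      · have := h2 e he
        simp only [List.length_append, List.length_singleton]
        omega
    · rw [List.map_cons, List.prod_cons, ← List.cons_append, wv_append, wv_append]
      have e1 : wv t [a] = lt t a := by simp [wv]
      have h4 : (L.map fun e => wv t e.1 * cm (lt t e.2.1) (lt t e.2.2) * (wv t e.1)⁻¹).prod * wv t u =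
          wv t (x :: u) * lt t y := h3.symm
      rw [e1, mul_assoc (wv t (x :: u) * cm (lt t a) (lt t y) * (wv t (x :: u))⁻¹), ← mul_assoc _ (wv t u) (lt t a), h4]
      simp only [cm]
      group

private theorem sum_neg {α : Type} (f : α → ℤ) (l : List α) : (l.map fun e => -f e).sum = -(l.map f).sum := by
  induction l with
  | nil => simp
  | cons a l ih =>
    rw [List.map_cons, List.sum_cons, List.map_cons, List.sum_cons, ih]
    ring

private theorem exists_opp (i : ι) (b : Bool) (l : List (ι × Bool)) (h : ev ((i, b) :: l) i = 0) :
    (i, !b) ∈ l := by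
  classical
  by_contra hn
  simp only [ev, List.map_cons, List.sum_cons, if_true] at h
  cases b with
  | true =>
    have h1 : 0 ≤ (l.map fun e => if e.1 = i then (if e.2 then (1 : ℤ) else -1) else 0).sum := by
      refine List.sum_nonneg fun z hz => ?_
      obtain ⟨e, he, rfl⟩ := List.mem_map.mp hz
      rcases e with ⟨j, c⟩
      by_cases hj : j = i
      · subst hj
        cases c with
        | true => simp
        | false => exact absurd he hn
      · simp [hj]
    simp only [if_true] at h
    linarith
  | false =>
    have h1 : 0 ≤ (l.map fun e => -(if e.1 = i then (if e.2 then (1 : ℤ) else -1) else 0)).sum := by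
      refine List.sum_nonneg fun z hz => ?_
      obtain ⟨e, he, rfl⟩ := List.mem_map.mp hz
      rcases e with ⟨j, c⟩
      by_cases hj : j = i
      · subst hj
        cases c with
        | false => simp
        | true => exact absurd he hn
      · simp [hj]
    have h2 : (l.map fun e => -(if e.1 = i then (if e.2 then (1 : ℤ) else -1) else 0)).sum =
        -(l.map fun e => if e.1 = i then (if e.2 then (1 : ℤ) else -1) else 0).sum := sum_neg _ _
    simp only [Bool.false_eq_true, if_false] at h
    linarith

private theorem ev_cancel (i : ι) (b : Bool) (u v : List (ι × Bool)) (h : ev ((i, b) :: (u ++ (i, !b) :: v)) = 0) :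
    ev (u ++ v) = 0 := by
  classical
  funext j
  have h1 := congrFun h j
  simp only [ev, List.map_cons, List.sum_cons, List.map_append, List.sum_append, Pi.zero_apply] at h1 ⊢
  by_cases hj : i = j
  · subst hj
    cases b <;> simp at h1 ⊢ <;> linarith
  · simp [hj] at h1 ⊢
    linarith

/-- Block MU-G1 (collecting). A word with zero exponent vector is a product of at most `|l|²` conjugates of commutators of letters by prefixes of length `≤ |l|`.
Proof: strong induction on the length; `l = x :: u ++ x⁻¹ :: v`; move `x⁻¹` to the left over `u` letter by letter: `p a x⁻¹ q = (p (cm a x⁻¹) p⁻¹) p x⁻¹ a q`; cancel `x x⁻¹`. -/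
theorem struct (t : ι → G) (l : List (ι × Bool)) (h : ev l = 0) :
    ∃ L : List (List (ι × Bool) × (ι × Bool) × (ι × Bool)), L.length ≤ l.length ^ 2 ∧ (∀ e ∈ L, e.1.length ≤ l.length) ∧
      wv t l = (L.map fun e => wv t e.1 * cm (lt t e.2.1) (lt t e.2.2) * (wv t e.1)⁻¹).prod := by
  obtain ⟨n, hn⟩ : ∃ n, l.length = n := ⟨_, rfl⟩
  induction n using Nat.strong_induction_on generalizing l with
  | _ n ih =>
    cases l with
    | nil => exact ⟨[], by simp, by simp, by simp [wv]⟩
    | cons x r =>
      obtain ⟨i, b⟩ := x
      have hopp := exists_opp i b r (congrFun h i)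
      obtain ⟨u, v, rfl⟩ := List.append_of_mem hopp
      have h0 := ev_cancel i b u v h
      have hlen : n = u.length + v.length + 2 := by
        rw [← hn]
        simp only [List.length_cons, List.length_append]
        omega
      obtain ⟨L', h1', h2', h3'⟩ := ih (u ++ v).length (by rw [List.length_append]; omega) (u ++ v) h0 rfl
      have hxy : lt t (i, b) * lt t (i, !b) = 1 := by
        cases b <;> simp [lt]
      obtain ⟨L, h1, h2, h3⟩ := move t (i, b) (i, !b) hxy u
      refine ⟨L ++ L', ?_, ?_, ?_⟩
      · rw [List.length_append, h1, hn, hlen]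
        rw [List.length_append] at h1'
        nlinarith [h1']
      · intro e he
        rw [hn, hlen]
        rcases List.mem_append.mp he with he | he
        · have := h2 e he
          omega
        · have := h2' e he
          rw [List.length_append] at this
          omega
      · rw [List.map_append, List.prod_append, ← h3', wv_append, ← mul_assoc, ← h3, wv_cons, wv_cons, wv_append, wv_cons]
        group

end

end Pool.Agent.Helper74.MU
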