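import Pool.Agent.Helper74.MU.Defs

set_option autoImplicit false

namespace Pool.Agent.Helper74.MU

/-- Block MU-RG. The commutative ring generated by commuting automorphisms of an abelian group (`Algebra.adjoin ℤ` in `Module.End ℤ N`, `Algebra.adjoinCommRingOfComm`). -/
theorem exists_ring {ι N : Type} [Fintype ι] [AddCommGroup N] (c : ι → (N ≃+ N)) (hc : ∀ i j v, c i (c j v) = c j (c i v)) :
    ∃ (A : Type) (_ : CommRing A) (_ : Module A N) (x : ι → Aˣ), (∀ i v, (x i : A) • v = c i v) ∧
      Algebra.adjoin ℤ (Set.range (fun i => (x i : A)) ∪ Set.range (fun i => (↑(x i)⁻¹ : A))) = ⊤ ∧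
      ∀ b : A, (∀ v : N, b • v = 0) → b = 0 := by
  classical
  let F : ι → Module.End ℤ N := fun i => (c i).toAddMonoidHom.toIntLinearMap
  let G : ι → Module.End ℤ N := fun i => (c i).symm.toAddMonoidHom.toIntLinearMap
  have hF : ∀ i v, F i v = c i v := fun i v => rfl
  have hG : ∀ i v, G i v = (c i).symm v := fun i v => rfl
  have h1 : ∀ i j v, c i ((c j).symm v) = (c j).symm (c i v) := by
    intro i j v
    apply (c j).injective
    rw [← hc i j]
    simp
  have h2 : ∀ i j v, (c i).symm ((c j).symm v) = (c j).symm ((c i).symm v) := by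
    intro i j v
    apply (c i).injective
    rw [h1 i j]
    simp
  let S : Set (Module.End ℤ N) := Set.range F ∪ Set.range G
  have hcomm : ∀ a ∈ S, ∀ b ∈ S, a * b = b * a := by
    rintro a (⟨i, rfl⟩ | ⟨i, rfl⟩) b (⟨j, rfl⟩ | ⟨j, rfl⟩) <;> ext v <;>
      simp only [Module.End.mul_apply, hF, hG]
    · exact hc i j v
    · exact h1 i j v
    · exact (h1 j i v).symm
    · exact h2 i j v
  let A := Algebra.adjoin ℤ S
  letI : CommRing A := Algebra.adjoinCommRingOfComm ℤ hcomm
  have hFS : ∀ i, F i ∈ Algebra.adjoin ℤ S := fun i => Algebra.subset_adjoin (Or.inl ⟨i, rfl⟩)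
  have hGS : ∀ i, G i ∈ Algebra.adjoin ℤ S := fun i => Algebra.subset_adjoin (Or.inr ⟨i, rfl⟩)
  letI : Module A N := inferInstanceAs (Module (Algebra.adjoin ℤ S) N)
  have hFG : ∀ i, F i * G i = 1 := by
    intro i
    ext v
    simp only [Module.End.mul_apply, hF, hG]
    simp
  have hGF : ∀ i, G i * F i = 1 := by
    intro i
    ext v
    simp only [Module.End.mul_apply, hF, hG]
    simp
  let x : ι → Aˣ := fun i => ⟨⟨F i, hFS i⟩, ⟨G i, hGS i⟩, Subtype.ext (hFG i), Subtype.ext (hGF i)⟩
  refine ⟨A, inferInstance, inferInstance, x, ?_, ?_, ?_⟩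
  · intro i v
    rfl
  · rw [eq_top_iff]
    rintro ⟨e, he⟩ -
    induction he using Algebra.adjoin_induction with
    | mem e he =>
      rcases he with ⟨i, rfl⟩ | ⟨i, rfl⟩
      · exact Algebra.subset_adjoin (Or.inl ⟨i, rfl⟩)
      · exact Algebra.subset_adjoin (Or.inr ⟨i, rfl⟩)
    | algebraMap r =>
      have : (⟨algebraMap ℤ (Module.End ℤ N) r, Subalgebra.algebraMap_mem _ r⟩ : A) = algebraMap ℤ A r := by
        apply Subtype.ext
        simp
      rw [this]
      exact Subalgebra.algebraMap_mem _ r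
    | add a b ha hb iha ihb => exact Subalgebra.add_mem _ iha ihb
    | mul a b ha hb iha ihb => exact Subalgebra.mul_mem _ iha ihb
  · rintro ⟨e, he⟩ hb
    apply Subtype.ext
    ext v
    exact hb v

end Pool.Agent.Helper74.MU
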