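import Pool.Agent.Helper74.MU.Defs

set_option autoImplicit false

namespace Pool.Agent.Helper74.MU

section

variable {G : Type} [Group G]

/-- `S` is symmetric and generates `G` -/
def SymGen (S : Set G) : Prop := (∀ g ∈ S, g⁻¹ ∈ S) ∧ Subgroup.closure S = ⊤

/-- Block MU-W. Basic facts on word lengths. -/
theorem wl_exists {S : Set G} (hS : SymGen S) (g : G) : ∃ l : List G, l.length = wl S g ∧ (∀ x ∈ l, x ∈ S) ∧ l.prod = g := by
  have h1 : g ∈ Submonoid.closure (S ∪ S⁻¹) := by
    rw [← Subgroup.closure_toSubmonoid, hS.2]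
    exact Subgroup.mem_top g
  obtain ⟨l, hl, hg⟩ := Submonoid.exists_list_of_mem_closure h1
  have h2 : {m | ∃ l : List G, l.length = m ∧ (∀ x ∈ l, x ∈ S) ∧ l.prod = g}.Nonempty := by
    refine ⟨l.length, l, rfl, fun x hx => ?_, hg⟩
    rcases hl x hx with h3 | h3
    · exact h3
    · have h4 := hS.1 _ h3
      rwa [inv_inv] at h4
  exact Nat.sInf_mem h2

theorem wl_le {S : Set G} (l : List G) (hl : ∀ x ∈ l, x ∈ S) : wl S l.prod ≤ l.length := by
  exact Nat.sInf_le ⟨l, rfl, hl, rfl⟩

theorem wl_one {S : Set G} : wl S (1 : G) = 0 := by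
  have h1 := wl_le (S := S) [] (by simp)
  rw [List.prod_nil, List.length_nil] at h1
  exact Nat.le_zero.1 h1

theorem wl_mul {S : Set G} (hS : SymGen S) (g h : G) : wl S (g * h) ≤ wl S g + wl S h := by
  obtain ⟨l, hl, hl', hlg⟩ := wl_exists hS g
  obtain ⟨l', hm, hm', hmh⟩ := wl_exists hS h
  have h1 := wl_le (S := S) (l ++ l') (by
    intro x hx
    rcases List.mem_append.1 hx with hx | hx
    · exact hl' x hx
    · exact hm' x hx)
  rw [List.prod_append, hlg, hmh, List.length_append, hl, hm] at h1
  exact h1

theorem wl_inv {S : Set G} (hS : SymGen S) (g : G) : wl S g⁻¹ = wl S g := by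
  have key : ∀ g : G, wl S g⁻¹ ≤ wl S g := by
    intro g
    obtain ⟨l, hl, hl', hlg⟩ := wl_exists hS g
    have h1 := wl_le (S := S) (l.map (fun x => x⁻¹)).reverse (by
      intro x hx
      rw [List.mem_reverse, List.mem_map] at hx
      obtain ⟨y, hy, rfl⟩ := hx
      exact hS.1 _ (hl' y hy))
    rw [← List.prod_inv_reverse, hlg, List.length_reverse, List.length_map, hl] at h1
    exact h1
  apply le_antisymm (key g)
  have h2 := key g⁻¹
  rwa [inv_inv] at h2

theorem wl_pow {S : Set G} (hS : SymGen S) (g : G) (n : ℕ) : wl S (g ^ n) ≤ n * wl S g := by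
  induction n with
  | zero =>
    rw [pow_zero, wl_one]
    exact Nat.zero_le _
  | succ n ih =>
    rw [pow_succ, Nat.succ_mul]
    exact (wl_mul hS _ _).trans (Nat.add_le_add_right ih _)

theorem wl_zpow {S : Set G} (hS : SymGen S) (g : G) (n : ℤ) : wl S (g ^ n) ≤ n.natAbs * wl S g := by
  rcases n with n | n
  · rw [Int.ofNat_eq_natCast, zpow_natCast, Int.natAbs_natCast]
    exact wl_pow hS g n
  · rw [zpow_negSucc, wl_inv hS, Int.natAbs_negSucc]
    exact wl_pow hS g _

theorem wl_prod {S : Set G} (hS : SymGen S) (l : List G) : wl S l.prod ≤ (l.map (wl S)).sum := by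
  induction l with
  | nil =>
    rw [List.prod_nil, wl_one]
    exact Nat.zero_le _
  | cons a l ih =>
    rw [List.prod_cons, List.map_cons, List.sum_cons]
    exact (wl_mul hS _ _).trans (Nat.add_le_add_left ih _)

theorem wl_ball_finite {S : Set G} (hS : SymGen S) (hfin : S.Finite) (n : ℕ) : {g : G | wl S g ≤ n}.Finite := by
  have : Finite S := hfin
  have h1 : {l : List S | l.length ≤ n}.Finite := List.finite_length_le S n
  refine (h1.image fun l => (l.map (fun x : S => (x : G))).prod).subset ?_
  intro g hg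
  obtain ⟨l, hl, hl', hlg⟩ := wl_exists hS g
  refine ⟨l.attachWith (· ∈ S) hl', ?_, ?_⟩
  · show (l.attachWith (· ∈ S) hl').length ≤ n
    rw [List.length_attachWith, hl]
    exact hg
  · show ((l.attachWith (· ∈ S) hl').map (fun x : S => (x : G))).prod = g
    rw [← hlg]
    congr 1
    exact List.attachWith_map_subtype_val hl'

/-- Horner: `∏_{j<r} g^j h_j g^(-j)` has word length at most `2 r |g| + ∑ |h_j|`. -/
theorem wl_horner {S : Set G} (hS : SymGen S) (g : G) (h : ℕ → G) (r : ℕ) :
    wl S (((List.range r).map fun j => g ^ j * h j * (g ^ j)⁻¹).prod) ≤ 2 * r * wl S g + ∑ j ∈ Finset.range r, wl S (h j) := by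
  have h1 : ∀ r : ℕ, ((List.range r).map fun j => g ^ j * h j * (g ^ j)⁻¹).prod =
      ((List.range r).map fun j => h j * g).prod * (g ^ r)⁻¹ := by
    intro r
    induction r with
    | zero => simp
    | succ r ih =>
      rw [List.range_succ, List.map_append, List.map_append, List.prod_append, List.prod_append,
        ih, List.map_singleton, List.map_singleton, List.prod_singleton, List.prod_singleton,
        pow_succ]
      group
  have h2 : ∀ r : ℕ, wl S ((List.range r).map fun j => h j * g).prod ≤
      r * wl S g + ∑ j ∈ Finset.range r, wl S (h j) := by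
    intro r
    induction r with
    | zero =>
      rw [List.range_zero, List.map_nil, List.prod_nil, wl_one]
      exact Nat.zero_le _
    | succ r ih =>
      rw [List.range_succ, List.map_append, List.prod_append, List.map_singleton,
        List.prod_singleton, Finset.sum_range_succ, Nat.succ_mul]
      have h3 := wl_mul hS ((List.range r).map fun j => h j * g).prod (h r * g)
      have h4 := wl_mul hS (h r) g
      omega
  rw [h1]
  have h3 := wl_mul hS ((List.range r).map fun j => h j * g).prod (g ^ r)⁻¹
  rw [wl_inv hS] at h3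
  have h4 := wl_pow hS g r
  have h5 := h2 r
  have h6 : 2 * r * wl S g = r * wl S g + r * wl S g := by ring
  omega

/-- a homomorphism mapping `S` into `T` does not increase word lengths -/
theorem wl_map {H : Type} [Group H] {S : Set G} {T : Set H} (hS : SymGen S) (φ : G →* H) (hφ : ∀ g ∈ S, φ g ∈ T) (g : G) : wl T (φ g) ≤ wl S g := by
  obtain ⟨l, hl, hl', hlg⟩ := wl_exists hS g
  have h1 := wl_le (S := T) (l.map φ) (by
    intro x hx
    rw [List.mem_map] at hx
    obtain ⟨y, hy, rfl⟩ := hx
    exact hφ y (hl' y hy))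
  rw [← map_list_prod, hlg, List.length_map, hl] at h1
  exact h1

end

end Pool.Agent.Helper74.MU
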