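import Pool.Agent.Helper74.MU.S0
import Pool.Agent.Helper74.MU.W
import Pool.Agent.Helper74.MU.G1
import Pool.Agent.Helper74.MU.RG

set_option autoImplicit false

namespace Pool.Agent.Helper74.MU

open Polynomial

/-- `g` acting by conjugation on the abelian group `N` satisfies a nonzero integer polynomial -/
def RelA {G : Type} [Group G] (N : Subgroup G) : Prop := ∀ g : G, ∃ f : ℤ[X], f ≠ 0 ∧
  ∀ a ∈ N, ((List.range (f.natDegree + 1)).map fun j => (g ^ j * a * (g ^ j)⁻¹) ^ (f.coeff j)).prod = 1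

/-- any two elements `g, h` acting by conjugation on `N` satisfy a polynomial relation which is nonzero modulo `p` -/
def RelB {G : Type} [Group G] (N : Subgroup G) : Prop := ∀ p : ℕ, p.Prime → ∀ g h : G, ∃ F : MvPolynomial (Fin 2) ℤ,
  MvPolynomial.map (Int.castRingHom (ZMod p)) F ≠ 0 ∧
  ∀ a ∈ N, (F.support.toList.map fun e => (g ^ (e 0) * h ^ (e 1) * a * (g ^ (e 0) * h ^ (e 1))⁻¹) ^ (F.coeff e)).prod = 1

/-! ### first part: the module and the ring -/

private theorem conj_eq {G Q : Type} [Group G] [Group Q] (π : G →* Q)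
    (hab : ∀ a ∈ π.ker, ∀ b ∈ π.ker, a * b = b * a) {g h : G} (hgh : π g = π h) {v : G} (hv : v ∈ π.ker) :
    g * v * g⁻¹ = h * v * h⁻¹ := by
  have h1 : h⁻¹ * g ∈ π.ker := by
    rw [MonoidHom.mem_ker, map_mul, map_inv, hgh, inv_mul_cancel]
  have h2 := hab _ h1 v hv
  calc g * v * g⁻¹ = h * (h⁻¹ * g * v) * g⁻¹ := by group
    _ = h * (v * (h⁻¹ * g)) * g⁻¹ := by rw [h2]
    _ = h * v * h⁻¹ := by group

private theorem kd1 {G ι : Type} [Group G] [Fintype ι] (t : ι → G) (π : G →* Multiplicative (ι → ℤ))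
    (hab : ∀ a ∈ π.ker, ∀ b ∈ π.ker, a * b = b * a) :
    ∃ (M A : Type) (_ : AddCommGroup M) (_ : CommRing A) (_ : Module A M) (x : ι → Aˣ) (τ : M → G),
      (∀ a b, τ (a + b) = τ a * τ b) ∧ Function.Injective τ ∧ (∀ g, g ∈ Set.range τ ↔ g ∈ π.ker) ∧
      (∀ i a, τ ((x i : A) • a) = t i * τ a * (t i)⁻¹) ∧
      Algebra.adjoin ℤ (Set.range (fun i => (x i : A)) ∪ Set.range (fun i => (↑(x i)⁻¹ : A))) = ⊤ ∧
      ∀ b : A, (∀ v : M, b • v = 0) → b = 0 := by
  let inst : CommGroup π.ker :=
    { (inferInstance : Group π.ker) with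
      mul_comm := fun a b => Subtype.ext (hab a a.2 b b.2) }
  let c : ι → (Additive π.ker ≃+ Additive π.ker) := fun i => MulEquiv.toAdditive (MulAut.conjNormal (t i))
  have hcv : ∀ i (v : Additive π.ker), ((Additive.toMul (c i v) : π.ker) : G) =
      t i * ((Additive.toMul v : π.ker) : G) * (t i)⁻¹ := fun i v => rfl
  have hc : ∀ i j v, c i (c j v) = c j (c i v) := by
    intro i j v
    apply Additive.toMul.injective
    apply Subtype.ext
    rw [hcv, hcv, hcv, hcv]
    have h1 := conj_eq π hab (g := t i * t j) (h := t j * t i) (by rw [map_mul, map_mul, mul_comm])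
      (v := ((Additive.toMul v : π.ker) : G)) (Additive.toMul v).2
    calc _ = t i * t j * ((Additive.toMul v : π.ker) : G) * (t i * t j)⁻¹ := by group
      _ = _ := h1
      _ = _ := by group
  obtain ⟨A, iA, iM, x, hx, hadj, hfaith⟩ := exists_ring c hc
  refine ⟨Additive π.ker, A, inferInstance, iA, iM, x, fun v => ((Additive.toMul v : π.ker) : G),
    fun a b => rfl, ?_, ?_, ?_, hadj, hfaith⟩
  · intro a b hab'
    exact Additive.toMul.injective (Subtype.ext hab')
  · intro g
    constructor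
    · rintro ⟨v, rfl⟩
      exact (Additive.toMul v).2
    · intro hg
      exact ⟨Additive.ofMul ⟨g, hg⟩, rfl⟩
  · intro i a
    show ((Additive.toMul ((x i : A) • a) : π.ker) : G) = _
    rw [hx]
    exact hcv i a

/-! ### second part -/

private theorem ev_cons {ι : Type} (e : ι × Bool) (l : List (ι × Bool)) : ev (e :: l) = ev [e] + ev l := by
  funext i
  simp [ev]

private theorem ev_nil {ι : Type} : ev ([] : List (ι × Bool)) = 0 := by
  funext i
  simp [ev]

private theorem wv_cons {G ι : Type} [Group G] (t : ι → G) (e : ι × Bool) (l : List (ι × Bool)) :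
    wv t (e :: l) = lt t e * wv t l := by
  simp [wv]

private theorem mono_add {ι A : Type} [Fintype ι] [CommRing A] (x : ι → Aˣ) (p q : ι → ℤ) :
    mono x (p + q) = mono x p * mono x q := by
  simp only [mono, Pi.add_apply, zpow_add, Finset.prod_mul_distrib]

private theorem mono_zero {ι A : Type} [Fintype ι] [CommRing A] (x : ι → Aˣ) : mono x 0 = 1 := by
  simp [mono]

private theorem mono_letter {ι A : Type} [Fintype ι] [CommRing A] (x : ι → Aˣ) (e : ι × Bool) :
    mono x (ev [e]) = if e.2 then x e.1 else (x e.1)⁻¹ := by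
  classical
  rw [mono, Finset.prod_eq_single e.1]
  · rcases e with ⟨i, b⟩
    cases b <;> simp [ev]
  · intro j _ hj
    have : ev [e] j = 0 := by simp [ev, hj.symm]
    rw [this, zpow_zero]
  · intro h
    exact absurd (Finset.mem_univ _) h

private theorem ev_bound {ι : Type} [Fintype ι] (l : List (ι × Bool)) : (∑ i, |ev l i|) ≤ (l.length : ℤ) := by
  classical
  induction l with
  | nil => simp [ev_nil]
  | cons e l ih =>
    have h1 : (∑ i, |ev [e] i|) ≤ 1 := by
      rw [Finset.sum_eq_single e.1]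
      · rcases e with ⟨i, b⟩
        cases b <;> simp [ev]
      · intro j _ hj
        simp [ev, hj.symm]
      · intro h
        exact absurd (Finset.mem_univ _) h
    calc (∑ i, |ev (e :: l) i|) ≤ ∑ i, (|ev [e] i| + |ev l i|) := by
          refine Finset.sum_le_sum fun i _ => ?_
          rw [ev_cons]
          exact abs_add_le _ _
      _ = (∑ i, |ev [e] i|) + ∑ i, |ev l i| := Finset.sum_add_distrib
      _ ≤ ((e :: l).length : ℤ) := by
          rw [List.length_cons]
          push_cast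
          linarith

private theorem ev_pi {G ι : Type} [Group G] [DecidableEq ι] (t : ι → G) (π : G →* Multiplicative (ι → ℤ))
    (hπ : ∀ i j, (π (t i)).toAdd j = if i = j then 1 else 0) (l : List (ι × Bool)) :
    (π (wv t l)).toAdd = ev l := by
  induction l with
  | nil => simp [wv, ev_nil]
  | cons e l ih =>
    rw [wv_cons, ev_cons, map_mul, toAdd_mul, ih]
    congr 1
    funext j
    rcases e with ⟨i, b⟩
    cases b
    · have : lt t (i, false) = (t i)⁻¹ := rfl
      rw [this, map_inv, toAdd_inv, Pi.neg_apply, hπ]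
      by_cases h : i = j <;> simp [ev, h]
    · have : lt t (i, true) = t i := rfl
      rw [this, hπ]
      by_cases h : i = j <;> simp [ev, h]

private theorem exists_word {G ι : Type} [Group G] (t : ι → G) (hgen : Subgroup.closure (Set.range t) = ⊤) (g : G) :
    ∃ l, wv t l = g := by
  have hg : g ∈ Subgroup.closure (Set.range t) := by rw [hgen]; trivial
  rw [← Subgroup.mem_toSubmonoid, Subgroup.closure_toSubmonoid] at hg
  obtain ⟨l, hl, rfl⟩ := Submonoid.exists_list_of_mem_closure hg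
  clear hg
  induction l with
  | nil => exact ⟨[], rfl⟩
  | cons y l ih =>
    obtain ⟨w, hw⟩ := ih fun z hz => hl z (List.mem_cons_of_mem _ hz)
    rcases hl y List.mem_cons_self with ⟨i, hi⟩ | ⟨i, hi⟩
    · exact ⟨(i, true) :: w, by rw [wv_cons, hw, List.prod_cons, ← hi]; rfl⟩
    · refine ⟨(i, false) :: w, ?_⟩
      rw [wv_cons, hw, List.prod_cons]
      congr 1
      show (t i)⁻¹ = y
      rw [hi, inv_inv]

section

variable {G ι M A : Type} [Group G] [AddCommGroup M] [CommRing A] [Module A M] {τ : M → G}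

private theorem tau_zero (hτ : ∀ a b, τ (a + b) = τ a * τ b) : τ 0 = 1 := by
  have h1 := hτ 0 0
  rw [add_zero] at h1
  exact (mul_eq_left.1 h1.symm)

private theorem tau_list (hτ : ∀ a b, τ (a + b) = τ a * τ b) (l : List M) : τ l.sum = (l.map τ).prod := by
  induction l with
  | nil => simp [tau_zero hτ]
  | cons a l ih => rw [List.sum_cons, hτ, ih, List.map_cons, List.prod_cons]

private theorem tau_zsmul (hτ : ∀ a b, τ (a + b) = τ a * τ b) (n : ℤ) (a : M) : τ (n • a) = τ a ^ n := by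
  let T : M →+ Additive G := AddMonoidHom.mk' (fun a => Additive.ofMul (τ a)) fun a b => by
    rw [hτ]; rfl
  have h1 : T (n • a) = n • T a := map_zsmul T n a
  exact congrArg Additive.toMul h1

/-- `u` acts as the conjugation by `g` -/
private def Acts (τ : M → G) (u : A) (g : G) : Prop := ∀ v : M, τ (u • v) = g * τ v * g⁻¹

private theorem Acts.one : Acts τ (1 : A) 1 := fun v => by simp

private theorem Acts.mul {u u' : A} {g g' : G} (h : Acts τ u g) (h' : Acts τ u' g') : Acts τ (u * u') (g * g') := by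
  intro v
  rw [mul_smul, h, h']
  group

private theorem Acts.inv {u : Aˣ} {g : G} (h : Acts τ (u : A) g) : Acts τ ((u⁻¹ : Aˣ) : A) g⁻¹ := by
  intro v
  have h1 := h (((u⁻¹ : Aˣ) : A) • v)
  rw [smul_smul, Units.mul_inv, one_smul] at h1
  rw [h1]
  group

private theorem Acts.pow {u : A} {g : G} (h : Acts τ u g) (n : ℕ) : Acts τ (u ^ n) (g ^ n) := by
  induction n with
  | zero => simpa using (Acts.one : Acts τ (1 : A) 1)
  | succ n ih => rw [pow_succ, pow_succ]; exact ih.mul h

private theorem acts_word [Fintype ι] {t : ι → G} {x : ι → Aˣ} (h : ∀ i, Acts τ (x i : A) (t i)) (l : List (ι × Bool)) :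
    Acts τ ((mono x (ev l) : Aˣ) : A) (wv t l) := by
  induction l with
  | nil =>
    rw [ev_nil, mono_zero]
    have : wv t ([] : List (ι × Bool)) = 1 := rfl
    rw [this, Units.val_one]
    exact Acts.one
  | cons e l ih =>
    rw [ev_cons, mono_add, wv_cons, Units.val_mul]
    refine Acts.mul ?_ ih
    rw [mono_letter]
    rcases e with ⟨i, b⟩
    cases b
    · exact (h i).inv
    · exact h i

private theorem acts_closure {t : ι → G} {x : ι → Aˣ} (h : ∀ i, Acts τ (x i : A) (t i)) {u : Aˣ}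
    (hu : u ∈ Subgroup.closure (Set.range x)) : ∃ g, Acts τ (u : A) g := by
  induction hu using Subgroup.closure_induction with
  | mem u hu =>
    obtain ⟨i, rfl⟩ := hu
    exact ⟨t i, h i⟩
  | one => exact ⟨1, by rw [Units.val_one]; exact Acts.one⟩
  | mul u v _ _ hu hv =>
    obtain ⟨g, hg⟩ := hu
    obtain ⟨g', hg'⟩ := hv
    exact ⟨g * g', by rw [Units.val_mul]; exact hg.mul hg'⟩
  | inv u _ hu =>
    obtain ⟨g, hg⟩ := hu
    exact ⟨g⁻¹, hg.inv⟩

private theorem condA_of [Fintype ι] {N : Subgroup G} (hA : RelA N) {t : ι → G} {x : ι → Aˣ}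
    (hτ : ∀ a b, τ (a + b) = τ a * τ b) (hinj : Function.Injective τ) (hr : ∀ g, g ∈ Set.range τ ↔ g ∈ N)
    (h : ∀ i, Acts τ (x i : A) (t i)) (hf : ∀ b : A, (∀ v : M, b • v = 0) → b = 0) : CondA x := by
  intro u hu
  obtain ⟨g, hg⟩ := acts_closure h hu
  obtain ⟨f, hf0, hfa⟩ := hA g
  refine ⟨f, hf0, hf _ fun v => ?_⟩
  apply hinj
  rw [tau_zero hτ, ← hfa (τ v) ((hr _).1 ⟨v, rfl⟩), Polynomial.aeval_eq_sum_range, Finset.sum_smul]
  have h1 : (∑ j ∈ Finset.range (f.natDegree + 1), (f.coeff j • (u : A) ^ j) • v) =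
      ((List.range (f.natDegree + 1)).map fun j => (f.coeff j • (u : A) ^ j) • v).sum := rfl
  rw [h1, tau_list hτ, List.map_map]
  congr 1
  refine List.map_congr_left fun j _ => ?_
  show τ ((f.coeff j • (u : A) ^ j) • v) = _
  rw [smul_assoc, tau_zsmul hτ, hg.pow j v]

private theorem condB_of [Fintype ι] {N : Subgroup G} (hB : RelB N) {t : ι → G} {x : ι → Aˣ}
    (hτ : ∀ a b, τ (a + b) = τ a * τ b) (hinj : Function.Injective τ) (hr : ∀ g, g ∈ Set.range τ ↔ g ∈ N)
    (h : ∀ i, Acts τ (x i : A) (t i)) (hf : ∀ b : A, (∀ v : M, b • v = 0) → b = 0) : CondB x := by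
  intro p hp u hu v hv
  obtain ⟨g, hg⟩ := acts_closure h hu
  obtain ⟨g', hg'⟩ := acts_closure h hv
  obtain ⟨F, hF0, hFa⟩ := hB p hp g g'
  refine ⟨F, hF0, hf _ fun m => ?_⟩
  apply hinj
  rw [tau_zero hτ, ← hFa (τ m) ((hr _).1 ⟨m, rfl⟩), MvPolynomial.aeval_def, MvPolynomial.eval₂_eq', Finset.sum_smul,
    ← Finset.sum_map_toList, tau_list hτ, List.map_map]
  congr 1
  refine List.map_congr_left fun e _ => ?_
  show τ (((algebraMap ℤ A) (MvPolynomial.coeff e F) * ∏ i, (![(u : A), (v : A)] i) ^ e i) • m) = _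
  rw [Fin.prod_univ_two, mul_smul, algebraMap_smul, tau_zsmul hτ]
  congr 1
  exact ((hg.pow (e 0)).mul (hg'.pow (e 1))) m

end

/-- Glue MU-G4a. The algebraic data of the kernel of `π`. -/
theorem kernel_data {G ι : Type} [Group G] [Fintype ι] [DecidableEq ι] (t : ι → G) (π : G →* Multiplicative (ι → ℤ))
    (hπ : ∀ i j, (π (t i)).toAdd j = if i = j then 1 else 0) (hgen : Subgroup.closure (Set.range t) = ⊤)
    (hab : ∀ a ∈ π.ker, ∀ b ∈ π.ker, a * b = b * a) (hA : RelA π.ker) (hB : RelB π.ker) :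
    ∃ (M A : Type) (_ : AddCommGroup M) (_ : CommRing A) (_ : Module A M) (x : ι → Aˣ) (τ : M → G) (F0 : Finset M) (_ : Nonempty (Setup x M)),
      (∀ a b, τ (a + b) = τ a * τ b) ∧ Function.Injective τ ∧ (∀ g, g ∈ Set.range τ ↔ g ∈ π.ker) ∧
      (∀ i a, τ ((x i : A) • a) = t i * τ a * (t i)⁻¹) ∧
      ∀ l : List (ι × Bool), ∀ a : M, τ a = wv t l → Bdd x F0 (l.length + 1) a := by
  classical
  obtain ⟨M, A, iM, iA, iMod, x, τ, hτ, hinj, hr, hact, hadj, hf⟩ := kd1 t π hab
  have hacts : ∀ i, Acts τ (x i : A) (t i) := hact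
  have hcm : ∀ p : (ι × Bool) × (ι × Bool), ∃ m : M, τ m = cm (lt t p.1) (lt t p.2) := by
    intro p
    have h1 : cm (lt t p.1) (lt t p.2) ∈ π.ker := by
      rw [MonoidHom.mem_ker, cm, map_mul, map_mul, map_mul, map_inv, map_inv, mul_comm (π (lt t p.1))]
      group
    exact (hr _).2 h1
  choose f hfm using hcm
  let F0 : Finset M := Finset.univ.image f
  have hF0 : ∀ p, f p ∈ F0 := fun p => Finset.mem_image_of_mem _ (Finset.mem_univ _)
  have hbdd : ∀ l : List (ι × Bool), ∀ a : M, τ a = wv t l → Bdd x F0 (l.length + 1) a := by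
    intro l a hl
    have h0 : ev l = 0 := by
      rw [← ev_pi t π hπ, ← hl]
      have h1 : τ a ∈ π.ker := (hr _).1 ⟨a, rfl⟩
      rw [MonoidHom.mem_ker.1 h1]
      rfl
    obtain ⟨L, hL1, hL2, hL3⟩ := struct t l h0
    refine ⟨L.map fun e => (ev e.1, f (e.2.1, e.2.2)), ?_, ?_, ?_⟩
    · rw [List.length_map]
      exact hL1.trans (Nat.pow_le_pow_left (Nat.le_succ _) 2)
    · intro e he
      obtain ⟨e', he', rfl⟩ := List.mem_map.1 he
      refine ⟨(ev_bound e'.1).trans ?_, hF0 _⟩
      have := hL2 e' he'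
      push_cast
      omega
    · apply hinj
      rw [tau_list hτ, hl, hL3, List.map_map, List.map_map]
      congr 1
      refine List.map_congr_left fun e _ => ?_
      show _ = τ (((mono x (ev e.1) : Aˣ) : A) • f (e.2.1, e.2.2))
      rw [acts_word hacts, hfm]
  have hfin : Module.Finite A M := by
    refine ⟨⟨F0, ?_⟩⟩
    rw [eq_top_iff]
    rintro a -
    obtain ⟨l, hl⟩ := exists_word t hgen (τ a)
    obtain ⟨L, -, hL2, hL3⟩ := hbdd l a hl.symm
    rw [hL3]
    apply list_sum_mem
    intro y hy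
    obtain ⟨e, he, rfl⟩ := List.mem_map.1 hy
    exact Submodule.smul_mem _ _ (Submodule.subset_span (hL2 e he).2)
  refine ⟨M, A, iM, iA, iMod, x, τ, F0, setup_exists x hadj (condA_of hA hτ hinj hr hacts hf)
    (condB_of hB hτ hinj hr hacts hf), hτ, hinj, hr, hact, hbdd⟩

end Pool.Agent.Helper74.MU
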