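import Pool.Agent.Helper74.MU.BR0
import Pool.Agent.Helper74.MU.G4a

set_option autoImplicit false

namespace Pool.Agent.Helper74.MU

open Polynomial

open scoped TensorProduct

/-- Block MU-BR1a. Module version. `V = ℚ ⊗ M` is finite dimensional; the base change of the multiplication by `r` is killed by its characteristic polynomial; clear denominators: `f ≠ 0` in `ℤ[X]` with `1 ⊗ f(r) m = 0` for all `m`, so every `f(r) m` is torsion;
take `n ≠ 0` killing `f(r) m_i` for the generators `m_i` of `M`: `n f` works. -/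
theorem poly_of_finite {R M : Type} [CommRing R] [AddCommGroup M] [Module R M] [Module.Finite R M]
    (h : FiniteDimensional ℚ (TensorProduct ℤ ℚ M)) (r : R) : ∃ f : ℤ[X], f ≠ 0 ∧ ∀ m : M, (aeval r f) • m = 0 := by
  classical
  let φ : M →ₗ[ℤ] M := (LinearMap.lsmul R M r).restrictScalars ℤ
  let T : Module.End ℚ (TensorProduct ℤ ℚ M) := LinearMap.baseChange ℚ φ
  have hT : ∀ (q : ℚ) (m : M), T (q ⊗ₜ[ℤ] m) = q ⊗ₜ[ℤ] (r • m) := fun q m => rfl
  have hTp : ∀ (j : ℕ) (m : M), (T ^ j) ((1 : ℚ) ⊗ₜ[ℤ] m) = (1 : ℚ) ⊗ₜ[ℤ] (r ^ j • m) := by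
    intro j
    induction j with
    | zero => intro m; simp
    | succ j ih =>
      intro m
      rw [pow_succ', Module.End.mul_apply, ih, hT, smul_smul, pow_succ']
  obtain ⟨b, hb, hbp⟩ : ∃ b : nonZeroDivisors ℤ, (IsLocalization.integerNormalization (nonZeroDivisors ℤ) T.charpoly).map (algebraMap ℤ ℚ) =
      (b : ℤ) • T.charpoly ∧ (b : ℤ) ≠ 0 := by
    obtain ⟨b, hbm, hb⟩ := IsLocalization.integerNormalization_spec (nonZeroDivisors ℤ) T.charpoly
    exact ⟨⟨b, hbm⟩, hb, nonZeroDivisors.ne_zero hbm⟩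
  set f : ℤ[X] := IsLocalization.integerNormalization (nonZeroDivisors ℤ) T.charpoly with hf
  have hf0 : f ≠ 0 := by
    intro h0
    rw [h0, Polynomial.map_zero] at hb
    have h1 : T.charpoly ≠ 0 := (LinearMap.charpoly_monic T).ne_zero
    have := hb.symm
    rw [smul_eq_zero] at this
    rcases this with h | h
    · exact hbp h
    · exact h1 h
  have hTf : aeval T f = 0 := by
    rw [← Polynomial.aeval_map_algebraMap ℚ T f, hb, map_zsmul, LinearMap.aeval_self_charpoly, smul_zero]
  have hfm : ∀ m : M, (1 : ℚ) ⊗ₜ[ℤ] ((aeval r f) • m) = 0 := by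
    intro m
    have h1 : (aeval T f) ((1 : ℚ) ⊗ₜ[ℤ] m) = (1 : ℚ) ⊗ₜ[ℤ] ((aeval r f) • m) := by
      rw [Polynomial.aeval_eq_sum_range, Polynomial.aeval_eq_sum_range, LinearMap.sum_apply, Finset.sum_smul, TensorProduct.tmul_sum]
      refine Finset.sum_congr rfl fun j _ => ?_
      rw [LinearMap.smul_apply, hTp, smul_assoc]
      exact (TensorProduct.tmul_smul (f.coeff j) (1 : ℚ) (r ^ j • m)).symm
    rw [← h1, hTf, LinearMap.zero_apply]
  have hloc : IsLocalizedModule (nonZeroDivisors ℤ) (TensorProduct.mk ℤ ℚ M 1) :=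
    (isLocalizedModule_iff_isBaseChange (nonZeroDivisors ℤ) ℚ (TensorProduct.mk ℤ ℚ M 1)).2 (TensorProduct.isBaseChange ℤ M ℚ)
  have htor : ∀ m : M, ∃ n : ℤ, n ≠ 0 ∧ n • ((aeval r f) • m) = 0 := by
    intro m
    have h1 : (TensorProduct.mk ℤ ℚ M 1) ((aeval r f) • m) = 0 := hfm m
    obtain ⟨c, hc⟩ := (IsLocalizedModule.eq_zero_iff (nonZeroDivisors ℤ) (TensorProduct.mk ℤ ℚ M 1)).1 h1
    exact ⟨c, nonZeroDivisors.ne_zero c.2, hc⟩
  choose n hn0 hn using htor
  obtain ⟨s, hs⟩ := Module.Finite.fg_top (R := R) (M := M)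
  refine ⟨C (∏ m ∈ s, n m) * f, mul_ne_zero (Polynomial.C_ne_zero.2 (Finset.prod_ne_zero_iff.2 fun m _ => hn0 m)) hf0, fun m => ?_⟩
  have hval : aeval r (C (∏ m ∈ s, n m) * f) = (∏ m ∈ s, n m) • aeval r f := by
    rw [map_mul, aeval_C, Algebra.smul_def]
  rw [hval]
  have hm : m ∈ Submodule.span R (s : Set M) := by rw [hs]; trivial
  induction hm using Submodule.span_induction with
  | mem x hx =>
    have hx' : x ∈ s := hx
    rw [← Finset.prod_erase_mul s n hx', mul_smul, smul_assoc, smul_assoc, hn, smul_zero]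
  | zero => simp
  | add x y _ _ hx hy => rw [smul_add, hx, hy, add_zero]
  | smul a x _ hx => rw [smul_comm, hx, smul_zero]

/-- Block MU-BR1b. Group version (`exists_module`, `poly_of_finite`; the product in `RelA` has class `f(r g) • cl a`). -/
theorem relA_of_finite {G : Type} [Group G] [Group.FG G] (hab : ∀ a ∈ commutator G, ∀ b ∈ commutator G, a * b = b * a)
    (h : FiniteDimensional ℚ (TensorProduct ℤ ℚ (Additive (Abelianization (commutator G))))) : RelA (commutator G) := by
  obtain ⟨R, M, iR, iM, iMod, r, cl, hN, hF, hadd, hconj, hsurj, hker, hfd⟩ := exists_module G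
  have hfin : FiniteDimensional ℚ (TensorProduct ℤ ℚ M) := by
    by_contra hcon
    exact (hfd.2 hcon) h
  intro g
  obtain ⟨f, hf0, hf⟩ := poly_of_finite (R := R) (M := M) hfin (r g)
  refine ⟨f, hf0, fun a ha => ?_⟩
  let c : commutator G →* Multiplicative M := MonoidHom.mk' (fun a => Multiplicative.ofAdd (cl a)) fun a b => by
    show Multiplicative.ofAdd (cl ((a : G) * (b : G))) = _
    rw [hadd _ a.2 _ b.2, ofAdd_add]
  have hnorm : ∀ (u : G), u * a * u⁻¹ ∈ commutator G := fun u => (inferInstance : (commutator G).Normal).conj_mem a ha u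
  let x : ℕ → commutator G := fun j => ⟨g ^ j * a * (g ^ j)⁻¹, hnorm _⟩
  have hprod : ((List.range (f.natDegree + 1)).map fun j => (g ^ j * a * (g ^ j)⁻¹) ^ (f.coeff j)).prod =
      ((((List.range (f.natDegree + 1)).map fun j => (x j) ^ (f.coeff j)).prod : commutator G) : G) := by
    rw [← Subgroup.coe_subtype, map_list_prod, List.map_map]
    congr 1
  rw [hprod]
  apply hker hab _ (Subtype.property _)
  have h1 : c (((List.range (f.natDegree + 1)).map fun j => (x j) ^ (f.coeff j)).prod) = Multiplicative.ofAdd (((aeval (r g)) f) • cl a) := by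
    rw [map_list_prod, List.map_map, Polynomial.aeval_eq_sum_range, Finset.sum_smul]
    have h2 : (∑ j ∈ Finset.range (f.natDegree + 1), (f.coeff j • (r g) ^ j) • cl a) =
        ((List.range (f.natDegree + 1)).map fun j => (f.coeff j • (r g) ^ j) • cl a).sum := rfl
    rw [h2, ofAdd_list_prod, List.map_map]
    congr 1
    refine List.map_congr_left fun j _ => ?_
    show c ((x j) ^ (f.coeff j)) = Multiplicative.ofAdd ((f.coeff j • (r g) ^ j) • cl a)
    rw [map_zpow, smul_assoc, ofAdd_zsmul]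
    congr 1
    show Multiplicative.ofAdd (cl (g ^ j * a * (g ^ j)⁻¹)) = _
    rw [hconj _ a ha, map_pow]
  have h3 := h1
  rw [hf] at h3
  exact Multiplicative.ofAdd.injective h3

end Pool.Agent.Helper74.MU
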