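import Pool.Agent.Helper74.MU.BR0
import Pool.Agent.Helper74.MU.G4a
import Pool.Agent.Helper13.MS.MOA2

set_option autoImplicit false

namespace Pool.Agent.Helper74.MU

open Polynomial

/-- Block MU-BR2a (maximal quotient). `T` a submonoid of `R` such that no element of `T` kills `M` (noetherian). Let `N` be maximal among the submodules such that no element of `T` kills `M / N`. Then every `r` is zero or injective on `M' = M / N`:
if `r M' ≠ 0` there is `f₁ ∈ T` with `f₁ M' ⊆ r M'`, if also `ker r ≠ 0` there is `f₂ ∈ T` with `f₂ M' ⊆ ker r`; then `f₂ f₁ M' ⊆ f₂ r M' = 0`, contradiction. (Compare `exists_quotient` in Helper13/MS/MOA1.lean.) -/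
theorem exists_quotient' (R M : Type) [CommRing R] [AddCommGroup M] [Module R M] [IsNoetherian R M] (T : Submonoid R)
    (hM : ∀ f ∈ T, ∃ m : M, f • m ≠ 0) :
    ∃ N : Submodule R M, (∀ f ∈ T, ∃ m : M ⧸ N, f • m ≠ 0) ∧
      ∀ r : R, (∀ m : M ⧸ N, r • m = 0) ∨ (∀ m : M ⧸ N, r • m = 0 → m = 0) := by
  classical
  have hbot : ∀ f ∈ T, ∃ m : M ⧸ (⊥ : Submodule R M), f • m ≠ 0 := by
    intro f hf
    obtain ⟨m, hm⟩ := hM f hf
    refine ⟨Submodule.Quotient.mk m, ?_⟩
    rw [← Submodule.Quotient.mk_smul, Ne, Submodule.Quotient.mk_eq_zero, Submodule.mem_bot]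
    exact hm
  obtain ⟨N, hN, hmax⟩ := WellFounded.has_min (wellFounded_gt (α := Submodule R M))
    {N : Submodule R M | ∀ f ∈ T, ∃ m : M ⧸ N, f • m ≠ 0} ⟨⊥, hbot⟩
  have hmax2 : ∀ N' : Submodule R M, N < N' → ∃ f ∈ T, ∀ m : M, f • m ∈ N' := by
    intro N' hlt
    by_contra hcon
    push Not at hcon
    refine hmax N' (fun f hf => ?_) hlt
    obtain ⟨m, hm⟩ := hcon f hf
    refine ⟨Submodule.Quotient.mk m, ?_⟩
    rw [← Submodule.Quotient.mk_smul, Ne, Submodule.Quotient.mk_eq_zero]
    exact hm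
  refine ⟨N, hN, fun r => ?_⟩
  by_contra hcon
  push Not at hcon
  obtain ⟨⟨a, ha⟩, b, hb, hb0⟩ := hcon
  obtain ⟨a', rfl⟩ := N.mkQ_surjective a
  obtain ⟨b', rfl⟩ := N.mkQ_surjective b
  set ρ : (M ⧸ N) →ₗ[R] (M ⧸ N) := LinearMap.lsmul R (M ⧸ N) r with hρ
  have hρr : ∀ m, ρ m = r • m := fun m => rfl
  have h1 : N < (LinearMap.ker ρ).comap N.mkQ := by
    refine lt_of_le_of_ne ?_ ?_
    · intro x hx
      rw [Submodule.mem_comap, (Submodule.Quotient.mk_eq_zero N).mpr hx |> (fun h : N.mkQ x = 0 => h)]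
      exact Submodule.zero_mem _
    · intro heq
      apply hb0
      have h2 : b' ∈ (LinearMap.ker ρ).comap N.mkQ := by
        rw [Submodule.mem_comap, LinearMap.mem_ker, hρr]
        exact hb
      rw [← heq] at h2
      exact (Submodule.Quotient.mk_eq_zero N).mpr h2
  have h2 : N < (LinearMap.range ρ).comap N.mkQ := by
    refine lt_of_le_of_ne ?_ ?_
    · intro x hx
      rw [Submodule.mem_comap, (Submodule.Quotient.mk_eq_zero N).mpr hx |> (fun h : N.mkQ x = 0 => h)]
      exact Submodule.zero_mem _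
    · intro heq
      apply ha
      have h3 : r • a' ∈ (LinearMap.range ρ).comap N.mkQ := by
        rw [Submodule.mem_comap, map_smul]
        exact ⟨N.mkQ a', rfl⟩
      rw [← heq] at h3
      rw [← map_smul]
      exact (Submodule.Quotient.mk_eq_zero N).mpr h3
  obtain ⟨f₁, hf₁, k₁⟩ := hmax2 _ h1
  obtain ⟨f₂, hf₂, k₂⟩ := hmax2 _ h2
  obtain ⟨m, hm⟩ := hN (f₁ * f₂) (T.mul_mem hf₁ hf₂)
  apply hm
  obtain ⟨m', rfl⟩ := N.mkQ_surjective m
  have h3 := k₂ m'
  rw [Submodule.mem_comap] at h3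
  obtain ⟨y, hy⟩ := h3
  obtain ⟨y', rfl⟩ := N.mkQ_surjective y
  have h4 := k₁ y'
  rw [Submodule.mem_comap, LinearMap.mem_ker, hρr] at h4
  rw [mul_smul, ← map_smul N.mkQ f₂ m', ← hy, hρr, smul_comm, ← map_smul N.mkQ f₁ y']
  exact h4

/-- Block MU-BR2b. If two elements `x, y` of a field satisfy no polynomial relation which is nonzero modulo the prime `p`, they span a free plane (`C = 1`; a relation with coefficients in `{-1, 0, 1}`, not all zero, is nonzero modulo every prime; the monomials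
`x^(L j) y^(L k)` are distinct for `L ≥ 1`). -/
theorem freePlane_of_indep {K : Type} [Field K] (p : ℕ) (hp : p.Prime) (x y : K)
    (h : ∀ F : MvPolynomial (Fin 2) ℤ, MvPolynomial.map (Int.castRingHom (ZMod p)) F ≠ 0 → MvPolynomial.aeval ![x, y] F ≠ 0) :
    Pool.Agent.Helper13.MS.FreePlane x y := by
  refine ⟨1, one_pos, ?_⟩
  intro N L hN hL hNL F hF hsum j k
  by_contra hne
  have hL0 : L ≠ 0 := by omega
  set e : Fin N × Fin N → (Fin 2 →₀ ℕ) := fun q => Finsupp.single 0 (L * (q.1 : ℕ)) + Finsupp.single 1 (L * (q.2 : ℕ)) with he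
  have hinj : Function.Injective e := by
    rintro ⟨a, b⟩ ⟨c, d⟩ hq
    have h0 := DFunLike.congr_fun hq 0
    have h1 := DFunLike.congr_fun hq 1
    simp [he] at h0 h1
    have h0' := h0.resolve_right hL0
    have h1' := h1.resolve_right hL0
    exact Prod.ext (Fin.ext h0') (Fin.ext h1')
  set P : MvPolynomial (Fin 2) ℤ := ∑ q : Fin N × Fin N, MvPolynomial.monomial (e q) (F q.1 q.2) with hP
  have hc : P.coeff (e (j, k)) = F j k := by
    rw [hP, MvPolynomial.coeff_sum, Finset.sum_eq_single (j, k)]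
    · simp
    · intro b _ hb
      rw [MvPolynomial.coeff_monomial, if_neg]
      exact fun h => hb (hinj h)
    · simp
  have hmap : MvPolynomial.map (Int.castRingHom (ZMod p)) P ≠ 0 := by
    intro h0
    have h1 : (MvPolynomial.map (Int.castRingHom (ZMod p)) P).coeff (e (j, k)) = 0 := by rw [h0]; simp
    rw [MvPolynomial.coeff_map, hc, eq_intCast, ZMod.intCast_zmod_eq_zero_iff_dvd] at h1
    have h2 := hF j k
    have h3 := Int.le_of_dvd (abs_pos.mpr hne) ((dvd_abs _ _).mpr h1)
    have h4 : (2 : ℤ) ≤ p := by exact_mod_cast hp.two_le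
    omega
  refine h P hmap ?_
  rw [hP, map_sum, ← hsum]
  rw [← Finset.univ_product_univ, Finset.sum_product]
  refine Finset.sum_congr rfl fun a _ => Finset.sum_congr rfl fun b _ => ?_
  rw [MvPolynomial.aeval_monomial, he]
  rw [Finsupp.prod_add_index' (by simp) (by intro i a b; exact pow_add _ _ _)]
  simp

/-- Block MU-BR2c. If `RelB` fails for the metabelian group `G`, there is a twisted homomorphism with a free plane. (`exists_module`; `p, g, h` from the failure of `RelB`; `T = {F(r g, r h) : F ≠ 0 mod p}` is a submonoid (`ZMod p` is a field, `MvPolynomial` over it a domain);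
no element of `T` kills `M` (the product in `RelB` has class `F(r g, r h) • cl a`, and `cl` is injective on the derived group); `exists_quotient'`; `Pool.Agent.Helper13.MS.functional_of_torsionfree` for `M ⧸ N`; `χ g = ψ (r g)`, `φ a = φ₀ (class of cl a)`; `freePlane_of_indep`:
if `F ≠ 0` mod `p` and `ψ (F(r g, r h)) = F(χ g, χ h) = 0` then `F(r g, r h)` kills `M / N`, contradiction.) -/
theorem twisted_of_not_relB {G : Type} [Group G] [Group.FG G] (hab : ∀ a ∈ commutator G, ∀ b ∈ commutator G, a * b = b * a)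
    (h : ¬ RelB (commutator G)) :
    ∃ (K : Type) (_ : Field K) (Tw : Pool.Agent.Helper13.MS.Twisted G K), (∃ g ∈ commutator G, Tw.φ g ≠ 0) ∧
      ∃ g h : G, Pool.Agent.Helper13.MS.FreePlane (Tw.χ g : K) (Tw.χ h : K) := by
  classical
  unfold RelB at h
  push Not at h
  obtain ⟨p, hp, g, k, hF⟩ := h
  obtain ⟨R, M, iR, iM, iMod, r, cl, hN, hFin, hadd, hconj, hsurj, hker, -⟩ := exists_module G
  have hNM : IsNoetherian R M := isNoetherian_of_isNoetherianRing_of_finite R M
  have : Fact p.Prime := ⟨hp⟩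
  set ev : MvPolynomial (Fin 2) ℤ →ₐ[ℤ] R := MvPolynomial.aeval ![r g, r k] with hev
  -- the class of the product
  have hclass : ∀ (F : MvPolynomial (Fin 2) ℤ) (a : G), a ∈ commutator G → ev F • cl a = 0 →
      (F.support.toList.map fun e => (g ^ (e 0) * k ^ (e 1) * a * (g ^ (e 0) * k ^ (e 1))⁻¹) ^ (F.coeff e)).prod = 1 := by
    intro F a ha h0
    let c : commutator G →* Multiplicative M := MonoidHom.mk' (fun a => Multiplicative.ofAdd (cl a)) fun a b => by
      show Multiplicative.ofAdd (cl ((a : G) * (b : G))) = _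
      rw [hadd _ a.2 _ b.2, ofAdd_add]
    have hnorm : ∀ (u : G), u * a * u⁻¹ ∈ commutator G := fun u => (inferInstance : (commutator G).Normal).conj_mem a ha u
    let x : (Fin 2 →₀ ℕ) → commutator G := fun e => ⟨g ^ (e 0) * k ^ (e 1) * a * (g ^ (e 0) * k ^ (e 1))⁻¹, hnorm _⟩
    have hprod : (F.support.toList.map fun e => (g ^ (e 0) * k ^ (e 1) * a * (g ^ (e 0) * k ^ (e 1))⁻¹) ^ (F.coeff e)).prod =
        (((F.support.toList.map fun e => (x e) ^ (F.coeff e)).prod : commutator G) : G) := by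
      rw [← Subgroup.coe_subtype, map_list_prod, List.map_map]
      congr 1
    rw [hprod]
    apply hker hab _ (Subtype.property _)
    have h1 : c ((F.support.toList.map fun e => (x e) ^ (F.coeff e)).prod) = Multiplicative.ofAdd (ev F • cl a) := by
      rw [map_list_prod, List.map_map]
      have h3 : ev F • cl a = (F.support.toList.map fun e => F.coeff e • ((r g) ^ (e 0) * (r k) ^ (e 1)) • cl a).sum := by
        rw [hev, MvPolynomial.aeval_def, MvPolynomial.eval₂_eq', Finset.sum_smul, ← Finset.sum_map_toList]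
        congr 1
        refine List.map_congr_left fun e _ => ?_
        rw [mul_smul, algebraMap_int_eq, eq_intCast, Int.cast_smul_eq_zsmul]
        simp
      rw [h3, ofAdd_list_prod, List.map_map]
      congr 1
      refine List.map_congr_left fun e _ => ?_
      show c ((x e) ^ (F.coeff e)) = Multiplicative.ofAdd (F.coeff e • ((r g) ^ (e 0) * (r k) ^ (e 1)) • cl a)
      rw [map_zpow, ofAdd_zsmul]
      congr 1
      show Multiplicative.ofAdd (cl (g ^ (e 0) * k ^ (e 1) * a * (g ^ (e 0) * k ^ (e 1))⁻¹)) = _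
      rw [hconj _ a ha, map_mul, map_pow, map_pow]
    have h4 := h1
    rw [h0] at h4
    exact Multiplicative.ofAdd.injective h4
  let S : Submonoid (MvPolynomial (Fin 2) ℤ) :=
    { carrier := {F | MvPolynomial.map (Int.castRingHom (ZMod p)) F ≠ 0}
      mul_mem' := by
        intro F F' h1 h2
        show MvPolynomial.map (Int.castRingHom (ZMod p)) (F * F') ≠ 0
        rw [map_mul]
        exact mul_ne_zero h1 h2
      one_mem' := by
        show MvPolynomial.map (Int.castRingHom (ZMod p)) 1 ≠ 0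
        rw [map_one]
        exact one_ne_zero }
  let T : Submonoid R := S.map (ev : MvPolynomial (Fin 2) ℤ →* R)
  have hT : ∀ F, MvPolynomial.map (Int.castRingHom (ZMod p)) F ≠ 0 → ev F ∈ T := fun F hF' => ⟨F, hF', rfl⟩
  have hTM : ∀ f ∈ T, ∃ m : M, f • m ≠ 0 := by
    rintro _ ⟨F, hF', rfl⟩
    obtain ⟨a, ha, hne⟩ := hF F hF'
    refine ⟨cl a, fun h0 => hne (hclass F a ha h0)⟩
  obtain ⟨N, hN1, hN2⟩ := exists_quotient' R M T hTM
  obtain ⟨m1, hm1⟩ := hN1 1 T.one_mem
  obtain ⟨K, iK, ψ, φ, hφ, ⟨m, hm⟩, hψ⟩ := Pool.Agent.Helper13.MS.functional_of_torsionfree R (M ⧸ N)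
    ⟨m1, fun h0 => hm1 (by rw [h0, smul_zero])⟩ hN2
  refine ⟨K, iK, ⟨(Units.map (ψ : R →* K)).comp r.toHomUnits, fun a => φ (Submodule.Quotient.mk (cl a)), ?_, ?_⟩, ?_, g, k, ?_⟩
  · intro a ha b hb
    rw [hadd a ha b hb, Submodule.Quotient.mk_add, map_add]
  · intro u a ha
    rw [hconj u a ha, Submodule.Quotient.mk_smul, hφ]
    rfl
  · obtain ⟨m', rfl⟩ := N.mkQ_surjective m
    obtain ⟨a, ha, rfl⟩ := hsurj m'
    exact ⟨a, ha, hm⟩
  · refine freePlane_of_indep p hp _ _ fun F hF' h0 => ?_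
    have h1 : MvPolynomial.aeval ![ψ (r g), ψ (r k)] F = ψ (ev F) := by
      rw [hev, MvPolynomial.aeval_def, MvPolynomial.aeval_def, MvPolynomial.hom_eval₂]
      congr 1
      · exact RingHom.ext_int _ _
      · funext i
        fin_cases i <;> rfl
    have h2 : ψ (ev F) = 0 := by
      rw [← h1]
      exact h0
    obtain ⟨m2, hm2⟩ := hN1 _ (hT F hF')
    exact hm2 ((hψ _).1 h2 m2)

end Pool.Agent.Helper74.MU
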