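import Pool.Agent.Helper74.MU.Defs

set_option autoImplicit false

namespace Pool.Agent.Helper74.MU

private theorem sumcons {Ω : Type} [Fintype Ω] (n : ℕ) (F : (Fin (n + 1) → Ω) → ℝ) :
    ∑ w : Fin (n + 1) → Ω, F w = ∑ x : Ω, ∑ w : Fin n → Ω, F (Fin.cons x w) := by
  rw [← Fintype.sum_prod_type' (f := fun x w => F (Fin.cons x w))]
  exact (Fintype.sum_equiv (Fin.consEquiv (fun _ => Ω)) _ _ (fun p => rfl)).symm

private theorem mom {Ω : Type} [Fintype Ω] [Nonempty Ω] (k : Ω → ℝ) (K : ℝ) (hK : ∀ ω, |k ω| ≤ K)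
    (h1 : ∑ ω, k ω = 0) (h3 : ∑ ω, (k ω) ^ 3 = 0) (n : ℕ) :
    (∑ w : Fin n → Ω, (∑ i, k (w i)) ^ 2) * (Fintype.card Ω : ℝ) = n * (∑ ω, (k ω) ^ 2) * (Fintype.card Ω : ℝ) ^ n ∧
    ∑ w : Fin n → Ω, (∑ i, k (w i)) ^ 4 ≤ 3 * (n : ℝ) ^ 2 * K ^ 4 * (Fintype.card Ω : ℝ) ^ n := by
  have hN : (1 : ℝ) ≤ (Fintype.card Ω : ℝ) := by exact_mod_cast Fintype.card_pos
  have hK0 : 0 ≤ K := le_trans (abs_nonneg _) (hK (Classical.arbitrary Ω))
  set N : ℝ := (Fintype.card Ω : ℝ) with hNdef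
  set q2 : ℝ := ∑ ω, (k ω) ^ 2 with hq2
  set q4 : ℝ := ∑ ω, (k ω) ^ 4 with hq4
  have hq2le : q2 ≤ N * K ^ 2 := by
    calc q2 ≤ ∑ _ω : Ω, K ^ 2 := Finset.sum_le_sum fun ω _ => by
          rw [← sq_abs]; exact pow_le_pow_left₀ (abs_nonneg _) (hK ω) 2
      _ = N * K ^ 2 := by simp [hNdef]
  have hq20 : 0 ≤ q2 := Finset.sum_nonneg fun ω _ => sq_nonneg _
  have hq4le : q4 ≤ N * K ^ 4 := by
    calc q4 ≤ ∑ _ω : Ω, K ^ 4 := Finset.sum_le_sum fun ω _ => by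
          rw [← Even.pow_abs (by decide : Even 4)]; exact pow_le_pow_left₀ (abs_nonneg _) (hK ω) 4
      _ = N * K ^ 4 := by simp [hNdef]
  induction n with
  | zero => simp
  | succ n ih =>
    obtain ⟨ih2, ih4⟩ := ih
    have hcard : ∑ _w : Fin n → Ω, (1 : ℝ) = N ^ n := by simp [hNdef]
    have e2 : ∑ w : Fin (n + 1) → Ω, (∑ i, k (w i)) ^ 2 = q2 * N ^ n + N * ∑ w : Fin n → Ω, (∑ i, k (w i)) ^ 2 := by
      rw [sumcons]
      have : ∀ x : Ω, ∑ w : Fin n → Ω, (∑ i, k ((Fin.cons x w : Fin (n + 1) → Ω) i)) ^ 2 =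
          (k x) ^ 2 * N ^ n + k x * (2 * ∑ w : Fin n → Ω, (∑ i, k (w i))) + ∑ w : Fin n → Ω, (∑ i, k (w i)) ^ 2 := by
        intro x
        rw [← hcard, Finset.mul_sum, Finset.mul_sum, Finset.mul_sum, ← Finset.sum_add_distrib, ← Finset.sum_add_distrib]
        refine Finset.sum_congr rfl fun w _ => ?_
        rw [Fin.sum_univ_succ]
        simp only [Fin.cons_zero, Fin.cons_succ]
        ring
      rw [Finset.sum_congr rfl fun x _ => this x, Finset.sum_add_distrib, Finset.sum_add_distrib, ← Finset.sum_mul, ← Finset.sum_mul, h1]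
      simp [hNdef, hq2]
    have e4 : ∑ w : Fin (n + 1) → Ω, (∑ i, k (w i)) ^ 4 = q4 * N ^ n + 6 * q2 * (∑ w : Fin n → Ω, (∑ i, k (w i)) ^ 2)
        + N * ∑ w : Fin n → Ω, (∑ i, k (w i)) ^ 4 := by
      rw [sumcons]
      have : ∀ x : Ω, ∑ w : Fin n → Ω, (∑ i, k ((Fin.cons x w : Fin (n + 1) → Ω) i)) ^ 4 =
          (k x) ^ 4 * N ^ n + (k x) ^ 3 * (4 * ∑ w : Fin n → Ω, (∑ i, k (w i))) + (k x) ^ 2 * (6 * ∑ w : Fin n → Ω, (∑ i, k (w i)) ^ 2)
          + k x * (4 * ∑ w : Fin n → Ω, (∑ i, k (w i)) ^ 3) + ∑ w : Fin n → Ω, (∑ i, k (w i)) ^ 4 := by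
        intro x
        have hx : ∀ w : Fin n → Ω, (∑ i, k ((Fin.cons x w : Fin (n + 1) → Ω) i)) ^ 4 =
            (k x) ^ 4 * 1 + ((k x) ^ 3 * 4) * (∑ i, k (w i)) + ((k x) ^ 2 * 6) * (∑ i, k (w i)) ^ 2
              + (k x * 4) * (∑ i, k (w i)) ^ 3 + (∑ i, k (w i)) ^ 4 := by
          intro w
          rw [Fin.sum_univ_succ]
          simp only [Fin.cons_zero, Fin.cons_succ]
          ring
        rw [Finset.sum_congr rfl fun w _ => hx w, Finset.sum_add_distrib, Finset.sum_add_distrib, Finset.sum_add_distrib,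
          Finset.sum_add_distrib, ← Finset.mul_sum, ← Finset.mul_sum, ← Finset.mul_sum, ← Finset.mul_sum, hcard]
        ring
      rw [Finset.sum_congr rfl fun x _ => this x]
      simp only [Finset.sum_add_distrib, ← Finset.sum_mul, h1, h3]
      simp only [Finset.sum_const, Finset.card_univ, nsmul_eq_mul, ← hNdef]
      ring
    refine ⟨?_, ?_⟩
    · rw [e2, add_mul, mul_assoc N, ih2]
      push_cast
      ring
    · rw [e4]
      have hN0 : 0 < N := by linarith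
      have hp : 0 < N ^ n := pow_pos hN0 n
      have h6 : q2 * (∑ w : Fin n → Ω, (∑ i, k (w i)) ^ 2) ≤ n * K ^ 4 * N ^ (n + 1) := by
        have h7 : q2 * (∑ w : Fin n → Ω, (∑ i, k (w i)) ^ 2) * N = n * q2 ^ 2 * N ^ n := by
          rw [mul_assoc, ih2]; ring
        have h8 : q2 ^ 2 ≤ (N * K ^ 2) ^ 2 := pow_le_pow_left₀ hq20 hq2le 2
        have h9 : q2 * (∑ w : Fin n → Ω, (∑ i, k (w i)) ^ 2) * N ≤ (n * K ^ 4 * N ^ (n + 1)) * N := by
          rw [h7]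
          calc (n : ℝ) * q2 ^ 2 * N ^ n ≤ n * (N * K ^ 2) ^ 2 * N ^ n := by gcongr
            _ = (n * K ^ 4 * N ^ (n + 1)) * N := by ring
        exact le_of_mul_le_mul_right h9 hN0
      have h10 : q4 * N ^ n ≤ K ^ 4 * N ^ (n + 1) := by
        calc q4 * N ^ n ≤ (N * K ^ 4) * N ^ n := by gcongr
          _ = K ^ 4 * N ^ (n + 1) := by ring
      have h11 : N * ∑ w : Fin n → Ω, (∑ i, k (w i)) ^ 4 ≤ 3 * (n : ℝ) ^ 2 * K ^ 4 * N ^ (n + 1) := by
        calc N * ∑ w : Fin n → Ω, (∑ i, k (w i)) ^ 4 ≤ N * (3 * (n : ℝ) ^ 2 * K ^ 4 * N ^ n) := by gcongr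
          _ = _ := by ring
      have h12 : 0 ≤ K ^ 4 * N ^ (n + 1) := by positivity
      push_cast
      nlinarith [h6, h10, h11, h12]

private theorem absS {x a : ℝ} (ha : 0 < a) : x ^ 2 / a - x ^ 4 / (4 * a ^ 3) ≤ |x| := by
  set t := |x| / a with ht
  have ht0 : 0 ≤ t := by positivity
  have hx : |x| = t * a := by rw [ht]; field_simp
  have hx2 : x ^ 2 = (t * a) ^ 2 := by rw [← hx, sq_abs]
  have hx4 : x ^ 4 = (t * a) ^ 4 := by rw [← hx, Even.pow_abs (by decide : Even 4)]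
  rw [hx2, hx4, hx]
  have h1 : (t * a) ^ 2 / a - (t * a) ^ 4 / (4 * a ^ 3) = a * (t ^ 2 - t ^ 4 / 4) := by
    field_simp
  rw [h1]
  have h2 : t ^ 2 - t ^ 4 / 4 ≤ t := by
    have h3 : 0 ≤ 1 - t + t ^ 3 / 4 := by nlinarith [sq_nonneg (t - 1), sq_nonneg (t - 2), mul_nonneg ht0 (sq_nonneg (t - 1)), mul_nonneg ht0 (sq_nonneg (2 * t - 2))]
    nlinarith [mul_nonneg ht0 h3]
  calc a * (t ^ 2 - t ^ 4 / 4) ≤ a * t := by gcongr
    _ = t * a := by ring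

private theorem wl_ge {G Ω : Type} [Group G] [Fintype Ω] (s : Ω → G) (f : G →* Multiplicative ℤ) (K : ℝ)
    (hK : ∀ ω, |((Multiplicative.toAdd (f (s ω)) : ℤ) : ℝ)| ≤ K) {n : ℕ} (w : Fin n → Ω) :
    |∑ i, ((Multiplicative.toAdd (f (s (w i))) : ℤ) : ℝ)| ≤ K * (wl (Set.range s) (val s w) : ℝ) := by
  have hval : ((Multiplicative.toAdd (f (val s w)) : ℤ) : ℝ) = ∑ i, ((Multiplicative.toAdd (f (s (w i))) : ℤ) : ℝ) := by
    unfold val
    rw [map_list_prod, List.map_ofFn, List.prod_ofFn, toAdd_prod]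
    push_cast
    rfl
  rw [← hval]
  have hne : {m | ∃ l : List G, l.length = m ∧ (∀ x ∈ l, x ∈ Set.range s) ∧ l.prod = val s w}.Nonempty :=
    ⟨n, List.ofFn fun i => s (w i), by simp, by simp [List.mem_ofFn], rfl⟩
  obtain ⟨l, hl, hls, hlp⟩ := Nat.sInf_mem hne
  have key : ∀ l : List G, (∀ x ∈ l, x ∈ Set.range s) → |((Multiplicative.toAdd (f l.prod) : ℤ) : ℝ)| ≤ K * (l.length : ℝ) := by
    intro l
    induction l with
    | nil => intro _; simp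
    | cons x l ih =>
      intro h
      rw [List.prod_cons, map_mul, toAdd_mul, List.length_cons]
      push_cast
      have h1 := ih fun y hy => h y (List.mem_cons_of_mem _ hy)
      obtain ⟨ω, hω⟩ := h x List.mem_cons_self
      have h2 := hK ω
      rw [hω] at h2
      calc |((Multiplicative.toAdd (f x) : ℤ) : ℝ) + ((Multiplicative.toAdd (f l.prod) : ℤ) : ℝ)|
          ≤ |((Multiplicative.toAdd (f x) : ℤ) : ℝ)| + |((Multiplicative.toAdd (f l.prod) : ℤ) : ℝ)| := abs_add_le _ _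
        _ ≤ K + K * (l.length : ℝ) := add_le_add h2 h1
        _ = K * ((l.length : ℝ) + 1) := by ring
  have h3 := key l hls
  rw [hlp, hl] at h3
  exact h3

/-- Block MU-P4 (diffusive lower bound for groups with a homomorphism onto `ℤ`). Proof: `k ω = f (s ω)`, `S = ∑ k (w i)`; `|S| ≤ K |X_n|`, `E S² = n σ²`, `σ² > 0` (some `k ω ≠ 0`, the
`s ω` generate), `E S⁴ ≤ 3 n² K⁴` (`k (σ ω) = - k ω` kills the odd moments), and `|x| ≥ (3√3/2) (x²/a - x⁴/a³)`-type inequality (or `E S² ≤ (E|S|)^(2/3) (E S⁴)^(1/3)`). -/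
theorem lower {G Ω : Type} [Group G] [Fintype Ω] [Nonempty Ω] (s : Ω → G) (σ : Ω ≃ Ω) (hσ : ∀ ω, s (σ ω) = (s ω)⁻¹)
    (hgen : Subgroup.closure (Set.range s) = ⊤) (f : G →* Multiplicative ℤ) (hf : ∃ g, f g ≠ 1) :
    ∃ c : ℝ, 0 < c ∧ ∀ n : ℕ, 1 ≤ n → c * Real.sqrt n ≤ el s n := by
  classical
  set k : Ω → ℝ := fun ω => ((Multiplicative.toAdd (f (s ω)) : ℤ) : ℝ) with hk
  set K : ℝ := ∑ ω, |k ω| with hKd
  have hK : ∀ ω, |k ω| ≤ K := fun ω => Finset.single_le_sum (f := fun ω => |k ω|) (fun _ _ => abs_nonneg _) (Finset.mem_univ ω)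
  have hne : ∃ ω, k ω ≠ 0 := by
    by_contra hcon
    push Not at hcon
    obtain ⟨g, hg⟩ := hf
    apply hg
    have hle : Subgroup.closure (Set.range s) ≤ f.ker := by
      rw [Subgroup.closure_le]
      rintro _ ⟨ω, rfl⟩
      have h0 := hcon ω
      simp only [hk, Int.cast_eq_zero] at h0
      exact h0
    have : g ∈ f.ker := hle (by rw [hgen]; trivial)
    exact this
  obtain ⟨ω₀, hω₀⟩ := hne
  have hKpos : 0 < K := lt_of_lt_of_le (abs_pos.mpr hω₀) (hK ω₀)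
  have hodd : ∀ ω, k (σ ω) = - k ω := by
    intro ω
    simp only [hk, hσ, map_inv, toAdd_inv]
    push_cast
    rfl
  have h1 : ∑ ω, k ω = 0 := by
    have h := Equiv.sum_comp σ k
    simp only [hodd, Finset.sum_neg_distrib] at h
    linarith
  have h3 : ∑ ω, (k ω) ^ 3 = 0 := by
    have h := Equiv.sum_comp σ (fun ω => (k ω) ^ 3)
    simp only [hodd] at h
    have h' : ∀ ω, (- k ω) ^ 3 = - (k ω) ^ 3 := fun ω => by ring
    simp only [h', Finset.sum_neg_distrib] at h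
    linarith
  set N : ℝ := (Fintype.card Ω : ℝ) with hN
  have hN0 : 0 < N := by rw [hN]; exact_mod_cast Fintype.card_pos
  set q2 : ℝ := ∑ ω, (k ω) ^ 2 with hq2
  have hq2pos : 0 < q2 := lt_of_lt_of_le (by positivity : 0 < (k ω₀) ^ 2)
    (Finset.single_le_sum (f := fun ω => (k ω) ^ 2) (fun _ _ => sq_nonneg _) (Finset.mem_univ ω₀))
  set v : ℝ := q2 / N with hv
  have hvpos : 0 < v := by positivity
  set A : ℝ := Real.sqrt (3 * K ^ 4 / (2 * v)) with hA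
  have hApos : 0 < A := Real.sqrt_pos.mpr (by positivity)
  have hA2 : A ^ 2 = 3 * K ^ 4 / (2 * v) := Real.sq_sqrt (by positivity)
  refine ⟨v / (2 * A * K), by positivity, fun n hn => ?_⟩
  obtain ⟨m2, m4⟩ := mom k K hK h1 h3 n
  have hn0 : (0 : ℝ) < n := by exact_mod_cast hn
  set r : ℝ := Real.sqrt n with hr
  have hrpos : 0 < r := Real.sqrt_pos.mpr hn0
  have hr2 : r ^ 2 = n := Real.sq_sqrt hn0.le
  have hp : 0 < N ^ n := pow_pos hN0 n
  -- the sum of absolute values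
  have hsum : ∑ w : Fin n → Ω, ((∑ i, k (w i)) ^ 2 / (A * r) - (∑ i, k (w i)) ^ 4 / (4 * (A * r) ^ 3)) ≤
      ∑ w : Fin n → Ω, |∑ i, k (w i)| := Finset.sum_le_sum fun w _ => absS (by positivity)
  have hsum2 : ∑ w : Fin n → Ω, |∑ i, k (w i)| ≤ K * ∑ w : Fin n → Ω, (wl (Set.range s) (val s w) : ℝ) := by
    rw [Finset.mul_sum]
    exact Finset.sum_le_sum fun w _ => wl_ge s f K hK w
  rw [Finset.sum_sub_distrib, ← Finset.sum_div, ← Finset.sum_div] at hsum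
  have m2' : ∑ w : Fin n → Ω, (∑ i, k (w i)) ^ 2 = n * v * N ^ n := by
    rw [hv]
    field_simp
    linarith [m2]
  rw [m2'] at hsum
  have h4 : (∑ w : Fin n → Ω, (∑ i, k (w i)) ^ 4) / (4 * (A * r) ^ 3) ≤ (3 * (n : ℝ) ^ 2 * K ^ 4 * N ^ n) / (4 * (A * r) ^ 3) := by
    gcongr
  have h5 : n * v * N ^ n / (A * r) - (3 * (n : ℝ) ^ 2 * K ^ 4 * N ^ n) / (4 * (A * r) ^ 3) = v / (2 * A) * r * N ^ n := by
    have hK4 : 3 * K ^ 4 = 2 * v * A ^ 2 := by rw [hA2]; field_simp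
    have : (3 * (n : ℝ) ^ 2 * K ^ 4 * N ^ n) = (2 * v * A ^ 2) * (r ^ 2) ^ 2 * N ^ n := by rw [← hK4, hr2]; ring
    rw [this, ← hr2]
    field_simp
    ring
  have h6 : v / (2 * A) * r * N ^ n ≤ K * ∑ w : Fin n → Ω, (wl (Set.range s) (val s w) : ℝ) := by linarith
  unfold el
  rw [le_div_iff₀ hp]
  have h7 : v / (2 * A * K) * r * N ^ n = (v / (2 * A) * r * N ^ n) / K := by
    field_simp
  rw [h7, div_le_iff₀ hKpos]
  linarith

end Pool.Agent.Helper74.MU
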