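import Pool.Agent.Helper74.MU.Defs

set_option autoImplicit false

namespace Pool.Agent.Helper74.MU

/-- Block MU-P5. `c √n ≤ a n ≤ C_ε n^(1/2+ε)` gives `log (a n) / log n → 1/2`. -/
theorem limit_half (a : ℕ → ℝ) (c : ℝ) (hc : 0 < c) (h1 : ∀ n : ℕ, 1 ≤ n → c * Real.sqrt n ≤ a n)
    (h2 : ∀ ε : ℝ, 0 < ε → ∃ C : ℝ, 0 < C ∧ ∀ n : ℕ, 1 ≤ n → a n ≤ C * (n : ℝ) ^ (1 / 2 + ε)) :
    Filter.Tendsto (fun n : ℕ => Real.log (a n) / Real.log n) Filter.atTop (nhds (1 / 2)) := by
  have hlog : Filter.Tendsto (fun n : ℕ => Real.log (n : ℝ)) Filter.atTop Filter.atTop :=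
    Real.tendsto_log_atTop.comp tendsto_natCast_atTop_atTop
  have hz : ∀ K : ℝ, Filter.Tendsto (fun n : ℕ => K / Real.log (n : ℝ)) Filter.atTop (nhds 0) :=
    fun K => hlog.const_div_atTop K
  have hapos : ∀ n : ℕ, 1 ≤ n → 0 < a n := by
    intro n hn
    have hn0 : (0 : ℝ) < n := by exact_mod_cast hn
    exact lt_of_lt_of_le (mul_pos hc (Real.sqrt_pos.2 hn0)) (h1 n hn)
  refine tendsto_order.2 ⟨fun b hb => ?_, fun b hb => ?_⟩
  · have h3 : Filter.Tendsto (fun n : ℕ => 1 / 2 + Real.log c / Real.log (n : ℝ)) Filter.atTop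
        (nhds (1 / 2)) := by
      simpa using (tendsto_const_nhds (x := (1 / 2 : ℝ))).add (hz (Real.log c))
    filter_upwards [h3.eventually (lt_mem_nhds hb), Filter.eventually_ge_atTop 2] with n hn hn2
    refine lt_of_lt_of_le hn ?_
    have hn0 : (0 : ℝ) < n := by
      have : 0 < n := by omega
      exact_mod_cast this
    have hlp : 0 < Real.log (n : ℝ) := Real.log_pos (by
      have : 1 < n := by omega
      exact_mod_cast this)
    rw [le_div_iff₀ hlp, add_mul, div_mul_cancel₀ _ hlp.ne']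
    have h4 : Real.log (c * Real.sqrt n) ≤ Real.log (a n) :=
      Real.log_le_log (mul_pos hc (Real.sqrt_pos.2 hn0)) (h1 n (by omega))
    rw [Real.log_mul hc.ne' (Real.sqrt_pos.2 hn0).ne', Real.log_sqrt hn0.le] at h4
    linarith
  · obtain ⟨C, hC, hCb⟩ := h2 ((b - 1 / 2) / 2) (by linarith)
    have h3 : Filter.Tendsto (fun n : ℕ => (1 / 2 + (b - 1 / 2) / 2) + Real.log C / Real.log (n : ℝ))
        Filter.atTop (nhds (1 / 2 + (b - 1 / 2) / 2)) := by
      simpa using (tendsto_const_nhds (x := (1 / 2 + (b - 1 / 2) / 2 : ℝ))).add (hz (Real.log C))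
    filter_upwards [h3.eventually (gt_mem_nhds (show 1 / 2 + (b - 1 / 2) / 2 < b by linarith)),
      Filter.eventually_ge_atTop 2] with n hn hn2
    refine lt_of_le_of_lt ?_ hn
    have hn0 : (0 : ℝ) < n := by
      have : 0 < n := by omega
      exact_mod_cast this
    have hlp : 0 < Real.log (n : ℝ) := Real.log_pos (by
      have : 1 < n := by omega
      exact_mod_cast this)
    rw [div_le_iff₀ hlp, add_mul, div_mul_cancel₀ _ hlp.ne']
    have h4 : Real.log (a n) ≤ Real.log (C * (n : ℝ) ^ (1 / 2 + (b - 1 / 2) / 2)) :=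
      Real.log_le_log (hapos n (by omega)) (hCb n (by omega))
    rw [Real.log_mul hC.ne' (Real.rpow_pos_of_pos hn0 _).ne', Real.log_rpow hn0] at h4
    linarith

end Pool.Agent.Helper74.MU
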