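import Pool.Agent.Helper74.MU.W
import Pool.Agent.Helper74.MU.G1

set_option autoImplicit false

namespace Pool.Agent.Helper74.MU

private theorem range_double {G Ω : Type} [Group G] (s : Ω → G) (σ : Ω ≃ Ω)
    (hσ : ∀ ω, s (σ ω) = (s ω)⁻¹) : Set.range (lt s) = Set.range s := by
  apply Set.Subset.antisymm
  · rintro _ ⟨⟨ω, b⟩, rfl⟩
    cases b with
    | true => exact ⟨ω, by simp [lt]⟩
    | false => exact ⟨σ ω, by simp [lt, hσ]⟩
  · rintro _ ⟨ω, rfl⟩
    exact ⟨(ω, true), by simp [lt]⟩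

/-- Glue MU-U0: the doubled walk: replacing `s` by `s' (ω, b) = s ω` or `(s ω)⁻¹` does not change the law. -/
theorem el_double {G Ω : Type} [Group G] [Fintype Ω] [Nonempty Ω] (s : Ω → G) (σ : Ω ≃ Ω) (hσ : ∀ ω, s (σ ω) = (s ω)⁻¹) (n : ℕ) :
    el s n = el (lt s) n := by
  classical
  unfold el
  rw [range_double s σ hσ]
  -- the reindexing
  let τ : Ω × Bool ≃ Ω × Bool :=
    { toFun := fun e => (if e.2 then e.1 else σ e.1, e.2)
      invFun := fun e => (if e.2 then e.1 else σ.symm e.1, e.2)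
      left_inv := by
        rintro ⟨ω, b⟩
        cases b <;> simp
      right_inv := by
        rintro ⟨ω, b⟩
        cases b <;> simp }
  have hτ : ∀ e : Ω × Bool, lt s e = s (τ e).1 := by
    rintro ⟨ω, b⟩
    cases b <;> simp [lt, τ, hσ]
  have h1 : ∀ w : Fin n → Ω × Bool, val (lt s) w = val s fun i => (τ (w i)).1 := by
    intro w
    unfold val
    congr 1
    congr 1
    funext i
    exact hτ (w i)
  obtain ⟨F, hF⟩ : ∃ F : (Fin n → Ω) → ℝ, ∀ v, F v = (wl (Set.range s) (val s v) : ℝ) :=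
    ⟨_, fun _ => rfl⟩
  have h2 : (∑ w : Fin n → Ω × Bool, (wl (Set.range s) (val (lt s) w) : ℝ)) =
      ∑ w : Fin n → Ω × Bool, F fun i => (w i).1 := by
    rw [← Equiv.sum_comp (Equiv.arrowCongr (Equiv.refl (Fin n)) τ)
      (fun w : Fin n → Ω × Bool => F fun i => (w i).1)]
    refine Finset.sum_congr rfl fun w _ => ?_
    rw [hF, h1]
    rfl
  have h3 : (∑ w : Fin n → Ω × Bool, F fun i => (w i).1) = 2 ^ n * ∑ v : Fin n → Ω, F v := by
    rw [← Equiv.sum_comp (Equiv.arrowProdEquivProdArrow (Fin n) (fun _ => Ω) (fun _ => Bool)).symm,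
      Fintype.sum_prod_type, Finset.mul_sum]
    refine Finset.sum_congr rfl fun v _ => ?_
    have h4 : ∀ y : Fin n → Bool, (F fun i => (((Equiv.arrowProdEquivProdArrow (Fin n)
        (fun _ => Ω) (fun _ => Bool)).symm (v, y)) i).1) = F v := fun y => rfl
    rw [Finset.sum_congr rfl fun y _ => h4 y, Finset.sum_const, Finset.card_univ, nsmul_eq_mul,
      Fintype.card_fun, Fintype.card_bool, Fintype.card_fin]
    push_cast
    ring
  rw [h2, h3, Fintype.card_prod, Fintype.card_bool]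
  have h5 : (∑ w : Fin n → Ω, (wl (Set.range s) (val s w) : ℝ)) = ∑ v, F v :=
    Finset.sum_congr rfl fun v _ => (hF v).symm
  rw [h5]
  have h6 : (Fintype.card Ω : ℝ) ≠ 0 := by
    have : 0 < Fintype.card Ω := Fintype.card_pos
    positivity
  push_cast
  rw [mul_pow]
  field_simp

/-- Glue MU-U1: comparison along a homomorphism. -/
theorem el_map {G H Ω : Type} [Group G] [Group H] [Fintype Ω] [Nonempty Ω] (t : Ω → G) (φ : G →* H) (n : ℕ)
    (hS : SymGen (Set.range (lt t))) : el (lt fun ω => φ (t ω)) n ≤ el (lt t) n := by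
  classical
  have h1 : ∀ e : Ω × Bool, lt (fun ω => φ (t ω)) e = φ (lt t e) := by
    rintro ⟨ω, b⟩
    cases b <;> simp [lt]
  have h2 : ∀ w : Fin n → Ω × Bool, val (lt fun ω => φ (t ω)) w = φ (val (lt t) w) := by
    intro w
    unfold val
    rw [map_list_prod, List.map_ofFn]
    congr 1
    congr 1
    funext i
    exact h1 (w i)
  unfold el
  refine div_le_div_of_nonneg_right ?_ (by positivity)
  refine Finset.sum_le_sum fun w _ => ?_
  rw [h2]
  have h3 := wl_map (T := Set.range (lt fun ω => φ (t ω))) hS φ (by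
    rintro _ ⟨e, rfl⟩
    exact ⟨e, h1 e⟩) (val (lt t) w)
  exact_mod_cast h3

end Pool.Agent.Helper74.MU
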