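import Pool.Agent.Helper74.MU.G4
import Pool.Agent.Helper74.MU.U0
import Pool.Agent.Helper74.MU.P2
import Pool.Agent.Helper74.MU.P3
import Pool.Agent.Helper74.MU.P4
import Pool.Agent.Helper74.MU.P5

set_option autoImplicit false

namespace Pool.Agent.Helper74.MU

lemma big_mono {G Ω : Type} [Group G] [Fintype Ω] (s : Ω → G) (n : ℕ) {D D' : ℝ} (h : D ≤ D') : big s n D' ≤ big s n D := by
  classical
  unfold big
  refine Finset.card_le_card ?_
  intro w hw
  simp only [Finset.mem_filter, Finset.mem_univ, true_and] at hw ⊢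
  exact lt_of_le_of_lt h hw

/-- the upper bound for groups with free abelian quotient -/
theorem upper_free {G Ω : Type} [Group G] [Fintype Ω] [DecidableEq Ω] [Nonempty Ω] (t : Ω → G) (π : G →* Multiplicative (Ω → ℤ))
    (hπ : ∀ i j, (π (t i)).toAdd j = if i = j then 1 else 0) (hgen : Subgroup.closure (Set.range t) = ⊤)
    (hab : ∀ a ∈ π.ker, ∀ b ∈ π.ker, a * b = b * a) (hA : RelA π.ker) (hB : RelB π.ker) (ε : ℝ) (hε : 0 < ε) :
    ∃ C : ℝ, 0 < C ∧ ∀ n : ℕ, 1 ≤ n → el (lt t) n ≤ C * (n : ℝ) ^ (1 / 2 + ε) := by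
  refine expect (lt t) ?_ ε hε
  intro δ hδ
  obtain ⟨K, hK, h⟩ := folner t π hπ hgen hab hA hB δ hδ
  refine ⟨K, by exact_mod_cast hK, fun R hR n => ?_⟩
  obtain ⟨F, F', hne, h1, h2, h3⟩ := h R hR
  have hpos : (0 : ℝ) ≤ K * (R : ℝ) ^ (1 + δ) := by positivity
  have ht := tail (lt t) ((Equiv.refl Ω).prodCongr Equiv.boolNot) (by
    rintro ⟨ω, b⟩
    cases b <;> simp [lt]) F F' hne R ⌊K * (R : ℝ) ^ (1 + δ)⌋₊ hR h1 (fun g hg k hk => Nat.le_floor (h3 g hg k hk)) n
  have hb : (big (lt t) n (K * (R : ℝ) ^ (1 + δ)) : ℝ) ≤ big (lt t) n (⌊K * (R : ℝ) ^ (1 + δ)⌋₊ : ℝ) := by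
    exact_mod_cast big_mono (lt t) n (Nat.floor_le hpos)
  have hF : (0 : ℝ) < F.card := by exact_mod_cast hne.card_pos
  have hF' : (F'.card : ℝ) ≤ K * F.card := by exact_mod_cast h2
  set X : ℝ := (big (lt t) n (K * (R : ℝ) ^ (1 + δ)) : ℝ) with hX
  set Y : ℝ := (Fintype.card (Ω × Bool) : ℝ) ^ n with hY
  have hY0 : 0 ≤ Y := by positivity
  have h5 : X * (R : ℝ) ^ 2 * F.card ≤ K * n * Y * F.card := by
    calc X * (R : ℝ) ^ 2 * F.card = X * ((R : ℝ) ^ 2 * F.card) := by ring
      _ ≤ (big (lt t) n (⌊K * (R : ℝ) ^ (1 + δ)⌋₊ : ℝ)) * ((R : ℝ) ^ 2 * F.card) := mul_le_mul_of_nonneg_right hb (by positivity)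
      _ ≤ n * F'.card * Y := ht
      _ ≤ n * (K * F.card) * Y := by
          refine mul_le_mul_of_nonneg_right (mul_le_mul_of_nonneg_left hF' (by positivity)) hY0
      _ = K * n * Y * F.card := by ring
  exact le_of_mul_le_mul_right h5 hF

/-- Glue MU-U (upper bound): metabelian groups satisfying `RelA`, `RelB`. -/
theorem upper {G Ω : Type} [Group G] [Fintype Ω] [Nonempty Ω] (s : Ω → G) (σ : Ω ≃ Ω) (hσ : ∀ ω, s (σ ω) = (s ω)⁻¹)
    (_hgen : Subgroup.closure (Set.range s) = ⊤) (hab : ∀ a ∈ commutator G, ∀ b ∈ commutator G, a * b = b * a)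
    (hA : RelA (commutator G)) (hB : RelB (commutator G)) (ε : ℝ) (hε : 0 < ε) :
    ∃ C : ℝ, 0 < C ∧ ∀ n : ℕ, 1 ≤ n → el s n ≤ C * (n : ℝ) ^ (1 / 2 + ε) := by
  classical
  let e : Ω → G × Multiplicative (Ω → ℤ) := fun ω => (s ω, Multiplicative.ofAdd (Pi.single ω 1))
  let H : Subgroup (G × Multiplicative (Ω → ℤ)) := Subgroup.closure (Set.range e)
  let t : Ω → H := fun ω => ⟨e ω, Subgroup.subset_closure ⟨ω, rfl⟩⟩
  let φ : H →* G := (MonoidHom.fst _ _).comp H.subtype
  let π : H →* Multiplicative (Ω → ℤ) := (MonoidHom.snd _ _).comp H.subtype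
  have hπ : ∀ i j, (π (t i)).toAdd j = if i = j then 1 else 0 := by
    intro i j
    change (Pi.single i (1 : ℤ) : Ω → ℤ) j = _
    rw [Pi.single_apply]
    simp only [eq_comm]
  have hgen : Subgroup.closure (Set.range t) = ⊤ := by
    apply Subgroup.map_injective H.subtype_injective
    rw [MonoidHom.map_closure, ← MonoidHom.range_eq_map, Subgroup.range_subtype, ← Set.range_comp]
    rfl
  have hext : ∀ a b : H, φ a = φ b → π a = π b → a = b := fun a b h1 h2 => Subtype.ext (Prod.ext h1 h2)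
  -- kernel lies over the commutator subgroup
  have hcomm : ∀ a ∈ π.ker, φ a ∈ commutator G := by
    intro a ha
    let Ψ : Multiplicative (Ω → ℤ) →* Abelianization G :=
      { toFun := fun v => ∏ ω, (Abelianization.of (s ω)) ^ (v.toAdd ω)
        map_one' := by simp
        map_mul' := by
          intro v w
          simp only [toAdd_mul, Pi.add_apply, zpow_add, Finset.prod_mul_distrib] }
    have h1 : ∀ p ∈ H, Abelianization.of p.1 = Ψ p.2 := by
      intro p hp
      have hle : H ≤ MonoidHom.eqLocus (Abelianization.of.comp (MonoidHom.fst G (Multiplicative (Ω → ℤ)))) (Ψ.comp (MonoidHom.snd _ _)) := by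
        refine (Subgroup.closure_le _).2 ?_
        rintro _ ⟨ω, rfl⟩
        change Abelianization.of (s ω) = ∏ ω', (Abelianization.of (s ω')) ^ ((Pi.single ω (1 : ℤ) : Ω → ℤ) ω')
        rw [Finset.prod_eq_single ω]
        · simp
        · intro b _ hb
          simp [hb]
        · simp
      exact hle hp
    have h2 := h1 a.1 a.2
    have h3 : Ψ (a.1.2) = 1 := by
      have : (a.1.2 : Multiplicative (Ω → ℤ)) = 1 := ha
      rw [this, map_one]
    rw [h3] at h2
    have h4 : φ a ∈ (Abelianization.of : G →* Abelianization G).ker := h2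
    rwa [Abelianization.ker_of] at h4
  have hab' : ∀ a ∈ π.ker, ∀ b ∈ π.ker, a * b = b * a := by
    intro a ha b hb
    refine hext _ _ ?_ ?_
    · rw [map_mul, map_mul]
      exact hab _ (hcomm a ha) _ (hcomm b hb)
    · rw [map_mul, map_mul]
      exact mul_comm _ _
  have hA' : RelA π.ker := by
    intro g
    obtain ⟨f, hf, h⟩ := hA (φ g)
    refine ⟨f, hf, fun a ha => hext _ _ ?_ ?_⟩
    · rw [map_list_prod, map_one, ← h (φ a) (hcomm a ha), List.map_map]
      rfl
    · rw [map_list_prod, map_one]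
      refine List.prod_eq_one ?_
      intro y hy
      simp only [List.mem_map] at hy
      obtain ⟨z, ⟨j, _, rfl⟩, rfl⟩ := hy
      have : π a = 1 := ha
      simp only [map_zpow, map_mul, map_pow, map_inv, this, mul_one, mul_inv_cancel, one_zpow]
  have hB' : RelB π.ker := by
    intro p hp g h
    obtain ⟨F, hF, hr⟩ := hB p hp (φ g) (φ h)
    refine ⟨F, hF, fun a ha => hext _ _ ?_ ?_⟩
    · rw [map_list_prod, map_one, ← hr (φ a) (hcomm a ha), List.map_map]
      rfl
    · rw [map_list_prod, map_one]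
      refine List.prod_eq_one ?_
      intro y hy
      simp only [List.mem_map] at hy
      obtain ⟨z, ⟨j, _, rfl⟩, rfl⟩ := hy
      have : π a = 1 := ha
      simp only [map_zpow, map_mul, map_pow, map_inv, this, mul_one, mul_inv_cancel, one_zpow]
  obtain ⟨C, hC, h⟩ := upper_free t π hπ hgen hab' hA' hB' ε hε
  refine ⟨C, hC, fun n hn => ?_⟩
  rw [el_double s σ hσ n]
  exact (el_map t φ n (symGen_lt t hgen)).trans (h n hn)

end Pool.Agent.Helper74.MU
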