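import Pool.Agent.Helper13.MS.MUF
import Pool.Agent.Helper13.MS.SWD
import Pool.Agent.Helper13.MS.FN

/-!
# The multi-scale argument for an arbitrary twisted homomorphism with a free plane
-/

set_option autoImplicit false

namespace Pool.Agent.Helper74.MU

open Pool.Agent.Helper13.MS

/-- A twisted homomorphism with a free plane gives speed exponent one. -/
theorem exponent_one_of_plane {G K : Type} [Group G] [Field K] (Tw : Twisted G K) (hφ : ∃ g ∈ commutator G, Tw.φ g ≠ 0)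
    (g₁ g₂ : G) (hxy : FreePlane (Tw.χ g₁ : K) (Tw.χ g₂ : K))
    (Ω : Type) [Fintype Ω] [Nonempty Ω] (s : Ω → G) (σ : Ω ≃ Ω) (hσ : ∀ ω, s (σ ω) = (s ω)⁻¹)
    (hs : Subgroup.closure (Set.range s) = ⊤) :
    Filter.Tendsto (fun n : ℕ => Real.log (expectedLength s n) / Real.log n) Filter.atTop (nhds 1) := by
  obtain ⟨α, β, hαβ⟩ := exists_pair Tw hφ s hs
  set s' : Ω → Kˣ := fun ω => Tw.χ (s ω) with hs'
  have hσ' : ∀ ω, s' (σ ω) = (s' ω)⁻¹ := fun ω => by simp [hs', hσ]
  have hcl : ∀ g : G, Tw.χ g ∈ Subgroup.closure (Set.range s') := by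
    intro g
    have h1 : g ∈ Subgroup.closure (Set.range s) := hs ▸ Subgroup.mem_top g
    have h2 : Set.range s' = Tw.χ '' Set.range s := by
      rw [← Set.range_comp]; rfl
    rw [h2, ← MonoidHom.map_closure]
    exact ⟨g, h1, rfl⟩
  have hm := fun Kn : ℕ => multi (hfun K) s' σ hσ' α β (Tw.χ g₁) (Tw.χ g₂) (hcl g₁) (hcl g₂) (hK_grid _ _ hxy) Kn
  set D : ℝ := Real.log 2 + Real.log (Fintype.card Ω) with hD
  have hl2 : 0 < Real.log 2 := Real.log_pos (by norm_num)
  have hcard : (1 : ℝ) ≤ Fintype.card Ω := by exact_mod_cast Fintype.card_pos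
  have hD0 : 0 < D := by
    have := Real.log_nonneg hcard
    linarith
  refine tendsto_of_multi s σ hσ hs (Real.log 2 / (2 * (Fintype.card Ω : ℝ) ^ 2) / D) (Real.log 2 / D) (by positivity) ?_
  intro Kn
  obtain ⟨c0, hc0⟩ := hm Kn
  refine ⟨max c0 1, fun c hc J hJ => ?_⟩
  have h1 := hc0 c (le_trans (le_max_left _ _) hc) J hJ
  have hc1 : 1 ≤ c := le_trans (le_max_right _ _) hc
  have h2 := swapping Tw s σ hσ hs α β hαβ (c ^ 8) J (Nat.one_le_pow _ _ hc1)
  have h3 := le_trans h1 h2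
  rw [← hD] at h3
  rw [div_mul_eq_mul_div, ← sub_div, div_le_iff₀ hD0]
  linarith

end Pool.Agent.Helper74.MU
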