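import Pool.Agent.Helper74.MU.C5

set_option autoImplicit false

namespace Pool.Agent.Helper74.MU

open Polynomial

section

variable {ι A M : Type} [Fintype ι] [CommRing A] [AddCommGroup M] [Module A M] {x : ι → Aˣ}

private theorem bdd_mono67 {F0 : Finset M} {N N' : ℕ} (h : N ≤ N') {a : M} (ha : Bdd x F0 N a) :
    Bdd x F0 N' a := by
  obtain ⟨l, h1, h2, h3⟩ := ha
  exact ⟨l, h1.trans (Nat.pow_le_pow_left h 2),
    fun e he => ⟨(h2 e he).1.trans (by exact_mod_cast h), (h2 e he).2⟩, h3⟩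

omit [Fintype ι] in
private theorem EE_mono67 {k : ℕ} (z : Aˣ) (m : Fin k → M) {s r r' B B' : ℕ} (hr : r ≤ r')
    (hB : B ≤ B') {a : M} (h : a ∈ EE z m s r B) : a ∈ EE z m s r' B' := by
  obtain ⟨b, h1, h2, h3⟩ := h
  exact ⟨b, fun i => (h1 i).trans_le (by exact_mod_cast hr),
    fun i j => (h2 i j).trans (by exact_mod_cast hB), h3⟩

omit [Fintype ι] in
private theorem zero_mem_EE67 {k : ℕ} (z : Aˣ) (m : Fin k → M) (s r B : ℕ) :
    (0 : M) ∈ EE z m s r B := by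
  refine ⟨0, fun i => ?_, fun i j => by simp, by simp [comb]⟩
  rw [Pi.zero_apply, Polynomial.degree_zero]
  exact WithBot.bot_lt_coe r

private theorem split67 [DecidableEq M] (W E : Finset M) (l : List M)
    (hl : ∀ u ∈ l, u ∈ Finset.image₂ (fun a b => a + b) W E) :
    ∃ l' : List M, l'.length = 2 * l.length ∧ l'.sum = l.sum ∧ ∀ v ∈ l', v ∈ W ∨ v ∈ E := by
  induction l with
  | nil => exact ⟨[], rfl, rfl, by simp⟩
  | cons u l ih =>
    obtain ⟨l', h1, h2, h3⟩ := ih fun v hv => hl v (List.mem_cons_of_mem _ hv)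
    obtain ⟨w, hw, e, he, hwe⟩ := Finset.mem_image₂.1 (hl u List.mem_cons_self)
    refine ⟨w :: e :: l', ?_, ?_, ?_⟩
    · simp only [List.length_cons, h1]
      ring
    · simp only [List.sum_cons, h2, ← hwe, add_assoc]
    · intro v hv
      rcases List.mem_cons.1 hv with rfl | hv
      · exact Or.inl hw
      · rcases List.mem_cons.1 hv with rfl | hv
        · exact Or.inr he
        · exact h3 v hv

private theorem pigeon67 (f : ℕ → ℕ) (K I : ℕ) (h : ∀ i < I + 1, K * f i < f (i + 1)) :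
    K ^ (I + 1) * f 0 < f (I + 1) := by
  induction I with
  | zero => simpa using h 0 (by omega)
  | succ I ih =>
    have h1 := ih fun i hi => h i (by omega)
    have h2 := h (I + 1) (by omega)
    calc K ^ (I + 1 + 1) * f 0 = K * (K ^ (I + 1) * f 0) := by ring
      _ ≤ K * f (I + 1) := Nat.mul_le_mul_left _ h1.le
      _ < f (I + 1 + 1) := h2

/-- the number of doublings -/
private theorem steps67 (ε : ℝ) (hε : 0 < ε) (hε1 : ε ≤ 1) (R : ℕ) (hR : 1 ≤ R) :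
    ∃ I : ℕ, (2 : ℝ) ^ (I + 1) ≤ 2 * (R : ℝ) ^ ε ∧ 2 ^ (I + 1) ≤ 2 * R ∧
      R ≤ 2 ^ ((I + 1) * ⌈1 / ε⌉₊) := by
  have hR1 : (1 : ℝ) ≤ R := by exact_mod_cast hR
  have hL0 : 0 ≤ Real.logb 2 R := Real.logb_nonneg (by norm_num) hR1
  have hRL : (2 : ℝ) ^ Real.logb 2 R = R :=
    Real.rpow_logb (by norm_num) (by norm_num) (by linarith)
  have hRε : (R : ℝ) ^ ε = (2 : ℝ) ^ (ε * Real.logb 2 R) := by
    rw [mul_comm, Real.rpow_mul (by norm_num), hRL]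
  have h1 : (2 : ℝ) ^ (⌊ε * Real.logb 2 R⌋₊ + 1) ≤ 2 * (R : ℝ) ^ ε := by
    rw [pow_succ, mul_comm, hRε, ← Real.rpow_natCast]
    refine mul_le_mul_of_nonneg_left ?_ (by norm_num)
    exact Real.rpow_le_rpow_of_exponent_le (by norm_num) (Nat.floor_le (by positivity))
  refine ⟨⌊ε * Real.logb 2 R⌋₊, h1, ?_, ?_⟩
  · have h2 : (R : ℝ) ^ ε ≤ R := by
      calc (R : ℝ) ^ ε ≤ (R : ℝ) ^ (1 : ℝ) := Real.rpow_le_rpow_of_exponent_le hR1 hε1
        _ = R := Real.rpow_one _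
    have h3 : (2 : ℝ) ^ (⌊ε * Real.logb 2 R⌋₊ + 1) ≤ 2 * (R : ℝ) := by linarith
    exact_mod_cast h3
  · have h4 : ε * Real.logb 2 R < (⌊ε * Real.logb 2 R⌋₊ : ℝ) + 1 := Nat.lt_floor_add_one _
    have h5 : Real.logb 2 R ≤ ((⌊ε * Real.logb 2 R⌋₊ : ℝ) + 1) * (⌈1 / ε⌉₊ : ℝ) := by
      have h6 : 1 / ε ≤ (⌈1 / ε⌉₊ : ℝ) := Nat.le_ceil _
      have h7 : Real.logb 2 R ≤ ((⌊ε * Real.logb 2 R⌋₊ : ℝ) + 1) * (1 / ε) := by
        rw [mul_one_div, le_div_iff₀ hε]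
        linarith [mul_comm ε (Real.logb 2 R)]
      exact h7.trans (mul_le_mul_of_nonneg_left h6 (by positivity))
    have h8 : (R : ℝ) ≤ (2 : ℝ) ^ ((⌊ε * Real.logb 2 R⌋₊ + 1) * ⌈1 / ε⌉₊) := by
      calc (R : ℝ) = (2 : ℝ) ^ Real.logb 2 R := hRL.symm
        _ ≤ (2 : ℝ) ^ (((⌊ε * Real.logb 2 R⌋₊ : ℝ) + 1) * (⌈1 / ε⌉₊ : ℝ)) :=
            Real.rpow_le_rpow_of_exponent_le (by norm_num) h5
        _ = (2 : ℝ) ^ ((⌊ε * Real.logb 2 R⌋₊ + 1) * ⌈1 / ε⌉₊) := by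
            rw [← Real.rpow_natCast]
            push_cast
            rfl
    exact_mod_cast h8

private theorem zero_mem_dbl67 [DecidableEq M] (U : Finset M) (h : (0 : M) ∈ U) (i : ℕ) :
    (0 : M) ∈ dbl U i := by
  induction i with
  | zero => exact h
  | succ i ih => exact Finset.mem_image₂.2 ⟨0, ih, 0, ih, add_zero _⟩

private theorem sub_dbl67 [DecidableEq M] (U : Finset M) (h : (0 : M) ∈ U) (i : ℕ) {u : M}
    (hu : u ∈ U) : u ∈ dbl U i := by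
  induction i with
  | zero => exact hu
  | succ i ih => exact Finset.mem_image₂.2 ⟨u, ih, 0, zero_mem_dbl67 U h i, add_zero _⟩

/-- Block MU-AT (pigeonhole). Proof: `E` = window set, `U = W + E ∋ 0`, `I = ⌊ε log₂ R⌋ + 1`; the sizes of `dbl U i`, `0 ≤ i ≤ I`, grow in total by a factor `≤ (C₂ R)^C₂` (as `|E| ≤ |U|`; w.l.o.g. `ε ≤ 1`, `2^I ≤ 2 R^ε ≤ 2R`), so some
`i < I` has `|dbl U (i+1)| ≤ K |dbl U i|`; `Ω = dbl U i`, `Ω' = dbl U (i+1)`. -/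
theorem AT (S : Setup x M) (F0 : Finset M) (c : ℕ) (ε : ℝ) (hε : 0 < ε) : ∃ K : ℕ, 0 < K ∧ ∀ R : ℕ, 1 ≤ R →
    ∀ W : Finset M, 0 ∈ W → (∀ w ∈ W, Bdd x F0 (c * R) w) → ∃ Ω Ω' : Finset M, Ω.Nonempty ∧ (∀ u ∈ Ω, ∀ w ∈ W, u + w ∈ Ω') ∧
      Ω'.card ≤ K * Ω.card ∧ ∀ u ∈ Ω', ∃ l : List M, (l.length : ℝ) ≤ K * (R : ℝ) ^ ε ∧ u = l.sum ∧
        ∀ v ∈ l, v ∈ W ∨ ∃ s ≤ K * R, v ∈ EE (mono x S.a) S.m s (K * R) K := by
  classical
  obtain ⟨C₁, C₂, hC₁, hC₂, hcov⟩ := cover S F0 (c + 1) (by omega)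
  set ε' : ℝ := min ε 1 with hε'
  have hε'0 : 0 < ε' := lt_min hε one_pos
  have hε'1 : ε' ≤ 1 := min_le_right _ _
  set mm : ℕ := ⌈1 / ε'⌉₊ with hmm
  set K' : ℕ := C₂ ^ C₂ * 2 ^ (mm * C₂) with hK'
  set K : ℕ := K' + 4 + (2 * C₁ + 1) + (3 + S.B₀) with hK
  refine ⟨K, by omega, ?_⟩
  intro R hR W h0W hW
  obtain ⟨I, hI1, hI2, hI3⟩ := steps67 ε' hε'0 hε'1 R hR
  set E : Finset M := (EE_finite (mono x S.a) S.m (C₁ * R) (2 * C₁ * R + 1) (3 + S.B₀)).toFinset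
    with hE
  have hEc : (E : Set M) = EE (mono x S.a) S.m (C₁ * R) (2 * C₁ * R + 1) (3 + S.B₀) := by
    rw [hE, Set.Finite.coe_toFinset]
  have hmemE : ∀ v, v ∈ E ↔ v ∈ EE (mono x S.a) S.m (C₁ * R) (2 * C₁ * R + 1) (3 + S.B₀) := by
    intro v
    rw [← hEc, Finset.mem_coe]
  have h0E : (0 : M) ∈ E := (hmemE 0).2 (zero_mem_EE67 _ _ _ _ _)
  set U : Finset M := Finset.image₂ (fun a b => a + b) W E with hU
  have hWU : ∀ w ∈ W, w ∈ U := fun w hw => Finset.mem_image₂.2 ⟨w, hw, 0, h0E, add_zero _⟩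
  have h0U : (0 : M) ∈ U := hWU 0 h0W
  have hEU : E.card ≤ U.card :=
    Finset.card_le_card fun e he => Finset.mem_image₂.2 ⟨0, h0W, e, he, zero_add _⟩
  have hbig : (dbl U (I + 1)).card ≤ (C₂ * R) ^ C₂ * E.card :=
    hcov R hR W E (fun w hw => bdd_mono67 (Nat.mul_le_mul_right R (by omega)) (hW w hw)) hEc
      (I + 1) hI2
  have hKI : (C₂ * R) ^ C₂ ≤ K' ^ (I + 1) := by
    calc (C₂ * R) ^ C₂ ≤ (C₂ * 2 ^ ((I + 1) * mm)) ^ C₂ :=
          Nat.pow_le_pow_left (Nat.mul_le_mul_left _ hI3) _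
      _ = C₂ ^ C₂ * (2 ^ (mm * C₂)) ^ (I + 1) := by
          rw [mul_pow, ← pow_mul, ← pow_mul]
          congr 2
          ring
      _ ≤ (C₂ ^ C₂) ^ (I + 1) * (2 ^ (mm * C₂)) ^ (I + 1) := by
          refine Nat.mul_le_mul_right _ ?_
          exact Nat.le_self_pow (by omega) _
      _ = K' ^ (I + 1) := by rw [hK', mul_pow]
  have hex : ∃ i < I + 1, (dbl U (i + 1)).card ≤ K' * (dbl U i).card := by
    by_contra hcon
    push Not at hcon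
    have h1 := pigeon67 (fun i => (dbl U i).card) K' I hcon
    have h2 : (dbl U (I + 1)).card ≤ K' ^ (I + 1) * (dbl U 0).card := by
      calc (dbl U (I + 1)).card ≤ (C₂ * R) ^ C₂ * E.card := hbig
        _ ≤ K' ^ (I + 1) * U.card := Nat.mul_le_mul hKI hEU
    exact absurd h1 (not_lt.2 h2)
  obtain ⟨i, hi, hcard⟩ := hex
  refine ⟨dbl U i, dbl U (i + 1), ⟨0, zero_mem_dbl67 U h0U i⟩, ?_, ?_, ?_⟩
  · intro u hu w hw
    exact Finset.mem_image₂.2 ⟨u, hu, w, sub_dbl67 U h0U i (hWU w hw), rfl⟩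
  · exact hcard.trans (Nat.mul_le_mul_right _ (by omega))
  · intro u hu
    obtain ⟨l, hl1, hl2, hl3⟩ := (mem_dbl U (i + 1) u).1 hu
    obtain ⟨l', hl1', hl2', hl3'⟩ := split67 W E l hl2
    refine ⟨l', ?_, by rw [hl2', hl3], ?_⟩
    · have hR1 : (1 : ℝ) ≤ R := by exact_mod_cast hR
      have h1 : (l'.length : ℝ) = 2 * 2 ^ (i + 1) := by
        rw [hl1', hl1]
        push_cast
        ring
      have h2 : (2 : ℝ) ^ (i + 1) ≤ 2 ^ (I + 1) :=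
        pow_le_pow_right₀ (by norm_num) (by omega)
      have h3 : (R : ℝ) ^ ε' ≤ (R : ℝ) ^ ε :=
        Real.rpow_le_rpow_of_exponent_le hR1 (min_le_left _ _)
      have h4 : (4 : ℝ) ≤ K := by
        have : 4 ≤ K := by omega
        exact_mod_cast this
      have h5 : (0 : ℝ) ≤ (R : ℝ) ^ ε := by positivity
      calc (l'.length : ℝ) = 2 * 2 ^ (i + 1) := h1
        _ ≤ 2 * (2 * (R : ℝ) ^ ε') := by linarith
        _ ≤ 4 * (R : ℝ) ^ ε := by linarith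
        _ ≤ K * (R : ℝ) ^ ε := mul_le_mul_of_nonneg_right h4 h5
    · intro v hv
      rcases hl3' v hv with hv | hv
      · exact Or.inl hv
      · refine Or.inr ⟨C₁ * R, Nat.mul_le_mul_right _ (by omega), ?_⟩
        refine EE_mono67 _ _ ?_ (by omega) ((hmemE v).1 hv)
        calc 2 * C₁ * R + 1 ≤ 2 * C₁ * R + R := by omega
          _ = (2 * C₁ + 1) * R := by ring
          _ ≤ K * R := Nat.mul_le_mul_right _ (by omega)

end

end Pool.Agent.Helper74.MU
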