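import Pool.Agent.Helper74.MU.Defs

set_option autoImplicit false

namespace Pool.Agent.Helper74.MU

open Polynomial TensorProduct

/-- the action of `A` on `ℂ ⊗ M` -/
private noncomputable def rho94 (A M : Type) [CommRing A] [AddCommGroup M] [Module A M] :
    A →+* Module.End ℂ (ℂ ⊗[ℤ] M) :=
  ((Module.End.baseChangeHom ℤ ℂ M : Module.End ℤ M →ₐ[ℤ] Module.End ℂ (ℂ ⊗[ℤ] M)) :
    Module.End ℤ M →+* Module.End ℂ (ℂ ⊗[ℤ] M)).comp (Module.toModuleEnd ℤ M)

private theorem rho94_tmul {A M : Type} [CommRing A] [AddCommGroup M] [Module A M] (b : A) (c : ℂ) (v : M) :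
    rho94 A M b (c ⊗ₜ[ℤ] v) = c ⊗ₜ[ℤ] (b • v) := rfl

private theorem strip94 {A : Type} [CommRing A] (z : Aˣ) (n : ℕ) : ∀ F : ℤ[X], F.natDegree ≤ n → F ≠ 0 →
    aeval (z : A) F = 0 → ∃ G : ℤ[X], G.coeff 0 ≠ 0 ∧ aeval (z : A) G = 0 := by
  induction n with
  | zero =>
    intro F hn hF hz
    refine ⟨F, fun h0 => hF ?_, hz⟩
    rw [Polynomial.eq_C_of_natDegree_le_zero hn, h0, C_0]
  | succ n ih =>
    intro F hn hF hz
    by_cases h0 : F.coeff 0 = 0
    · have h1 : divX F * X = F := by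
        have := divX_mul_X_add F
        rwa [h0, C_0, add_zero] at this
      refine ih (divX F) ?_ ?_ ?_
      · rw [natDegree_divX_eq_natDegree_tsub_one]
        omega
      · intro h
        rw [h, zero_mul] at h1
        exact hF h1.symm
      · have h2 : aeval (z : A) (divX F) * (z : A) = 0 := by
          have := congrArg (aeval (z : A)) h1
          rw [map_mul, aeval_X] at this
          rw [this, hz]
        have h3 := congrArg (fun y => y * ((z⁻¹ : Aˣ) : A)) h2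
        simpa [mul_assoc] using h3
    · exact ⟨F, h0, hz⟩

private theorem aev94 {A M : Type} [CommRing A] [AddCommGroup M] [Module A M] (z : A) (b : ℤ[X]) :
    rho94 A M (aeval z b) = aeval (rho94 A M z) b := by
  have := Polynomial.aeval_algHom_apply (rho94 A M).toIntAlgHom z b
  exact this.symm

/-- Block MU-B0. `ℂ ⊗ M` is finite dimensional. (Divide `F` by a power of `X`: `F(0) ≠ 0`, `z` is a unit. The span of the `1 ⊗ z^j m_i`, `j < deg F`, is stable under `z` and, being finite dimensional and `z` injective on it, under `z⁻¹`;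
so it contains all `1 ⊗ a`.) -/
theorem B0 {A M : Type} [CommRing A] [AddCommGroup M] [Module A M] (z : Aˣ) {k : ℕ} (m : Fin k → M) (hm : GenBy z m)
    (F : ℤ[X]) (hF : F ≠ 0) (hF0 : aeval (z : A) F = 0) : Module.Finite ℂ (ℂ ⊗[ℤ] M) := by
  obtain ⟨G, hG, hGz⟩ := strip94 z F.natDegree F le_rfl hF hF0
  set T : Module.End ℂ (ℂ ⊗[ℤ] M) := rho94 A M (z : A) with hT
  set T' : Module.End ℂ (ℂ ⊗[ℤ] M) := rho94 A M ((z⁻¹ : Aˣ) : A) with hT'
  set S := Algebra.adjoin ℂ ({T} : Set (Module.End ℂ (ℂ ⊗[ℤ] M))) with hS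
  have hmem : ∀ b : ℤ[X], aeval T b ∈ S := by
    intro b
    rw [← Polynomial.aeval_map_algebraMap ℂ T b]
    exact Polynomial.aeval_mem_adjoin_singleton ℂ T
  have hGT : aeval T G = 0 := by
    rw [hT, ← aev94, hGz, map_zero]
  have hint : IsIntegral ℂ T := by
    apply IsAlgebraic.isIntegral
    refine ⟨G.map (algebraMap ℤ ℂ), ?_, ?_⟩
    · intro h
      apply hG
      have := congrArg (fun p => coeff p 0) h
      simpa using this
    · rw [Polynomial.aeval_map_algebraMap, hGT]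
  have hfg : (Subalgebra.toSubmodule S).FG := hint.fg_adjoin_singleton
  have hT'S : T' ∈ S := by
    have h1 : aeval (z : A) (divX G) * (z : A) + ((G.coeff 0 : ℤ) : A) = 0 := by
      have := congrArg (aeval (z : A)) (divX_mul_X_add G)
      rw [map_add, map_mul, aeval_X, hGz, aeval_C] at this
      simpa using this
    have h2 : aeval (z : A) (divX G) + ((G.coeff 0 : ℤ) : A) * ((z⁻¹ : Aˣ) : A) = 0 := by
      have h3 := congrArg (fun y => y * ((z⁻¹ : Aˣ) : A)) h1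
      simpa [add_mul, mul_assoc] using h3
    have h4 : aeval T (divX G) + (G.coeff 0 : ℤ) • T' = 0 := by
      have h5 := congrArg (rho94 A M) h2
      rw [map_add, map_mul, aev94, map_zero, map_intCast] at h5
      rw [← h5, zsmul_eq_mul]
    have h6 : T' = (-((G.coeff 0 : ℤ) : ℂ)⁻¹) • aeval T (divX G) := by
      have h7 : aeval T (divX G) = -(((G.coeff 0 : ℤ) : ℂ) • T') := by
        rw [eq_neg_of_add_eq_zero_left h4]
        congr 1
        exact (Int.cast_smul_eq_zsmul ℂ _ _).symm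
      have h8 : ((G.coeff 0 : ℤ) : ℂ) ≠ 0 := by exact_mod_cast hG
      rw [h7]
      refine LinearMap.ext fun x => ?_
      show T' x = (-((G.coeff 0 : ℤ) : ℂ)⁻¹) • (-(((G.coeff 0 : ℤ) : ℂ) • T' x))
      rw [smul_neg, neg_smul, neg_neg, smul_smul, inv_mul_cancel₀ h8, one_smul]
    rw [h6]
    exact S.smul_mem (hmem _) _
  let N : Submodule ℂ (ℂ ⊗[ℤ] M) := ⨆ i : Fin k, (Subalgebra.toSubmodule S).map
    (LinearMap.applyₗ ((1 : ℂ) ⊗ₜ[ℤ] m i) : Module.End ℂ (ℂ ⊗[ℤ] M) →ₗ[ℂ] (ℂ ⊗[ℤ] M))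
  have hN : N.FG := Submodule.fg_iSup _ fun i => hfg.map _
  have hkey : ∀ (i : Fin k) (U : Module.End ℂ (ℂ ⊗[ℤ] M)), U ∈ S → U ((1 : ℂ) ⊗ₜ[ℤ] m i) ∈ N := by
    intro i U hU
    exact Submodule.mem_iSup_of_mem i ⟨U, hU, rfl⟩
  have htop : N = ⊤ := by
    rw [eq_top_iff]
    intro x _
    induction x using TensorProduct.induction_on with
    | zero => exact N.zero_mem
    | add x y hx hy => exact N.add_mem (hx trivial) (hy trivial)
    | tmul c a =>
      obtain ⟨s, b, hab⟩ := hm a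
      have h1 : (1 : ℂ) ⊗ₜ[ℤ] a = ∑ i, (T' ^ s * aeval T (b i)) ((1 : ℂ) ⊗ₜ[ℤ] m i) := by
        have h2 : ∀ i, (T' ^ s * aeval T (b i)) ((1 : ℂ) ⊗ₜ[ℤ] m i) =
            rho94 A M (((z⁻¹ : Aˣ) : A) ^ s * aeval (z : A) (b i)) ((1 : ℂ) ⊗ₜ[ℤ] m i) := by
          intro i
          rw [map_mul, map_pow, aev94]
        rw [Finset.sum_congr rfl fun i _ => h2 i]
        simp only [rho94_tmul]
        rw [← TensorProduct.tmul_sum, hab, comb, Finset.smul_sum]
        congr 1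
        exact Finset.sum_congr rfl fun i _ => smul_smul _ _ _
      have h3 : c ⊗ₜ[ℤ] a = c • ((1 : ℂ) ⊗ₜ[ℤ] a) := by
        rw [TensorProduct.smul_tmul', smul_eq_mul, mul_one]
      rw [h3, h1]
      exact N.smul_mem _ (N.sum_mem fun i _ => hkey i _ (S.mul_mem (S.pow_mem hT'S s) (hmem _)))
  exact ⟨htop ▸ hN⟩

/-- Block MU-B1 (realisation). `Φ a = coordinates of 1 ⊗ a` in a basis of `ℂ ⊗ M`, `ρ b = base change of the multiplication by b`. The last property is
`TensorProduct.vanishesTrivially_of_sum_tmul_eq_zero_of_rTensor_injective` (`ℂ` is flat over `ℤ`). -/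
theorem B1 {A M : Type} [CommRing A] [AddCommGroup M] [Module A M] (hfin : Module.Finite ℂ (ℂ ⊗[ℤ] M)) :
    ∃ (n : ℕ) (Φ : M →+ (Fin n → ℂ)) (ρ : A →+* Module.End ℂ (Fin n → ℂ)), (∀ b v, Φ (b • v) = ρ b (Φ v)) ∧
      Submodule.span ℂ (Set.range Φ) = ⊤ ∧
      ∀ (N : ℕ) (f : Fin N → M) (y : Fin N → ℂ), ∑ i, y i • Φ (f i) = 0 →
        ∃ (κ : ℕ) (L : Fin κ → Fin N → ℤ) (w : Fin κ → ℂ), (∀ t, ∑ i, L t i • f i = 0) ∧ ∀ i, y i = ∑ t, w t * (L t i : ℂ) := by
  let e : (ℂ ⊗[ℤ] M) ≃ₗ[ℂ] (Fin (Module.finrank ℂ (ℂ ⊗[ℤ] M)) → ℂ) := (Module.finBasis ℂ (ℂ ⊗[ℤ] M)).equivFun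
  let Φ : M →+ (Fin (Module.finrank ℂ (ℂ ⊗[ℤ] M)) → ℂ) :=
    { toFun := fun v => e ((1 : ℂ) ⊗ₜ[ℤ] v)
      map_zero' := by rw [TensorProduct.tmul_zero, map_zero]
      map_add' := fun v w => by rw [TensorProduct.tmul_add, map_add] }
  have hΦ : ∀ v, Φ v = e ((1 : ℂ) ⊗ₜ[ℤ] v) := fun _ => rfl
  refine ⟨_, Φ, (((LinearEquiv.conjAlgEquiv ℂ e : _ ≃ₐ[ℂ] _) : _ →+* _)).comp (rho94 A M), ?_, ?_, ?_⟩
  · intro b v
    show e _ = e (rho94 A M b (e.symm (e _)))
    rw [e.symm_apply_apply, rho94_tmul]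
  · have h1 : Set.range Φ = e '' (Set.range fun v : M => (1 : ℂ) ⊗ₜ[ℤ] v) := by
      rw [← Set.range_comp]
      rfl
    have h2 : Submodule.span ℂ (Set.range fun v : M => (1 : ℂ) ⊗ₜ[ℤ] v) = ⊤ := by
      rw [eq_top_iff]
      intro x _
      induction x using TensorProduct.induction_on with
      | zero => exact Submodule.zero_mem _
      | add x y hx hy => exact Submodule.add_mem _ (hx trivial) (hy trivial)
      | tmul c a =>
        have h3 : c ⊗ₜ[ℤ] a = c • ((1 : ℂ) ⊗ₜ[ℤ] a) := by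
          rw [TensorProduct.smul_tmul', smul_eq_mul, mul_one]
        rw [h3]
        exact Submodule.smul_mem _ _ (Submodule.subset_span ⟨a, rfl⟩)
    have h4 := Submodule.map_span e.toLinearMap (Set.range fun v : M => (1 : ℂ) ⊗ₜ[ℤ] v)
    rw [h1]
    rw [h2, Submodule.map_top] at h4
    rw [← LinearEquiv.range e]
    exact h4.symm
  · intro N f y hy
    have h1 : ∑ i, f i ⊗ₜ[ℤ] y i = (0 : M ⊗[ℤ] ℂ) := by
      have h2 : e (∑ i, y i ⊗ₜ[ℤ] f i) = 0 := by
        rw [map_sum, ← hy]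
        refine Finset.sum_congr rfl fun i _ => ?_
        rw [hΦ, ← map_smul, TensorProduct.smul_tmul', smul_eq_mul, mul_one]
      have h3 : ∑ i, y i ⊗ₜ[ℤ] f i = (0 : ℂ ⊗[ℤ] M) := (LinearEquiv.map_eq_zero_iff e).1 h2
      have h4 := congrArg (TensorProduct.comm ℤ ℂ M) h3
      rw [map_sum, map_zero] at h4
      simpa using h4
    have h5 : TensorProduct.VanishesTrivially ℤ f y :=
      TensorProduct.vanishesTrivially_of_sum_tmul_eq_zero_of_rTensor_injective ℤ
        (Module.Flat.rTensor_preserves_injective_linearMap _ (Submodule.injective_subtype _)) h1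
    obtain ⟨κ, a, w, h6, h7⟩ := h5
    refine ⟨κ, fun t i => a i t, w, h7, fun i => ?_⟩
    rw [h6 i]
    refine Finset.sum_congr rfl fun t _ => ?_
    rw [zsmul_eq_mul, mul_comm]

end Pool.Agent.Helper74.MU
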