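import Pool.Agent.Helper74.MU.Defs

set_option autoImplicit false

namespace Pool.Agent.Helper74.MU

open scoped commutatorElement

/-- the submodule spanned by the classes of the commutators of generators contains all classes (after helper30) -/
private theorem cl_mem_helper75 (G : Type) [Group G] (R M : Type) [CommRing R] [AddCommGroup M] [Module R M]
    (r : G → R) (cl : G → M)
    (h1 : ∀ a ∈ commutator G, ∀ b ∈ commutator G, cl (a * b) = cl a + cl b)
    (h2 : ∀ g, ∀ a ∈ commutator G, cl (g * a * g⁻¹) = r g • cl a)
    (S : Set G) (hS : Subgroup.closure S = ⊤) (W : Submodule R M)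
    (hW : ∀ s ∈ S, ∀ s' ∈ S, cl ⁅s, s'⁆ ∈ W) : ∀ a ∈ commutator G, cl a ∈ W := by
  have hone : cl 1 = 0 := by
    have h := h1 1 (one_mem _) 1 (one_mem _)
    rw [mul_one] at h
    exact left_eq_add.mp h
  let P : Subgroup G :=
    { carrier := {a | a ∈ commutator G ∧ cl a ∈ W}
      mul_mem' := by
        rintro a b ⟨ha, ha'⟩ ⟨hb, hb'⟩
        exact ⟨mul_mem ha hb, by rw [h1 a ha b hb]; exact W.add_mem ha' hb'⟩
      one_mem' := ⟨one_mem _, by rw [hone]; exact W.zero_mem⟩
      inv_mem' := by
        rintro a ⟨ha, ha'⟩
        refine ⟨inv_mem ha, ?_⟩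
        have h := h1 a ha a⁻¹ (inv_mem ha)
        rw [mul_inv_cancel, hone] at h
        rw [eq_neg_of_add_eq_zero_right h.symm]
        exact W.neg_mem ha' }
  have hPn : P.Normal := by
    constructor
    rintro a ⟨ha, ha'⟩ g
    refine ⟨?_, ?_⟩
    · exact (inferInstance : (commutator G).Normal).conj_mem a ha g
    · rw [h2 g a ha]
      exact W.smul_mem _ ha'
  have hcomm : ∀ s ∈ S, ∀ s' ∈ S, Commute (QuotientGroup.mk' P s) (QuotientGroup.mk' P s') := by
    intro s hs s' hs'
    rw [← commutatorElement_eq_one_iff_commute, ← map_commutatorElement, QuotientGroup.mk'_apply,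
      QuotientGroup.eq_one_iff]
    refine ⟨?_, hW s hs s' hs'⟩
    exact Subgroup.commutator_mem_commutator (Subgroup.mem_top _) (Subgroup.mem_top _)
  have hstep : ∀ s ∈ S, ∀ g : G, Commute (QuotientGroup.mk' P s) (QuotientGroup.mk' P g) := by
    intro s hs g
    have hg : g ∈ Subgroup.closure S := by rw [hS]; exact Subgroup.mem_top _
    induction hg using Subgroup.closure_induction with
    | mem x hx => exact hcomm s hs x hx
    | one => rw [map_one]; exact Commute.one_right _
    | mul x y _ _ hx hy => rw [map_mul]; exact hx.mul_right hy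
    | inv x _ hx => rw [map_inv]; exact hx.inv_right
  have hall : ∀ g g' : G, Commute (QuotientGroup.mk' P g) (QuotientGroup.mk' P g') := by
    intro g g'
    have hg : g ∈ Subgroup.closure S := by rw [hS]; exact Subgroup.mem_top _
    induction hg using Subgroup.closure_induction with
    | mem x hx => exact hstep x hx g'
    | one => rw [map_one]; exact Commute.one_left _
    | mul x y _ _ hx hy => rw [map_mul]; exact hx.mul_left hy
    | inv x _ hx => rw [map_inv]; exact hx.inv_left
  have hle : commutator G ≤ P := by
    rw [commutator_def, Subgroup.commutator_le]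
    intro g _ g' _
    have h := hall g g'
    rw [← commutatorElement_eq_one_iff_commute, ← map_commutatorElement, QuotientGroup.mk'_apply,
      QuotientGroup.eq_one_iff] at h
    exact h
  intro a ha
  exact (hle ha).2

/-- Block MU-BR0. The integral conjugation module of a finitely generated group: `R = MonoidAlgebra ℤ (Abelianization G)`, `M = Additive (Abelianization (commutator G))`.
(The rational version is `Pool.Agent.Helper13.MS.exists_rep` (MS/MOB1.lean) together with the proof of `twisted_of_rep` in MS/MOB2.lean: copy that construction with `ℤ` instead of `ℚ`; `R` is of finite type over `ℤ`, hence noetherian; `M` is spanned by the classes of the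
commutators of generators.) The last but one property: `cl` is onto; the last: for metabelian `G` the kernel of `cl` is trivial. -/
theorem exists_module (G : Type) [Group G] [Group.FG G] :
    ∃ (R M : Type) (_ : CommRing R) (_ : AddCommGroup M) (_ : Module R M) (r : G →* R) (cl : G → M),
      IsNoetherianRing R ∧ Module.Finite R M ∧
      (∀ a ∈ commutator G, ∀ b ∈ commutator G, cl (a * b) = cl a + cl b) ∧
      (∀ g, ∀ a ∈ commutator G, cl (g * a * g⁻¹) = r g • cl a) ∧
      (∀ m : M, ∃ a ∈ commutator G, cl a = m) ∧
      ((∀ a ∈ commutator G, ∀ b ∈ commutator G, a * b = b * a) → ∀ a ∈ commutator G, cl a = 0 → a = 1) ∧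
      ((¬ FiniteDimensional ℚ (TensorProduct ℤ ℚ (Additive (Abelianization (commutator G))))) ↔ ¬ FiniteDimensional ℚ (TensorProduct ℤ ℚ M)) := by
  classical
  let M : Type := Additive (Abelianization (commutator G))
  let ab : G → Abelianization (commutator G) →* Abelianization (commutator G) := fun g =>
    Abelianization.map (MulAut.conjNormal g : MulAut (commutator G)).toMonoidHom
  have ab_of : ∀ (g : G) (x : commutator G), ab g (Abelianization.of x) =
      Abelianization.of (MulAut.conjNormal g x) := fun g x => Abelianization.map_of _ x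
  have ab_one : ab 1 = MonoidHom.id _ := by
    ext x
    show ab 1 (Abelianization.of x) = Abelianization.of x
    rw [ab_of, map_one]
    rfl
  have ab_mul : ∀ g h, ab (g * h) = (ab g).comp (ab h) := by
    intro g h
    ext x
    show ab (g * h) (Abelianization.of x) = ab g (ab h (Abelianization.of x))
    rw [ab_of, ab_of, ab_of, map_mul]
    rfl
  let L : G → M →ₗ[ℤ] M := fun g => (MonoidHom.toAdditive (ab g)).toIntLinearMap
  have L_one : L 1 = LinearMap.id := by
    ext x
    show Additive.ofMul (ab 1 (Additive.toMul x)) = x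
    rw [ab_one]
    rfl
  have L_mul : ∀ g h, L (g * h) = (L g).comp (L h) := by
    intro g h
    ext x
    show Additive.ofMul (ab (g * h) (Additive.toMul x)) = Additive.ofMul (ab g (ab h (Additive.toMul x)))
    rw [ab_mul]
    rfl
  have L_com : ∀ g ∈ commutator G, L g = LinearMap.id := by
    intro g hg
    ext x
    induction x using Additive.rec with
    | ofMul x =>
    induction x using QuotientGroup.induction_on with
    | H x =>
    show Additive.ofMul (ab g (Abelianization.of x)) = Additive.ofMul (Abelianization.of x)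
    rw [ab_of]
    congr 1
    have h2 : (MulAut.conjNormal g x : commutator G) = ⟨g, hg⟩ * x * ⟨g, hg⟩⁻¹ := Subtype.ext (by
      rw [MulAut.conjNormal_apply]
      rfl)
    rw [h2, map_mul, map_mul, map_inv, mul_comm, ← mul_assoc, inv_mul_cancel, one_mul]
  let ρ : G →* Module.End ℤ M :=
    { toFun := fun g => L g
      map_one' := L_one
      map_mul' := fun g h => L_mul g h }
  let A : Type := Abelianization G
  let ρ' : A →* Module.End ℤ M := QuotientGroup.lift (commutator G) ρ (fun g hg => L_com g hg)
  have hρ' : ∀ g : G, ρ' (Abelianization.of g) = ρ g := fun g => rfl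
  let F : MonoidAlgebra ℤ A →ₐ[ℤ] Module.End ℤ M := MonoidAlgebra.lift ℤ (Module.End ℤ M) A ρ'
  let iM : Module (MonoidAlgebra ℤ A) M := Module.compHom M (F : MonoidAlgebra ℤ A →+* Module.End ℤ M)
  have hsm : ∀ (r : MonoidAlgebra ℤ A) (m : M), r • m = F r m := fun r m => rfl
  let of' : G →* MonoidAlgebra ℤ A := (MonoidAlgebra.of ℤ A).comp Abelianization.of
  have hof : ∀ (g : G) (m : M), of' g • m = L g m := by
    intro g m
    rw [hsm]
    have : F (of' g) = ρ g := by
      show F (MonoidAlgebra.of ℤ A (Abelianization.of g)) = ρ g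
      rw [MonoidAlgebra.lift_of]
      exact hρ' g
    rw [this]
    rfl
  let cl : G → M := fun a =>
    if h : a ∈ commutator G then Additive.ofMul (Abelianization.of (⟨a, h⟩ : commutator G)) else 0
  have hcl : ∀ a (h : a ∈ commutator G), cl a = Additive.ofMul (Abelianization.of (⟨a, h⟩ : commutator G)) :=
    fun a h => dif_pos h
  have c1 : ∀ a ∈ commutator G, ∀ b ∈ commutator G, cl (a * b) = cl a + cl b := by
    intro a ha b hb
    rw [hcl _ (mul_mem ha hb), hcl _ ha, hcl _ hb, ← ofMul_mul, ← map_mul]
    rfl
  have c2 : ∀ g, ∀ a ∈ commutator G, cl (g * a * g⁻¹) = of' g • cl a := by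
    intro g a ha
    rw [hof, hcl _ (Subgroup.Normal.conj_mem inferInstance a ha g), hcl _ ha]
    show Additive.ofMul _ = Additive.ofMul (ab g (Abelianization.of _))
    rw [ab_of]
    rfl
  have c3 : ∀ m : M, ∃ a ∈ commutator G, cl a = m := by
    intro m
    induction m using Additive.rec with
    | ofMul m =>
    induction m using QuotientGroup.induction_on with
    | H z =>
    exact ⟨z, z.2, hcl _ z.2⟩
  have : Group.FG A := Group.fg_of_surjective (f := (Abelianization.of : G →* Abelianization G))
    QuotientGroup.mk_surjective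
  have : Monoid.FG A := Group.fg_iff_monoid_fg.mp inferInstance
  have : Algebra.FiniteType ℤ (MonoidAlgebra ℤ A) := inferInstance
  have hN : IsNoetherianRing (MonoidAlgebra ℤ A) := Algebra.FiniteType.isNoetherianRing ℤ _
  obtain ⟨S, hS⟩ := Group.FG.out (G := G)
  let T : Set M := Set.image2 (fun s s' => cl ⁅s, s'⁆) (S : Set G) (S : Set G)
  have hTfin : T.Finite := Set.Finite.image2 _ S.finite_toSet S.finite_toSet
  let W : Submodule (MonoidAlgebra ℤ A) M := Submodule.span (MonoidAlgebra ℤ A) T
  have hWmem : ∀ a ∈ commutator G, cl a ∈ W :=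
    cl_mem_helper75 G (MonoidAlgebra ℤ A) M of' cl c1 c2 S hS W
      (fun s hs s' hs' => Submodule.subset_span ⟨s, hs, s', hs', rfl⟩)
  have hWtop : W = ⊤ := by
    rw [eq_top_iff]
    intro m _
    obtain ⟨a, ha, rfl⟩ := c3 m
    exact hWmem a ha
  have hfin : Module.Finite (MonoidAlgebra ℤ A) M := by
    rw [Module.finite_def, ← hWtop]
    exact Submodule.fg_span hTfin
  refine ⟨MonoidAlgebra ℤ A, M, inferInstance, inferInstance, iM, of', cl, hN, hfin, c1, c2, c3, ?_, Iff.rfl⟩
  intro hab a ha h0
  rw [hcl _ ha] at h0
  have h1 : Abelianization.of (⟨a, ha⟩ : commutator G) = 1 := h0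
  have h2 : (⟨a, ha⟩ : commutator G) ∈ commutator (commutator G) := (QuotientGroup.eq_one_iff _).1 h1
  have h3 : commutator (commutator G) = ⊥ := by
    refine (Subgroup.commutator_eq_bot_iff_le_centralizer (H₁ := (⊤ : Subgroup (commutator G))) (H₂ := ⊤)).2 ?_
    intro x _
    rw [Subgroup.mem_centralizer_iff]
    intro y _
    exact Subtype.ext (hab y y.2 x x.2)
  rw [h3, Subgroup.mem_bot] at h2
  exact congrArg Subtype.val h2

end Pool.Agent.Helper74.MU
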