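import Pool.Agent.Helper74.MU.Defs

set_option autoImplicit false

namespace Pool.Agent.Helper74.MU

open Polynomial

section

variable {A M : Type} [CommRing A] [AddCommGroup M] [Module A M] {k : ℕ}

/-- coefficients bounded by `B` -/
private def cf24 (k r B : ℕ) : Set (Fin k → Fin r → ℤ) := {c | ∀ i j, |c i j| ≤ (B : ℤ)}

private noncomputable def fs24 (k r B : ℕ) : Finset (Fin k → Fin r → ℤ) :=
  Fintype.piFinset fun _ => Fintype.piFinset fun _ => Finset.Icc (-(B : ℤ)) B

private theorem cf_eq24 (k r B : ℕ) : cf24 k r B = ↑(fs24 k r B) := by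
  ext c
  simp only [cf24, fs24, Set.mem_ofPred_eq, Finset.mem_coe, Fintype.mem_piFinset, Finset.mem_Icc,
    abs_le]

private theorem fs_card24 (k r B : ℕ) : (fs24 k r B).card = (2 * B + 1) ^ (k * r) := by
  have h1 : (Finset.Icc (-(B : ℤ)) B).card = 2 * B + 1 := by
    rw [Int.card_Icc]
    omega
  rw [fs24, Fintype.card_piFinset]
  simp only [Fintype.card_piFinset, h1, Finset.prod_const, Finset.card_univ, Fintype.card_fin]
  rw [← pow_mul, mul_comm r k]

/-- the polynomials with given coefficients -/
private noncomputable def pl24 {r : ℕ} (c : Fin r → ℤ) : ℤ[X] := ∑ j : Fin r, monomial (j : ℕ) (c j)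

private theorem pl_coeff24 {r : ℕ} (c : Fin r → ℤ) (n : ℕ) :
    (pl24 c).coeff n = if h : n < r then c ⟨n, h⟩ else 0 := by
  rw [pl24, finsetSum_coeff]
  simp only [coeff_monomial]
  split_ifs with h
  · rw [Finset.sum_eq_single ⟨n, h⟩]
    · simp
    · intro j _ hj
      rw [if_neg]
      intro h1
      exact hj (Fin.ext h1)
    · intro h1
      exact absurd (Finset.mem_univ _) h1
  · apply Finset.sum_eq_zero
    intro j _
    rw [if_neg]
    intro h1
    exact h (h1 ▸ j.2)

private theorem pl_degree24 {r : ℕ} (c : Fin r → ℤ) : (pl24 c).degree < r := by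
  rw [Polynomial.degree_lt_iff_coeff_zero]
  intro m hm
  rw [pl_coeff24, dif_neg (not_lt.2 hm)]

private theorem exists_pl24 {r : ℕ} {b : ℤ[X]} (hb : b.degree < r) :
    b = pl24 fun j : Fin r => b.coeff j := by
  ext n
  rw [pl_coeff24]
  split_ifs with h
  · rfl
  · rw [Polynomial.degree_lt_iff_coeff_zero] at hb
    exact hb n (not_lt.1 h)

private theorem EE_eq24 {A M : Type} [CommRing A] [AddCommGroup M] [Module A M] {k : ℕ} (z : Aˣ)
    (m : Fin k → M) (s r B : ℕ) : EE z m s r B =
      (fun c : Fin k → Fin r → ℤ => ((↑z⁻¹ : A) ^ s) • comb (z : A) m fun i => pl24 (c i)) ''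
        cf24 k r B := by
  ext a
  constructor
  · rintro ⟨b, hb, hB, rfl⟩
    refine ⟨fun i j => (b i).coeff j, fun i j => hB i j, ?_⟩
    show ((↑z⁻¹ : A) ^ s) • comb (z : A) m (fun i => pl24 fun j : Fin r => (b i).coeff j) = _
    congr 1
    congr 1
    funext i
    exact (exists_pl24 (hb i)).symm
  · rintro ⟨c, hc, rfl⟩
    refine ⟨fun i => pl24 (c i), fun i => pl_degree24 _, fun i j => ?_, rfl⟩
    rw [pl_coeff24]
    split_ifs with h
    · exact hc i _
    · rw [abs_zero]
      exact Int.natCast_nonneg B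

private theorem comb_add24 {A M : Type} [CommRing A] [AddCommGroup M] [Module A M] {k : ℕ} (z : A)
    (m : Fin k → M) (b b' : Fin k → ℤ[X]) :
    comb z m (fun i => b i + b' i) = comb z m b + comb z m b' := by
  unfold comb
  rw [← Finset.sum_add_distrib]
  refine Finset.sum_congr rfl fun i _ => ?_
  rw [map_add, add_smul]

/-- Block MU-C1a. The window sets are finite. -/
theorem EE_finite (z : Aˣ) (m : Fin k → M) (s r B : ℕ) : (EE z m s r B).Finite := by
  rw [EE_eq24, cf_eq24]
  exact (Finset.finite_toSet _).image _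

/-- Block MU-C1b. Enlarging the window by `t` multiplies the size by at most `(2B+1)^(k t)`. (Split off the coefficients of degree `≥ r`; the shift `s` does not change the size: multiplication by the unit `z^(-s)`.) -/
theorem EE_card (z : Aˣ) (m : Fin k → M) (s s' r t B : ℕ) :
    (EE z m s' (r + t) B).ncard ≤ (2 * B + 1) ^ (k * t) * (EE z m s r B).ncard := by
  classical
  have hfin := EE_finite z m s r B
  have hsub : EE z m s' (r + t) B ⊆
      (fun p : (Fin k → Fin t → ℤ) × M => ((↑z⁻¹ : A) ^ s') • (((z : A) ^ s) • p.2 +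
        comb (z : A) m fun i => X ^ r * pl24 (p.1 i))) '' ((↑(fs24 k t B) : Set _) ×ˢ EE z m s r B) := by
    rintro a ⟨b, hb, hB, rfl⟩
    refine ⟨⟨fun i j => (b i).coeff (r + j), ((↑z⁻¹ : A) ^ s) • comb (z : A) m fun i =>
      pl24 fun j : Fin r => (b i).coeff j⟩, ⟨?_, ?_⟩, ?_⟩
    · rw [← cf_eq24]
      intro i j
      exact hB i _
    · refine ⟨fun i => pl24 fun j : Fin r => (b i).coeff j, fun i => pl_degree24 _,
        fun i j => ?_, rfl⟩
      rw [pl_coeff24]
      split_ifs with h
      · exact hB i _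
      · rw [abs_zero]
        exact Int.natCast_nonneg B
    · show ((↑z⁻¹ : A) ^ s') • (((z : A) ^ s) • (((↑z⁻¹ : A) ^ s) • comb (z : A) m fun i =>
        pl24 fun j : Fin r => (b i).coeff j) + comb (z : A) m fun i =>
          X ^ r * pl24 fun j : Fin t => (b i).coeff (r + j)) = _
      rw [smul_smul, ← mul_pow, Units.mul_inv, one_pow, one_smul, ← comb_add24]
      congr 1
      congr 1
      funext i
      ext n
      rw [coeff_add, pl_coeff24, coeff_X_pow_mul']
      by_cases h1 : n < r
      · rw [dif_pos h1, if_neg (not_le.2 h1), add_zero]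
      · rw [dif_neg h1, if_pos (not_lt.1 h1), zero_add, pl_coeff24]
        have h3 : r + (n - r) = n := Nat.add_sub_cancel' (not_lt.1 h1)
        by_cases h2 : n - r < t
        · rw [dif_pos h2]
          show (b i).coeff (r + (n - r)) = (b i).coeff n
          rw [h3]
        · rw [dif_neg h2]
          have h4 := hb i
          rw [Polynomial.degree_lt_iff_coeff_zero] at h4
          exact (h4 n (by omega)).symm
  have hfin2 : ((↑(fs24 k t B) : Set (Fin k → Fin t → ℤ)) ×ˢ EE z m s r B).Finite :=
    (Finset.finite_toSet _).prod hfin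
  refine (Set.ncard_le_ncard hsub (hfin2.image _)).trans ((Set.ncard_image_le hfin2).trans ?_)
  rw [Set.ncard_prod, Set.ncard_coe_finset, fs_card24]

/-- Block MU-C1c. Elements of the iterated doubling are sums of `2^i` elements of `U`. -/
theorem mem_dbl [DecidableEq M] (U : Finset M) (i : ℕ) (a : M) :
    a ∈ dbl U i ↔ ∃ l : List M, l.length = 2 ^ i ∧ (∀ u ∈ l, u ∈ U) ∧ a = l.sum := by
  induction i generalizing a with
  | zero =>
    constructor
    · intro ha
      exact ⟨[a], rfl, fun u hu => by rwa [List.mem_singleton.1 hu], by rw [List.sum_singleton]⟩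
    · rintro ⟨l, hl, hlU, rfl⟩
      rw [pow_zero, List.length_eq_one_iff] at hl
      obtain ⟨b, rfl⟩ := hl
      rw [List.sum_singleton]
      exact hlU b (List.mem_singleton_self b)
  | succ i ih =>
    constructor
    · intro ha
      have ha' : a ∈ Finset.image₂ (fun a b => a + b) (dbl U i) (dbl U i) := ha
      obtain ⟨b, hb, c, hc, rfl⟩ := Finset.mem_image₂.1 ha'
      obtain ⟨l, hl, hlU, rfl⟩ := (ih b).1 hb
      obtain ⟨l', hl', hlU', rfl⟩ := (ih c).1 hc
      refine ⟨l ++ l', ?_, ?_, ?_⟩
      · rw [List.length_append, hl, hl', pow_succ, mul_two]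
      · intro u hu
        rcases List.mem_append.1 hu with hu | hu
        · exact hlU u hu
        · exact hlU' u hu
      · rw [List.sum_append]
    · rintro ⟨l, hl, hlU, rfl⟩
      show l.sum ∈ Finset.image₂ (fun a b => a + b) (dbl U i) (dbl U i)
      rw [Finset.mem_image₂]
      refine ⟨(l.take (2 ^ i)).sum, (ih _).2 ⟨l.take (2 ^ i), ?_, ?_, rfl⟩,
        (l.drop (2 ^ i)).sum, (ih _).2 ⟨l.drop (2 ^ i), ?_, ?_, rfl⟩, ?_⟩
      · rw [List.length_take, hl, pow_succ]
        omega
      · intro u hu
        exact hlU u (List.mem_of_mem_take hu)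
      · rw [List.length_drop, hl, pow_succ]
        omega
      · intro u hu
        exact hlU u (List.mem_of_mem_drop hu)
      · rw [← List.sum_append, List.take_append_drop]

/-- Block MU-C1d. Counting by codes: if `f : M → κ` has at most `N` values on `X` and the difference of any two elements of `X` with the same code lies in a finite set of size `≤ E`, then `|X| ≤ N E`. -/
theorem card_codes [DecidableEq M] {κ : Type} [DecidableEq κ] (X : Finset M) (f : M → κ) (E : Set M) (hE : E.Finite)
    (h : ∀ a ∈ X, ∀ b ∈ X, f a = f b → a - b ∈ E) : X.card ≤ (X.image f).card * E.ncard := by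
  rw [mul_comm]
  apply Finset.card_le_mul_card_image
  intro c hc
  obtain ⟨b, hb, rfl⟩ := Finset.mem_image.1 hc
  have h1 : ((X.filter fun x => f x = f b).image fun x => x - b) ⊆ hE.toFinset := by
    intro y hy
    obtain ⟨x, hx, rfl⟩ := Finset.mem_image.1 hy
    rw [Finset.mem_filter] at hx
    rw [Set.Finite.mem_toFinset]
    exact h x hx.1 b hb hx.2
  have h2 := Finset.card_le_card h1
  rw [Finset.card_image_of_injective _ (sub_left_injective), ← Set.ncard_eq_toFinset_card E hE] at h2
  exact h2

/-- Block MU-C1e. Codes for vectors: the integer parts of the real and imaginary parts of the coordinates of `v / δ`. Two vectors of the same code have distance `≤ 2 δ`, and the vectors of norm `≤ N δ` have at most `(2N+3)^(2n)` codes. -/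
theorem exists_code (n : ℕ) (δ : ℝ) (hδ : 0 < δ) : ∃ f : (Fin n → ℂ) → (Fin n → ℤ × ℤ), (∀ v w, f v = f w → ‖v - w‖ ≤ 2 * δ) ∧
    ∀ N : ℕ, ∃ S : Finset (Fin n → ℤ × ℤ), S.card ≤ (2 * N + 3) ^ (2 * n) ∧ ∀ v, ‖v‖ ≤ N * δ → f v ∈ S := by
  classical
  refine ⟨fun v i => (⌊(v i).re / δ⌋, ⌊(v i).im / δ⌋), ?_, ?_⟩
  · intro v w hvw
    rw [pi_norm_le_iff_of_nonneg (by positivity)]
    intro i
    have h1 := congrFun hvw i
    have h2 : ⌊(v i).re / δ⌋ = ⌊(w i).re / δ⌋ := congrArg Prod.fst h1
    have h3 : ⌊(v i).im / δ⌋ = ⌊(w i).im / δ⌋ := congrArg Prod.snd h1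
    have key : ∀ a b : ℝ, ⌊a / δ⌋ = ⌊b / δ⌋ → |a - b| ≤ δ := by
      intro a b hab
      have h4 := (Int.abs_sub_lt_one_of_floor_eq_floor hab).le
      rw [← sub_div, abs_div, abs_of_pos hδ, div_le_one hδ] at h4
      exact h4
    have h5 := key _ _ h2
    have h6 := key _ _ h3
    have h7 := Complex.norm_le_abs_re_add_abs_im ((v - w) i)
    rw [Pi.sub_apply, Complex.sub_re, Complex.sub_im] at h7
    rw [Pi.sub_apply]
    linarith
  · intro N
    refine ⟨Fintype.piFinset fun _ => (Finset.Icc (-(N : ℤ)) N) ×ˢ (Finset.Icc (-(N : ℤ)) N),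
      ?_, ?_⟩
    · have h1 : (Finset.Icc (-(N : ℤ)) N).card = 2 * N + 1 := by
        rw [Int.card_Icc]
        omega
      rw [Fintype.card_piFinset]
      simp only [Finset.card_product, h1, Finset.prod_const, Finset.card_univ, Fintype.card_fin]
      rw [← pow_two, ← pow_mul]
      exact Nat.pow_le_pow_left (by omega) _
    · intro v hv
      rw [Fintype.mem_piFinset]
      intro i
      rw [pi_norm_le_iff_of_nonneg (by positivity)] at hv
      have key : ∀ a : ℝ, |a| ≤ N * δ → ⌊a / δ⌋ ∈ Finset.Icc (-(N : ℤ)) N := by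
        intro a ha
        rw [abs_le] at ha
        rw [Finset.mem_Icc]
        constructor
        · rw [Int.le_floor, le_div_iff₀ hδ]
          push_cast
          linarith [ha.1]
        · rw [← Int.lt_add_one_iff, Int.floor_lt, div_lt_iff₀ hδ]
          push_cast
          nlinarith [ha.2]
      rw [Finset.mem_product]
      exact ⟨key _ ((Complex.abs_re_le_norm _).trans (hv i)),
        key _ ((Complex.abs_im_le_norm _).trans (hv i))⟩

end

end Pool.Agent.Helper74.MU
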