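import Pool.Agent.Helper74.MU.Defs

set_option autoImplicit false

namespace Pool.Agent.Helper74.MU

open Polynomial

section

variable {ι A M : Type} [Fintype ι] [CommRing A] [AddCommGroup M] [Module A M] {x : ι → Aˣ}

private theorem norm_list_le {E : Type} [SeminormedAddCommGroup E] (φ : M →+ E) (K : ℝ) (l : List M)
    (h : ∀ y ∈ l, ‖φ y‖ ≤ K) : ‖φ l.sum‖ ≤ l.length * K := by
  induction l with
  | nil => simp
  | cons a l ih =>
    rw [List.sum_cons, map_add, List.length_cons]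
    refine (norm_add_le _ _).trans ?_
    have h1 := ih fun y hy => h y (List.mem_cons_of_mem _ hy)
    have h2 := h a (List.mem_cons_self ..)
    push_cast
    linarith

private theorem norm_le_sum (S : Setup x M) (F0 : Finset M) {f : M} (hf : f ∈ F0) :
    ‖S.Φ f‖ ≤ ∑ g ∈ F0, ‖S.Φ g‖ :=
  Finset.single_le_sum (f := fun g => ‖S.Φ g‖) (fun _ _ => norm_nonneg _) hf

/-- Block MU-C2a. Bounded sums have polynomially small unimodular part. -/
theorem bdd_P (S : Setup x M) (F0 : Finset M) : ∃ C : ℝ, 0 < C ∧ ∀ (N : ℕ) (a : M), 1 ≤ N → Bdd x F0 N a →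
    ‖S.P (S.Φ a)‖ ≤ C * (N : ℝ) ^ (S.e + 2) := by
  set K : ℝ := ∑ g ∈ F0, ‖S.Φ g‖ with hK
  have hK0 : 0 ≤ K := Finset.sum_nonneg fun _ _ => norm_nonneg _
  have hC := S.hC
  refine ⟨S.C * 2 ^ S.e * (K + 1), by positivity, fun N a hN hb => ?_⟩
  obtain ⟨l, hl, hl', rfl⟩ := hb
  have hN' : (1 : ℝ) ≤ N := by exact_mod_cast hN
  let φ : M →+ (Fin S.n → ℂ) := S.P.toAddMonoidHom.comp S.Φ
  have h1 := norm_list_le φ (S.C * (1 + N) ^ S.e * K) (l.map fun e => ((mono x e.1 : Aˣ) : A) • e.2) (by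
    intro y hy
    obtain ⟨e, he, rfl⟩ := List.mem_map.1 hy
    obtain ⟨h2, h3⟩ := hl' e he
    show ‖S.P (S.Φ (((mono x e.1 : Aˣ) : A) • e.2))‖ ≤ _
    rw [S.comp]
    refine (S.growth e.1 _).trans ?_
    have h4 : ∑ i, |((e.1 i : ℤ) : ℝ)| ≤ N := by exact_mod_cast h2
    gcongr
    exact norm_le_sum S F0 h3)
  refine h1.trans ?_
  rw [List.length_map]
  have h5 : (l.length : ℝ) ≤ (N : ℝ) ^ 2 := by exact_mod_cast hl
  have h6 : (1 + (N : ℝ)) ^ S.e ≤ 2 ^ S.e * (N : ℝ) ^ S.e := by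
    rw [← mul_pow]
    gcongr
    linarith
  calc (l.length : ℝ) * (S.C * (1 + N) ^ S.e * K) ≤ (N : ℝ) ^ 2 * (S.C * (2 ^ S.e * (N : ℝ) ^ S.e) * (K + 1)) := by
        gcongr
        linarith
    _ = S.C * 2 ^ S.e * (K + 1) * (N : ℝ) ^ (S.e + 2) := by ring

private theorem exists_bound {n : ℕ} (T : Module.End ℂ (Fin n → ℂ)) : ∃ L : ℝ, 1 ≤ L ∧ ∀ v, ‖T v‖ ≤ L * ‖v‖ := by
  obtain ⟨L, hL⟩ := (LinearMap.toContinuousLinearMap T).bound
  refine ⟨L + 1, by linarith [hL.1], fun v => ?_⟩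
  have h1 := hL.2 v
  have h2 : ‖T v‖ ≤ L * ‖v‖ := h1
  nlinarith [norm_nonneg v]

private theorem exists_L (S : Setup x M) : ∃ L : ℝ, 1 ≤ L ∧ ∀ i v, ‖S.ρ (x i : A) v‖ ≤ L * ‖v‖ ∧ ‖S.ρ ((x i)⁻¹ : Aˣ) v‖ ≤ L * ‖v‖ := by
  choose f hf1 hf2 using fun i => exists_bound (S.ρ (x i : A))
  choose g hg1 hg2 using fun i => exists_bound (S.ρ (((x i)⁻¹ : Aˣ) : A))
  have h0 : 0 ≤ ∑ i, (f i + g i) := Finset.sum_nonneg fun i _ => by linarith [hf1 i, hg1 i]
  refine ⟨1 + ∑ i, (f i + g i), by linarith, fun i v => ?_⟩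
  have h1 : f i + g i ≤ ∑ i, (f i + g i) :=
    Finset.single_le_sum (f := fun i => f i + g i) (fun j _ => by linarith [hf1 j, hg1 j]) (Finset.mem_univ i)
  have h2 := norm_nonneg v
  constructor
  · refine (hf2 i v).trans (mul_le_mul_of_nonneg_right ?_ h2)
    linarith [hg1 i]
  · refine (hg2 i v).trans (mul_le_mul_of_nonneg_right ?_ h2)
    linarith [hf1 i]

private theorem pow_bound {n : ℕ} (ρ : A →+* Module.End ℂ (Fin n → ℂ)) (u : Aˣ) (L : ℝ) (hL : 1 ≤ L)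
    (h : ∀ v, ‖ρ (u : A) v‖ ≤ L * ‖v‖) (k : ℕ) (v : Fin n → ℂ) : ‖ρ ((u ^ k : Aˣ) : A) v‖ ≤ L ^ k * ‖v‖ := by
  induction k with
  | zero => simp
  | succ k ih =>
    rw [pow_succ', Units.val_mul, map_mul, Module.End.mul_apply]
    refine (h _).trans ?_
    rw [pow_succ', mul_assoc]
    exact mul_le_mul_of_nonneg_left ih (by linarith)

private theorem zpow_bound {n : ℕ} (ρ : A →+* Module.End ℂ (Fin n → ℂ)) (u : Aˣ) (L : ℝ) (hL : 1 ≤ L)
    (h : ∀ v, ‖ρ (u : A) v‖ ≤ L * ‖v‖) (h' : ∀ v, ‖ρ ((u⁻¹ : Aˣ) : A) v‖ ≤ L * ‖v‖) (k : ℤ) (v : Fin n → ℂ) :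
    ‖ρ ((u ^ k : Aˣ) : A) v‖ ≤ L ^ k.natAbs * ‖v‖ := by
  rcases Int.natAbs_eq k with hk | hk
  · rw [hk, zpow_natCast, Int.natAbs_natCast]
    exact pow_bound ρ u L hL h _ v
  · rw [hk, zpow_neg, zpow_natCast, ← inv_pow, Int.natAbs_neg, Int.natAbs_natCast]
    exact pow_bound ρ u⁻¹ L hL h' _ v

private theorem mono_bound (S : Setup x M) (L : ℝ) (hL : 1 ≤ L)
    (h : ∀ i v, ‖S.ρ (x i : A) v‖ ≤ L * ‖v‖ ∧ ‖S.ρ ((x i)⁻¹ : Aˣ) v‖ ≤ L * ‖v‖) (q : ι → ℤ) (v : Fin S.n → ℂ) :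
    ‖S.ρ ((mono x q : Aˣ) : A) v‖ ≤ L ^ (∑ i, (q i).natAbs) * ‖v‖ := by
  classical
  have key : ∀ s : Finset ι, ‖S.ρ ((∏ i ∈ s, x i ^ q i : Aˣ) : A) v‖ ≤ L ^ (∑ i ∈ s, (q i).natAbs) * ‖v‖ := by
    intro s
    induction s using Finset.induction_on with
    | empty => simp
    | insert i s hi ih =>
      rw [Finset.prod_insert hi, Finset.sum_insert hi, Units.val_mul, map_mul, Module.End.mul_apply]
      refine (zpow_bound S.ρ (x i) L hL (fun v => (h i v).1) (fun v => (h i v).2) _ _).trans ?_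
      rw [pow_add, mul_assoc]
      exact mul_le_mul_of_nonneg_left ih (by positivity)
  exact key Finset.univ

private theorem natAbs_sum_le {q : ι → ℤ} {N : ℕ} (h : (∑ i, |q i|) ≤ N) : ∑ i, (q i).natAbs ≤ N := by
  have h1 : ((∑ i, (q i).natAbs : ℕ) : ℤ) = ∑ i, |q i| := by
    push_cast
    rfl
  omega

/-- Block MU-C2b. Bounded sums have exponentially bounded size. -/
theorem bdd_exp (S : Setup x M) (F0 : Finset M) : ∃ C : ℝ, 1 ≤ C ∧ ∀ (N : ℕ) (a : M), 1 ≤ N → Bdd x F0 N a → ‖S.Φ a‖ ≤ C ^ N := by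
  set K : ℝ := ∑ g ∈ F0, ‖S.Φ g‖ with hK
  have hK0 : 0 ≤ K := Finset.sum_nonneg fun _ _ => norm_nonneg _
  obtain ⟨L, hL, hL'⟩ := exists_L S
  have h0 : 1 ≤ 4 * L * (K + 1) := by nlinarith
  refine ⟨4 * L * (K + 1), h0, fun N a hN hb => ?_⟩
  obtain ⟨l, hl, hl', rfl⟩ := hb
  have h1 := norm_list_le S.Φ (L ^ N * K) (l.map fun e => ((mono x e.1 : Aˣ) : A) • e.2) (by
    intro y hy
    obtain ⟨e, he, rfl⟩ := List.mem_map.1 hy
    obtain ⟨h2, h3⟩ := hl' e he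
    rw [S.comp]
    refine (mono_bound S L hL hL' e.1 _).trans ?_
    refine mul_le_mul (pow_le_pow_right₀ hL (natAbs_sum_le h2)) (norm_le_sum S F0 h3) (norm_nonneg _) (by positivity))
  refine h1.trans ?_
  rw [List.length_map]
  have h5 : (l.length : ℝ) ≤ (N : ℝ) ^ 2 := by exact_mod_cast hl
  have h6 : ((N : ℝ)) ^ 2 ≤ 4 ^ N := by
    have h7 : N < 2 ^ N := Nat.lt_two_pow_self
    have h8 : N ^ 2 ≤ 4 ^ N := by
      calc N ^ 2 ≤ (2 ^ N) ^ 2 := Nat.pow_le_pow_left h7.le 2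
        _ = 4 ^ N := by rw [← pow_mul, mul_comm, pow_mul]; norm_num
    exact_mod_cast h8
  have h9 : K ≤ (K + 1) ^ N := by
    calc K ≤ K + 1 := by linarith
      _ = (K + 1) ^ 1 := by ring
      _ ≤ (K + 1) ^ N := pow_le_pow_right₀ (by linarith) hN
  calc (l.length : ℝ) * (L ^ N * K) ≤ 4 ^ N * (L ^ N * (K + 1) ^ N) := by
        gcongr
        exact h5.trans h6
    _ = (4 * L * (K + 1)) ^ N := by rw [mul_pow, mul_pow]; ring

/-! ### windows -/

private def Win {k : ℕ} (z : Aˣ) (m : Fin k → M) (c : ℕ) (a : M) : Prop :=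
  ∃ b : Fin k → ℤ[X], (∀ i, (b i).natDegree ≤ 2 * c) ∧ a = ((↑z⁻¹ : A) ^ c) • comb (z : A) m b

private theorem comb_add {k : ℕ} (z : A) (m : Fin k → M) (b b' : Fin k → ℤ[X]) :
    comb z m (fun i => b i + b' i) = comb z m b + comb z m b' := by
  simp only [comb, map_add, add_smul, Finset.sum_add_distrib]

private theorem comb_mul {k : ℕ} (z : A) (m : Fin k → M) (p : ℤ[X]) (b : Fin k → ℤ[X]) :
    comb z m (fun i => p * b i) = (aeval z p) • comb z m b := by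
  simp only [comb, map_mul, mul_smul, Finset.smul_sum]

private theorem comb_sum {k : ℕ} {κ : Type} (t : Finset κ) (z : A) (m : Fin k → M) (b : κ → Fin k → ℤ[X]) :
    comb z m (fun i => ∑ j ∈ t, b j i) = ∑ j ∈ t, comb z m (b j) := by
  simp only [comb, map_sum, Finset.sum_smul]
  rw [Finset.sum_comm]

private theorem inv_pow_mul_pow (z : Aˣ) (n : ℕ) : (↑z⁻¹ : A) ^ n * (z : A) ^ n = 1 := by
  rw [← mul_pow, Units.inv_mul, one_pow]

private theorem Win.shift {k : ℕ} {z : Aˣ} {m : Fin k → M} {s c : ℕ} (b : Fin k → ℤ[X]) (hs : s ≤ c)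
    (hb : ∀ i, (b i).natDegree ≤ c + s) : Win z m c (((↑z⁻¹ : A) ^ s) • comb (z : A) m b) := by
  refine ⟨fun i => X ^ (c - s) * b i, fun i => ?_, ?_⟩
  · refine natDegree_mul_le.trans ?_
    have h1 : (X ^ (c - s) : ℤ[X]).natDegree ≤ c - s := natDegree_X_pow_le _
    have h2 := hb i
    omega
  · rw [comb_mul, map_pow, aeval_X, ← mul_smul]
    congr 1
    have h1 : (↑z⁻¹ : A) ^ c = (↑z⁻¹ : A) ^ s * (↑z⁻¹ : A) ^ (c - s) := by
      rw [← pow_add]
      congr 1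
      omega
    rw [h1, mul_assoc, inv_pow_mul_pow, mul_one]

private theorem Win.mono {k : ℕ} {z : Aˣ} {m : Fin k → M} {c c' : ℕ} {a : M} (h : Win z m c a) (hc : c ≤ c') :
    Win z m c' a := by
  obtain ⟨b, hb, rfl⟩ := h
  exact Win.shift b hc fun i => (hb i).trans (by omega)

private theorem Win.add {k : ℕ} {z : Aˣ} {m : Fin k → M} {c : ℕ} {a a' : M} (h : Win z m c a) (h' : Win z m c a') :
    Win z m c (a + a') := by
  obtain ⟨b, hb, rfl⟩ := h
  obtain ⟨b', hb', rfl⟩ := h'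
  refine ⟨fun i => b i + b' i, fun i => (natDegree_add_le _ _).trans (max_le (hb i) (hb' i)), ?_⟩
  rw [comb_add, smul_add]

private theorem Win.zero {k : ℕ} {z : Aˣ} {m : Fin k → M} {c : ℕ} : Win z m c (0 : M) := by
  refine ⟨fun _ => 0, fun i => by simp, ?_⟩
  simp [comb]

private theorem Win.mul {k : ℕ} {z : Aˣ} {m : Fin k → M} {c c₁ : ℕ} {a : M} (u : A) (hu : ∀ j, Win z m c₁ (u • m j))
    (h : Win z m c a) : Win z m (c + c₁) (u • a) := by
  obtain ⟨b, hb, rfl⟩ := h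
  choose β hβ hβ' using hu
  refine ⟨fun l => ∑ i, b i * β i l, fun l => ?_, ?_⟩
  · refine natDegree_sum_le_of_forall_le _ _ fun i _ => natDegree_mul_le.trans ?_
    have h1 := hb i
    have h2 := hβ i l
    omega
  · rw [comb_sum, pow_add, mul_smul, smul_comm u]
    congr 1
    rw [comb, Finset.smul_sum, Finset.smul_sum]
    refine Finset.sum_congr rfl fun i _ => ?_
    rw [comb_mul, smul_comm u, hβ', smul_comm]

private theorem exists_win (S : Setup x M) (a : M) : ∃ c, Win (mono x S.a) S.m c a := by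
  obtain ⟨s, b, rfl⟩ := S.gen a
  refine ⟨s + ∑ i, (b i).natDegree, Win.shift b (by omega) fun i => ?_⟩
  have h1 : (b i).natDegree ≤ ∑ i, (b i).natDegree :=
    Finset.single_le_sum (f := fun i => (b i).natDegree) (fun _ _ => Nat.zero_le _) (Finset.mem_univ i)
  omega

private theorem exists_win_gen (S : Setup x M) : ∃ c, ∀ i j, Win (mono x S.a) S.m c ((x i : A) • S.m j) ∧
    Win (mono x S.a) S.m c ((((x i)⁻¹ : Aˣ) : A) • S.m j) := by
  choose f hf using fun i j => exists_win S ((x i : A) • S.m j)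
  choose g hg using fun i j => exists_win S ((((x i)⁻¹ : Aˣ) : A) • S.m j)
  refine ⟨∑ i, ∑ j, (f i j + g i j), fun i j => ?_⟩
  have h1 : f i j + g i j ≤ ∑ i, ∑ j, (f i j + g i j) := by
    refine le_trans ?_ (Finset.single_le_sum (f := fun i => ∑ j, (f i j + g i j)) (fun _ _ => Nat.zero_le _) (Finset.mem_univ i))
    exact Finset.single_le_sum (f := fun j => f i j + g i j) (fun _ _ => Nat.zero_le _) (Finset.mem_univ j)
  exact ⟨(hf i j).mono (by omega), (hg i j).mono (by omega)⟩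

private theorem Win.pow {k : ℕ} {z : Aˣ} {m : Fin k → M} {c c₁ : ℕ} {a : M} (u : A) (hu : ∀ j, Win z m c₁ (u • m j))
    (h : Win z m c a) (n : ℕ) : Win z m (c + c₁ * n) (u ^ n • a) := by
  induction n with
  | zero => simpa using h
  | succ n ih =>
    have h1 := Win.mul u hu ih
    rw [← mul_smul, ← pow_succ'] at h1
    refine h1.mono ?_
    rw [Nat.mul_succ]
    omega

private theorem Win.zpow {k : ℕ} {z : Aˣ} {m : Fin k → M} {c c₁ : ℕ} {a : M} (u : Aˣ) (hu : ∀ j, Win z m c₁ ((u : A) • m j))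
    (hu' : ∀ j, Win z m c₁ (((u⁻¹ : Aˣ) : A) • m j)) (h : Win z m c a) (n : ℤ) :
    Win z m (c + c₁ * n.natAbs) (((u ^ n : Aˣ) : A) • a) := by
  rcases Int.natAbs_eq n with hn | hn
  · rw [hn, zpow_natCast, Int.natAbs_natCast, Units.val_pow_eq_pow_val]
    exact Win.pow _ hu h _
  · rw [hn, zpow_neg, zpow_natCast, ← inv_pow, Int.natAbs_neg, Int.natAbs_natCast, Units.val_pow_eq_pow_val]
    exact Win.pow _ hu' h _

private theorem win_mono_unit (S : Setup x M) {c c₁ : ℕ} {a : M}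
    (hc : ∀ i j, Win (mono x S.a) S.m c₁ ((x i : A) • S.m j) ∧ Win (mono x S.a) S.m c₁ ((((x i)⁻¹ : Aˣ) : A) • S.m j))
    (h : Win (mono x S.a) S.m c a) (q : ι → ℤ) :
    Win (mono x S.a) S.m (c + c₁ * ∑ i, (q i).natAbs) (((mono x q : Aˣ) : A) • a) := by
  classical
  have key : ∀ s : Finset ι, Win (mono x S.a) S.m (c + c₁ * ∑ i ∈ s, (q i).natAbs) (((∏ i ∈ s, x i ^ q i : Aˣ) : A) • a) := by
    intro s
    induction s using Finset.induction_on with
    | empty => simpa using h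
    | insert i s hi ih =>
      rw [Finset.prod_insert hi, Finset.sum_insert hi, Units.val_mul, mul_smul]
      refine (Win.zpow (x i) (fun j => (hc i j).1) (fun j => (hc i j).2) ih (q i)).mono ?_
      rw [Nat.mul_add]
      omega
  exact key Finset.univ

/-- Block MU-C2c. Bounded sums lie in a window of linear size. (`x_i^±1 m_j` lies in a window of size `c`; induct on `|q|_1`.) -/
theorem bdd_window (S : Setup x M) (F0 : Finset M) : ∃ c : ℕ, ∀ (N : ℕ) (a : M), 1 ≤ N → Bdd x F0 N a →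
    ∃ b : Fin S.k → ℤ[X], (∀ i, (b i).degree < (2 * c * N + 1 : ℕ)) ∧ a = ((↑(mono x S.a)⁻¹ : A) ^ (c * N)) • comb ((mono x S.a : Aˣ) : A) S.m b := by
  obtain ⟨c₁, hc₁⟩ := exists_win_gen S
  choose f hf using fun a => exists_win S a
  set c₀ : ℕ := ∑ g ∈ F0, f g with hc₀
  refine ⟨c₀ + c₁, fun N a hN hb => ?_⟩
  obtain ⟨l, -, hl', rfl⟩ := hb
  have key : ∀ l : List ((ι → ℤ) × M), (∀ e ∈ l, (∑ i, |e.1 i|) ≤ (N : ℤ) ∧ e.2 ∈ F0) →
      Win (mono x S.a) S.m ((c₀ + c₁) * N) (l.map fun e => ((mono x e.1 : Aˣ) : A) • e.2).sum := by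
    intro l
    induction l with
    | nil => intro _; simpa using Win.zero
    | cons e l ih =>
      intro h
      rw [List.map_cons, List.sum_cons]
      refine Win.add ?_ (ih fun e' he' => h e' (List.mem_cons_of_mem _ he'))
      obtain ⟨h1, h2⟩ := h e (List.mem_cons_self ..)
      refine (win_mono_unit S hc₁ (hf e.2) e.1).mono ?_
      have h3 : f e.2 ≤ c₀ := Finset.single_le_sum (f := f) (fun _ _ => Nat.zero_le _) h2
      have h4 := natAbs_sum_le h1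
      calc f e.2 + c₁ * ∑ i, (e.1 i).natAbs ≤ c₀ * N + c₁ * N := by
            have h5 : c₀ * 1 ≤ c₀ * N := Nat.mul_le_mul_left _ hN
            have h6 : c₁ * ∑ i, (e.1 i).natAbs ≤ c₁ * N := Nat.mul_le_mul_left _ h4
            omega
        _ = (c₀ + c₁) * N := by ring
  obtain ⟨b, hb1, hb2⟩ := key l hl'
  refine ⟨b, fun i => ?_, hb2⟩
  refine degree_le_natDegree.trans_lt ?_
  have h1 := hb1 i
  have h2 : (b i).natDegree < 2 * (c₀ + c₁) * N + 1 := by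
    have : 2 * ((c₀ + c₁) * N) = 2 * (c₀ + c₁) * N := by ring
    omega
  exact_mod_cast h2

private theorem aeval_eq_sum (z : A) (p : ℤ[X]) (r : ℕ) (h : p.degree < r) :
    aeval z p = ∑ j ∈ Finset.range r, p.coeff j • z ^ j := by
  by_cases hp : p = 0
  · simp [hp]
  · exact aeval_eq_sum_range' ((natDegree_lt_iff_degree_lt hp).2 h) z

/-- Block MU-C2d. Elements of a window set have polynomially small unimodular part. -/
theorem EE_P (S : Setup x M) (B : ℕ) : ∃ C : ℝ, 0 < C ∧ ∀ (s r : ℕ) (a : M), 1 ≤ s + r → a ∈ EE (mono x S.a) S.m s r B →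
    ‖S.P (S.Φ a)‖ ≤ C * ((s + r : ℕ) : ℝ) ^ (S.e + 1) := by
  set α : ℝ := ∑ t, |(S.a t : ℝ)| with hα
  have hα0 : 0 ≤ α := Finset.sum_nonneg fun _ _ => abs_nonneg _
  set K : ℝ := ∑ i, ‖S.Φ (S.m i)‖ with hK
  have hK0 : 0 ≤ K := Finset.sum_nonneg fun _ _ => norm_nonneg _
  have hC := S.hC
  refine ⟨B * (S.C * (1 + α) ^ S.e * K) + 1, by positivity, fun s r a hsr ha => ?_⟩
  obtain ⟨b, hb1, hb2, rfl⟩ := ha
  set n : ℝ := ((s + r : ℕ) : ℝ) with hn
  have hn1 : 1 ≤ n := by rw [hn]; exact_mod_cast hsr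
  have hmono : ∀ j : ℕ, (↑(mono x S.a)⁻¹ : A) ^ s * ((mono x S.a : Aˣ) : A) ^ j =
      ((mono x (fun t => ((j : ℤ) - s) * S.a t) : Aˣ) : A) := by
    intro j
    rw [← Units.val_pow_eq_pow_val, ← Units.val_pow_eq_pow_val, ← Units.val_mul]
    congr 1
    have h1 : mono x (fun t => ((j : ℤ) - s) * S.a t) = (mono x S.a) ^ ((j : ℤ) - s) := by
      rw [mono, mono, ← Finset.prod_zpow]
      refine Finset.prod_congr rfl fun t _ => ?_
      rw [← zpow_mul, mul_comm]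
    rw [h1, zpow_sub, zpow_natCast, zpow_natCast, inv_pow, mul_comm]
  have ha : ((↑(mono x S.a)⁻¹ : A) ^ s) • comb ((mono x S.a : Aˣ) : A) S.m b =
      ∑ i, ∑ j ∈ Finset.range r, (b i).coeff j • (((mono x (fun t => ((j : ℤ) - s) * S.a t) : Aˣ) : A) • S.m i) := by
    rw [comb, Finset.smul_sum]
    refine Finset.sum_congr rfl fun i _ => ?_
    rw [aeval_eq_sum _ _ r (hb1 i), Finset.sum_smul, Finset.smul_sum]
    refine Finset.sum_congr rfl fun j _ => ?_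
    rw [smul_assoc, smul_comm, ← mul_smul, hmono]
  rw [ha, map_sum, map_sum]
  have hterm : ∀ i, ∀ j ∈ Finset.range r,
      ‖S.P (S.Φ ((b i).coeff j • (((mono x (fun t => ((j : ℤ) - s) * S.a t) : Aˣ) : A) • S.m i)))‖ ≤
        B * (S.C * ((1 + α) * n) ^ S.e * ‖S.Φ (S.m i)‖) := by
    intro i j hj
    rw [Finset.mem_range] at hj
    rw [map_zsmul, map_zsmul, S.comp]
    refine (norm_zsmul_le _ _).trans ?_
    have h1 : ‖((b i).coeff j : ℤ)‖ ≤ B := by
      rw [Int.norm_eq_abs]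
      exact_mod_cast hb2 i j
    refine mul_le_mul h1 ((S.growth _ _).trans ?_) (norm_nonneg _) (Nat.cast_nonneg _)
    have h2 : 1 + ∑ t, |(((((j : ℤ) - s) * S.a t : ℤ)) : ℝ)| ≤ (1 + α) * n := by
      have h3 : ∑ t, |(((((j : ℤ) - s) * S.a t : ℤ)) : ℝ)| = |((j : ℝ) - s)| * α := by
        rw [hα, Finset.mul_sum]
        refine Finset.sum_congr rfl fun t _ => ?_
        push_cast
        rw [abs_mul]
      have h4 : |((j : ℝ) - s)| ≤ n := by
        rw [abs_le, hn]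
        have h5 : (j : ℝ) < r := by exact_mod_cast hj
        push_cast
        constructor
        · have : (0 : ℝ) ≤ j := Nat.cast_nonneg _
          have : (0 : ℝ) ≤ r := Nat.cast_nonneg _
          linarith
        · have : (0 : ℝ) ≤ s := Nat.cast_nonneg _
          linarith
      rw [h3]
      nlinarith
    have h6 : 0 ≤ 1 + ∑ t, |(((((j : ℤ) - s) * S.a t : ℤ)) : ℝ)| := by
      have : 0 ≤ ∑ t, |(((((j : ℤ) - s) * S.a t : ℤ)) : ℝ)| := Finset.sum_nonneg fun _ _ => abs_nonneg _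
      linarith
    gcongr
  have h7 : ‖∑ i, S.P (S.Φ (∑ j ∈ Finset.range r, (b i).coeff j • (((mono x (fun t => ((j : ℤ) - s) * S.a t) : Aˣ) : A) • S.m i)))‖ ≤
      ∑ i, (r : ℝ) * (B * (S.C * ((1 + α) * n) ^ S.e * ‖S.Φ (S.m i)‖)) := by
    refine (norm_sum_le _ _).trans (Finset.sum_le_sum fun i _ => ?_)
    rw [map_sum, map_sum]
    refine (norm_sum_le _ _).trans ((Finset.sum_le_sum (hterm i)).trans ?_)
    rw [Finset.sum_const, Finset.card_range, nsmul_eq_mul]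
  refine h7.trans ?_
  have h8 : ∑ i, (r : ℝ) * (B * (S.C * ((1 + α) * n) ^ S.e * ‖S.Φ (S.m i)‖)) =
      (r : ℝ) * (B * (S.C * ((1 + α) * n) ^ S.e * K)) := by
    rw [hK, Finset.mul_sum, Finset.mul_sum, Finset.mul_sum]
  rw [h8]
  have h9 : (r : ℝ) ≤ n := by
    rw [hn]
    push_cast
    have : (0 : ℝ) ≤ s := Nat.cast_nonneg _
    linarith
  calc (r : ℝ) * (B * (S.C * ((1 + α) * n) ^ S.e * K)) ≤ n * (B * (S.C * ((1 + α) * n) ^ S.e * K)) := by
        gcongr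
    _ = (B * (S.C * (1 + α) ^ S.e * K)) * n ^ (S.e + 1) := by
        rw [mul_pow]
        ring
    _ ≤ (B * (S.C * (1 + α) ^ S.e * K) + 1) * n ^ (S.e + 1) := by
        gcongr
        linarith

end

end Pool.Agent.Helper74.MU
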