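import Pool.Agent.Helper74.MU.Defs

set_option autoImplicit false

namespace Pool.Agent.Helper74.MU

open Polynomial

section

variable {ι A M : Type} [Fintype ι] [CommRing A] [AddCommGroup M] [Module A M] {x : ι → Aˣ}

private theorem combC_add77 {V : Type} [AddCommGroup V] [Module ℂ V] {k : ℕ} (T : Module.End ℂ V)
    (w : Fin k → V) (f g : Fin k → ℂ[X]) :
    combC T w (fun i => f i + g i) = combC T w f + combC T w g := by
  simp only [combC, map_add, LinearMap.add_apply, Finset.sum_add_distrib]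

private theorem combC_mul77 {V : Type} [AddCommGroup V] [Module ℂ V] {k : ℕ} (T : Module.End ℂ V)
    (w : Fin k → V) (p : ℂ[X]) (g : Fin k → ℂ[X]) :
    combC T w (fun i => p * g i) = (aeval T p) (combC T w g) := by
  simp only [combC, map_mul, Module.End.mul_apply, map_sum]

private theorem combC_sum77 {V : Type} [AddCommGroup V] [Module ℂ V] {k : ℕ} (T : Module.End ℂ V)
    (w : Fin k → V) {α : Type} (t : Finset α) (g : α → Fin k → ℂ[X]) :
    combC T w (fun i => ∑ a ∈ t, g a i) = ∑ a ∈ t, combC T w (g a) := by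
  simp only [combC, map_sum, LinearMap.sum_apply]
  exact Finset.sum_comm

private theorem combC_X77 {V : Type} [AddCommGroup V] [Module ℂ V] {k : ℕ} (T : Module.End ℂ V)
    (w : Fin k → V) (m : ℕ) (g : Fin k → ℂ[X]) :
    combC T w (fun i => X ^ m * g i) = (T ^ m) (combC T w g) := by
  rw [combC_mul77, map_pow, aeval_X]

private theorem mul_coeff77 (D : ℕ) (c p : ℂ[X]) (hc : c.degree < D) {Bp Bc : ℝ} (hBc : 0 ≤ Bc)
    (hp : ∀ j, ‖p.coeff j‖ ≤ Bp) (hcc : ∀ j, ‖c.coeff j‖ ≤ Bc) (j : ℕ) :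
    ‖(c * p).coeff j‖ ≤ D * (Bc * Bp) := by
  have hBp : 0 ≤ Bp := (norm_nonneg _).trans (hp 0)
  rw [coeff_mul, Finset.Nat.sum_antidiagonal_eq_sum_range_succ_mk]
  have h1 : ∑ q ∈ Finset.range j.succ, c.coeff q * p.coeff (j - q) =
      ∑ q ∈ (Finset.range j.succ).filter (fun q => q < D), c.coeff q * p.coeff (j - q) := by
    symm
    refine Finset.sum_subset (Finset.filter_subset _ _) fun q hq hq' => ?_
    have h2 : D ≤ q := by
      by_contra h3
      exact hq' (Finset.mem_filter.2 ⟨hq, by omega⟩)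
    rw [(degree_lt_iff_coeff_zero c D).1 hc q h2, zero_mul]
  show ‖∑ q ∈ Finset.range j.succ, c.coeff q * p.coeff (j - q)‖ ≤ _
  rw [h1]
  refine (norm_sum_le _ _).trans ?_
  have h4 : ∀ q ∈ (Finset.range j.succ).filter (fun q => q < D),
      ‖c.coeff q * p.coeff (j - q)‖ ≤ Bc * Bp := by
    intro q _
    rw [norm_mul]
    exact mul_le_mul (hcc q) (hp _) (norm_nonneg _) hBc
  refine (Finset.sum_le_card_nsmul _ _ _ h4).trans ?_
  rw [nsmul_eq_mul]
  refine mul_le_mul_of_nonneg_right ?_ (mul_nonneg hBc hBp)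
  have h5 : (Finset.range j.succ).filter (fun q => q < D) ⊆ Finset.range D := by
    intro q hq
    exact Finset.mem_range.2 (Finset.mem_filter.1 hq).2
  have h6 := Finset.card_le_card h5
  rw [Finset.card_range] at h6
  exact_mod_cast h6

private theorem inv_mul77 (S : Setup x M) (J : ℕ) (v : Fin S.n → ℂ) :
    ((S.ρ ((mono x S.a : Aˣ) : A)) ^ J) (S.ρ ((↑(mono x S.a)⁻¹ : A) ^ J) v) = v := by
  rw [← map_pow, ← Module.End.mul_apply, ← map_mul, ← mul_pow, Units.mul_inv, one_pow, map_one,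
    Module.End.one_apply]

/-- Block MU-C3a. A vector `v` of norm `≤ K^N` (`K ≥ 1`): `T^s (v - P v)` is a combination with coefficients `≤ 1` in the window `[0, s + c N + D)` for all `s ≥ c N`, `N ≥ 1`. (`hyp` with `J = c N`: `C² θ^J K^N ≤ 1/2`.) -/
theorem hyp_vec (S : Setup x M) (K : ℝ) (hK : 1 ≤ K) : ∃ c : ℕ, ∀ (N : ℕ), 1 ≤ N → ∀ v : Fin S.n → ℂ, ‖v‖ ≤ K ^ N → ∀ s : ℕ, c * N ≤ s →
    ∃ f : Fin S.k → ℂ[X], (∀ i, (f i).degree < (s + c * N + S.D : ℕ)) ∧ (∀ i j, ‖(f i).coeff j‖ ≤ 1) ∧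
      ((S.ρ ((mono x S.a : Aˣ) : A)) ^ s) (v - S.P v) = combC (S.ρ ((mono x S.a : Aˣ) : A)) (fun i => S.Φ (S.m i)) f := by
  obtain ⟨c, hc⟩ := exists_pow_lt_of_lt_one
    (show (0 : ℝ) < 1 / (2 * (S.C ^ 2 + 1) * K) by positivity) S.hθ1
  have hC := S.hC
  have hθ := S.hθ
  have hK0 : 0 < K := by linarith
  refine ⟨c, fun N hN v hv s hs => ?_⟩
  obtain ⟨v₁, v₂, hv12, h1, h2⟩ := S.hyp (c * N) v
  have hsmall : S.C * (S.C * S.θ ^ (c * N) * ‖v‖) ≤ 1 / 2 := by
    have e1 : S.θ ^ c * K ≤ 1 / (2 * (S.C ^ 2 + 1)) := by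
      calc S.θ ^ c * K ≤ 1 / (2 * (S.C ^ 2 + 1) * K) * K :=
            mul_le_mul_of_nonneg_right hc.le hK0.le
        _ = 1 / (2 * (S.C ^ 2 + 1)) := by
            field_simp
    have e2 : 0 ≤ S.θ ^ c * K := by positivity
    have e3 : S.θ ^ c * K ≤ 1 := by
      refine e1.trans ?_
      rw [div_le_one (by positivity)]
      nlinarith [sq_nonneg S.C]
    have e4 : (S.θ ^ c * K) ^ N ≤ 1 / (2 * (S.C ^ 2 + 1)) :=
      (pow_le_of_le_one e2 e3 (by omega)).trans e1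
    have e5 : S.θ ^ (c * N) * ‖v‖ ≤ (S.θ ^ c * K) ^ N := by
      rw [mul_pow, ← pow_mul]
      exact mul_le_mul_of_nonneg_left hv (by positivity)
    have e6 : S.θ ^ (c * N) * ‖v‖ ≤ 1 / (2 * (S.C ^ 2 + 1)) := e5.trans e4
    have e7 : S.C * (S.C * S.θ ^ (c * N) * ‖v‖) = S.C ^ 2 * (S.θ ^ (c * N) * ‖v‖) := by ring
    rw [e7]
    calc S.C ^ 2 * (S.θ ^ (c * N) * ‖v‖) ≤ S.C ^ 2 * (1 / (2 * (S.C ^ 2 + 1))) :=
          mul_le_mul_of_nonneg_left e6 (sq_nonneg _)
      _ ≤ 1 / 2 := by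
          rw [mul_one_div, div_le_div_iff₀ (by positivity) (by norm_num)]
          nlinarith [sq_nonneg S.C]
  obtain ⟨c₁, hd₁, hb₁, hc₁⟩ := S.window v₁
  obtain ⟨c₂, hd₂, hb₂, hc₂⟩ := S.window v₂
  have hb₁' : ∀ i j, ‖(c₁ i).coeff j‖ ≤ 1 / 2 := fun i j =>
    ((hb₁ i j).trans (mul_le_mul_of_nonneg_left h1 hC.le)).trans hsmall
  have hb₂' : ∀ i j, ‖(c₂ i).coeff j‖ ≤ 1 / 2 := fun i j =>
    ((hb₂ i j).trans (mul_le_mul_of_nonneg_left h2 hC.le)).trans hsmall
  refine ⟨fun i => X ^ (s + c * N) * c₁ i + X ^ (s - c * N) * c₂ i, fun i => ?_, fun i j => ?_, ?_⟩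
  · rw [degree_lt_iff_coeff_zero]
    intro j hj
    rw [coeff_add, coeff_X_pow_mul', coeff_X_pow_mul', if_pos (by omega), if_pos (by omega),
      (degree_lt_iff_coeff_zero _ _).1 (hd₁ i) _ (by omega),
      (degree_lt_iff_coeff_zero _ _).1 (hd₂ i) _ (by omega), add_zero]
  · rw [coeff_add, coeff_X_pow_mul', coeff_X_pow_mul']
    refine (norm_add_le _ _).trans ?_
    have e1 : ‖(if s + c * N ≤ j then (c₁ i).coeff (j - (s + c * N)) else 0 : ℂ)‖ ≤ 1 / 2 := by
      split_ifs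
      · exact hb₁' _ _
      · rw [norm_zero]; norm_num
    have e2 : ‖(if s - c * N ≤ j then (c₂ i).coeff (j - (s - c * N)) else 0 : ℂ)‖ ≤ 1 / 2 := by
      split_ifs
      · exact hb₂' _ _
      · rw [norm_zero]; norm_num
    linarith
  · rw [combC_add77, combC_X77, combC_X77, hc₁, hc₂]
    have e1 : v - S.P v = ((S.ρ ((mono x S.a : Aˣ) : A)) ^ (c * N)) v₁ +
        S.ρ ((↑(mono x S.a)⁻¹ : A) ^ (c * N)) v₂ := by
      rw [← map_pow]
      nth_rewrite 1 [hv12]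
      abel
    rw [e1, map_add, pow_add, Module.End.mul_apply]
    congr 1
    have e2 : s = (s - c * N) + c * N := by omega
    nth_rewrite 1 [e2]
    rw [pow_add, Module.End.mul_apply, inv_mul77]

/-- Block MU-C3b. For an integer combination `y = comb z m b` of degree `< r` with coefficients `≤ B`: `T^J (Φ y - P Φ y)` is a combination with coefficients `≤ 1` in the window `[0, r + 2J + D)`, if `J ≥ c (log B + 1)`.
(`Φ(m_i) - P Φ(m_i) = T^J v₁ + T^(-J) v₂`, `v₁ = ∑_{l<D} …` with coefficients `≤ C² θ^J ‖Φ m_i‖`; multiply by `b_i(T) T^J`.) -/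
theorem hyp_comb (S : Setup x M) : ∃ c : ℕ, ∀ (B J : ℕ), 1 ≤ B → (c : ℝ) * (Real.log B + 1) ≤ J → ∀ (r : ℕ) (b : Fin S.k → ℤ[X]), (∀ i, (b i).degree < r) →
    (∀ i j, |(b i).coeff j| ≤ B) →
    ∃ f : Fin S.k → ℂ[X], (∀ i, (f i).degree < (r + 2 * J + S.D : ℕ)) ∧ (∀ i j, ‖(f i).coeff j‖ ≤ 1) ∧
      ((S.ρ ((mono x S.a : Aˣ) : A)) ^ J) (S.Φ (comb ((mono x S.a : Aˣ) : A) S.m b) - S.P (S.Φ (comb ((mono x S.a : Aˣ) : A) S.m b))) =
        combC (S.ρ ((mono x S.a : Aˣ) : A)) (fun i => S.Φ (S.m i)) f := by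
  have hC := S.hC
  have hθ := S.hθ
  set T := S.ρ ((mono x S.a : Aˣ) : A) with hT
  set w : Fin S.k → (Fin S.n → ℂ) := fun i => S.Φ (S.m i) with hw
  set W : ℝ := ∑ i, ‖w i‖ with hW
  have hW0 : 0 ≤ W := Finset.sum_nonneg fun i _ => norm_nonneg _
  set Q : ℝ := 2 * (S.D : ℝ) * S.C ^ 2 * W + 1 with hQ
  have hQ1 : 1 ≤ Q := by
    have : 0 ≤ 2 * (S.D : ℝ) * S.C ^ 2 * W := by positivity
    linarith
  have hL : 0 < -Real.log S.θ := by
    have := Real.log_neg hθ S.hθ1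
    linarith
  obtain ⟨c, hc⟩ := exists_nat_ge ((1 + Real.log Q) / (-Real.log S.θ))
  refine ⟨c, fun B J hB hJ r b hdeg hcoef => ?_⟩
  have hB1 : (1 : ℝ) ≤ B := by exact_mod_cast hB
  -- the size
  have hsmall : Q * B * S.θ ^ J ≤ 1 := by
    have e1 : 1 + Real.log Q ≤ c * (-Real.log S.θ) := by
      rwa [div_le_iff₀ hL] at hc
    have e2 : 0 ≤ Real.log B := Real.log_nonneg hB1
    have e3 : 0 ≤ Real.log Q := Real.log_nonneg hQ1
    have e4 : Real.log Q + Real.log B ≤ J * (-Real.log S.θ) := by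
      have e5 : (c : ℝ) * (Real.log B + 1) * (-Real.log S.θ) ≤ J * (-Real.log S.θ) :=
        mul_le_mul_of_nonneg_right hJ hL.le
      have e6 : (1 + Real.log Q) * (Real.log B + 1) ≤
          (c * (-Real.log S.θ)) * (Real.log B + 1) :=
        mul_le_mul_of_nonneg_right e1 (by linarith)
      nlinarith [mul_nonneg e2 e3]
    have e7 : Real.log (Q * B * S.θ ^ J) ≤ 0 := by
      rw [Real.log_mul (by positivity) (by positivity), Real.log_mul (by positivity) (by positivity),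
        Real.log_pow]
      linarith
    have e8 : 0 < Q * B * S.θ ^ J := by positivity
    exact (Real.log_nonpos_iff e8.le).1 e7
  choose v₁ v₂ hv hn1 hn2 using fun i => S.hyp J (w i)
  choose c₁ hd₁ hb₁ hc₁ using fun i => S.window (v₁ i)
  choose c₂ hd₂ hb₂ hc₂ using fun i => S.window (v₂ i)
  set p : Fin S.k → ℂ[X] := fun i => (b i).map (Int.castRingHom ℂ) with hp
  have hpdeg : ∀ i j, r ≤ j → (p i).coeff j = 0 := by
    intro i j hj
    rw [hp]
    show ((b i).map (Int.castRingHom ℂ)).coeff j = 0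
    rw [coeff_map, (degree_lt_iff_coeff_zero _ _).1 (hdeg i) j hj, map_zero]
  have hpB : ∀ i j, ‖(p i).coeff j‖ ≤ B := by
    intro i j
    show ‖((b i).map (Int.castRingHom ℂ)).coeff j‖ ≤ B
    rw [coeff_map, eq_intCast, Complex.norm_intCast]
    exact_mod_cast hcoef i j
  have hpT : ∀ i, aeval T (p i) = S.ρ (aeval ((mono x S.a : Aˣ) : A) (b i)) := by
    intro i
    have e1 : aeval T (p i) = aeval T (b i) := by
      have := aeval_map_algebraMap (R := ℤ) ℂ T (b i)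
      rw [← this]
      rfl
    rw [e1]
    exact aeval_algHom_apply S.ρ.toIntAlgHom ((mono x S.a : Aˣ) : A) (b i)
  have hΦ : S.Φ (comb ((mono x S.a : Aˣ) : A) S.m b) = ∑ i, (aeval T (p i)) (w i) := by
    rw [comb, map_sum]
    refine Finset.sum_congr rfl fun i _ => ?_
    rw [S.comp, hpT]
  refine ⟨fun l => ∑ i, p i * (X ^ (2 * J) * c₁ i l + c₂ i l), fun l => ?_, fun l j => ?_, ?_⟩
  · rw [degree_lt_iff_coeff_zero]
    intro j hj
    rw [finset_sum_coeff]
    refine Finset.sum_eq_zero fun i _ => ?_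
    rw [coeff_mul]
    refine Finset.sum_eq_zero fun q hq => ?_
    rw [Finset.HasAntidiagonal.mem_antidiagonal] at hq
    by_cases h1 : r ≤ q.1
    · rw [hpdeg i _ h1, zero_mul]
    · have h2 : 2 * J + S.D ≤ q.2 := by omega
      rw [coeff_add, coeff_X_pow_mul', if_pos (by omega),
        (degree_lt_iff_coeff_zero _ _).1 (hd₁ i l) _ (by omega),
        (degree_lt_iff_coeff_zero _ _).1 (hd₂ i l) _ (by omega), add_zero, mul_zero]
  · rw [finset_sum_coeff]
    refine (norm_sum_le _ _).trans ?_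
    have key : ∀ i, ‖(p i * (X ^ (2 * J) * c₁ i l + c₂ i l)).coeff j‖ ≤
        2 * (S.D : ℝ) * S.C ^ 2 * ‖w i‖ * (B * S.θ ^ J) := by
      intro i
      have e1 : ∀ j', ‖(c₁ i l * p i).coeff j'‖ ≤ S.D * (S.C * (S.C * S.θ ^ J * ‖w i‖) * B) := by
        intro j'
        refine mul_coeff77 S.D _ _ (hd₁ i l) (by positivity) (hpB i) (fun j'' => ?_) j'
        exact (hb₁ i l j'').trans (mul_le_mul_of_nonneg_left (hn1 i) hC.le)
      have e2 : ∀ j', ‖(c₂ i l * p i).coeff j'‖ ≤ S.D * (S.C * (S.C * S.θ ^ J * ‖w i‖) * B) := by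
        intro j'
        refine mul_coeff77 S.D _ _ (hd₂ i l) (by positivity) (hpB i) (fun j'' => ?_) j'
        exact (hb₂ i l j'').trans (mul_le_mul_of_nonneg_left (hn2 i) hC.le)
      have e3 : p i * (X ^ (2 * J) * c₁ i l + c₂ i l) = X ^ (2 * J) * (c₁ i l * p i) + c₂ i l * p i := by
        ring
      rw [e3, coeff_add, coeff_X_pow_mul']
      refine (norm_add_le _ _).trans ?_
      have e4 : ‖(if 2 * J ≤ j then (c₁ i l * p i).coeff (j - 2 * J) else 0 : ℂ)‖ ≤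
          S.D * (S.C * (S.C * S.θ ^ J * ‖w i‖) * B) := by
        split_ifs
        · exact e1 _
        · rw [norm_zero]; positivity
      refine (add_le_add e4 (e2 j)).trans (le_of_eq ?_)
      ring
    refine (Finset.sum_le_sum fun i _ => key i).trans ?_
    rw [← Finset.sum_mul, ← Finset.mul_sum, ← hW]
    have e5 : 2 * (S.D : ℝ) * S.C ^ 2 * W * (B * S.θ ^ J) ≤ Q * (B * S.θ ^ J) := by
      refine mul_le_mul_of_nonneg_right ?_ (by positivity)
      rw [hQ]
      linarith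
    refine e5.trans ?_
    rw [← mul_assoc]
    exact hsmall
  · rw [combC_sum77, hΦ, map_sum, ← Finset.sum_sub_distrib, map_sum]
    refine Finset.sum_congr rfl fun i _ => ?_
    rw [combC_mul77, combC_add77, combC_X77, hc₁, hc₂]
    have e1 : S.P ((aeval T (p i)) (w i)) = (aeval T (p i)) (S.P (w i)) := by
      rw [hpT, S.comm]
    have e2 : w i - S.P (w i) = (T ^ J) (v₁ i) + S.ρ ((↑(mono x S.a)⁻¹ : A) ^ J) (v₂ i) := by
      rw [hT, ← map_pow]
      nth_rewrite 1 [hv i]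
      abel
    rw [e1, ← map_sub, e2]
    have e3 : ∀ v : Fin S.n → ℂ, (T ^ J) ((aeval T (p i)) v) = (aeval T (p i)) ((T ^ J) v) := by
      intro v
      rw [← Module.End.mul_apply, ← Module.End.mul_apply]
      congr 1
      have e4 : T ^ J = aeval T (X ^ J : ℂ[X]) := by rw [map_pow, aeval_X]
      rw [e4, ← map_mul, ← map_mul, mul_comm]
    rw [e3]
    congr 1
    rw [map_add, ← Module.End.mul_apply, ← pow_add, ← two_mul, inv_mul77]

end

end Pool.Agent.Helper74.MU
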