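import Pool.Agent.Helper74.MU.C1
import Pool.Agent.Helper74.MU.C2
import Pool.Agent.Helper74.MU.C3

set_option autoImplicit false

namespace Pool.Agent.Helper74.MU

open Polynomial

section

variable {ι A M : Type} [Fintype ι] [CommRing A] [AddCommGroup M] [Module A M] {x : ι → Aˣ}

private theorem comb_add93 {k : ℕ} (z : A) (m : Fin k → M) (b b' : Fin k → ℤ[X]) :
    comb z m (fun i => b i + b' i) = comb z m b + comb z m b' := by
  unfold comb
  rw [← Finset.sum_add_distrib]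
  refine Finset.sum_congr rfl fun i _ => ?_
  rw [map_add, add_smul]

private theorem comb_sub93 {k : ℕ} (z : A) (m : Fin k → M) (b b' : Fin k → ℤ[X]) :
    comb z m (fun i => b i - b' i) = comb z m b - comb z m b' := by
  unfold comb
  rw [← Finset.sum_sub_distrib]
  refine Finset.sum_congr rfl fun i _ => ?_
  rw [map_sub, sub_smul]

private theorem comb_X93 {k : ℕ} (z : A) (m : Fin k → M) (n : ℕ) (b : Fin k → ℤ[X]) :
    comb z m (fun i => X ^ n * b i) = z ^ n • comb z m b := by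
  unfold comb
  rw [Finset.smul_sum]
  refine Finset.sum_congr rfl fun i _ => ?_
  rw [map_mul, map_pow, aeval_X, mul_smul]

private theorem comb_zero93 {k : ℕ} (z : A) (m : Fin k → M) :
    comb z m (fun _ => (0 : ℤ[X])) = 0 := by
  unfold comb
  refine Finset.sum_eq_zero fun i _ => ?_
  rw [map_zero, zero_smul]

private theorem deg_add93 {R : Type} [Semiring R] {r : ℕ} {p q : R[X]} (hp : p.degree < r)
    (hq : q.degree < r) : (p + q).degree < r :=
  lt_of_le_of_lt (degree_add_le _ _) (max_lt hp hq)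

private theorem deg_mono93 {R : Type} [Semiring R] {r r' : ℕ} {p : R[X]} (hp : p.degree < r)
    (h : r ≤ r') : p.degree < r' :=
  lt_of_lt_of_le hp (by exact_mod_cast h)

private theorem deg_X93 {R : Type} [Semiring R] {r n : ℕ} {p : R[X]} (hp : p.degree < r) :
    ((X : R[X]) ^ n * p).degree < ((n + r : ℕ) : WithBot ℕ) := by
  rw [degree_lt_iff_coeff_zero]
  intro j hj
  rw [coeff_X_pow_mul', if_pos (by omega)]
  exact (degree_lt_iff_coeff_zero _ _).1 hp _ (by omega)

private theorem inv_pow93 (z : Aˣ) (n : ℕ) : (z : A) ^ n * (↑z⁻¹ : A) ^ n = 1 := by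
  rw [← mul_pow, Units.mul_inv, one_pow]

private theorem norm_list93 {E : Type} [SeminormedAddCommGroup E] (φ : M →+ E) (K : ℝ) (l : List M)
    (h : ∀ y ∈ l, ‖φ y‖ ≤ K) : ‖φ l.sum‖ ≤ l.length * K := by
  induction l with
  | nil => simp
  | cons a l ih =>
    have h1 := ih fun y hy => h y (List.mem_cons_of_mem _ hy)
    have h2 := h a List.mem_cons_self
    rw [List.sum_cons, map_add, List.length_cons]
    push_cast
    refine (norm_add_le _ _).trans ?_
    linarith

/-- sums of elements with a window -/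
private theorem listW93 {k : ℕ} (z : Aˣ) (m : Fin k → M) (n s : ℕ) (hs : n ≤ s) (l : List M)
    (h : ∀ y ∈ l, ∃ b : Fin k → ℤ[X], (∀ i, (b i).degree < (2 * n + 1 : ℕ)) ∧
      y = ((↑z⁻¹ : A) ^ n) • comb (z : A) m b) :
    ∃ b : Fin k → ℤ[X], (∀ i, (b i).degree < (s + n + 1 : ℕ)) ∧
      ((z : A) ^ s) • l.sum = comb (z : A) m b := by
  induction l with
  | nil =>
    refine ⟨fun _ => 0, fun i => ?_, ?_⟩
    · rw [degree_zero]
      exact WithBot.bot_lt_coe _
    · rw [comb_zero93, List.sum_nil, smul_zero]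
  | cons a l ih =>
    obtain ⟨b, hb, hb'⟩ := ih fun y hy => h y (List.mem_cons_of_mem _ hy)
    obtain ⟨d, hd, hd'⟩ := h a List.mem_cons_self
    refine ⟨fun i => X ^ (s - n) * d i + b i, fun i => deg_add93 (deg_mono93 (deg_X93 (hd i)) ?_) (hb i), ?_⟩
    · omega
    · rw [comb_add93, comb_X93, List.sum_cons, smul_add, hb', hd']
      congr 1
      have e1 : s = (s - n) + n := by omega
      nth_rewrite 1 [e1]
      rw [smul_smul, pow_add, mul_assoc, inv_pow93, mul_one]

/-- sums of elements of a window set -/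
private theorem listE93 {k : ℕ} (z : Aˣ) (m : Fin k → M) (s r B : ℕ) (l : List M)
    (h : ∀ y ∈ l, y ∈ EE z m s r B) :
    ∃ b : Fin k → ℤ[X], (∀ i, (b i).degree < r) ∧ (∀ i j, |(b i).coeff j| ≤ ((l.length * B : ℕ) : ℤ)) ∧
      ((z : A) ^ s) • l.sum = comb (z : A) m b := by
  induction l with
  | nil =>
    refine ⟨fun _ => 0, fun i => ?_, fun i j => ?_, ?_⟩
    · rw [degree_zero]
      exact WithBot.bot_lt_coe _
    · rw [coeff_zero, abs_zero]
      exact Int.natCast_nonneg _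
    · rw [comb_zero93, List.sum_nil, smul_zero]
  | cons a l ih =>
    obtain ⟨b, hb, hbc, hb'⟩ := ih fun y hy => h y (List.mem_cons_of_mem _ hy)
    obtain ⟨d, hd, hdc, hd'⟩ := h a List.mem_cons_self
    refine ⟨fun i => d i + b i, fun i => deg_add93 (hd i) (hb i), fun i j => ?_, ?_⟩
    · rw [coeff_add]
      refine (abs_add_le _ _).trans ?_
      have h1 := hdc i j
      have h2 := hbc i j
      rw [List.length_cons]
      push_cast at h2 ⊢
      linarith
    · rw [comb_add93, List.sum_cons, smul_add, hb', hd', smul_smul, inv_pow93, one_smul]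

/-- Block MU-C4 (fibres). Two sums `a, b` of at most `2R` elements `w + e` (`w` bounded, `e` in the window set of linear size) with `‖P Φ(a-b)‖ ≤ 1/C` differ by an element of the slightly larger window set.
Proof: `T^(C₁R+J) Φ(a-b)` is the sum of three combinations with coefficients `≤ 1` in the window `[0, r')`, `r' = 2C₁R+1+2J+D`: the part `P Φ(a-b)` (`window`), the hyperbolic part of the sum of the `w` (`hyp_vec`; norm `≤ 4R C^(cR) ≤ K^R`),
the hyperbolic part of the sum of the `e` (`hyp_comb`, `B = 4R(3+B₀)`). And `z^(C₁R+J)(a-b)` is an integer combination in that window (`bdd_window`). Then `round` with `B = 3`; `C₁ ≥` the constants of `bdd_window`, `hyp_vec` and `D'`. -/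
theorem fibre (S : Setup x M) (F0 : Finset M) (c : ℕ) (hc : 1 ≤ c) : ∃ C₁ C₃ : ℕ, 1 ≤ C₁ ∧ ∀ R : ℕ, 1 ≤ R → ∀ J : ℕ,
    (C₃ : ℝ) * (Real.log R + 1) ≤ J → ∀ l l' : List (M × M), l.length ≤ 2 * R → l'.length ≤ 2 * R →
    (∀ p ∈ l, Bdd x F0 (c * R) p.1 ∧ p.2 ∈ EE (mono x S.a) S.m (C₁ * R) (2 * C₁ * R + 1) (3 + S.B₀)) →
    (∀ p ∈ l', Bdd x F0 (c * R) p.1 ∧ p.2 ∈ EE (mono x S.a) S.m (C₁ * R) (2 * C₁ * R + 1) (3 + S.B₀)) →
    ∀ a b : M, a = (l.map fun p => p.1 + p.2).sum → b = (l'.map fun p => p.1 + p.2).sum → ‖S.P (S.Φ (a - b))‖ ≤ 1 / S.C →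
    a - b ∈ EE (mono x S.a) S.m (C₁ * R + J) (2 * C₁ * R + 1 + 2 * J + S.D) (3 + S.B₀) := by
  obtain ⟨cw, hcw⟩ := bdd_window S F0
  obtain ⟨Cx, hCx1, hCx⟩ := bdd_exp S F0
  obtain ⟨ch, hch⟩ := hyp_vec S (4 * Cx ^ c) (by
    have := one_le_pow₀ hCx1 (n := c)
    linarith)
  obtain ⟨c3, hc3⟩ := hyp_comb S
  obtain ⟨q, hq⟩ := exists_nat_ge (1 + Real.log (4 * (3 + S.B₀)))
  have hlog0 : 0 ≤ Real.log (4 * (3 + (S.B₀ : ℝ))) := by
    apply Real.log_nonneg
    have : (0 : ℝ) ≤ S.B₀ := Nat.cast_nonneg _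
    linarith
  refine ⟨cw * c + ch + S.D' + 1, c3 * q, by omega, fun R hR J hJ l l' hl hl' hp hp' a b ha hb hab => ?_⟩
  set C₁ : ℕ := cw * c + ch + S.D' + 1 with hC₁
  set z : Aˣ := mono x S.a with hz
  set T := S.ρ (z : A) with hT
  set s : ℕ := C₁ * R + J with hs
  have hR1 : (1 : ℝ) ≤ R := by exact_mod_cast hR
  have hcR : 1 ≤ c * R := Nat.one_le_iff_ne_zero.2 (by positivity)
  have hC := S.hC
  -- the two halves
  set W : M := (l.map Prod.fst).sum - (l'.map Prod.fst).sum with hW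
  set E : M := (l.map Prod.snd).sum - (l'.map Prod.snd).sum with hE
  have hsplit : ∀ t : List (M × M), (t.map fun p => p.1 + p.2).sum =
      (t.map Prod.fst).sum + (t.map Prod.snd).sum := by
    intro t
    induction t with
    | nil => simp
    | cons y t ih =>
      rw [List.map_cons, List.sum_cons, ih, List.map_cons, List.sum_cons, List.map_cons,
        List.sum_cons]
      abel
  have hWE : a - b = W + E := by
    rw [ha, hb, hsplit, hsplit, hW, hE]
    abel
  -- norm of `W`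
  have hWn : ‖S.Φ W‖ ≤ (4 * Cx ^ c) ^ R := by
    have h1 : ∀ t : List (M × M), t.length ≤ 2 * R → (∀ p ∈ t, Bdd x F0 (c * R) p.1) →
        ‖S.Φ (t.map Prod.fst).sum‖ ≤ (2 * R) * Cx ^ (c * R) := by
      intro t ht ht'
      refine (norm_list93 S.Φ (Cx ^ (c * R)) _ ?_).trans ?_
      · intro y hy
        obtain ⟨p, hp1, rfl⟩ := List.mem_map.1 hy
        exact hCx _ _ hcR (ht' p hp1)
      · rw [List.length_map]
        refine mul_le_mul_of_nonneg_right ?_ (by positivity)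
        exact_mod_cast ht
    have h2 := h1 l hl fun p hp1 => (hp p hp1).1
    have h3 := h1 l' hl' fun p hp1 => (hp' p hp1).1
    rw [hW, map_sub]
    refine (norm_sub_le _ _).trans ((add_le_add h2 h3).trans ?_)
    rw [mul_pow, ← pow_mul]
    have h4 : (4 : ℝ) * R ≤ 4 ^ R := by
      have h5 : ∀ n : ℕ, 1 ≤ n → 4 * n ≤ 4 ^ n := by
        intro n hn
        induction n, hn using Nat.le_induction with
        | base => norm_num
        | succ n hn ih =>
          rw [pow_succ]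
          omega
      exact_mod_cast h5 R hR
    have h6 : (0 : ℝ) ≤ Cx ^ (c * R) := by positivity
    nlinarith [mul_le_mul_of_nonneg_right h4 h6]
  -- windows of `W`
  have hWw : ∃ bW : Fin S.k → ℤ[X], (∀ i, (bW i).degree < (s + C₁ * R + 1 : ℕ)) ∧
      ((z : A) ^ s) • W = comb (z : A) S.m bW := by
    have h1 : ∀ t : List (M × M), (∀ p ∈ t, Bdd x F0 (c * R) p.1) →
        ∃ b : Fin S.k → ℤ[X], (∀ i, (b i).degree < (s + cw * (c * R) + 1 : ℕ)) ∧
          ((z : A) ^ s) • (t.map Prod.fst).sum = comb (z : A) S.m b := by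
      intro t ht
      refine listW93 z S.m (cw * (c * R)) s ?_ _ ?_
      · rw [hs, hC₁]
        nlinarith [Nat.zero_le (ch * R), Nat.zero_le (S.D' * R)]
      · intro y hy
        obtain ⟨p, hp1, rfl⟩ := List.mem_map.1 hy
        obtain ⟨b, hb1, hb2⟩ := hcw (c * R) p.1 hcR (ht p hp1)
        refine ⟨b, fun i => ?_, hb2⟩
        have := hb1 i
        rwa [mul_assoc] at this
    obtain ⟨b1, hb1, hb1'⟩ := h1 l fun p hp1 => (hp p hp1).1
    obtain ⟨b2, hb2, hb2'⟩ := h1 l' fun p hp1 => (hp' p hp1).1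
    have h3 : s + cw * (c * R) + 1 ≤ s + C₁ * R + 1 := by
      rw [hC₁]
      nlinarith [Nat.zero_le (ch * R), Nat.zero_le (S.D' * R)]
    refine ⟨fun i => b1 i - b2 i, fun i => ?_, ?_⟩
    · exact lt_of_le_of_lt (degree_sub_le _ _) (max_lt (deg_mono93 (hb1 i) h3) (deg_mono93 (hb2 i) h3))
    · rw [comb_sub93, ← hb1', ← hb2', ← smul_sub]
  -- windows of `E`
  have hEw : ∃ bE : Fin S.k → ℤ[X], (∀ i, (bE i).degree < (2 * C₁ * R + 1 : ℕ)) ∧
      (∀ i j, |(bE i).coeff j| ≤ ((4 * R * (3 + S.B₀) : ℕ) : ℤ)) ∧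
      ((z : A) ^ (C₁ * R)) • E = comb (z : A) S.m bE := by
    have h1 : ∀ t : List (M × M), t.length ≤ 2 * R →
        (∀ p ∈ t, p.2 ∈ EE z S.m (C₁ * R) (2 * C₁ * R + 1) (3 + S.B₀)) →
        ∃ b : Fin S.k → ℤ[X], (∀ i, (b i).degree < (2 * C₁ * R + 1 : ℕ)) ∧
          (∀ i j, |(b i).coeff j| ≤ ((2 * R * (3 + S.B₀) : ℕ) : ℤ)) ∧
          ((z : A) ^ (C₁ * R)) • (t.map Prod.snd).sum = comb (z : A) S.m b := by
      intro t ht ht'
      obtain ⟨b, hb1, hb2, hb3⟩ := listE93 z S.m (C₁ * R) (2 * C₁ * R + 1) (3 + S.B₀)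
        (t.map Prod.snd) (by
          intro y hy
          obtain ⟨p, hp1, rfl⟩ := List.mem_map.1 hy
          exact ht' p hp1)
      refine ⟨b, hb1, fun i j => (hb2 i j).trans ?_, hb3⟩
      rw [List.length_map]
      exact_mod_cast Nat.mul_le_mul_right _ ht
    obtain ⟨b1, hb1, hb1c, hb1'⟩ := h1 l hl fun p hp1 => (hp p hp1).2
    obtain ⟨b2, hb2, hb2c, hb2'⟩ := h1 l' hl' fun p hp1 => (hp' p hp1).2
    refine ⟨fun i => b1 i - b2 i, fun i => ?_, fun i j => ?_, ?_⟩
    · exact lt_of_le_of_lt (degree_sub_le _ _) (max_lt (hb1 i) (hb2 i))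
    · rw [coeff_sub]
      refine (abs_sub _ _).trans ?_
      have h2 := hb1c i j
      have h3 := hb2c i j
      push_cast at h2 h3 ⊢
      linarith
    · rw [comb_sub93, ← hb1', ← hb2', ← smul_sub]
  obtain ⟨bW, hbW, hbW'⟩ := hWw
  obtain ⟨bE, hbE, hbEc, hbE'⟩ := hEw
  -- part 1
  obtain ⟨c1, hc1, hc1b, hc1'⟩ := S.window (S.P (S.Φ (a - b)))
  have hc1b' : ∀ i j, ‖(c1 i).coeff j‖ ≤ 1 := by
    intro i j
    refine (hc1b i j).trans ((mul_le_mul_of_nonneg_left hab hC.le).trans ?_)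
    rw [mul_one_div, div_self hC.ne']
  -- part 2
  obtain ⟨f2, hf2, hf2b, hf2'⟩ := hch R hR (S.Φ W) hWn s (by
    rw [hs, hC₁]
    nlinarith [Nat.zero_le (cw * c * R), Nat.zero_le (S.D' * R)])
  -- part 3
  have hJ' : (c3 : ℝ) * (Real.log ((4 * R * (3 + S.B₀) : ℕ) : ℝ) + 1) ≤ J := by
    refine le_trans ?_ hJ
    have h1 : Real.log ((4 * R * (3 + S.B₀) : ℕ) : ℝ) = Real.log R + Real.log (4 * (3 + S.B₀)) := by
      rw [← Real.log_mul (by positivity) (by positivity)]
      congr 1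
      push_cast
      ring
    have h2 : 0 ≤ Real.log R := Real.log_nonneg hR1
    rw [h1]
    push_cast
    rw [mul_assoc]
    refine mul_le_mul_of_nonneg_left ?_ (Nat.cast_nonneg _)
    nlinarith
  obtain ⟨f3, hf3, hf3b, hf3'⟩ := hc3 (4 * R * (3 + S.B₀)) J (Nat.one_le_iff_ne_zero.2 (by positivity)) hJ'
    (2 * C₁ * R + 1) bE hbE hbEc
  -- the integer combination
  set bb : Fin S.k → ℤ[X] := fun i => bW i + X ^ J * bE i with hbb
  set cc : Fin S.k → ℂ[X] := fun i => (X ^ s * c1 i + f2 i) + f3 i with hcc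
  have hz1 : ((z : A) ^ s) • (a - b) = comb (z : A) S.m bb := by
    rw [hbb, comb_add93, comb_X93, ← hbW', ← hbE', hWE, smul_add, smul_smul]
    congr 2
    rw [hs, ← pow_add, add_comm J]
  have hcomm : ∀ (n : ℕ) (v : Fin S.n → ℂ), S.P ((T ^ n) v) = (T ^ n) (S.P v) := by
    intro n v
    rw [hT, ← map_pow, S.comm]
  have hΦn : ∀ (n : ℕ) (y : M), S.Φ (((z : A) ^ n) • y) = (T ^ n) (S.Φ y) := by
    intro n y
    rw [S.comp, hT, map_pow]
  have key : S.Φ (comb (z : A) S.m bb) = combC T (fun i => S.Φ (S.m i)) cc := by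
    have e0 : combC T (fun i => S.Φ (S.m i)) cc =
        (T ^ s) (combC T (fun i => S.Φ (S.m i)) c1) + combC T (fun i => S.Φ (S.m i)) f2 +
          combC T (fun i => S.Φ (S.m i)) f3 := by
      simp only [hcc, combC, map_add, map_mul, map_pow, aeval_X, LinearMap.add_apply,
        Module.End.mul_apply, Finset.sum_add_distrib, map_sum]
    rw [e0, ← hz1, hΦn, hc1', ← hf2', ← hf3', ← hbE', hΦn, hcomm]
    have e1 : (T ^ J) ((T ^ (C₁ * R)) (S.Φ E) - (T ^ (C₁ * R)) (S.P (S.Φ E))) =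
        (T ^ s) (S.Φ E - S.P (S.Φ E)) := by
      rw [← map_sub, ← Module.End.mul_apply, ← pow_add, hs, add_comm J]
    rw [e1, hWE, map_add S.Φ, map_add S.P]
    simp only [map_sub, map_add]
    abel
  obtain ⟨b', hb'1, hb'2, hb'3⟩ := S.round (2 * C₁ * R + 1 + 2 * J + S.D) (by
      rw [hC₁]
      nlinarith [Nat.zero_le (cw * c * R), Nat.zero_le (ch * R), Nat.zero_le (S.D' * (R - 1)),
        Nat.le_mul_of_pos_right S.D' hR]) bb cc
    (by
      intro i
      refine deg_add93 (deg_mono93 (hbW i) ?_) (deg_mono93 (deg_X93 (hbE i)) ?_)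
      · rw [hs, mul_assoc]
        omega
      · omega)
    (by
      intro i
      refine deg_add93 (deg_add93 (deg_mono93 (deg_X93 (hc1 i)) ?_) (deg_mono93 (hf2 i) ?_))
        (deg_mono93 (hf3 i) le_rfl)
      · rw [hs, mul_assoc]
        omega
      · have h7 : ch * R ≤ C₁ * R := Nat.mul_le_mul_right _ (by omega)
        rw [hs, mul_assoc]
        omega)
    key 3 (by
      intro i j
      show ‖((X ^ s * c1 i + f2 i) + f3 i).coeff j‖ ≤ _
      rw [coeff_add, coeff_add, coeff_X_pow_mul']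
      refine (norm_add_le _ _).trans ?_
      have e1 : ‖(if s ≤ j then (c1 i).coeff (j - s) else 0 : ℂ) + (f2 i).coeff j‖ ≤ 1 + 1 := by
        refine (norm_add_le _ _).trans (add_le_add ?_ (hf2b i j))
        split_ifs
        · exact hc1b' _ _
        · rw [norm_zero]; norm_num
      have e2 := hf3b i j
      push_cast
      linarith)
  refine ⟨b', hb'1, hb'2, ?_⟩
  rw [hb'3, ← hz1, smul_smul]
  have e9 : (↑z⁻¹ : A) ^ s * (z : A) ^ s = 1 := by
    rw [mul_comm, inv_pow93]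
  rw [e9, one_smul]

end

end Pool.Agent.Helper74.MU
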