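import Pool.Agent.Helper74.MU.C4

set_option autoImplicit false

namespace Pool.Agent.Helper74.MU

open Polynomial

/-! ### polynomially bounded functions -/

private def PB75 (g : ℕ → ℝ) : Prop := ∃ C : ℕ, 1 ≤ C ∧ ∀ R : ℕ, 1 ≤ R → g R ≤ ((C : ℝ) * R) ^ C

private theorem pb_mono75 {g h : ℕ → ℝ} (hh : PB75 h) (hgh : ∀ R : ℕ, 1 ≤ R → g R ≤ h R) : PB75 g := by
  obtain ⟨C, hC, h1⟩ := hh
  exact ⟨C, hC, fun R hR => (hgh R hR).trans (h1 R hR)⟩

private theorem one_le75 {K R : ℕ} (hK : 1 ≤ K) (hR : 1 ≤ R) : (1 : ℝ) ≤ (K : ℝ) * R := by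
  have h1 : (1 : ℝ) ≤ K := by exact_mod_cast hK
  have h2 : (1 : ℝ) ≤ R := by exact_mod_cast hR
  exact one_le_mul_of_one_le_of_one_le h1 h2

private theorem pow_mono75 {C K R : ℕ} (hC : 1 ≤ C) (hR : 1 ≤ R) (hCK : C ≤ K) :
    ((C : ℝ) * R) ^ C ≤ ((K : ℝ) * R) ^ K := by
  have h0 : (C : ℝ) * R ≤ (K : ℝ) * R := by
    have : (C : ℝ) ≤ K := by exact_mod_cast hCK
    exact mul_le_mul_of_nonneg_right this (Nat.cast_nonneg R)
  exact (pow_le_pow_left₀ (by positivity) h0 C).trans (pow_le_pow_right₀ (one_le75 (hC.trans hCK) hR) hCK)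

private theorem pb_const75 (a : ℝ) : PB75 (fun _ => a) := by
  refine ⟨⌈a⌉₊ + 1, by omega, fun R hR => ?_⟩
  have h1 : a ≤ ((⌈a⌉₊ + 1 : ℕ) : ℝ) := (Nat.le_ceil a).trans (by push_cast; linarith)
  have hR' : (1 : ℝ) ≤ R := by exact_mod_cast hR
  have h2 : ((⌈a⌉₊ + 1 : ℕ) : ℝ) ≤ ((⌈a⌉₊ + 1 : ℕ) : ℝ) * R := le_mul_of_one_le_right (by positivity) hR'
  have h3 : (1 : ℝ) ≤ ((⌈a⌉₊ + 1 : ℕ) : ℝ) * R := one_le75 (by omega) hR
  exact h1.trans (h2.trans (le_self_pow₀ h3 (by omega)))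

private theorem pb_id75 : PB75 (fun R => (R : ℝ)) := ⟨1, le_rfl, fun R _ => by simp⟩

private theorem pb_add75 {g h : ℕ → ℝ} (hg : PB75 g) (hh : PB75 h) : PB75 (fun R => g R + h R) := by
  obtain ⟨C, hC, h1⟩ := hg
  obtain ⟨D, hD, h2⟩ := hh
  refine ⟨max C D + 1, by omega, fun R hR => ?_⟩
  have h3 := (h1 R hR).trans (pow_mono75 hC hR (le_max_left C D))
  have h4 := (h2 R hR).trans (pow_mono75 hD hR (le_max_right C D))
  set K := max C D with hK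
  have hK1 : 1 ≤ K := hC.trans (le_max_left C D)
  have hR' : (1 : ℝ) ≤ R := by exact_mod_cast hR
  have hK' : (1 : ℝ) ≤ K := by exact_mod_cast hK1
  have h5 : ((K : ℝ) * R) ^ K ≤ (((K + 1 : ℕ) : ℝ) * R) ^ K := by
    apply pow_le_pow_left₀ (by positivity)
    push_cast
    nlinarith
  have h6 : (2 : ℝ) ≤ ((K + 1 : ℕ) : ℝ) * R := by
    push_cast
    nlinarith
  have h7 : (0 : ℝ) ≤ (((K + 1 : ℕ) : ℝ) * R) ^ K := by positivity
  rw [pow_succ]
  nlinarith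

private theorem pb_mul75 {g h : ℕ → ℝ} (hg : PB75 g) (hh : PB75 h) (h0 : ∀ R : ℕ, 1 ≤ R → 0 ≤ h R) :
    PB75 (fun R => g R * h R) := by
  obtain ⟨C, hC, h1⟩ := hg
  obtain ⟨D, hD, h2⟩ := hh
  refine ⟨2 * max C D, by omega, fun R hR => ?_⟩
  have h3 := (h1 R hR).trans (pow_mono75 hC hR (le_max_left C D))
  have h4 := (h2 R hR).trans (pow_mono75 hD hR (le_max_right C D))
  set K := max C D with hK
  have hK1 : 1 ≤ K := hC.trans (le_max_left C D)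
  calc g R * h R ≤ ((K : ℝ) * R) ^ K * ((K : ℝ) * R) ^ K := mul_le_mul h3 h4 (h0 R hR) (by positivity)
    _ = ((K : ℝ) * R) ^ (2 * K) := by rw [← pow_add, two_mul]
    _ ≤ (((2 * K : ℕ) : ℝ) * R) ^ (2 * K) := by
        apply pow_le_pow_left₀ (by positivity)
        push_cast
        have : (0 : ℝ) ≤ (K : ℝ) * R := by positivity
        nlinarith

private theorem pb_pow75 {g : ℕ → ℝ} (hg : PB75 g) (h0 : ∀ R : ℕ, 1 ≤ R → 0 ≤ g R) (n : ℕ) : PB75 (fun R => g R ^ n) := by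
  induction n with
  | zero => exact pb_mono75 (pb_const75 1) fun R _ => by simp
  | succ n ih =>
    refine pb_mono75 (pb_mul75 ih hg h0) fun R _ => ?_
    rw [pow_succ]

private theorem pb_exp75 {b α β : ℝ} (hb : 1 ≤ b) (hβ : 0 ≤ β) {m : ℕ → ℕ}
    (hm : ∀ R : ℕ, 1 ≤ R → (m R : ℝ) ≤ α + β * Real.log R) : PB75 (fun R => b ^ m R) := by
  have hlb : 0 ≤ Real.log b := Real.log_nonneg hb
  refine pb_mono75 (pb_mul75 (pb_const75 (Real.exp (α * Real.log b)))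
    (pb_pow75 pb_id75 (fun R _ => Nat.cast_nonneg R) ⌈β * Real.log b⌉₊) fun R _ => by positivity) fun R hR => ?_
  have hR' : (1 : ℝ) ≤ R := by exact_mod_cast hR
  have hR0 : (0 : ℝ) < R := by linarith
  have hlR : 0 ≤ Real.log R := Real.log_nonneg hR'
  have h1 : b ^ m R = Real.exp ((m R : ℝ) * Real.log b) := by
    rw [Real.exp_nat_mul, Real.exp_log (by linarith)]
  have h2 : (R : ℝ) ^ ⌈β * Real.log b⌉₊ = Real.exp ((⌈β * Real.log b⌉₊ : ℝ) * Real.log R) := by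
    rw [Real.exp_nat_mul, Real.exp_log hR0]
  rw [h1, h2, ← Real.exp_add, Real.exp_le_exp]
  have h3 := mul_le_mul_of_nonneg_right (hm R hR) hlb
  have h4 := mul_le_mul_of_nonneg_right (Nat.le_ceil (β * Real.log b)) hlR
  nlinarith

section

variable {ι A M : Type} [Fintype ι] [CommRing A] [AddCommGroup M] [Module A M] {x : ι → Aˣ}

/-- decompose a list of sums -/
private theorem split75 [DecidableEq M] (W E : Finset M) (l : List M)
    (hl : ∀ u ∈ l, u ∈ Finset.image₂ (fun a b => a + b) W E) :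
    ∃ l' : List (M × M), l'.length = l.length ∧ (∀ p ∈ l', p.1 ∈ W ∧ p.2 ∈ E) ∧
      l.sum = (l'.map fun p => p.1 + p.2).sum := by
  induction l with
  | nil => exact ⟨[], rfl, by simp, rfl⟩
  | cons u l ih =>
    obtain ⟨l', h1, h2, h3⟩ := ih fun v hv => hl v (List.mem_cons_of_mem _ hv)
    obtain ⟨w, hw, e, he, hwe⟩ := Finset.mem_image₂.1 (hl u List.mem_cons_self)
    refine ⟨(w, e) :: l', by simp [h1], ?_, ?_⟩
    · intro p hp
      rcases List.mem_cons.1 hp with rfl | hp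
      · exact ⟨hw, he⟩
      · exact h2 p hp
    · rw [List.sum_cons, h3, List.map_cons, List.sum_cons, ← hwe]

private theorem norm_sum75 (S : Setup x M) (K : ℝ) (l : List (M × M))
    (hl : ∀ p ∈ l, ‖S.P (S.Φ p.1)‖ + ‖S.P (S.Φ p.2)‖ ≤ K) :
    ‖S.P (S.Φ (l.map fun p => p.1 + p.2).sum)‖ ≤ l.length * K := by
  induction l with
  | nil => simp
  | cons p l ih =>
    have h1 := ih fun v hv => hl v (List.mem_cons_of_mem _ hv)
    have h2 := hl p List.mem_cons_self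
    rw [List.map_cons, List.sum_cons, map_add, map_add, map_add, map_add, List.length_cons]
    push_cast
    have h3 := norm_add_le (S.P (S.Φ p.1) + S.P (S.Φ p.2)) (S.P (S.Φ (l.map fun p => p.1 + p.2).sum))
    have h4 := norm_add_le (S.P (S.Φ p.1)) (S.P (S.Φ p.2))
    linarith

/-- Block MU-C5 (covering). `U = W + E`; all doublings of `U` up to `2^i ≤ 2R` have size at most `(C₂ R)^C₂ |E|`.
Proof: codes of `P Φ(a)` (`exists_code`, `δ = 1/(2C)`; the norm is polynomial by `bdd_P`, `EE_P`), fibres by `fibre` with `J = ⌈C₃ (log R + 1)⌉`, sizes by `card_codes`, `EE_card`; `(2B+1)^(k(2J+D))` is polynomial in `R`. -/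
theorem cover [DecidableEq M] (S : Setup x M) (F0 : Finset M) (c : ℕ) (hc : 1 ≤ c) : ∃ C₁ C₂ : ℕ, 1 ≤ C₁ ∧ 1 ≤ C₂ ∧ ∀ R : ℕ, 1 ≤ R →
    ∀ W E : Finset M, (∀ w ∈ W, Bdd x F0 (c * R) w) → (E : Set M) = EE (mono x S.a) S.m (C₁ * R) (2 * C₁ * R + 1) (3 + S.B₀) →
    ∀ i : ℕ, 2 ^ i ≤ 2 * R → (dbl (Finset.image₂ (fun a b => a + b) W E) i).card ≤ (C₂ * R) ^ C₂ * E.card := by
  obtain ⟨C₁, C₃, hC₁, hfib⟩ := fibre S F0 c hc
  obtain ⟨Cb, hCb, hb⟩ := bdd_P S F0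
  obtain ⟨Ce, hCe, he⟩ := EE_P S (3 + S.B₀)
  have hSC := S.hC
  obtain ⟨f, hf1, hf2⟩ := exists_code S.n (1 / (2 * S.C)) (by positivity)
  -- the bounds
  let K : ℕ → ℝ := fun R => Cb * ((c * R : ℕ) : ℝ) ^ (S.e + 2) +
    Ce * ((C₁ * R + (2 * C₁ * R + 1) : ℕ) : ℝ) ^ (S.e + 1)
  have hK0 : ∀ R, 0 ≤ K R := fun R => by positivity
  have hKPB : PB75 K := by
    refine pb_add75 (pb_mul75 (pb_const75 Cb) (pb_pow75 ?_ (fun R _ => Nat.cast_nonneg _) _) fun R _ => by positivity)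
      (pb_mul75 (pb_const75 Ce) (pb_pow75 ?_ (fun R _ => Nat.cast_nonneg _) _) fun R _ => by positivity)
    · refine pb_mono75 (pb_mul75 (pb_const75 c) pb_id75 fun R _ => Nat.cast_nonneg R) fun R _ => ?_
      push_cast
      exact le_rfl
    · refine pb_mono75 (pb_add75 (pb_mul75 (pb_const75 (3 * C₁)) pb_id75 fun R _ => Nat.cast_nonneg R)
        (pb_const75 1)) fun R _ => ?_
      push_cast
      linarith
  let N : ℕ → ℕ := fun R => ⌈2 * S.C * (2 * R * K R)⌉₊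
  have hNPB : PB75 (fun R => (N R : ℝ)) := by
    refine pb_mono75 (pb_add75 (pb_mul75 (pb_mul75 (pb_const75 (4 * S.C)) pb_id75 fun R _ => Nat.cast_nonneg R)
      hKPB fun R _ => hK0 R) (pb_const75 1)) fun R _ => ?_
    have h1 : 0 ≤ 2 * S.C * (2 * R * K R) := by
      have := hK0 R
      positivity
    have h2 := (Nat.ceil_lt_add_one h1).le
    show ((⌈2 * S.C * (2 * R * K R)⌉₊ : ℕ) : ℝ) ≤ _
    refine h2.trans (le_of_eq ?_)
    ring
  let J : ℕ → ℕ := fun R => ⌈(C₃ : ℝ) * (Real.log R + 1)⌉₊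
  have hJ : ∀ R : ℕ, 1 ≤ R → (J R : ℝ) ≤ (C₃ + 1 : ℝ) + C₃ * Real.log R := by
    intro R hR
    have hR' : (1 : ℝ) ≤ R := by exact_mod_cast hR
    have hlR : 0 ≤ Real.log R := Real.log_nonneg hR'
    have h2 := (Nat.ceil_lt_add_one (show (0 : ℝ) ≤ (C₃ : ℝ) * (Real.log R + 1) by positivity)).le
    show ((⌈(C₃ : ℝ) * (Real.log R + 1)⌉₊ : ℕ) : ℝ) ≤ _
    linarith
  have hPB : PB75 (fun R => (2 * (N R : ℝ) + 3) ^ (2 * S.n) *
      ((2 * (3 + S.B₀) + 1 : ℕ) : ℝ) ^ (S.k * (2 * J R + S.D))) := by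
    refine pb_mul75 (pb_pow75 (pb_add75 (pb_mul75 (pb_const75 2) hNPB fun R _ => Nat.cast_nonneg _) (pb_const75 3))
      (fun R _ => by positivity) _) (pb_exp75 (α := S.k * (2 * (C₃ + 1) + S.D)) (β := S.k * (2 * C₃)) ?_ ?_ ?_)
      fun R _ => by positivity
    · push_cast
      have : (0 : ℝ) ≤ S.B₀ := Nat.cast_nonneg _
      linarith
    · positivity
    · intro R hR
      have h1 := hJ R hR
      push_cast
      have h2 : (0 : ℝ) ≤ S.k := Nat.cast_nonneg _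
      have h3 : (2 * (J R : ℝ) + S.D) ≤ (2 * (C₃ + 1) + S.D) + 2 * C₃ * Real.log R := by linarith
      have h4 := mul_le_mul_of_nonneg_left h3 h2
      linarith
  obtain ⟨C₂, hC₂, hC₂'⟩ := hPB
  refine ⟨C₁, C₂, hC₁, hC₂, ?_⟩
  intro R hR W E hW hE i hi
  have hEmem : ∀ e, e ∈ E ↔ e ∈ EE (mono x S.a) S.m (C₁ * R) (2 * C₁ * R + 1) (3 + S.B₀) := by
    intro e
    rw [← hE]
    exact Finset.mem_coe.symm
  -- the elements of the doubling
  have hdec : ∀ a ∈ dbl (Finset.image₂ (fun a b => a + b) W E) i, ∃ l : List (M × M), l.length ≤ 2 * R ∧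
      (∀ p ∈ l, Bdd x F0 (c * R) p.1 ∧ p.2 ∈ EE (mono x S.a) S.m (C₁ * R) (2 * C₁ * R + 1) (3 + S.B₀)) ∧
      a = (l.map fun p => p.1 + p.2).sum := by
    intro a ha
    obtain ⟨l, h1, h2, h3⟩ := (mem_dbl _ _ _).1 ha
    obtain ⟨l', h4, h5, h6⟩ := split75 W E l h2
    exact ⟨l', by rw [h4, h1]; exact hi, fun p hp => ⟨hW _ (h5 p hp).1, (hEmem _).1 (h5 p hp).2⟩, h3.trans h6⟩
  have hcR : 1 ≤ c * R := Nat.mul_pos hc hR
  have hnorm : ∀ a ∈ dbl (Finset.image₂ (fun a b => a + b) W E) i, ‖S.P (S.Φ a)‖ ≤ N R * (1 / (2 * S.C)) := by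
    intro a ha
    obtain ⟨l, h1, h2, h3⟩ := hdec a ha
    have h4 := norm_sum75 S (K R) l fun p hp => add_le_add (hb (c * R) p.1 hcR (h2 p hp).1)
      (he _ _ p.2 (by omega) (h2 p hp).2)
    rw [← h3] at h4
    have h5 : (l.length : ℝ) ≤ 2 * R := by exact_mod_cast h1
    have h6 := mul_le_mul_of_nonneg_right h5 (hK0 R)
    have h7 : 2 * S.C * (2 * R * K R) ≤ N R := Nat.le_ceil _
    have h8 : 2 * R * K R ≤ N R * (1 / (2 * S.C)) := by
      rw [mul_one_div, le_div_iff₀ (by positivity)]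
      linarith
    linarith
  have hcode : ∀ a ∈ dbl (Finset.image₂ (fun a b => a + b) W E) i, ∀ b ∈ dbl (Finset.image₂ (fun a b => a + b) W E) i,
      f (S.P (S.Φ a)) = f (S.P (S.Φ b)) →
      a - b ∈ EE (mono x S.a) S.m (C₁ * R + J R) (2 * C₁ * R + 1 + 2 * J R + S.D) (3 + S.B₀) := by
    intro a ha b hb' hab
    obtain ⟨l, h1, h2, h3⟩ := hdec a ha
    obtain ⟨l', h1', h2', h3'⟩ := hdec b hb'
    refine hfib R hR (J R) (Nat.le_ceil _) l l' h1 h1' h2 h2' a b h3 h3' ?_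
    rw [map_sub, map_sub]
    refine (hf1 _ _ hab).trans (le_of_eq ?_)
    field_simp
  have hcard := card_codes (dbl (Finset.image₂ (fun a b => a + b) W E) i) (fun a => f (S.P (S.Φ a)))
    (EE (mono x S.a) S.m (C₁ * R + J R) (2 * C₁ * R + 1 + 2 * J R + S.D) (3 + S.B₀)) (EE_finite _ _ _ _ _) hcode
  obtain ⟨T, hT1, hT2⟩ := hf2 (N R)
  have hcodes : ((dbl (Finset.image₂ (fun a b => a + b) W E) i).image (fun a => f (S.P (S.Φ a)))).card ≤
      (2 * N R + 3) ^ (2 * S.n) := by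
    refine (Finset.card_le_card ?_).trans hT1
    intro y hy
    obtain ⟨a, ha, rfl⟩ := Finset.mem_image.1 hy
    exact hT2 _ (hnorm a ha)
  have hEE : (EE (mono x S.a) S.m (C₁ * R + J R) (2 * C₁ * R + 1 + 2 * J R + S.D) (3 + S.B₀)).ncard ≤
      (2 * (3 + S.B₀) + 1) ^ (S.k * (2 * J R + S.D)) * E.card := by
    have h1 := EE_card (mono x S.a) S.m (C₁ * R) (C₁ * R + J R) (2 * C₁ * R + 1) (2 * J R + S.D) (3 + S.B₀)
    rw [← hE, Set.ncard_coe_finset, ← add_assoc] at h1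
    exact h1
  have hfin := hcard.trans (Nat.mul_le_mul hcodes hEE)
  have h1 : (((2 * N R + 3) ^ (2 * S.n) * (2 * (3 + S.B₀) + 1) ^ (S.k * (2 * J R + S.D)) : ℕ) : ℝ) ≤
      (((C₂ * R) ^ C₂ : ℕ) : ℝ) := by
    have h2 := hC₂' R hR
    push_cast at h2 ⊢
    exact h2
  have h2 : (2 * N R + 3) ^ (2 * S.n) * (2 * (3 + S.B₀) + 1) ^ (S.k * (2 * J R + S.D)) ≤ (C₂ * R) ^ C₂ := by
    exact_mod_cast h1
  calc _ ≤ _ := hfin
    _ = (2 * N R + 3) ^ (2 * S.n) * (2 * (3 + S.B₀) + 1) ^ (S.k * (2 * J R + S.D)) * E.card := by ring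
    _ ≤ _ := Nat.mul_le_mul_right _ h2

end

end Pool.Agent.Helper74.MU
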