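import Mathlib

/-!
# Project MU (MP_a16d94_pr): random walks on metabelian groups of Krull dimension at most one

Definitions shared by all files: word length, expected word length, Laurent combinations `z^(-s) * sum b_i(z) m_i`, the data used in the
algebraic part.
-/

set_option autoImplicit false

namespace Pool.Agent.Helper74.MU

open Polynomial

/-- the word length of `g` with respect to `S` -/
noncomputable def wl {G : Type} [Group G] (S : Set G) (g : G) : ℕ :=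
  sInf {m | ∃ l : List G, l.length = m ∧ (∀ x ∈ l, x ∈ S) ∧ l.prod = g}

/-- the value of a word -/
def val {G : Type} [Group G] {Ω : Type} (s : Ω → G) {n : ℕ} (w : Fin n → Ω) : G := (List.ofFn fun i => s (w i)).prod

/-- the expected word length of the random walk after `n` steps -/
noncomputable def el {G : Type} [Group G] {Ω : Type} [Fintype Ω] (s : Ω → G) (n : ℕ) : ℝ :=
  (∑ w : Fin n → Ω, (wl (Set.range s) (val s w) : ℝ)) / (Fintype.card Ω : ℝ) ^ n

open Classical in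
/-- the number of words of length `n` whose value has word length larger than `D` -/
noncomputable def big {G : Type} [Group G] {Ω : Type} [Fintype Ω] (s : Ω → G) (n : ℕ) (D : ℝ) : ℕ :=
  (Finset.univ.filter fun w : Fin n → Ω => D < (wl (Set.range s) (val s w) : ℝ)).card

/-! ### algebra -/

section

variable {ι A M : Type} [Fintype ι] [CommRing A] [AddCommGroup M] [Module A M]

/-- the monomial `x^q`, `q` an integer vector -/
noncomputable def mono (x : ι → Aˣ) (q : ι → ℤ) : Aˣ := ∏ i, x i ^ q i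

/-- `∑ i, b_i(z) m_i` -/
noncomputable def comb {k : ℕ} (z : A) (m : Fin k → M) (b : Fin k → ℤ[X]) : M := ∑ i, (aeval z (b i)) • m i

/-- the window set `{z^(-s) ∑ i, b_i(z) m_i : deg b_i < r, |coefficients| ≤ B}` -/
def EE {k : ℕ} (z : Aˣ) (m : Fin k → M) (s r B : ℕ) : Set M :=
  {a | ∃ b : Fin k → ℤ[X], (∀ i, (b i).degree < r) ∧ (∀ i j, |(b i).coeff j| ≤ B) ∧ a = ((↑z⁻¹ : A) ^ s) • comb (z : A) m b}

/-- `a` is a sum of at most `N^2` elements `x^q f`, `|q|_1 ≤ N`, `f ∈ F0` -/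
def Bdd (x : ι → Aˣ) (F0 : Finset M) (N : ℕ) (a : M) : Prop :=
  ∃ l : List ((ι → ℤ) × M), l.length ≤ N ^ 2 ∧ (∀ e ∈ l, (∑ i, |e.1 i|) ≤ N ∧ e.2 ∈ F0) ∧
    a = (l.map fun e => ((mono x e.1 : Aˣ) : A) • e.2).sum

/-- `∑ i, c_i(T) w_i` -/
noncomputable def combC {V : Type} [AddCommGroup V] [Module ℂ V] {k : ℕ} (T : Module.End ℂ V) (w : Fin k → V) (c : Fin k → ℂ[X]) : V :=
  ∑ i, (aeval T (c i)) (w i)

/-- iterated doubling of a finite set -/
noncomputable def dbl [DecidableEq M] (U : Finset M) : ℕ → Finset M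
  | 0 => U
  | i + 1 => Finset.image₂ (fun a b => a + b) (dbl U i) (dbl U i)

/-- finite generation over `ℤ[z, z⁻¹]` by the family `m` -/
def GenBy {k : ℕ} (z : Aˣ) (m : Fin k → M) : Prop :=
  ∀ a : M, ∃ (s : ℕ) (b : Fin k → ℤ[X]), a = ((↑z⁻¹ : A) ^ s) • comb (z : A) m b

/-- The data of the algebraic part: `M` is generated by `m` over `ℤ[z^±1]`, `z = x^a`; `Φ` is the map to `ℂ ⊗ M` (in coordinates), `ρ` the action of `A`
on it, `P` the projection onto the part where `z` has eigenvalues of modulus one. -/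
structure Setup (x : ι → Aˣ) (M : Type) [AddCommGroup M] [Module A M] where
  a : ι → ℤ
  k : ℕ
  m : Fin k → M
  gen : GenBy (mono x a) m
  n : ℕ
  Φ : M →+ (Fin n → ℂ)
  ρ : A →+* Module.End ℂ (Fin n → ℂ)
  comp : ∀ b v, Φ (b • v) = ρ b (Φ v)
  P : (Fin n → ℂ) →ₗ[ℂ] (Fin n → ℂ)
  C : ℝ
  θ : ℝ
  e : ℕ
  hC : 0 < C
  hθ : 0 < θ
  hθ1 : θ < 1
  comm : ∀ b v, P (ρ b v) = ρ b (P v)
  hyp : ∀ (J : ℕ) (v : Fin n → ℂ), ∃ v₁ v₂ : Fin n → ℂ,
    v = P v + ρ (((mono x a : Aˣ) : A) ^ J) v₁ + ρ ((↑(mono x a)⁻¹ : A) ^ J) v₂ ∧ ‖v₁‖ ≤ C * θ ^ J * ‖v‖ ∧ ‖v₂‖ ≤ C * θ ^ J * ‖v‖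
  growth : ∀ (q : ι → ℤ) (v : Fin n → ℂ), ‖P (ρ ((mono x q : Aˣ) : A) v)‖ ≤ C * (1 + ∑ i, |(q i : ℝ)|) ^ e * ‖v‖
  /-- every vector is a small combination of the `z^j m_i`, `j < D` -/
  D : ℕ
  window : ∀ v : Fin n → ℂ, ∃ c : Fin k → ℂ[X], (∀ i, (c i).degree < D) ∧ (∀ i j, ‖(c i).coeff j‖ ≤ C * ‖v‖) ∧
    combC (ρ ((mono x a : Aˣ) : A)) (fun i => Φ (m i)) c = v
  /-- rounding -/
  D' : ℕ
  B₀ : ℕ
  round : ∀ r : ℕ, D' ≤ r → ∀ (b : Fin k → ℤ[X]) (c : Fin k → ℂ[X]), (∀ i, (b i).degree < r) → (∀ i, (c i).degree < r) →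
    Φ (comb ((mono x a : Aˣ) : A) m b) = combC (ρ ((mono x a : Aˣ) : A)) (fun i => Φ (m i)) c →
    ∀ B : ℕ, (∀ i j, ‖(c i).coeff j‖ ≤ B) →
      ∃ b' : Fin k → ℤ[X], (∀ i, (b' i).degree < r) ∧ (∀ i j, |(b' i).coeff j| ≤ (B + B₀ : ℕ)) ∧
        comb ((mono x a : Aˣ) : A) m b' = comb ((mono x a : Aˣ) : A) m b

/-- the coefficients condition `α`: every element of the group generated by `x` is a root of a nonzero integer polynomial -/
def CondA (x : ι → Aˣ) : Prop := ∀ u ∈ Subgroup.closure (Set.range x), ∃ f : ℤ[X], f ≠ 0 ∧ aeval (u : A) f = 0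

/-- condition `β`: for every prime `p`, any two elements of the group generated by `x` satisfy a polynomial relation which is nonzero modulo `p` -/
def CondB (x : ι → Aˣ) : Prop := ∀ p : ℕ, p.Prime → ∀ u ∈ Subgroup.closure (Set.range x), ∀ v ∈ Subgroup.closure (Set.range x),
  ∃ F : MvPolynomial (Fin 2) ℤ, MvPolynomial.map (Int.castRingHom (ZMod p)) F ≠ 0 ∧ MvPolynomial.aeval ![(u : A), (v : A)] F = 0

end

end Pool.Agent.Helper74.MU
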