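import Pool.Agent.Helper74.MU.Defs

set_option autoImplicit false

namespace Pool.Agent.Helper74.MU

open Polynomial

/-- Block MU-E0. Integrality modulo all minimal primes implies integrality. (The product of the monic polynomials evaluated at `y` lies in the intersection of the
minimal primes, hence is nilpotent; a power of the product kills `y`. `A` noetherian: finitely many minimal primes.) -/
theorem E0 {A : Type} [CommRing A] [IsNoetherianRing A] (B : Subring A) (y : A)
    (h : ∀ P ∈ minimalPrimes A, ∃ q : (↥B)[X], q.Monic ∧ aeval y q ∈ P) : IsIntegral B y := by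
  classical
  have hfin : (minimalPrimes A).Finite := minimalPrimes.finite_of_isNoetherianRing A
  choose! q hq using h
  obtain ⟨Q, hQ⟩ : ∃ Q : (↥B)[X], Q = ∏ P ∈ hfin.toFinset, q P := ⟨_, rfl⟩
  have hmon : Q.Monic := by
    rw [hQ]
    refine monic_prod_of_monic _ _ fun P hP => (hq P ?_).1
    exact hfin.mem_toFinset.1 hP
  have hmem : aeval y Q ∈ nilradical A := by
    have h1 : nilradical A = sInf (minimalPrimes A) := (Ideal.sInf_minimalPrimes (I := (⊥ : Ideal A))).symm
    rw [h1, Submodule.mem_sInf]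
    intro P hP
    have h2 : aeval y Q = ∏ P ∈ hfin.toFinset, aeval y (q P) := by
      rw [hQ, map_prod]
    rw [h2]
    exact Ideal.mem_of_dvd P (Finset.dvd_prod_of_mem _ (hfin.mem_toFinset.2 hP)) (hq P hP).2
  obtain ⟨n, hn⟩ := mem_nilradical.1 hmem
  refine ⟨Q ^ n, hmon.pow n, ?_⟩
  have h3 : aeval y (Q ^ n) = 0 := by rw [map_pow, hn]
  exact h3

/-- Block MU-E0'. Lifting of integral equations along a ring homomorphism into a field. -/
theorem E0' {A K : Type} [CommRing A] [Field K] (φ : A →+* K) (s : Set A) (y : A)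
    (h : φ y ∈ integralClosure (Subring.closure (φ '' s)) K) :
    ∃ q : (↥(Subring.closure s))[X], q.Monic ∧ φ (aeval y q) = 0 := by
  obtain ⟨p, hp, hp0⟩ := h
  have hcl : (Subring.closure s).map φ = Subring.closure (φ '' s) := RingHom.map_closure φ s
  have hmap : ∀ x ∈ Subring.closure s, φ x ∈ Subring.closure (φ '' s) := by
    intro x hx
    rw [← hcl]
    exact ⟨x, hx, rfl⟩
  obtain ⟨f, hf⟩ : ∃ f : ↥(Subring.closure s) →+* ↥(Subring.closure (φ '' s)), ∀ x, (f x : K) = φ x :=
    ⟨φ.restrict _ _ hmap, fun x => rfl⟩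
  have hsurj : Function.Surjective f := by
    rintro ⟨z, hz⟩
    rw [← hcl] at hz
    obtain ⟨x, hx, hxz⟩ := hz
    refine ⟨⟨x, hx⟩, ?_⟩
    apply Subtype.ext
    rw [hf]
    exact hxz
  have hl : p ∈ lifts f := by
    rw [lifts_iff_coeff_lifts]
    intro n
    exact hsurj _
  obtain ⟨q, hq1, -, hq3⟩ := lifts_and_degree_eq_and_monic hl hp
  refine ⟨q, hq3, ?_⟩
  have h1 : φ (aeval y q) = eval₂ (algebraMap _ K) (φ y) p := by
    rw [← hq1, eval₂_map, aeval_def, hom_eval₂]
    congr 1
    exact RingHom.ext fun x => (hf x).symm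
  rw [h1]
  exact hp0

end Pool.Agent.Helper74.MU
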