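import Pool.Agent.Helper74.MU.Defs

set_option autoImplicit false

namespace Pool.Agent.Helper74.MU

open Polynomial

private theorem int_h5 {K : Type} [Field K] (A : Subring K) {ι : Type} (S : Finset ι)
    (hS : S.Nonempty) (a : ι → K) (e : ι → ℕ) (he : Set.InjOn e (S : Set ι))
    (ha : ∀ i ∈ S, a i ∈ A) (ha' : ∀ i ∈ S, (a i)⁻¹ ∈ A) (ha0 : ∀ i ∈ S, a i ≠ 0) (v : K)
    (h : ∑ i ∈ S, a i * v ^ e i = 0) : IsIntegral A v := by
  classical
  obtain ⟨i0, hi0, hmax⟩ := S.exists_max_image e hS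
  let b : ι → A := fun i => if h : (a i0)⁻¹ * a i ∈ A then ⟨_, h⟩ else 0
  have hb : ∀ i ∈ S, ((b i : A) : K) = (a i0)⁻¹ * a i := by
    intro i hi
    have h1 : (a i0)⁻¹ * a i ∈ A := A.mul_mem (ha' i0 hi0) (ha i hi)
    show ((if h : (a i0)⁻¹ * a i ∈ A then (⟨_, h⟩ : A) else 0 : A) : K) = _
    rw [dif_pos h1]
  refine ⟨X ^ e i0 + ∑ i ∈ S.erase i0, C (b i) * X ^ e i, ?_, ?_⟩
  · apply monic_X_pow_add
    rw [← mem_degreeLT]
    refine Submodule.sum_mem _ fun i hi => ?_
    rw [mem_degreeLT]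
    refine lt_of_le_of_lt (degree_C_mul_X_pow_le _ _) ?_
    have h1 : e i ≠ e i0 := by
      intro h2
      exact (Finset.mem_erase.1 hi).1 (he (Finset.mem_erase.1 hi).2 hi0 h2)
    have h2 := hmax i (Finset.mem_erase.1 hi).2
    exact_mod_cast lt_of_le_of_ne h2 h1
  · rw [eval₂_add, eval₂_X_pow, eval₂_finsetSum]
    have h1 : ∀ i ∈ S.erase i0, eval₂ (algebraMap A K) v (C (b i) * X ^ e i) =
        (a i0)⁻¹ * (a i * v ^ e i) := by
      intro i hi
      rw [eval₂_mul, eval₂_C, eval₂_X_pow]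
      have h2 : algebraMap A K (b i) = (a i0)⁻¹ * a i := hb i (Finset.mem_erase.1 hi).2
      rw [h2, mul_assoc]
    rw [Finset.sum_congr rfl h1, ← Finset.mul_sum]
    have h2 := Finset.add_sum_erase S (fun i => a i * v ^ e i) hi0
    rw [h] at h2
    have h3 : v ^ e i0 = (a i0)⁻¹ * (a i0 * v ^ e i0) := by
      rw [inv_mul_cancel_left₀ (ha0 i0 hi0)]
    rw [h3, ← mul_add]
    rw [h2, mul_zero]

/-- Block MU-E1p (Noether normalisation trick in characteristic `p`). `z = u v^N`, `u = z v^(-N)`: a relation `∑ c_ij u^i v^j = 0` becomes `∑ c_ij z^i v^(j-Ni) = 0`; for `N` larger than all `j`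
the exponents `j - N i` of the monomials with `c_ij ≠ 0` in `ZMod p` are distinct, so the top and the bottom coefficient (in `v`) are units `c z^i` of `F_p[z,z⁻¹]`; hence `v` and `v⁻¹` are integral
over the subring generated by `z, z⁻¹`. (The prime field is contained in every subring.) -/
theorem E1p {K : Type} [Field K] (p : ℕ) [Fact p.Prime] [CharP K p] (u v : K) (hu : u ≠ 0) (hv : v ≠ 0)
    (F : MvPolynomial (Fin 2) ℤ) (hF : MvPolynomial.map (Int.castRingHom (ZMod p)) F ≠ 0)
    (h0 : MvPolynomial.aeval ![u, v] F = 0) :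
    {N : ℕ | ¬ (v ∈ integralClosure (Subring.closure {u * v ^ N, (u * v ^ N)⁻¹}) K ∧
      v⁻¹ ∈ integralClosure (Subring.closure {u * v ^ N, (u * v ^ N)⁻¹}) K)}.Finite := by
  classical
  let _ : Algebra (ZMod p) K := ZMod.algebra K p
  set G : MvPolynomial (Fin 2) (ZMod p) := MvPolynomial.map (Int.castRingHom (ZMod p)) F with hG
  have hG0 : ∑ m ∈ G.support, algebraMap (ZMod p) K (G.coeff m) * (u ^ m 0 * v ^ m 1) = 0 := by
    have h1 : MvPolynomial.eval₂ (algebraMap (ZMod p) K) ![u, v] G = 0 := by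
      rw [hG, MvPolynomial.eval₂_map]
      rw [MvPolynomial.aeval_def] at h0
      have h2 : (algebraMap (ZMod p) K).comp (Int.castRingHom (ZMod p)) = algebraMap ℤ K :=
        RingHom.ext_int _ _
      rw [h2]
      exact h0
    rw [MvPolynomial.eval₂_eq'] at h1
    rw [← h1]
    refine Finset.sum_congr rfl fun m _ => ?_
    rw [Fin.prod_univ_two]
    rfl
  set D := G.support.sup fun m => m 1 with hD
  set M := G.support.sup fun m => m 0 with hM
  have hDm : ∀ m ∈ G.support, m 1 ≤ D := fun m hm => Finset.le_sup (f := fun m => m 1) hm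
  have hMm : ∀ m ∈ G.support, m 0 ≤ M := fun m hm => Finset.le_sup (f := fun m => m 0) hm
  refine (Set.finite_Iic D).subset ?_
  intro N hN
  rw [Set.mem_Iic]
  by_contra hcon
  push Not at hcon
  apply hN
  set z := u * v ^ N with hz
  have hz0 : z ≠ 0 := mul_ne_zero hu (pow_ne_zero _ hv)
  set A := Subring.closure {z, z⁻¹} with hA
  have hzA : z ∈ A := Subring.subset_closure (by simp)
  have hzA' : z⁻¹ ∈ A := Subring.subset_closure (by simp)
  have hcA : ∀ c : ZMod p, algebraMap (ZMod p) K c ∈ A := by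
    intro c
    have h1 : algebraMap (ZMod p) K c = ((c.val : ℕ) : K) := by
      conv_lhs => rw [← ZMod.natCast_zmod_val c]
      rw [map_natCast]
    rw [h1]
    exact natCast_mem A _
  have hcoef : ∀ m ∈ G.support, G.coeff m ≠ 0 := fun m hm => MvPolynomial.mem_support_iff.1 hm
  let a : (Fin 2 →₀ ℕ) → K := fun m => algebraMap (ZMod p) K (G.coeff m) * z ^ m 0
  let e : (Fin 2 →₀ ℕ) → ℕ := fun m => m 1 + N * (M - m 0)
  have ha : ∀ m ∈ G.support, a m ∈ A := fun m _ => A.mul_mem (hcA _) (A.pow_mem hzA _)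
  have ha' : ∀ m ∈ G.support, (a m)⁻¹ ∈ A := by
    intro m _
    show (algebraMap (ZMod p) K (G.coeff m) * z ^ m 0)⁻¹ ∈ A
    rw [mul_inv, ← map_inv₀, ← inv_pow]
    exact A.mul_mem (hcA _) (A.pow_mem hzA' _)
  have ha0 : ∀ m ∈ G.support, a m ≠ 0 := by
    intro m hm
    refine mul_ne_zero ?_ (pow_ne_zero _ hz0)
    rw [Ne, map_eq_zero]
    exact hcoef m hm
  have he : Set.InjOn e (G.support : Set (Fin 2 →₀ ℕ)) := by
    intro m hm m' hm' hmm
    have hm := Finset.mem_coe.1 hm
    have hm' := Finset.mem_coe.1 hm'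
    have h1 : m 1 + N * (M - m 0) = m' 1 + N * (M - m' 0) := hmm
    have h2 : m 1 < N := lt_of_le_of_lt (hDm m hm) hcon
    have h3 : m' 1 < N := lt_of_le_of_lt (hDm m' hm') hcon
    have h4 : m 1 = m' 1 := by
      have h5 := congrArg (· % N) h1
      simp only [Nat.add_mul_mod_self_left] at h5
      rwa [Nat.mod_eq_of_lt h2, Nat.mod_eq_of_lt h3] at h5
    have h5 : M - m 0 = M - m' 0 := by
      rw [h4] at h1
      exact Nat.eq_of_mul_eq_mul_left (by omega) (Nat.add_left_cancel h1)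
    have h6 := hMm m hm
    have h7 := hMm m' hm'
    have h8 : m 0 = m' 0 := by omega
    ext i
    fin_cases i
    · exact h8
    · exact h4
  have hsum : ∑ m ∈ G.support, a m * v ^ e m = 0 := by
    have h1 : ∀ m ∈ G.support, a m * v ^ e m =
        v ^ (N * M) * (algebraMap (ZMod p) K (G.coeff m) * (u ^ m 0 * v ^ m 1)) := by
      intro m hm
      have h2 : N * M = N * m 0 + N * (M - m 0) := by
        rw [← mul_add, Nat.add_sub_cancel' (hMm m hm)]
      show algebraMap (ZMod p) K (G.coeff m) * z ^ m 0 * v ^ (m 1 + N * (M - m 0)) = _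
      rw [h2, pow_add, pow_add, hz, mul_pow, ← pow_mul]
      ring
    rw [Finset.sum_congr rfl h1, ← Finset.mul_sum, hG0, mul_zero]
  have hne : G.support.Nonempty := by
    rw [Finset.nonempty_iff_ne_empty, Ne, MvPolynomial.support_eq_empty]
    exact hF
  set E := G.support.sup e with hE
  have hEm : ∀ m ∈ G.support, e m ≤ E := fun m hm => Finset.le_sup (f := e) hm
  constructor
  · rw [mem_integralClosure_iff]
    exact int_h5 A G.support hne a e he ha ha' ha0 v hsum
  · rw [mem_integralClosure_iff]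
    refine int_h5 A G.support hne a (fun m => E - e m) ?_ ha ha' ha0 v⁻¹ ?_
    · intro m hm m' hm' hmm
      have h1 : E - e m = E - e m' := hmm
      have h2 := hEm m (Finset.mem_coe.1 hm)
      have h3 := hEm m' (Finset.mem_coe.1 hm')
      exact he hm hm' (by omega)
    · have h1 : ∀ m ∈ G.support, a m * v⁻¹ ^ (E - e m) = (v ^ E)⁻¹ * (a m * v ^ e m) := by
        intro m hm
        have h2 : v ^ E = v ^ (E - e m) * v ^ e m := by
          rw [← pow_add, Nat.sub_add_cancel (hEm m hm)]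
        have h3 : v ^ (E - e m) ≠ 0 := pow_ne_zero _ hv
        have h4 : v ^ e m ≠ 0 := pow_ne_zero _ hv
        rw [h2, inv_pow]
        field_simp
      rw [Finset.sum_congr rfl h1, ← Finset.mul_sum, hsum, mul_zero]

end Pool.Agent.Helper74.MU
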