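import Pool.Agent.Helper74.MU.Vfin

set_option autoImplicit false

namespace Pool.Agent.Helper74.MU

open Polynomial

/-- for a valuation subring at which `v` is not a unit, at most one `N` makes `u v^N` a unit -/
private theorem e1n_sub {K : Type} [Field K] (V : ValuationSubring K) (u v : K) (hu : u ≠ 0) (hv : v ≠ 0) (hV : V.valuation v ≠ 1) :
    {N : ℕ | V.valuation (u * v ^ N) = 1}.Finite := by
  refine Set.Subsingleton.finite ?_
  intro N hN M hM
  simp only [Set.mem_ofPred_eq, map_mul, map_pow] at hN hM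
  have hu' : V.valuation u ≠ 0 := (Valuation.ne_zero_iff _).2 hu
  have hv' : V.valuation v ≠ 0 := (Valuation.ne_zero_iff _).2 hv
  have h1 : V.valuation v ^ N = V.valuation v ^ M := mul_left_cancel₀ hu' (hN.trans hM.symm)
  exact pow_right_injective₀ (zero_lt_iff.2 hv') hV h1

private theorem e1n_aux {K : Type} [Field K] (z v : K) (hz : z ≠ 0)
    (h : v ∉ integralClosure (Subring.closure {z, z⁻¹}) K) :
    ∃ V : ValuationSubring K, v⁻¹ ∈ V.nonunits ∧ V.valuation z = 1 := by
  have h2 : v ∉ (integralClosure (Subring.closure {z, z⁻¹}) K).toSubring := h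
  rw [← iInf_valuationSubring_superset] at h2
  rw [Subring.mem_iInf] at h2
  push Not at h2
  obtain ⟨⟨V, hV⟩, hvV⟩ := h2
  refine ⟨V, ?_, ?_⟩
  · rw [V.inv_mem_nonunits_iff]
    right
    exact hvV
  · have h3 : z ∈ V := hV (by simp)
    have h4 : z⁻¹ ∈ V := hV (by simp)
    rw [← V.valuation_le_one_iff] at h3 h4
    rw [map_inv₀] at h4
    have h5 : V.valuation z ≠ 0 := (Valuation.ne_zero_iff _).2 hz
    exact le_antisymm h3 ((inv_le_one₀ (zero_lt_iff.2 h5)).1 h4)

/-- Block MU-E1n. Number field case: if `v` is not integral over `ℤ[z^±1]`, `z = u v^N`, there is a valuation subring `V` with `z, z⁻¹ ∈ V`, `v ∉ V` (`iInf_valuationSubring_superset`); there are finitely many `V`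
with `v ∉ V` (`Vfin` for `v⁻¹`), and for a fixed `V` at most one `N` with `V.valuation (u v^N) = 1`. Same for `v⁻¹`. -/
theorem E1n {K : Type} [Field K] [NumberField K] (u v : K) (hu : u ≠ 0) (hv : v ≠ 0) :
    {N : ℕ | ¬ (v ∈ integralClosure (Subring.closure {u * v ^ N, (u * v ^ N)⁻¹}) K ∧
      v⁻¹ ∈ integralClosure (Subring.closure {u * v ^ N, (u * v ^ N)⁻¹}) K)}.Finite := by
  have hF1 := Vfin K v⁻¹ (inv_ne_zero hv)
  have hF2 := Vfin K v hv
  have hfin : (⋃ V ∈ ({V : ValuationSubring K | v⁻¹ ∈ V.nonunits} ∪ {V : ValuationSubring K | v ∈ V.nonunits}),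
      {N : ℕ | V.valuation (u * v ^ N) = 1}).Finite := by
    refine Set.Finite.biUnion (hF1.union hF2) ?_
    intro V hV
    refine e1n_sub V u v hu hv ?_
    rcases hV with hV | hV
    · have h1 : V.valuation v⁻¹ < 1 := (V.mem_nonunits_iff).1 hV
      intro h2
      rw [map_inv₀, h2, inv_one] at h1
      exact lt_irrefl _ h1
    · exact ne_of_lt ((V.mem_nonunits_iff).1 hV)
  refine hfin.subset ?_
  intro N hN
  have hz : u * v ^ N ≠ 0 := mul_ne_zero hu (pow_ne_zero _ hv)
  simp only [Set.mem_ofPred_eq, not_and_or] at hN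
  rcases hN with hN | hN
  · obtain ⟨V, h1, h2⟩ := e1n_aux _ v hz hN
    exact Set.mem_biUnion (Or.inl h1) h2
  · obtain ⟨V, h1, h2⟩ := e1n_aux _ v⁻¹ hz hN
    rw [inv_inv] at h1
    exact Set.mem_biUnion (Or.inr h1) h2

private theorem e1z_map {K : Type} [Field K] {L : Type} [Field L] (φ : L →+* K) (z x : L)
    (h : x ∈ integralClosure (Subring.closure {z, z⁻¹}) L) :
    φ x ∈ integralClosure (Subring.closure {φ z, (φ z)⁻¹}) K := by
  have hle : ∀ y : Subring.closure {z, z⁻¹}, φ (y : L) ∈ Subring.closure {φ z, (φ z)⁻¹} := by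
    intro y
    have h1 : φ (y : L) ∈ (Subring.closure {z, z⁻¹}).map φ := ⟨y, y.2, rfl⟩
    rw [RingHom.map_closure, Set.image_pair, map_inv₀] at h1
    exact h1
  let ψ : Subring.closure {z, z⁻¹} →+* Subring.closure {φ z, (φ z)⁻¹} :=
    (φ.comp (Subring.subtype _)).codRestrict _ hle
  have hx : IsIntegral (Subring.closure {z, z⁻¹}) x := h
  exact IsIntegral.map_of_comp_eq ψ φ (by ext y; rfl) hx

/-- Block MU-E1z. Characteristic zero: pass to the number field `ℚ(u,v)`. -/
theorem E1z {K : Type} [Field K] [CharZero K] (u v : K) (hu : u ≠ 0) (hv : v ≠ 0) (f g : ℤ[X]) (hf : f ≠ 0) (hg : g ≠ 0)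
    (hfu : aeval u f = 0) (hgv : aeval v g = 0) :
    {N : ℕ | ¬ (v ∈ integralClosure (Subring.closure {u * v ^ N, (u * v ^ N)⁻¹}) K ∧
      v⁻¹ ∈ integralClosure (Subring.closure {u * v ^ N, (u * v ^ N)⁻¹}) K)}.Finite := by
  have key : ∀ (w : K) (p : ℤ[X]), p ≠ 0 → aeval w p = 0 → IsIntegral ℚ w := by
    intro w p hp hw
    have h1 : IsAlgebraic ℤ w := ⟨p, hp, hw⟩
    exact (h1.extendScalars (R := ℤ) (S := ℚ) (RingHom.injective_int _)).isIntegral
  have hui := key u f hf hfu
  have hvi := key v g hg hgv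
  let L : IntermediateField ℚ K := IntermediateField.adjoin ℚ {u, v}
  have hfd : FiniteDimensional ℚ L := by
    refine IntermediateField.finiteDimensional_adjoin ?_
    intro x hx
    rcases hx with rfl | hx
    · exact hui
    · rw [Set.mem_singleton_iff] at hx
      rw [hx]
      exact hvi
  have : NumberField L := { to_charZero := inferInstance, to_finiteDimensional := hfd }
  have hu1 : u ∈ L := IntermediateField.subset_adjoin _ _ (by simp)
  have hv1 : v ∈ L := IntermediateField.subset_adjoin _ _ (by simp)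
  let u' : L := ⟨u, hu1⟩
  let v' : L := ⟨v, hv1⟩
  have hu' : u' ≠ 0 := fun h => hu (congrArg Subtype.val h)
  have hv' : v' ≠ 0 := fun h => hv (congrArg Subtype.val h)
  refine (E1n u' v' hu' hv').subset ?_
  intro N hN hc
  apply hN
  have h1 := e1z_map (algebraMap L K) (u' * v' ^ N) v' hc.1
  have h2 := e1z_map (algebraMap L K) (u' * v' ^ N) v'⁻¹ hc.2
  have e1 : algebraMap L K v' = v := rfl
  have e2 : algebraMap L K u' = u := rfl
  rw [map_mul, map_pow, e1, e2] at h1
  rw [map_mul, map_pow, map_inv₀, e1, e2] at h2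
  exact ⟨h1, h2⟩

end Pool.Agent.Helper74.MU
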