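import Pool.Agent.Helper74.MU.E0
import Pool.Agent.Helper74.MU.E1p
import Pool.Agent.Helper74.MU.E1z

set_option autoImplicit false

namespace Pool.Agent.Helper74.MU

open Polynomial

/-- The finitely many bad exponents in a field quotient. -/
private theorem bad_finite_helper30 {A K : Type} [CommRing A] [Field K] (φ : A →+* K) (u v : Aˣ)
    (hu : ∃ f : ℤ[X], f ≠ 0 ∧ aeval (u : A) f = 0) (hv : ∃ f : ℤ[X], f ≠ 0 ∧ aeval (v : A) f = 0)
    (hβ : ∀ p : ℕ, p.Prime → ∃ F : MvPolynomial (Fin 2) ℤ, MvPolynomial.map (Int.castRingHom (ZMod p)) F ≠ 0 ∧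
      MvPolynomial.aeval ![(u : A), (v : A)] F = 0) :
    {N : ℕ | ¬ (φ v ∈ integralClosure (Subring.closure {φ u * φ v ^ N, (φ u * φ v ^ N)⁻¹}) K ∧
      (φ v)⁻¹ ∈ integralClosure (Subring.closure {φ u * φ v ^ N, (φ u * φ v ^ N)⁻¹}) K)}.Finite := by
  have hu0 : φ u ≠ 0 := (u.isUnit.map φ).ne_zero
  have hv0 : φ v ≠ 0 := (v.isUnit.map φ).ne_zero
  rcases CharP.exists' K with h0 | ⟨p, hp, hcp⟩
  · obtain ⟨f, hf, hfu⟩ := hu
    obtain ⟨g, hg, hgv⟩ := hv
    refine E1z (φ u) (φ v) hu0 hv0 f g hf hg ?_ ?_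
    · have h := Polynomial.aeval_algHom_apply φ.toIntAlgHom (u : A) f
      rw [hfu, map_zero] at h
      exact h
    · have h := Polynomial.aeval_algHom_apply φ.toIntAlgHom (v : A) g
      rw [hgv, map_zero] at h
      exact h
  · obtain ⟨F, hF, hF0⟩ := hβ p hp.out
    refine E1p p (φ u) (φ v) hu0 hv0 F hF ?_
    have h := MvPolynomial.comp_aeval_apply (![(u : A), (v : A)]) φ.toIntAlgHom F
    rw [hF0, map_zero] at h
    have he : (fun i => φ.toIntAlgHom (![(u : A), (v : A)] i)) = ![φ u, φ v] := by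
      funext i
      fin_cases i <;> rfl
    rw [he] at h
    exact h.symm

/-- From the field quotients back to the ring. -/
private theorem integral_helper30 {A : Type} [CommRing A] [IsNoetherianRing A] (z y : Aˣ)
    (h : ∀ P : Ideal A, P ∈ minimalPrimes A → ∃ (K : Type) (_ : Field K) (φ : A →+* K), RingHom.ker φ = P ∧
      φ y ∈ integralClosure (Subring.closure {φ z, (φ z)⁻¹}) K) :
    IsIntegral (Subring.closure {(z : A), (↑z⁻¹ : A)}) (y : A) := by
  refine E0 _ _ fun P hP => ?_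
  obtain ⟨K, hK, φ, hker, hy⟩ := h P hP
  have hz : φ (↑z⁻¹ : A) = (φ z)⁻¹ := by
    refine eq_inv_of_mul_eq_one_left ?_
    rw [← map_mul, Units.inv_mul, map_one]
  have himg : φ '' {(z : A), (↑z⁻¹ : A)} = {φ z, (φ z)⁻¹} := by
    rw [Set.image_pair, hz]
  rw [← himg] at hy
  obtain ⟨q, hq, hq0⟩ := E0' φ {(z : A), (↑z⁻¹ : A)} y hy
  refine ⟨q, hq, ?_⟩
  rw [← hker, RingHom.mem_ker]
  exact hq0

/-- Block MU-E2. In a noetherian ring: for all but finitely many `N`, `v` and `v⁻¹` are integral over the subring generated by `z^±1`, `z = u v^N`.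
(Finitely many minimal primes `P`; for each, `φ : A → FractionRing (A ⧸ P)`, use `E1z` or `E1p`, then `E0'` and `E0`.) -/
theorem E2 {A : Type} [CommRing A] [IsNoetherianRing A] (u v : Aˣ)
    (hu : ∃ f : ℤ[X], f ≠ 0 ∧ aeval (u : A) f = 0) (hv : ∃ f : ℤ[X], f ≠ 0 ∧ aeval (v : A) f = 0)
    (hβ : ∀ p : ℕ, p.Prime → ∃ F : MvPolynomial (Fin 2) ℤ, MvPolynomial.map (Int.castRingHom (ZMod p)) F ≠ 0 ∧
      MvPolynomial.aeval ![(u : A), (v : A)] F = 0) :
    {N : ℕ | ¬ (IsIntegral (Subring.closure {((u * v ^ N : Aˣ) : A), (↑(u * v ^ N)⁻¹ : A)}) (v : A) ∧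
      IsIntegral (Subring.closure {((u * v ^ N : Aˣ) : A), (↑(u * v ^ N)⁻¹ : A)}) (↑v⁻¹ : A))}.Finite := by
  have hex : ∀ P : Ideal A, P ∈ minimalPrimes A → ∃ (K : Type) (_ : Field K) (φ : A →+* K), RingHom.ker φ = P := by
    intro P hP
    have hPp : P.IsPrime := hP.1.1
    refine ⟨FractionRing (A ⧸ P), inferInstance,
      (algebraMap (A ⧸ P) (FractionRing (A ⧸ P))).comp (Ideal.Quotient.mk P), ?_⟩
    ext a
    rw [RingHom.mem_ker, RingHom.comp_apply, FaithfulSMul.algebraMap_eq_zero_iff,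
      Ideal.Quotient.eq_zero_iff_mem]
  choose K hK φ hφ using hex
  have hfin : (minimalPrimes A).Finite := minimalPrimes.finite_of_isNoetherianRing A
  have hbad : ∀ (P : Ideal A) (hP : P ∈ minimalPrimes A),
      {N : ℕ | ¬ (φ P hP v ∈ integralClosure (Subring.closure {φ P hP u * φ P hP v ^ N,
        (φ P hP u * φ P hP v ^ N)⁻¹}) (K P hP) ∧ (φ P hP v)⁻¹ ∈ integralClosure (Subring.closure
        {φ P hP u * φ P hP v ^ N, (φ P hP u * φ P hP v ^ N)⁻¹}) (K P hP))}.Finite := by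
    intro P hP
    exact bad_finite_helper30 (φ P hP) u v hu hv hβ
  have hun : (⋃ P : minimalPrimes A, {N : ℕ | ¬ (φ P P.2 v ∈ integralClosure (Subring.closure {φ P P.2 u * φ P P.2 v ^ N,
        (φ P P.2 u * φ P P.2 v ^ N)⁻¹}) (K P P.2) ∧ (φ P P.2 v)⁻¹ ∈ integralClosure (Subring.closure
        {φ P P.2 u * φ P P.2 v ^ N, (φ P P.2 u * φ P P.2 v ^ N)⁻¹}) (K P P.2))}).Finite := by
    have : Finite (minimalPrimes A) := hfin
    exact Set.finite_iUnion fun P => hbad P P.2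
  refine hun.subset fun N hN => ?_
  by_contra hno
  apply hN
  have hall : ∀ (P : Ideal A) (hP : P ∈ minimalPrimes A),
      φ P hP v ∈ integralClosure (Subring.closure {φ P hP u * φ P hP v ^ N,
        (φ P hP u * φ P hP v ^ N)⁻¹}) (K P hP) ∧ (φ P hP v)⁻¹ ∈ integralClosure (Subring.closure
        {φ P hP u * φ P hP v ^ N, (φ P hP u * φ P hP v ^ N)⁻¹}) (K P hP) := by
    intro P hP
    by_contra hc
    exact hno (Set.mem_iUnion.mpr ⟨⟨P, hP⟩, hc⟩)
  have hz : ∀ (P : Ideal A) (hP : P ∈ minimalPrimes A),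
      φ P hP ((u * v ^ N : Aˣ) : A) = φ P hP u * φ P hP v ^ N := by
    intro P hP
    rw [Units.val_mul, Units.val_pow_eq_pow_val, map_mul, map_pow]
  refine ⟨?_, ?_⟩
  · refine integral_helper30 (u * v ^ N) v fun P hP => ⟨K P hP, hK P hP, φ P hP, hφ P hP, ?_⟩
    rw [hz P hP]
    exact (hall P hP).1
  · refine integral_helper30 (u * v ^ N) v⁻¹ fun P hP => ⟨K P hP, hK P hP, φ P hP, hφ P hP, ?_⟩
    have hvi : φ P hP (↑v⁻¹ : A) = (φ P hP v)⁻¹ := by
      refine eq_inv_of_mul_eq_one_left ?_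
      rw [← map_mul, Units.inv_mul, map_one]
    rw [hz P hP, hvi]
    exact (hall P hP).2

end Pool.Agent.Helper74.MU
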