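import Pool.Agent.Helper74.MU.E2

set_option autoImplicit false

namespace Pool.Agent.Helper74.MU

open Polynomial

private theorem trans63 {A : Type} [CommRing A] (R R' : Subring A) (h : ∀ r ∈ R, IsIntegral R' r) {y : A}
    (hy : IsIntegral R y) : IsIntegral R' y := by
  let C : Subalgebra R' A := integralClosure R' A
  have hle : R ≤ C.toSubring := fun r hr => h r hr
  obtain ⟨p, hp, hpy⟩ := hy
  have h1 : IsIntegral C y := by
    have h2 : ∃ q : C[X], q.Monic ∧ eval₂ (algebraMap C A) y q = 0 := by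
      refine ⟨p.map (Subring.inclusion hle : R →+* C.toSubring), hp.map _, ?_⟩
      have h3 : eval₂ (algebraMap C A) y (p.map (Subring.inclusion hle : R →+* C.toSubring)) =
          eval₂ ((algebraMap C A).comp (Subring.inclusion hle : R →+* C.toSubring)) y p :=
        eval₂_map _ _ _
      rw [h3]
      exact hpy
    exact h2
  exact isIntegral_trans y h1

private theorem mono_mem63 {ι A : Type} [Fintype ι] [CommRing A] (x : ι → Aˣ) (a : ι → ℤ) :
    mono x a ∈ Subgroup.closure (Set.range x) := by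
  unfold mono
  refine Subgroup.prod_mem _ fun i _ => ?_
  have h1 : x i ∈ Subgroup.closure (Set.range x) := Subgroup.subset_closure ⟨i, rfl⟩
  exact Subgroup.zpow_mem _ h1 _

open Classical in
private theorem mono_add63 {ι A : Type} [Fintype ι] [CommRing A] (x : ι → Aˣ) (a : ι → ℤ) (j : ι) (N : ℕ) :
    mono x (a + Pi.single j (N : ℤ)) = mono x a * x j ^ N := by
  unfold mono
  simp only [Pi.add_apply, zpow_add, Finset.prod_mul_distrib]
  congr 1
  rw [Finset.prod_eq_single j]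
  · rw [Pi.single_eq_same, zpow_natCast]
  · intro i _ hij
    rw [Pi.single_eq_of_ne hij, zpow_zero]
  · intro h
    exact absurd (Finset.mem_univ j) h

open Classical in
private theorem chi_add63 {ι : Type} [Fintype ι] (χ : ι → ℂ) (hχ : ∀ i, χ i ≠ 0) (a : ι → ℤ) (j : ι) (N : ℕ) :
    ∏ i, χ i ^ (a + Pi.single j (N : ℤ) : ι → ℤ) i = (∏ i, χ i ^ a i) * χ j ^ N := by
  have h1 : ∀ i, χ i ^ (a + Pi.single j (N : ℤ) : ι → ℤ) i = χ i ^ a i * χ i ^ (Pi.single j (N : ℤ) : ι → ℤ) i := by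
    intro i
    rw [Pi.add_apply, zpow_add₀ (hχ i)]
  simp only [h1, Finset.prod_mul_distrib]
  congr 1
  rw [Finset.prod_eq_single j]
  · rw [Pi.single_eq_same, zpow_natCast]
  · intro i _ hij
    rw [Pi.single_eq_of_ne hij, zpow_zero]
  · intro h
    exact absurd (Finset.mem_univ j) h

/-- at most one `N` with `c d^N = 1` -/
private theorem fin63 {c d : ℝ} (hc : 0 < c) (hd : 0 < d) (hd1 : d ≠ 1) : {N : ℕ | c * d ^ N = 1}.Finite := by
  refine Set.Subsingleton.finite ?_
  intro n hn m hm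
  have h1 : c * d ^ n = c * d ^ m := by
    rw [Set.mem_ofPred_eq] at hn hm
    rw [hn, hm]
  have h2 : d ^ n = d ^ m := mul_left_cancel₀ hc.ne' h1
  exact pow_right_injective₀ hd hd1 h2

open Classical in
private theorem step63 {ι A : Type} [Fintype ι] [CommRing A] [IsNoetherianRing A] (x : ι → Aˣ) (hα : CondA x) (hβ : CondB x)
    (S : Finset (ι → ℂ)) (hS : ∀ χ ∈ S, ∀ i, χ i ≠ 0) (s : Finset ι) :
    ∃ a : ι → ℤ,
      (∀ i ∈ s, IsIntegral (Subring.closure {((mono x a : Aˣ) : A), (↑(mono x a)⁻¹ : A)}) (x i : A) ∧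
        IsIntegral (Subring.closure {((mono x a : Aˣ) : A), (↑(mono x a)⁻¹ : A)}) (↑(x i)⁻¹ : A)) ∧
      ∀ χ ∈ S, ‖∏ i, χ i ^ a i‖ = 1 → ∀ i ∈ s, ‖χ i‖ = 1 := by
  induction s using Finset.induction_on with
  | empty => exact ⟨0, by simp, by simp⟩
  | insert j s hj ih =>
    obtain ⟨a, ha1, ha2⟩ := ih
    have hu := mono_mem63 x a
    have hv : x j ∈ Subgroup.closure (Set.range x) := Subgroup.subset_closure ⟨j, rfl⟩
    have hfin1 := E2 (mono x a) (x j) (hα _ hu) (hα _ hv) (fun p hp => hβ p hp _ hu _ hv)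
    have hfin2 : (⋃ χ ∈ S, {N : ℕ | ‖χ j‖ ≠ 1 ∧ ‖∏ i, χ i ^ a i‖ * ‖χ j‖ ^ N = 1}).Finite := by
      refine Set.Finite.biUnion S.finite_toSet fun χ hχ => ?_
      by_cases h1 : ‖χ j‖ = 1
      · refine Set.Finite.subset Set.finite_empty ?_
        rintro N ⟨h2, -⟩
        exact absurd h1 h2
      · refine (fin63 (c := ‖∏ i, χ i ^ a i‖) (d := ‖χ j‖) ?_ ?_ h1).subset fun N hN => hN.2
        · rw [norm_pos_iff]
          exact Finset.prod_ne_zero_iff.2 fun i _ => zpow_ne_zero _ (hS χ hχ i)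
        · rw [norm_pos_iff]
          exact hS χ hχ j
    obtain ⟨N, hN⟩ := (hfin1.union hfin2).exists_notMem
    rw [Set.mem_union, not_or] at hN
    obtain ⟨hN1, hN2⟩ := hN
    rw [Set.mem_ofPred_eq, not_not] at hN1
    have hN2' : ∀ χ ∈ S, ‖χ j‖ ≠ 1 → ‖∏ i, χ i ^ a i‖ * ‖χ j‖ ^ N ≠ 1 := by
      intro χ hχ h1 h2
      apply hN2
      exact Set.mem_biUnion (x := χ) hχ ⟨h1, h2⟩
    refine ⟨a + Pi.single j (N : ℤ), ?_, ?_⟩
    · rw [mono_add63]
      set z := mono x a with hz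
      set R' := Subring.closure {((z * x j ^ N : Aˣ) : A), (↑(z * x j ^ N)⁻¹ : A)} with hR'
      have hz'1 : IsIntegral R' ((z * x j ^ N : Aˣ) : A) :=
        isIntegral_algebraMap (x := (⟨_, Subring.subset_closure (Or.inl rfl)⟩ : R'))
      have hz'2 : IsIntegral R' (↑(z * x j ^ N)⁻¹ : A) :=
        isIntegral_algebraMap (x := (⟨_, Subring.subset_closure (Or.inr rfl)⟩ : R'))
      have hz1 : IsIntegral R' (z : A) := by
        have h1 : (z : A) = ((z * x j ^ N : Aˣ) : A) * (↑(x j)⁻¹ : A) ^ N := by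
          rw [← Units.val_pow_eq_pow_val, ← Units.val_mul, inv_pow, mul_inv_cancel_right]
        rw [h1]
        exact hz'1.mul (hN1.2.pow N)
      have hz2 : IsIntegral R' (↑z⁻¹ : A) := by
        have h1 : (↑z⁻¹ : A) = (↑(z * x j ^ N)⁻¹ : A) * (↑(x j) : A) ^ N := by
          rw [← Units.val_pow_eq_pow_val, ← Units.val_mul, mul_inv, mul_assoc, inv_mul_cancel, mul_one]
        rw [h1]
        exact hz'2.mul (hN1.1.pow N)
      have hle : ∀ r ∈ Subring.closure {(z : A), (↑z⁻¹ : A)}, IsIntegral R' r := by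
        have h1 : Subring.closure {(z : A), (↑z⁻¹ : A)} ≤ (integralClosure R' A).toSubring := by
          rw [Subring.closure_le]
          rintro r (rfl | rfl)
          · exact hz1
          · exact hz2
        exact fun r hr => h1 hr
      intro i hi
      rcases Finset.mem_insert.1 hi with rfl | hi
      · exact hN1
      · exact ⟨trans63 _ _ hle (ha1 i hi).1, trans63 _ _ hle (ha1 i hi).2⟩
    · intro χ hχ h1
      rw [chi_add63 χ (hS χ hχ), norm_mul, norm_pow] at h1
      have h2 : ‖χ j‖ = 1 := by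
        by_contra h3
        exact hN2' χ hχ h3 h1
      rw [h2, one_pow, mul_one] at h1
      intro i hi
      rcases Finset.mem_insert.1 hi with rfl | hi
      · exact h2
      · exact ha2 χ hχ h1 i hi

/-- Block MU-E3. Existence of `z = x^a`: all `x_i^±1` integral over `ℤ[z^±1]`, and `z` generic for the finite set `S` of characters.
Proof: induction over a finset `s ⊆ ι` (vectors `a` supported in `s`, conclusions for `i ∈ s`): `z' = z x_j^N` for all but finitely many `N` (`E2` with `u = z`, `v = x_j`); `z = z' x_j^(-N)` is integral over `ℤ[z'^±1]`, so by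
transitivity the `x_i`, `i ∈ s`, are. For `χ ∈ S`: if `|χ_j| ≠ 1` at most one `N` has `|χ^a| |χ_j|^N = 1`; if `|χ_j| = 1` then `|χ^a| = 1`, so `|χ_i| = 1` for `i ∈ s`. -/
theorem E3 {ι A : Type} [Fintype ι] [CommRing A] [IsNoetherianRing A] (x : ι → Aˣ) (hα : CondA x) (hβ : CondB x)
    (S : Finset (ι → ℂ)) (hS : ∀ χ ∈ S, ∀ i, χ i ≠ 0) :
    ∃ a : ι → ℤ,
      (∀ i, IsIntegral (Subring.closure {((mono x a : Aˣ) : A), (↑(mono x a)⁻¹ : A)}) (x i : A) ∧
        IsIntegral (Subring.closure {((mono x a : Aˣ) : A), (↑(mono x a)⁻¹ : A)}) (↑(x i)⁻¹ : A)) ∧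
      ∀ χ ∈ S, ‖∏ i, χ i ^ a i‖ = 1 → ∀ i, ‖χ i‖ = 1 := by
  obtain ⟨a, h1, h2⟩ := step63 x hα hβ S hS Finset.univ
  exact ⟨a, fun i => h1 i (Finset.mem_univ i), fun χ hχ h i => h2 χ hχ h i (Finset.mem_univ i)⟩

end Pool.Agent.Helper74.MU
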