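import Pool.Agent.Helper74.MU.Defs

set_option autoImplicit false

namespace Pool.Agent.Helper74.MU

open Polynomial

private lemma laurent65 {A : Type} [CommRing A] (z : Aˣ) (a : A)
    (ha : a ∈ Subring.closure {(z : A), (↑z⁻¹ : A)}) :
    ∃ (s : ℕ) (p : ℤ[X]), a = (↑z⁻¹ : A) ^ s * aeval (z : A) p := by
  have hz : ∀ s : ℕ, (↑z⁻¹ : A) ^ s * (z : A) ^ s = 1 := by
    intro s
    rw [← mul_pow, Units.inv_mul, one_pow]
  induction ha using Subring.closure_induction with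
  | mem x hx =>
    rcases hx with rfl | hx
    · exact ⟨0, X, by simp⟩
    · rw [Set.mem_singleton_iff] at hx
      exact ⟨1, 1, by simp [hx]⟩
  | zero => exact ⟨0, 0, by simp⟩
  | one => exact ⟨0, 1, by simp⟩
  | add x y _ _ hx hy =>
    obtain ⟨s, p, rfl⟩ := hx
    obtain ⟨t, q, rfl⟩ := hy
    refine ⟨s + t, p * X ^ t + q * X ^ s, ?_⟩
    simp only [map_add, map_mul, map_pow, aeval_X]
    linear_combination -((↑z⁻¹ : A) ^ s * aeval (z : A) p) * hz t - ((↑z⁻¹ : A) ^ t * aeval (z : A) q) * hz s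
  | neg x _ hx =>
    obtain ⟨s, p, rfl⟩ := hx
    exact ⟨s, -p, by simp⟩
  | mul x y _ _ hx hy =>
    obtain ⟨s, p, rfl⟩ := hx
    obtain ⟨t, q, rfl⟩ := hy
    refine ⟨s + t, p * q, ?_⟩
    simp only [map_mul]
    ring

/-- Block MU-E4. If `A` is generated by the `x_i^±1`, these are integral over the subring generated by `z^±1`, and `M` is a finite `A`-module, then `M` is generated by finitely many elements over `ℤ[z^±1]`. -/
theorem E4 {ι A M : Type} [Fintype ι] [CommRing A] [AddCommGroup M] [Module A M] [Module.Finite A M] (x : ι → Aˣ) (z : Aˣ)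
    (hgen : Algebra.adjoin ℤ (Set.range (fun i => (x i : A)) ∪ Set.range (fun i => (↑(x i)⁻¹ : A))) = ⊤)
    (hint : ∀ i, IsIntegral (Subring.closure {(z : A), (↑z⁻¹ : A)}) (x i : A) ∧
      IsIntegral (Subring.closure {(z : A), (↑z⁻¹ : A)}) (↑(x i)⁻¹ : A)) :
    ∃ (k : ℕ) (m : Fin k → M), GenBy z m := by
  classical
  obtain ⟨B, hB⟩ : ∃ B : Subring A, B = Subring.closure {(z : A), (↑z⁻¹ : A)} := ⟨_, rfl⟩
  rw [← hB] at hint
  obtain ⟨S, hS⟩ : ∃ S : Set A, S = Set.range (fun i => (x i : A)) ∪ Set.range (fun i => (↑(x i)⁻¹ : A)) := ⟨_, rfl⟩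
  rw [← hS] at hgen
  have hSfin : S.Finite := by
    rw [hS]
    exact (Set.finite_range _).union (Set.finite_range _)
  have hSint : ∀ a ∈ S, IsIntegral B a := by
    intro a ha
    rw [hS] at ha
    rcases ha with ⟨i, rfl⟩ | ⟨i, rfl⟩
    · exact (hint i).1
    · exact (hint i).2
  have hBtop : Algebra.adjoin B S = ⊤ := by
    rw [eq_top_iff]
    intro a _
    have h1 : a ∈ Algebra.adjoin ℤ S := by rw [hgen]; trivial
    have h2 : Algebra.adjoin ℤ S ≤ (Algebra.adjoin B S).restrictScalars ℤ :=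
      Algebra.adjoin_le Algebra.subset_adjoin
    exact h2 h1
  have hfin : Module.Finite B A := by
    have h1 := fg_adjoin_of_finite hSfin hSint
    rw [hBtop] at h1
    exact ⟨by simpa using h1⟩
  have hfinM : Module.Finite B M := Module.Finite.trans A M
  obtain ⟨k, m, hm⟩ := Module.Finite.exists_fin (R := B) (M := M)
  refine ⟨k, m, fun a => ?_⟩
  have ha : a ∈ Submodule.span B (Set.range m) := by rw [hm]; trivial
  rw [Submodule.mem_span_range_iff_exists_fun] at ha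
  obtain ⟨c, hc⟩ := ha
  have h3 : ∀ i, ∃ (s : ℕ) (p : ℤ[X]), ((c i : B) : A) = (↑z⁻¹ : A) ^ s * aeval (z : A) p := by
    intro i
    apply laurent65
    rw [← hB]
    exact (c i).2
  choose t p htp using h3
  obtain ⟨s, hs⟩ : ∃ s : ℕ, ∀ i, t i ≤ s := ⟨∑ i, t i, fun i => Finset.single_le_sum (fun _ _ => Nat.zero_le _) (Finset.mem_univ i)⟩
  refine ⟨s, fun i => p i * X ^ (s - t i), ?_⟩
  rw [← hc]
  unfold comb
  rw [Finset.smul_sum]
  refine Finset.sum_congr rfl fun i _ => ?_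
  have h4 : (c i) • m i = ((c i : B) : A) • m i := rfl
  rw [h4, htp i, smul_smul]
  congr 1
  simp only [map_mul, map_pow, aeval_X]
  have h5 : (↑z⁻¹ : A) ^ (s - t i) * (z : A) ^ (s - t i) = 1 := by
    rw [← mul_pow, Units.inv_mul, one_pow]
  have h6 : (↑z⁻¹ : A) ^ s = (↑z⁻¹ : A) ^ (t i) * (↑z⁻¹ : A) ^ (s - t i) := by
    rw [← pow_add, Nat.add_sub_cancel' (hs i)]
  rw [h6]
  linear_combination -((↑z⁻¹ : A) ^ (t i) * aeval (z : A) (p i)) * h5

end Pool.Agent.Helper74.MU
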