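import Pool.Agent.Helper74.MU.W
import Pool.Agent.Helper74.MU.G1

/-!
Normal forms, transfer of sums from the kernel module to the group.
-/

set_option autoImplicit false

namespace Pool.Agent.Helper74.MU

open Polynomial

section

variable {G ι : Type} [Group G] [Fintype ι]

/-- the normal form `∏ t i ^ q i` (in a fixed order) -/
noncomputable def nf (t : ι → G) (q : ι → ℤ) : G := ((Finset.univ.toList : List ι).map fun i => t i ^ q i).prod

lemma symGen_lt (t : ι → G) (hgen : Subgroup.closure (Set.range t) = ⊤) : SymGen (Set.range (lt t)) := by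
  constructor
  · rintro _ ⟨⟨i, b⟩, rfl⟩
    refine ⟨(i, !b), ?_⟩
    cases b <;> simp [lt]
  · refine top_le_iff.1 (hgen ▸ Subgroup.closure_mono ?_)
    rintro _ ⟨i, rfl⟩
    exact ⟨(i, true), by simp [lt]⟩

lemma wl_letter (t : ι → G) (i : ι) : wl (Set.range (lt t)) (t i) ≤ 1 := by
  have := wl_le (S := Set.range (lt t)) [t i] (by
    intro x hx
    simp only [List.mem_singleton] at hx
    exact ⟨(i, true), by simp [lt, hx]⟩)
  simpa using this

lemma wl_nf (t : ι → G) (hgen : Subgroup.closure (Set.range t) = ⊤) (q : ι → ℤ) :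
    wl (Set.range (lt t)) (nf t q) ≤ ∑ i, (q i).natAbs := by
  have hS := symGen_lt t hgen
  refine (wl_prod hS _).trans ?_
  rw [List.map_map, ← Finset.sum_map_toList]
  refine List.sum_le_sum fun i _ => ?_
  simp only [Function.comp]
  refine (wl_zpow hS _ _).trans ?_
  calc (q i).natAbs * wl (Set.range (lt t)) (t i) ≤ (q i).natAbs * 1 := Nat.mul_le_mul_left _ (wl_letter t i)
    _ = (q i).natAbs := mul_one _

lemma pi_nf [DecidableEq ι] (t : ι → G) (π : G →* Multiplicative (ι → ℤ)) (hπ : ∀ i j, (π (t i)).toAdd j = if i = j then 1 else 0) (q : ι → ℤ) :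
    (π (nf t q)).toAdd = q := by
  have h : ∀ (L : List ι) (j : ι), (π ((L.map fun i => t i ^ q i).prod)).toAdd j = (L.map fun i => if i = j then q i else 0).sum := by
    intro L j
    induction L with
    | nil => simp
    | cons i L ih =>
      simp only [List.map_cons, List.prod_cons, List.sum_cons, map_mul, toAdd_mul, Pi.add_apply, ih, map_zpow, toAdd_zpow,
        Pi.smul_apply, hπ, smul_eq_mul, mul_ite, mul_one, mul_zero]
  funext j
  unfold nf
  rw [h, Finset.sum_map_toList]
  simp

lemma pi_wv [DecidableEq ι] (t : ι → G) (π : G →* Multiplicative (ι → ℤ)) (hπ : ∀ i j, (π (t i)).toAdd j = if i = j then 1 else 0) (l : List (ι × Bool)) :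
    (π (wv t l)).toAdd = ev l := by
  unfold wv
  funext j
  induction l with
  | nil => simp [ev]
  | cons e l ih =>
    simp only [List.map_cons, List.prod_cons, map_mul, toAdd_mul, Pi.add_apply]
    rw [ih]
    unfold ev
    rcases e with ⟨i, b⟩
    cases b
    · simp only [lt, Bool.false_eq_true, if_false, map_inv, toAdd_inv, Pi.neg_apply, hπ, List.map_cons, List.sum_cons]
      split_ifs <;> simp_all
    · simp only [lt, if_true, hπ, List.map_cons, List.sum_cons]

open Classical in
lemma ev_le (l : List (ι × Bool)) (i : ι) : |ev l i| ≤ l.length := by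
  unfold ev
  induction l with
  | nil => simp
  | cons e l ih =>
    simp only [List.map_cons, List.sum_cons, List.length_cons, Nat.cast_add, Nat.cast_one]
    refine (abs_add_le _ _).trans ?_
    have : ∀ (p : Prop) [Decidable p], |if p then (if e.2 then (1 : ℤ) else -1) else 0| ≤ 1 := by
      intro p _
      split_ifs <;> simp
    have := this (e.1 = i)
    linarith

end

section

variable {G ι M A : Type} [Group G] [Fintype ι] [AddCommGroup M] [CommRing A] [Module A M] {x : ι → Aˣ} {t : ι → G} {τ : M → G}

/-- the transfer data: an injective map `τ` turning sums into products and `x i •` into conjugation by `t i` -/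
structure Transfer (x : ι → Aˣ) (t : ι → G) (τ : M → G) : Prop where
  add : ∀ a b, τ (a + b) = τ a * τ b
  inj : Function.Injective τ
  conj : ∀ i a, τ ((x i : A) • a) = t i * τ a * (t i)⁻¹

variable (T : Transfer x t τ)
include T

lemma Transfer.zero : τ 0 = 1 := by
  have := T.add 0 0
  rw [add_zero] at this
  exact (mul_eq_left.1 this.symm)

lemma Transfer.neg (a : M) : τ (-a) = (τ a)⁻¹ := by
  have := T.add (-a) a
  rw [neg_add_cancel, T.zero] at this
  exact eq_inv_of_mul_eq_one_left this.symm

/-- `τ` as a homomorphism -/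
lemma Transfer.listSum (l : List M) : τ l.sum = (l.map τ).prod := by
  induction l with
  | nil => simp [T.zero]
  | cons a l ih => simp [T.add, ih]

lemma Transfer.zsmul (n : ℤ) (a : M) : τ (n • a) = τ a ^ n := by
  let f : Multiplicative M →* G := ⟨⟨fun a => τ a.toAdd, T.zero⟩, fun a b => T.add _ _⟩
  have := map_zpow f (Multiplicative.ofAdd a) n
  simpa [f] using this

lemma Transfer.conjInv (i : ι) (a : M) : τ ((↑(x i)⁻¹ : A) • a) = (t i)⁻¹ * τ a * t i := by
  have h := T.conj i ((↑(x i)⁻¹ : A) • a)
  rw [smul_smul, Units.mul_inv, one_smul] at h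
  rw [h]
  group

lemma Transfer.conjPow (i : ι) (n : ℕ) (a : M) : τ (((x i : A) ^ n) • a) = t i ^ n * τ a * (t i ^ n)⁻¹ := by
  induction n generalizing a with
  | zero => simp
  | succ n ih =>
    rw [pow_succ, mul_smul, ih, T.conj, pow_succ]
    group

lemma Transfer.conjZpow (i : ι) (n : ℤ) (a : M) : τ (((x i ^ n : Aˣ) : A) • a) = t i ^ n * τ a * (t i ^ n)⁻¹ := by
  obtain ⟨n, rfl | rfl⟩ := n.eq_nat_or_neg
  · simpa using T.conjPow i n a
  · have h := T.conjPow i n (((x i ^ (-(n : ℤ)) : Aˣ) : A) • a)
    rw [smul_smul, ← Units.val_pow_eq_pow_val, ← Units.val_mul, ← zpow_natCast, ← zpow_add, add_neg_cancel, zpow_zero, Units.val_one, one_smul] at h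
    rw [h]
    simp only [zpow_neg, zpow_natCast]
    group

lemma Transfer.conjMono (q : ι → ℤ) (a : M) : τ (((mono x q : Aˣ) : A) • a) = nf t q * τ a * (nf t q)⁻¹ := by
  have h : ∀ (L : List ι) (a : M), τ ((((L.map fun i => x i ^ q i).prod : Aˣ) : A) • a) =
      ((L.map fun i => t i ^ q i).prod) * τ a * ((L.map fun i => t i ^ q i).prod)⁻¹ := by
    intro L
    induction L with
    | nil => intro a; simp
    | cons i L ih =>
      intro a
      simp only [List.map_cons, List.prod_cons, Units.val_mul, mul_smul]
      rw [T.conjZpow, ih]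
      group
  unfold mono nf
  have h2 : (∏ i, x i ^ q i : Aˣ) = ((Finset.univ.toList : List ι).map fun i => x i ^ q i).prod := by
    rw [Finset.prod_map_toList]
  rw [h2]
  exact h _ a

end

end Pool.Agent.Helper74.MU
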