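import Pool.Agent.Helper74.MU.G3
import Pool.Agent.Helper74.MU.G4a
import Pool.Agent.Helper74.MU.AT

set_option autoImplicit false

namespace Pool.Agent.Helper74.MU

open Polynomial

section

variable {G ι M A : Type} [Group G] [Fintype ι] [AddCommGroup M] [CommRing A] [Module A M] {x : ι → Aˣ} {t : ι → G} {τ : M → G}

lemma Bdd_mono {x : ι → Aˣ} {F0 : Finset M} {N N' : ℕ} (h : N ≤ N') {a : M} (ha : Bdd x F0 N a) : Bdd x F0 N' a := by
  obtain ⟨l, h1, h2, h3⟩ := ha
  refine ⟨l, h1.trans (Nat.pow_le_pow_left h 2), fun e he => ⟨(h2 e he).1.trans ?_, (h2 e he).2⟩, h3⟩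
  exact_mod_cast h

/-- `comb z m b` as a sum over the powers of `z` -/
lemma comb_eq {k : ℕ} (z : A) (m : Fin k → M) (b : Fin k → ℤ[X]) (r : ℕ) (hb : ∀ i, (b i).degree < r) :
    comb z m b = ((List.range r).map fun j => z ^ j • ∑ i, (b i).coeff j • m i).sum := by
  unfold comb
  have h1 : ∀ i, aeval z (b i) = ∑ j ∈ Finset.range r, ((b i).coeff j : A) * z ^ j := by
    intro i
    have hlt : (b i).natDegree < r ∨ b i = 0 := by
      by_cases h0 : b i = 0
      · exact Or.inr h0
      · left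
        exact (Polynomial.natDegree_lt_iff_degree_lt h0).2 (hb i)
    rcases hlt with hlt | h0
    · rw [Polynomial.aeval_eq_sum_range' hlt]
      refine Finset.sum_congr rfl fun j _ => ?_
      rw [zsmul_eq_mul]
    · simp [h0]
  simp_rw [h1, Finset.sum_smul]
  rw [Finset.sum_comm]
  rw [show ((List.range r).map fun j => z ^ j • ∑ i, (b i).coeff j • m i).sum = ∑ j ∈ Finset.range r, z ^ j • ∑ i, (b i).coeff j • m i from by
    rw [Finset.sum_eq_multiset_sum, Finset.range_val, ← Multiset.coe_range, Multiset.map_coe, Multiset.sum_coe]]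
  refine Finset.sum_congr rfl fun j _ => ?_
  rw [Finset.smul_sum]
  refine Finset.sum_congr rfl fun i _ => ?_
  rw [mul_comm, mul_smul, Int.cast_smul_eq_zsmul]

/-- the word length of elements of window sets -/
lemma wl_EE (T : Transfer x t τ) (hS : SymGen (Set.range (lt t))) {k : ℕ} (m : Fin k → M) (a : ι → ℤ) (K : ℕ) :
    ∃ C : ℕ, ∀ s r : ℕ, ∀ v ∈ EE (mono x a) m s r K, wl (Set.range (lt t)) (τ v) ≤ C * (s + r) := by
  set Sg := Set.range (lt t) with hSg
  set ζ := nf t a with hζ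
  refine ⟨2 * wl Sg ζ + K * ∑ i, wl Sg (τ (m i)), fun s r v hv => ?_⟩
  obtain ⟨b, hb1, hb2, rfl⟩ := hv
  have hconj : ∀ w : M, τ (((mono x a : Aˣ) : A) • w) = ζ * τ w * ζ⁻¹ := fun w => T.conjMono a w
  have hpow : ∀ (n : ℕ) (w : M), τ ((((mono x a : Aˣ) : A) ^ n) • w) = ζ ^ n * τ w * (ζ ^ n)⁻¹ := by
    intro n
    induction n with
    | zero => intro w; simp
    | succ n ih =>
      intro w
      rw [pow_succ, mul_smul, ih, hconj, pow_succ]
      group
  have hinv : ∀ (n : ℕ) (w : M), τ (((↑(mono x a)⁻¹ : A) ^ n) • w) = (ζ ^ n)⁻¹ * τ w * ζ ^ n := by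
    intro n w
    have h := hpow n (((↑(mono x a)⁻¹ : A) ^ n) • w)
    rw [smul_smul, ← mul_pow, Units.mul_inv, one_pow, one_smul] at h
    rw [h]
    group
  rw [hinv]
  have h1 : wl Sg ((ζ ^ s)⁻¹ * τ (comb ((mono x a : Aˣ) : A) m b) * ζ ^ s) ≤ s * wl Sg ζ + wl Sg (τ (comb ((mono x a : Aˣ) : A) m b)) + s * wl Sg ζ := by
    refine (wl_mul hS _ _).trans ?_
    refine Nat.add_le_add ((wl_mul hS _ _).trans ?_) (wl_pow hS _ _)
    refine Nat.add_le_add ?_ le_rfl
    rw [wl_inv hS]
    exact wl_pow hS _ _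
  have h2 : wl Sg (τ (comb ((mono x a : Aˣ) : A) m b)) ≤ 2 * r * wl Sg ζ + ∑ j ∈ Finset.range r, wl Sg (τ (∑ i, (b i).coeff j • m i)) := by
    rw [comb_eq _ m b r hb1, T.listSum, List.map_map]
    have : (List.range r).map (τ ∘ fun j => ((mono x a : Aˣ) : A) ^ j • ∑ i, (b i).coeff j • m i) =
        (List.range r).map fun j => ζ ^ j * τ (∑ i, (b i).coeff j • m i) * (ζ ^ j)⁻¹ := by
      refine List.map_congr_left fun j _ => ?_
      simp only [Function.comp]
      rw [hpow]
    rw [this]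
    exact wl_horner hS ζ (fun j => τ (∑ i, (b i).coeff j • m i)) r
  have h3 : ∀ j ∈ Finset.range r, wl Sg (τ (∑ i, (b i).coeff j • m i)) ≤ K * ∑ i, wl Sg (τ (m i)) := by
    intro j _
    have h4 : ∀ L : List (Fin k), wl Sg (τ ((L.map fun i => (b i).coeff j • m i).sum)) ≤ (L.map fun i => K * wl Sg (τ (m i))).sum := by
      intro L
      induction L with
      | nil => simp [T.zero, wl_one]
      | cons i L ih =>
        simp only [List.map_cons, List.sum_cons, T.add]
        refine (wl_mul hS _ _).trans (Nat.add_le_add ?_ ih)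
        rw [T.zsmul]
        refine (wl_zpow hS _ _).trans (Nat.mul_le_mul_right _ ?_)
        have := hb2 i j
        rw [Int.abs_eq_natAbs] at this
        exact_mod_cast this
    have h5 := h4 (Finset.univ.toList : List (Fin k))
    rw [Finset.sum_map_toList, Finset.sum_map_toList, ← Finset.mul_sum] at h5
    exact h5
  have h6 := Finset.sum_le_sum h3
  rw [Finset.sum_const, Finset.card_range, smul_eq_mul] at h6
  calc _ ≤ s * wl Sg ζ + (2 * r * wl Sg ζ + r * (K * ∑ i, wl Sg (τ (m i)))) + s * wl Sg ζ := h1.trans (by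
        have := h2.trans (Nat.add_le_add_left h6 _)
        omega)
    _ ≤ (2 * wl Sg ζ + K * ∑ i, wl Sg (τ (m i))) * (s + r) := by
        have : 0 ≤ s * (K * ∑ i, wl Sg (τ (m i))) := Nat.zero_le _
        nlinarith

end

/-- Glue MU-G4 (Foelner pairs). -/
theorem folner {G ι : Type} [Group G] [Fintype ι] [DecidableEq ι] (t : ι → G) (π : G →* Multiplicative (ι → ℤ))
    (hπ : ∀ i j, (π (t i)).toAdd j = if i = j then 1 else 0) (hgen : Subgroup.closure (Set.range t) = ⊤)
    (hab : ∀ a ∈ π.ker, ∀ b ∈ π.ker, a * b = b * a) (hA : RelA π.ker) (hB : RelB π.ker) (ε : ℝ) (hε : 0 < ε) :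
    ∃ K : ℕ, 0 < K ∧ ∀ R : ℕ, 1 ≤ R → ∃ F F' : Finset G, F.Nonempty ∧
      (∀ g ∈ F, ∀ l : List (ι × Bool), l.length < R → g * (l.map (lt t)).prod ∈ F') ∧ F'.card ≤ K * F.card ∧
      ∀ g ∈ F', ∀ h ∈ F', (wl (Set.range (lt t)) (g⁻¹ * h) : ℝ) ≤ K * (R : ℝ) ^ (1 + ε) := by
  classical
  obtain ⟨M, A, _, _, _, x, τ, F0, ⟨S⟩, hadd, hinj, hrange, hconj, hBdd⟩ := kernel_data t π hπ hgen hab hA hB
  have T : Transfer x t τ := ⟨hadd, hinj, hconj⟩
  have hS := symGen_lt t hgen
  set Sg := Set.range (lt t) with hSg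
  have hSfin : Sg.Finite := Set.finite_range _
  set d := Fintype.card ι with hd
  set c := 3 * d + 2 with hc
  obtain ⟨K₁, hK₁, hAT⟩ := AT S F0 c ε hε
  obtain ⟨C, hC⟩ := wl_EE T hS S.m S.a K₁
  -- the final constant
  set C' : ℕ := C * (2 * K₁) + c with hC'
  refine ⟨K₁ * 2 ^ d + 2 * (K₁ * C' + 2 * d) + 1, by positivity, fun R hR => ?_⟩
  -- the set W
  have hWfin : {a : M | wl Sg (τ a) ≤ (3 * d + 1) * R}.Finite := by
    have h1 := wl_ball_finite hS hSfin ((3 * d + 1) * R)
    exact Set.Finite.preimage (hinj.injOn) h1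
  obtain ⟨Ω, Ω', hΩne, hΩW, hΩcard, hΩ'⟩ := hAT R hR hWfin.toFinset (by simp [T.zero, wl_one]) (by
    intro w hw
    rw [Set.Finite.mem_toFinset] at hw
    obtain ⟨l, hl1, hl2, hl3⟩ := wl_exists hS (τ w)
    have h2 : ∃ l' : List (ι × Bool), l'.map (lt t) = l := by
      clear hl1 hl3
      induction l with
      | nil => exact ⟨[], rfl⟩
      | cons y l ih =>
        obtain ⟨l', hl'⟩ := ih fun z hz => hl2 z (List.mem_cons_of_mem _ hz)
        obtain ⟨e, he⟩ := hl2 y List.mem_cons_self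
        exact ⟨e :: l', by simp [he, hl']⟩
    obtain ⟨l', hl'⟩ := h2
    have h3 : τ w = wv t l' := by
      unfold wv
      rw [hl', hl3]
    refine Bdd_mono ?_ (hBdd l' w h3)
    have h4 : l'.length = wl Sg (τ w) := by
      rw [← hl1, ← hl', List.length_map]
    have h5 : wl Sg (τ w) ≤ (3 * d + 1) * R := hw
    rw [h4, hc]
    nlinarith)
  -- boxes
  set box : ℕ → Finset (ι → ℤ) := fun n => Fintype.piFinset fun _ => Finset.Icc (-(n : ℤ)) n with hbox
  have hboxcard : ∀ n : ℕ, (box n).card = (2 * n + 1) ^ d := by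
    intro n
    simp only [hbox, Fintype.card_piFinset, Int.card_Icc, Finset.prod_const, Finset.card_univ]
    congr 1
    omega
  have hmembox : ∀ (n : ℕ) (q : ι → ℤ), q ∈ box n ↔ ∀ i, |q i| ≤ n := by
    intro n q
    simp only [hbox, Fintype.mem_piFinset, Finset.mem_Icc, abs_le]
  set f : M × (ι → ℤ) → G := fun p => τ p.1 * nf t p.2 with hf
  have hpi : ∀ p, (π (f p)).toAdd = p.2 := by
    intro p
    have h1 : π (τ p.1) = 1 := by
      have := (hrange (τ p.1)).1 ⟨_, rfl⟩
      exact this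
    simp only [hf, map_mul, h1, one_mul]
    exact pi_nf t π hπ p.2
  have hfinj : Function.Injective f := by
    intro p p' h
    have h2 : p.2 = p'.2 := by rw [← hpi p, ← hpi p', h]
    have h3 : τ p.1 = τ p'.1 := by
      simp only [hf, h2] at h
      exact mul_right_cancel h
    exact Prod.ext (hinj h3) h2
  have hnf : ∀ (n : ℕ) (q : ι → ℤ), q ∈ box n → wl Sg (nf t q) ≤ d * n := by
    intro n q hq
    refine (wl_nf t hgen q).trans ?_
    calc ∑ i, (q i).natAbs ≤ ∑ _i : ι, n := Finset.sum_le_sum fun i _ => by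
          have := (hmembox n q).1 hq i
          rw [Int.abs_eq_natAbs] at this
          exact_mod_cast this
      _ = d * n := by simp [hd]
  refine ⟨(Ω ×ˢ box R).image f, (Ω' ×ˢ box (2 * R)).image f, ?_, ?_, ?_, ?_⟩
  · refine Finset.Nonempty.image (Finset.Nonempty.product hΩne ⟨0, ?_⟩) f
    rw [hmembox]
    intro i
    simp
  · intro g hg l hl
    obtain ⟨⟨u, q⟩, hp, rfl⟩ := Finset.mem_image.1 hg
    rw [Finset.mem_product] at hp
    set w := (l.map (lt t)).prod with hw
    set q' := q + ev l with hq'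
    have hw' : w = wv t l := rfl
    have hevl : ∀ i, |ev l i| ≤ l.length := fun i => ev_le l i
    have hq'box : q' ∈ box (2 * R) := by
      rw [hmembox]
      intro i
      have h1 := (hmembox R q).1 hp.2 i
      have h2 := hevl i
      rw [hq', Pi.add_apply]
      refine (abs_add_le _ _).trans ?_
      push_cast
      have h3 : (l.length : ℤ) < R := by exact_mod_cast hl
      linarith
    have hker : nf t q * w * (nf t q')⁻¹ ∈ π.ker := by
      rw [MonoidHom.mem_ker]
      have h1 : (π (nf t q * w * (nf t q')⁻¹)).toAdd = 0 := by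
        rw [MonoidHom.map_mul, MonoidHom.map_mul, MonoidHom.map_inv, toAdd_mul, toAdd_mul, toAdd_inv, pi_nf t π hπ, pi_nf t π hπ, hw',
          pi_wv t π hπ, hq']
        abel
      have h2 : π (nf t q * w * (nf t q')⁻¹) = Multiplicative.ofAdd 0 := by
        rw [← h1]
        rfl
      simpa using h2
    obtain ⟨a, ha⟩ := (hrange _).2 hker
    have hwlw : wl Sg w ≤ l.length := by
      rw [hw]
      refine (wl_le (S := Sg) (l.map (lt t)) ?_).trans (by simp)
      intro y hy
      obtain ⟨e, _, rfl⟩ := List.mem_map.1 hy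
      exact ⟨e, rfl⟩
    have haW : a ∈ hWfin.toFinset := by
      rw [Set.Finite.mem_toFinset]
      change wl Sg (τ a) ≤ _
      rw [ha]
      have h1 := wl_mul hS (nf t q * w) (nf t q')⁻¹
      have h2 := wl_mul hS (nf t q) w
      have h3 := hnf R q hp.2
      have h4 := hnf (2 * R) q' hq'box
      rw [wl_inv hS] at h1
      nlinarith
    refine Finset.mem_image.2 ⟨(u + a, q'), Finset.mem_product.2 ⟨hΩW u hp.1 a haW, hq'box⟩, ?_⟩
    simp only [hf]
    rw [hadd, ha]
    group
  · rw [Finset.card_image_of_injective _ hfinj, Finset.card_image_of_injective _ hfinj, Finset.card_product, Finset.card_product, hboxcard, hboxcard]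
    have h1 : (2 * (2 * R) + 1) ^ d ≤ 2 ^ d * (2 * R + 1) ^ d := by
      rw [← mul_pow]
      exact Nat.pow_le_pow_left (by omega) d
    calc Ω'.card * (2 * (2 * R) + 1) ^ d ≤ (K₁ * Ω.card) * (2 ^ d * (2 * R + 1) ^ d) := Nat.mul_le_mul hΩcard h1
      _ = (K₁ * 2 ^ d) * (Ω.card * (2 * R + 1) ^ d) := by ring
      _ ≤ _ := Nat.mul_le_mul_right _ (by omega)
  · have hone : ∀ g ∈ (Ω' ×ˢ box (2 * R)).image f, (wl Sg g : ℝ) ≤ (K₁ * C' + 2 * d : ℕ) * (R : ℝ) ^ (1 + ε) := by
      intro g hg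
      obtain ⟨⟨u, q⟩, hp, rfl⟩ := Finset.mem_image.1 hg
      rw [Finset.mem_product] at hp
      obtain ⟨l, hl1, hl2, hl3⟩ := hΩ' u hp.1
      have hv : ∀ v ∈ l, wl Sg (τ v) ≤ C' * R := by
        intro v hv
        rcases hl3 v hv with h | ⟨s, hs, h⟩
        · rw [Set.Finite.mem_toFinset] at h
          have h1 : wl Sg (τ v) ≤ (3 * d + 1) * R := h
          refine h1.trans (Nat.mul_le_mul_right _ ?_)
          omega
        · refine (hC s (K₁ * R) v h).trans ?_
          calc C * (s + K₁ * R) ≤ C * (K₁ * R + K₁ * R) := Nat.mul_le_mul_left _ (by omega)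
            _ = C * (2 * K₁) * R := by ring
            _ ≤ C' * R := Nat.mul_le_mul_right _ (by omega)
      have hu : wl Sg (τ u) ≤ l.length * (C' * R) := by
        rw [hl2, T.listSum]
        refine (wl_prod hS _).trans ?_
        rw [List.map_map]
        have := List.sum_le_card_nsmul (l.map (wl Sg ∘ τ)) (C' * R) (by
          intro y hy
          obtain ⟨v, hv', rfl⟩ := List.mem_map.1 hy
          exact hv v hv')
        simpa using this
      have h1 : wl Sg (f (u, q)) ≤ l.length * (C' * R) + d * (2 * R) := by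
        simp only [hf]
        exact (wl_mul hS _ _).trans (Nat.add_le_add hu (hnf (2 * R) q hp.2))
      have hR1 : (1 : ℝ) ≤ R := by exact_mod_cast hR
      have h2 : (1 : ℝ) ≤ (R : ℝ) ^ ε := Real.one_le_rpow hR1 hε.le
      have h3 : (R : ℝ) ^ (1 + ε) = R * (R : ℝ) ^ ε := by
        rw [Real.rpow_add (by linarith), Real.rpow_one]
      have h4 : (wl Sg (f (u, q)) : ℝ) ≤ l.length * (C' * R) + d * (2 * R) := by exact_mod_cast h1
      refine h4.trans ?_
      rw [h3]
      push_cast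
      have h5 : (l.length : ℝ) * (C' * R) ≤ (K₁ * (R : ℝ) ^ ε) * (C' * R) := mul_le_mul_of_nonneg_right hl1 (by positivity)
      have h6 : (d : ℝ) * (2 * R) ≤ 2 * d * (R * (R : ℝ) ^ ε) := by
        have : (R : ℝ) ≤ R * (R : ℝ) ^ ε := le_mul_of_one_le_right (by linarith) h2
        nlinarith [Nat.cast_nonneg (α := ℝ) d]
      linarith
    intro g hg h hh
    have h1 := hone g hg
    have h2 := hone h hh
    have h3 : (wl Sg (g⁻¹ * h) : ℝ) ≤ wl Sg g + wl Sg h := by
      have := wl_mul hS g⁻¹ h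
      rw [wl_inv hS] at this
      exact_mod_cast this
    have h4 : (0 : ℝ) ≤ (R : ℝ) ^ (1 + ε) := by positivity
    refine h3.trans ?_
    push_cast at h1 h2 ⊢
    have h5 : (0 : ℝ) ≤ (K₁ * 2 ^ d : ℝ) * (R : ℝ) ^ (1 + ε) := by positivity
    nlinarith

end Pool.Agent.Helper74.MU
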