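import Pool.Agent.Helper74.MU.Defs

set_option autoImplicit false

namespace Pool.Agent.Helper74.MU

open Polynomial

private noncomputable def L50 {V : Type} [AddCommGroup V] [Module ℂ V] {k : ℕ} (T : Module.End ℂ V) (w : Fin k → V) :
    (Fin k → ℂ[X]) →ₗ[ℂ] V where
  toFun := combC T w
  map_add' c d := by simp [combC, Finset.sum_add_distrib]
  map_smul' a c := by simp [combC, Finset.smul_sum]

private theorem L_apply50 {V : Type} [AddCommGroup V] [Module ℂ V] {k : ℕ} (T : Module.End ℂ V)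
    (w : Fin k → V) (c : Fin k → ℂ[X]) : L50 T w c = combC T w c := rfl

private theorem L_T50 {V : Type} [AddCommGroup V] [Module ℂ V] {k : ℕ} (T : Module.End ℂ V)
    (w : Fin k → V) {y : V} (hy : y ∈ LinearMap.range (L50 T w)) : T y ∈ LinearMap.range (L50 T w) := by
  obtain ⟨c, rfl⟩ := hy
  refine ⟨fun i => X * c i, ?_⟩
  rw [L_apply50, L_apply50]
  unfold combC
  rw [map_sum]
  refine Finset.sum_congr rfl fun i _ => ?_
  rw [map_mul, aeval_X]
  rfl

private theorem surj50 {A M : Type} [CommRing A] [AddCommGroup M] [Module A M] (z : Aˣ) {k : ℕ} (m : Fin k → M) (hm : GenBy z m)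
    {n : ℕ} (Φ : M →+ (Fin n → ℂ)) (ρ : A →+* Module.End ℂ (Fin n → ℂ)) (hcomp : ∀ b v, Φ (b • v) = ρ b (Φ v))
    (hspan : Submodule.span ℂ (Set.range Φ) = ⊤) (v : Fin n → ℂ) :
    ∃ c : Fin k → ℂ[X], combC (ρ (z : A)) (fun i => Φ (m i)) c = v := by
  set T : Module.End ℂ (Fin n → ℂ) := ρ (z : A) with hT
  set T' : Module.End ℂ (Fin n → ℂ) := ρ ((z⁻¹ : Aˣ) : A) with hT'
  have h1 : ∀ y, T' (T y) = y := by
    intro y
    have : (T' * T) y = y := by
      rw [hT, hT', ← map_mul, Units.inv_mul, map_one]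
      rfl
    exact this
  set W := LinearMap.range (L50 T fun i => Φ (m i)) with hW
  have hTW : ∀ y ∈ W, T y ∈ W := fun y hy => L_T50 T _ hy
  have hT'W : ∀ y ∈ W, T' y ∈ W := by
    intro y hy
    have h2 : Function.Injective (T.restrict hTW) := by
      intro a b hab
      have h3 : T (a : Fin n → ℂ) = T b := congrArg Subtype.val hab
      have h4 := congrArg T' h3
      rw [h1, h1] at h4
      exact Subtype.ext h4
    obtain ⟨x, hx⟩ := (LinearMap.injective_iff_surjective.1 h2) ⟨y, hy⟩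
    have h5 : T (x : Fin n → ℂ) = y := congrArg Subtype.val hx
    rw [← h5, h1]
    exact x.2
  have hT's : ∀ (s : ℕ) (y), y ∈ W → (T' ^ s) y ∈ W := by
    intro s
    induction s with
    | zero =>
      intro y hy
      exact hy
    | succ s ih =>
      intro y hy
      rw [pow_succ]
      exact ih _ (hT'W y hy)
  have hρ : ∀ f : ℤ[X], ρ (aeval (z : A) f) = aeval T (f.map (Int.castRingHom ℂ)) := by
    intro f
    rw [aeval_def, aeval_def, eval₂_map, hom_eval₂]
    congr 1
    exact RingHom.ext_int _ _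
  have hΦ : ∀ a, Φ a ∈ W := by
    intro a
    obtain ⟨s, b, rfl⟩ := hm a
    rw [hcomp, map_pow]
    refine hT's s _ ⟨fun i => (b i).map (Int.castRingHom ℂ), ?_⟩
    rw [L_apply50]
    unfold combC comb
    rw [map_sum]
    refine Finset.sum_congr rfl fun i _ => ?_
    rw [hcomp, hρ]
  have htop : W = ⊤ := by
    rw [eq_top_iff, ← hspan, Submodule.span_le]
    rintro _ ⟨a, rfl⟩
    exact hΦ a
  have hv : v ∈ W := by
    rw [htop]
    exact Submodule.mem_top
  obtain ⟨c, hc⟩ := hv
  exact ⟨c, hc⟩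

/-- Block MU-K0 (window). Every vector is a combination of the `T^j Φ(m_i)`, `j < D`, with coefficients bounded by `C ‖v‖`, `T = ρ z`. (`V` is spanned by the `T^j Φ(m_i)`, `j ≥ 0`: `T⁻¹` is a polynomial in `T`
on the finite dimensional space `V`; so finitely many powers suffice; take a linear right inverse of the surjection from the coefficient space, it is bounded.) -/
theorem K0 {A M : Type} [CommRing A] [AddCommGroup M] [Module A M] (z : Aˣ) {k : ℕ} (m : Fin k → M) (hm : GenBy z m)
    {n : ℕ} (Φ : M →+ (Fin n → ℂ)) (ρ : A →+* Module.End ℂ (Fin n → ℂ)) (hcomp : ∀ b v, Φ (b • v) = ρ b (Φ v))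
    (hspan : Submodule.span ℂ (Set.range Φ) = ⊤) :
    ∃ (D : ℕ) (C : ℝ), 0 < C ∧ ∀ v : Fin n → ℂ, ∃ c : Fin k → ℂ[X], (∀ i, (c i).degree < D) ∧ (∀ i j, ‖(c i).coeff j‖ ≤ C * ‖v‖) ∧
      combC (ρ (z : A)) (fun i => Φ (m i)) c = v := by
  choose c hc using fun t : Fin n => surj50 z m hm Φ ρ hcomp hspan (Pi.single t 1)
  refine ⟨∑ t, ∑ i, ((c t i).natDegree + 1), 1 + ∑ t, ∑ i, ∑ j ∈ (c t i).support, ‖(c t i).coeff j‖,
    ?_, fun v => ⟨fun i => ∑ t, v t • c t i, fun i => ?_, fun i j => ?_, ?_⟩⟩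
  · have : (0 : ℝ) ≤ ∑ t, ∑ i, ∑ j ∈ (c t i).support, ‖(c t i).coeff j‖ := by positivity
    linarith
  · rcases isEmpty_or_nonempty (Fin n) with hn | hn
    · simp
    · rw [Polynomial.degree_lt_iff_coeff_zero]
      intro j hj
      rw [Polynomial.finsetSum_coeff]
      refine Finset.sum_eq_zero fun t _ => ?_
      rw [Polynomial.coeff_smul, Polynomial.coeff_eq_zero_of_natDegree_lt, smul_zero]
      have h1 : (c t i).natDegree + 1 ≤ ∑ i, ((c t i).natDegree + 1) :=
        Finset.single_le_sum (f := fun i => (c t i).natDegree + 1) (fun _ _ => Nat.zero_le _) (Finset.mem_univ i)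
      have h2 : ∑ i, ((c t i).natDegree + 1) ≤ ∑ t, ∑ i, ((c t i).natDegree + 1) :=
        Finset.single_le_sum (f := fun t => ∑ i, ((c t i).natDegree + 1)) (fun _ _ => Nat.zero_le _) (Finset.mem_univ t)
      omega
  · rw [Polynomial.finsetSum_coeff]
    refine (norm_sum_le _ _).trans ?_
    have h1 : ∀ t, ‖(v t • c t i).coeff j‖ ≤ ‖v‖ * ∑ i, ∑ j ∈ (c t i).support, ‖(c t i).coeff j‖ := by
      intro t
      rw [Polynomial.coeff_smul, smul_eq_mul, norm_mul]
      refine mul_le_mul (norm_le_pi_norm v t) ?_ (norm_nonneg _) (norm_nonneg _)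
      have h2 : ‖(c t i).coeff j‖ ≤ ∑ j ∈ (c t i).support, ‖(c t i).coeff j‖ := by
        by_cases hj : j ∈ (c t i).support
        · exact Finset.single_le_sum (f := fun j => ‖(c t i).coeff j‖) (fun _ _ => norm_nonneg _) hj
        · rw [Polynomial.notMem_support_iff.1 hj, norm_zero]
          positivity
      exact h2.trans (Finset.single_le_sum (f := fun i => ∑ j ∈ (c t i).support, ‖(c t i).coeff j‖)
        (fun _ _ => by positivity) (Finset.mem_univ i))
    refine (Finset.sum_le_sum fun t _ => h1 t).trans ?_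
    rw [← Finset.mul_sum]
    have := norm_nonneg v
    nlinarith
  · have h1 : (fun i => ∑ t, v t • c t i) = ∑ t, v t • c t := by
      ext1 i
      simp
    rw [h1, ← L_apply50, map_sum]
    have h2 : ∀ t, L50 (ρ (z : A)) (fun i => Φ (m i)) (v t • c t) = v t • Pi.single t 1 := by
      intro t
      rw [map_smul, L_apply50, hc]
    rw [Finset.sum_congr rfl fun t _ => h2 t]
    ext i
    simp [Finset.sum_apply, Pi.single_apply]

end Pool.Agent.Helper74.MU
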