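import Pool.Agent.Helper74.MU.Defs

set_option autoImplicit false

namespace Pool.Agent.Helper74.MU

/-- Block MU-P1. For a symmetric contraction `P` (with respect to the symmetric form `b`) one has `⟨v,v⟩ - ⟨P^n v,v⟩ ≤ n (⟨v,v⟩ - ⟨P v,v⟩)`.
Proof: `B(u,v) = b ((1-P) u) v` is symmetric and positive semidefinite; `B(u,u) - B(Pu,Pu) = b ((1+P) w) w ≥ 0` with `w = (1-P) u`;
so `B(P^n v, v) ≤ (B(P^n v,P^n v) + B(v,v))/2 ≤ B(v,v)`; sum up. -/
theorem bernoulli_form {E : Type} [AddCommGroup E] [Module ℝ E] (b : E →ₗ[ℝ] E →ₗ[ℝ] ℝ) (hsym : ∀ u v, b u v = b v u)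
    (P : E →ₗ[ℝ] E) (hP : ∀ u v, b (P u) v = b u (P v)) (hc : ∀ u, |b (P u) u| ≤ b u u) (v : E) (n : ℕ) :
    b v v - b ((P ^ n) v) v ≤ n * (b v v - b (P v) v) := by
  classical
  have hpos : ∀ u, 0 ≤ b u u - b (P u) u := fun u => by
    have h := hc u
    have h2 := (abs_le.1 h).2
    linarith
  have hcontr : ∀ u, b (P u) (P u) - b (P (P u)) (P u) ≤ b u u - b (P u) u := fun u => by
    have h := hc (u - P u)
    have h1 := (abs_le.1 h).1
    have e1 : b (u - P u) (u - P u) = b u u - 2 * b (P u) u + b (P u) (P u) := by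
      simp only [map_sub, LinearMap.sub_apply]
      rw [hsym u (P u)]
      ring
    have e2 : b (P (u - P u)) (u - P u) = b (P u) u - 2 * b (P u) (P u) + b (P (P u)) (P u) := by
      simp only [map_sub, LinearMap.sub_apply]
      rw [hP (P u) u]
      ring
    rw [e1, e2] at h1
    linarith
  have hiter : ∀ k : ℕ, b ((P ^ k) v) ((P ^ k) v) - b (P ((P ^ k) v)) ((P ^ k) v) ≤ b v v - b (P v) v := by
    intro k
    induction k with
    | zero => simp
    | succ k ih =>
      have h := hcontr ((P ^ k) v)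
      have e : (P ^ (k + 1)) v = P ((P ^ k) v) := by
        rw [pow_succ']
        rfl
      rw [e]
      exact h.trans ih
  have hstep : ∀ k : ℕ, b ((P ^ k) v) v - b (P ((P ^ k) v)) v ≤ b v v - b (P v) v := by
    intro k
    have h := hpos ((P ^ k) v - v)
    have e1 : b ((P ^ k) v - v) ((P ^ k) v - v) =
        b ((P ^ k) v) ((P ^ k) v) - 2 * b ((P ^ k) v) v + b v v := by
      simp only [map_sub, LinearMap.sub_apply]
      rw [hsym v ((P ^ k) v)]
      ring
    have e2 : b (P ((P ^ k) v - v)) ((P ^ k) v - v) =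
        b (P ((P ^ k) v)) ((P ^ k) v) - 2 * b (P ((P ^ k) v)) v + b (P v) v := by
      simp only [map_sub, LinearMap.sub_apply]
      have e3 : b (P v) ((P ^ k) v) = b (P ((P ^ k) v)) v := by
        rw [hP v, hsym]
      rw [e3]
      ring
    rw [e1, e2] at h
    have h2 := hiter k
    linarith
  induction n with
  | zero => simp
  | succ n ih =>
    have e : (P ^ (n + 1)) v = P ((P ^ n) v) := by
      rw [pow_succ']
      rfl
    have h := hstep n
    rw [e]
    push_cast
    linarith

end Pool.Agent.Helper74.MU
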