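import Pool.Agent.Helper74.MU.Defs

set_option autoImplicit false

namespace Pool.Agent.Helper74.MU

open Polynomial

private theorem combC_sub99 {V : Type} [AddCommGroup V] [Module ℂ V] {k : ℕ} (T : Module.End ℂ V) (w : Fin k → V)
    (c d : Fin k → ℂ[X]) : combC T w (fun i => c i - d i) = combC T w c - combC T w d := by
  simp only [combC, map_sub, LinearMap.sub_apply, Finset.sum_sub_distrib]

private theorem combC_shift99 {V : Type} [AddCommGroup V] [Module ℂ V] {k : ℕ} (T : Module.End ℂ V) (w : Fin k → V)
    (c : Fin k → ℂ[X]) (n : ℕ) : combC T w (fun i => X ^ n * c i) = (T ^ n) (combC T w c) := by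
  simp only [combC, map_mul, map_pow, aeval_X, Module.End.mul_apply, map_sum]

private theorem combC_monomial99 {V : Type} [AddCommGroup V] [Module ℂ V] {k : ℕ} (T : Module.End ℂ V) (w : Fin k → V)
    (γ : Fin k → ℂ) (n : ℕ) : combC T w (fun i => C (γ i) * X ^ n) = (T ^ n) (∑ i, γ i • w i) := by
  simp only [combC, map_mul, map_pow, aeval_X, aeval_C, Module.End.mul_apply, Module.algebraMap_end_apply, map_sum, map_smul]

/-- Block MU-R1 (relations are generated by short relations). If the window `[0,D)` spans `V`, every relation `c` of degree `< r`, `D < r`, is a sum of shifts `X^s e_s`, `s < r - D`, of relations `e_s` of degree `< D + 1`.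
Proof: induction on `r`; top coefficients `γ`; choose `d` of degree `< D` with `combC T w d = T^D (∑ γ_i w_i)`; `e = γ X^D - d`; subtract `X^(r-D) e` from `c`. -/
theorem R1 {V : Type} [AddCommGroup V] [Module ℂ V] {k : ℕ} (T : Module.End ℂ V) (w : Fin k → V) (D : ℕ)
    (hD : ∀ v : V, ∃ c : Fin k → ℂ[X], (∀ i, (c i).degree < D) ∧ combC T w c = v) (r : ℕ) (hr : D < r) (c : Fin k → ℂ[X])
    (hc : ∀ i, (c i).degree < r) (h0 : combC T w c = 0) :
    ∃ e : ℕ → Fin k → ℂ[X], (∀ s i, (e s i).degree < (D + 1 : ℕ)) ∧ (∀ s, combC T w (e s) = 0) ∧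
      ∀ i, c i = ∑ s ∈ Finset.range (r - D), X ^ s * e s i := by
  induction r, hr using Nat.le_induction generalizing c with
  | base =>
    refine ⟨fun _ => c, fun s i => hc i, fun s => h0, fun i => ?_⟩
    have h4 : D.succ - D = 1 := by omega
    rw [h4, Finset.sum_range_one, pow_zero, one_mul]
  | succ r hr ih =>
    have hDr : D < r := hr
    let γ : Fin k → ℂ := fun i => (c i).coeff r
    obtain ⟨d, hd1, hd2⟩ := hD ((T ^ D) (∑ i, γ i • w i))
    let e' : Fin k → ℂ[X] := fun i => C (γ i) * X ^ D - d i
    have he' : combC T w e' = 0 := by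
      simp only [e']
      rw [combC_sub99, combC_monomial99, hd2, sub_self]
    have hdeg : ∀ i, (e' i).degree < (D + 1 : ℕ) := by
      intro i
      refine lt_of_le_of_lt (degree_sub_le _ _) ?_
      rw [max_lt_iff]
      constructor
      · refine lt_of_le_of_lt (degree_C_mul_X_pow_le _ _) ?_
        exact_mod_cast Nat.lt_succ_self D
      · refine lt_trans (hd1 i) ?_
        exact_mod_cast Nat.lt_succ_self D
    have hc' : ∀ i, (c i - X ^ (r - D) * e' i).degree < (r : WithBot ℕ) := by
      intro i
      rw [degree_lt_iff_coeff_zero]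
      intro m hm
      rw [coeff_sub, coeff_X_pow_mul']
      have h1 : r - D ≤ m := by omega
      rw [if_pos h1]
      rcases Nat.eq_or_lt_of_le hm with h2 | h2
      · subst h2
        have h3 : r - (r - D) = D := by omega
        rw [h3]
        simp only [e', coeff_sub, coeff_C_mul, coeff_X_pow, if_true, mul_one]
        rw [coeff_eq_zero_of_degree_lt (hd1 i)]
        simp [γ]
      · rw [coeff_eq_zero_of_degree_lt (lt_of_lt_of_le (hc i) (by exact_mod_cast h2)),
          coeff_eq_zero_of_degree_lt (lt_of_lt_of_le (hdeg i) (by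
            have : D + 1 ≤ m - (r - D) := by omega
            exact_mod_cast this)), sub_zero]
    have h0' : combC T w (fun i => c i - X ^ (r - D) * e' i) = 0 := by
      rw [combC_sub99, combC_shift99, he', h0, map_zero, sub_zero]
    obtain ⟨e, h1, h2, h3⟩ := ih (fun i => c i - X ^ (r - D) * e' i) hc' h0'
    refine ⟨Function.update e (r - D) e', fun s i => ?_, fun s => ?_, fun i => ?_⟩
    · by_cases hs : s = r - D
      · subst hs
        rw [Function.update_self]
        exact hdeg i
      · rw [Function.update_of_ne hs]
        exact h1 s i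
    · by_cases hs : s = r - D
      · subst hs
        rw [Function.update_self]
        exact he'
      · rw [Function.update_of_ne hs]
        exact h2 s
    · have h4 : r + 1 - D = (r - D) + 1 := by omega
      rw [h4, Finset.sum_range_succ, Function.update_self]
      have h5 : ∑ s ∈ Finset.range (r - D), X ^ s * Function.update e (r - D) e' s i =
          ∑ s ∈ Finset.range (r - D), X ^ s * e s i := by
        refine Finset.sum_congr rfl fun s hs => ?_
        rw [Function.update_of_ne (Finset.mem_range.1 hs).ne]
      rw [h5, ← h3 i]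
      ring

end Pool.Agent.Helper74.MU
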