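import Pool.Agent.Helper74.MU.Defs

set_option autoImplicit false

namespace Pool.Agent.Helper74.MU

open Polynomial

private lemma coeff_sum52 {R : Type} [Semiring R] {d : ℕ} (a : Fin d → R) (n : ℕ) :
    (∑ j : Fin d, monomial (j : ℕ) (a j)).coeff n = if h : n < d then a ⟨n, h⟩ else 0 := by
  rw [finsetSum_coeff]
  simp only [coeff_monomial]
  split_ifs with h
  · rw [Finset.sum_eq_single (⟨n, h⟩ : Fin d)]
    · simp
    · intro j _ hj
      rw [if_neg]
      intro h'
      exact hj (Fin.ext h')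
    · intro h'
      exact absurd (Finset.mem_univ _) h'
  · refine Finset.sum_eq_zero fun j _ => ?_
    rw [if_neg]
    intro h'
    exact h (h' ▸ j.2)

private lemma degree_sum52 {R : Type} [Semiring R] {d : ℕ} (a : Fin d → R) :
    (∑ j : Fin d, monomial (j : ℕ) (a j)).degree < d := by
  rw [degree_lt_iff_coeff_zero]
  intro n hn
  rw [coeff_sum52, dif_neg (not_lt.2 hn)]

private lemma eq_sum52 {R : Type} [Semiring R] {d : ℕ} {p : R[X]} (hp : p.degree < d) :
    p = ∑ j : Fin d, monomial (j : ℕ) (p.coeff j) := by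
  ext n
  rw [coeff_sum52]
  split_ifs with h
  · rfl
  · exact (degree_lt_iff_coeff_zero p d).1 hp n (not_lt.1 h)

/-- Block MU-R2 (integer relations span the complex relations). `hflat` is the last property of `B1`. The complex relations of degree `< d` form a finite dimensional space, spanned by integer relations (apply `hflat` to
the family `z^j m_i`, `j < d`), so finitely many integer relations suffice. -/
theorem R2 {A M : Type} [CommRing A] [AddCommGroup M] [Module A M] (z : A) {k : ℕ} (m : Fin k → M)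
    {n : ℕ} (Φ : M →+ (Fin n → ℂ)) (ρ : A →+* Module.End ℂ (Fin n → ℂ)) (hcomp : ∀ b v, Φ (b • v) = ρ b (Φ v))
    (hflat : ∀ (N : ℕ) (f : Fin N → M) (y : Fin N → ℂ), ∑ i, y i • Φ (f i) = 0 →
        ∃ (κ : ℕ) (L : Fin κ → Fin N → ℤ) (w : Fin κ → ℂ), (∀ t, ∑ i, L t i • f i = 0) ∧ ∀ i, y i = ∑ t, w t * (L t i : ℂ)) (d : ℕ) :
    ∃ (N : ℕ) (g : Fin N → Fin k → ℤ[X]), (∀ l i, (g l i).degree < d) ∧ (∀ l, comb z m (g l) = 0) ∧
      ∀ c : Fin k → ℂ[X], (∀ i, (c i).degree < d) → combC (ρ z) (fun i => Φ (m i)) c = 0 →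
        ∃ y : Fin N → ℂ, ∀ i, c i = ∑ l, y l • (g l i).map (Int.castRingHom ℂ) := by
  classical
  let e : Fin k × Fin d ≃ Fin (k * d) := finProdFinEquiv
  let f : Fin (k * d) → M := fun q => z ^ ((e.symm q).2 : ℕ) • m (e.symm q).1
  let S : Set (Fin (k * d) → ℂ) := {v | ∃ L : Fin (k * d) → ℤ, (∑ q, L q • f q = 0) ∧ v = fun q => (L q : ℂ)}
  obtain ⟨T, hTS, hT⟩ := (Submodule.fg_span_iff_fg_span_finset_subset (R := ℂ) S).1 (IsNoetherian.noetherian _)
  have hch : ∀ v : T, ∃ L : Fin (k * d) → ℤ, (∑ q, L q • f q = 0) ∧ (v : Fin (k * d) → ℂ) = fun q => (L q : ℂ) :=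
    fun v => hTS v.2
  choose L hL1 hL2 using hch
  let E : Fin T.card ≃ T := T.equivFin.symm
  refine ⟨T.card, fun l i => ∑ j : Fin d, monomial (j : ℕ) (L (E l) (e (i, j))), ?_, ?_, ?_⟩
  · intro l i
    exact degree_sum52 _
  · intro l
    have h1 := hL1 (E l)
    rw [← Equiv.sum_comp e, Fintype.sum_prod_type] at h1
    unfold comb
    rw [← h1]
    refine Finset.sum_congr rfl fun i _ => ?_
    rw [map_sum, Finset.sum_smul]
    refine Finset.sum_congr rfl fun j _ => ?_
    simp only [f, Equiv.symm_apply_apply, aeval_monomial, mul_smul, algebraMap_int_eq, eq_intCast, Int.cast_smul_eq_zsmul]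
  · intro c hc hc0
    have hy : ∑ q, (c (e.symm q).1).coeff ((e.symm q).2 : ℕ) • Φ (f q) = 0 := by
      rw [← Equiv.sum_comp e, Fintype.sum_prod_type, ← hc0]
      unfold combC
      refine Finset.sum_congr rfl fun i _ => ?_
      conv_rhs => rw [eq_sum52 (hc i)]
      rw [map_sum, LinearMap.sum_apply]
      refine Finset.sum_congr rfl fun j _ => ?_
      simp only [f, Equiv.symm_apply_apply, aeval_monomial, Module.End.mul_apply, Module.algebraMap_end_apply,
        hcomp, map_pow]
    obtain ⟨κ, L', w, h1, h2⟩ := hflat _ f _ hy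
    have hmem : (fun q => (c (e.symm q).1).coeff ((e.symm q).2 : ℕ)) ∈ Submodule.span ℂ S := by
      have h3 : (fun q => (c (e.symm q).1).coeff ((e.symm q).2 : ℕ)) = ∑ t, w t • (fun q => (L' t q : ℂ)) := by
        funext q
        rw [h2 q, Finset.sum_apply]
        rfl
      rw [h3]
      refine Submodule.sum_mem _ fun t _ => Submodule.smul_mem _ _ (Submodule.subset_span ?_)
      exact ⟨L' t, h1 t, rfl⟩
    rw [hT] at hmem
    have hr : (T : Set (Fin (k * d) → ℂ)) = Set.range fun l => ((E l : T) : Fin (k * d) → ℂ) := by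
      ext v
      constructor
      · intro hv
        exact ⟨E.symm ⟨v, hv⟩, by simp⟩
      · rintro ⟨l, rfl⟩
        exact (E l).2
    rw [hr, Submodule.mem_span_range_iff_exists_fun] at hmem
    obtain ⟨y, hy2⟩ := hmem
    refine ⟨y, fun i => ?_⟩
    ext a
    rw [finsetSum_coeff]
    simp only [coeff_smul, coeff_map, coeff_sum52]
    by_cases ha : a < d
    · have h4 := congrFun hy2 (e (i, ⟨a, ha⟩))
      simp only [Equiv.symm_apply_apply, Finset.sum_apply, Pi.smul_apply] at h4
      rw [← h4]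
      refine Finset.sum_congr rfl fun l _ => ?_
      rw [dif_pos ha, hL2 (E l)]
      rfl
    · rw [(degree_lt_iff_coeff_zero (c i) d).1 (hc i) a (not_lt.1 ha)]
      symm
      refine Finset.sum_eq_zero fun l _ => ?_
      rw [dif_neg ha]
      simp

end Pool.Agent.Helper74.MU
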