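import Pool.Agent.Helper74.MU.R1
import Pool.Agent.Helper74.MU.R2

set_option autoImplicit false

namespace Pool.Agent.Helper74.MU

open Polynomial

private theorem comb_sum56 {A M : Type} [CommRing A] [AddCommGroup M] [Module A M] (z : A) {k : ℕ}
    (m : Fin k → M) {ι : Type} (S : Finset ι) (f : ι → Fin k → ℤ[X]) :
    comb z m (fun i => ∑ a ∈ S, f a i) = ∑ a ∈ S, comb z m (f a) := by
  unfold comb
  rw [Finset.sum_comm]
  apply Finset.sum_congr rfl
  intro i _
  rw [map_sum, Finset.sum_smul]

private theorem comb_mul56 {A M : Type} [CommRing A] [AddCommGroup M] [Module A M] (z : A) {k : ℕ}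
    (m : Fin k → M) (p : ℤ[X]) (f : Fin k → ℤ[X]) :
    comb z m (fun i => p * f i) = (aeval z p) • comb z m f := by
  unfold comb
  rw [Finset.smul_sum]
  apply Finset.sum_congr rfl
  intro i _
  rw [map_mul, mul_smul]

private theorem comb_sub56 {A M : Type} [CommRing A] [AddCommGroup M] [Module A M] (z : A) {k : ℕ}
    (m : Fin k → M) (f g : Fin k → ℤ[X]) :
    comb z m (fun i => f i - g i) = comb z m f - comb z m g := by
  unfold comb
  rw [← Finset.sum_sub_distrib]
  apply Finset.sum_congr rfl
  intro i _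
  rw [map_sub, sub_smul]

private theorem rho_aeval56 {A V : Type} [CommRing A] [AddCommGroup V] [Module ℂ V]
    (ρ : A →+* Module.End ℂ V) (z : A) (p : ℤ[X]) :
    ρ (aeval z p) = aeval (ρ z) (p.map (Int.castRingHom ℂ)) := by
  rw [aeval_def, aeval_def, hom_eval₂, eval₂_map]
  congr 1
  exact Subsingleton.elim _ _

private theorem combC_map56 {A M : Type} [CommRing A] [AddCommGroup M] [Module A M] (z : A) {k : ℕ}
    (m : Fin k → M) {n : ℕ} (Φ : M →+ (Fin n → ℂ)) (ρ : A →+* Module.End ℂ (Fin n → ℂ))
    (hcomp : ∀ b v, Φ (b • v) = ρ b (Φ v)) (b : Fin k → ℤ[X]) :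
    combC (ρ z) (fun i => Φ (m i)) (fun i => (b i).map (Int.castRingHom ℂ)) = Φ (comb z m b) := by
  unfold combC comb
  rw [map_sum]
  apply Finset.sum_congr rfl
  intro i _
  rw [hcomp, rho_aeval56]

private theorem combC_sub56 {V : Type} [AddCommGroup V] [Module ℂ V] {k : ℕ} (T : Module.End ℂ V)
    (w : Fin k → V) (c d : Fin k → ℂ[X]) :
    combC T w (fun i => c i - d i) = combC T w c - combC T w d := by
  unfold combC
  rw [← Finset.sum_sub_distrib]
  apply Finset.sum_congr rfl
  intro i _
  rw [map_sub, LinearMap.sub_apply]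

/-- for a fixed degree the shifts contribute different coefficients -/
private theorem shift56 (g : ℤ[X]) (R j : ℕ) :
    ∑ s ∈ Finset.range R, ((X ^ s * g).coeff j).natAbs ≤ ∑ t ∈ g.support, (g.coeff t).natAbs := by
  have hF : ∀ s : ℕ, (X ^ s * g).coeff j = if s ≤ j then g.coeff (j - s) else 0 := fun s =>
    coeff_X_pow_mul' g s j
  calc ∑ s ∈ Finset.range R, ((X ^ s * g).coeff j).natAbs
      ≤ ∑ s ∈ Finset.range (j + 1), ((X ^ s * g).coeff j).natAbs := by
        apply Finset.sum_le_sum_of_ne_zero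
        intro s _ hs
        rw [hF] at hs
        rw [Finset.mem_range]
        by_contra hcon
        rw [if_neg (by omega)] at hs
        exact hs rfl
    _ = ∑ s ∈ Finset.range (j + 1), (g.coeff (j + 1 - 1 - s)).natAbs := by
        apply Finset.sum_congr rfl
        intro s hs
        rw [Finset.mem_range] at hs
        rw [hF, if_pos (by omega), Nat.add_sub_cancel]
    _ = ∑ t ∈ Finset.range (j + 1), (g.coeff t).natAbs :=
        Finset.sum_range_reflect (fun t => (g.coeff t).natAbs) (j + 1)
    _ ≤ ∑ t ∈ g.support, (g.coeff t).natAbs := by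
        apply Finset.sum_le_sum_of_ne_zero
        intro t _ ht
        rw [mem_support_iff]
        intro h0
        rw [h0] at ht
        exact ht rfl

/-- Block MU-R3 (rounding). `b - c` is a complex relation of degree `< r`, so by `R1`, `R2` it is `∑_{s,l} y_{sl} X^s g_l`; subtract `∑ round(Re y_{sl}) X^s g_l` from `b`: the result is
`Re c + ∑ (Re y_{sl} - round) X^s g_l`, and each coefficient of the last sum is at most `∑_l ∑_i ∑_j |coeff (g_l i) j|` (for fixed degree `j` only the terms `coeff (g_l i) (j-s)` occur). -/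
theorem R3 {A M : Type} [CommRing A] [AddCommGroup M] [Module A M] (z : A) {k : ℕ} (m : Fin k → M)
    {n : ℕ} (Φ : M →+ (Fin n → ℂ)) (ρ : A →+* Module.End ℂ (Fin n → ℂ)) (hcomp : ∀ b v, Φ (b • v) = ρ b (Φ v))
    (hflat : ∀ (N : ℕ) (f : Fin N → M) (y : Fin N → ℂ), ∑ i, y i • Φ (f i) = 0 →
        ∃ (κ : ℕ) (L : Fin κ → Fin N → ℤ) (w : Fin κ → ℂ), (∀ t, ∑ i, L t i • f i = 0) ∧ ∀ i, y i = ∑ t, w t * (L t i : ℂ))
    (D : ℕ) (hD : ∀ v : Fin n → ℂ, ∃ c : Fin k → ℂ[X], (∀ i, (c i).degree < D) ∧ combC (ρ z) (fun i => Φ (m i)) c = v) :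
    ∃ B₀ : ℕ, ∀ r : ℕ, D + 1 ≤ r → ∀ (b : Fin k → ℤ[X]) (c : Fin k → ℂ[X]), (∀ i, (b i).degree < r) → (∀ i, (c i).degree < r) →
      Φ (comb z m b) = combC (ρ z) (fun i => Φ (m i)) c →
      ∀ B : ℕ, (∀ i j, ‖(c i).coeff j‖ ≤ B) →
        ∃ b' : Fin k → ℤ[X], (∀ i, (b' i).degree < r) ∧ (∀ i j, |(b' i).coeff j| ≤ (B + B₀ : ℕ)) ∧ comb z m b' = comb z m b := by
  obtain ⟨N, g, hgdeg, hg0, hgen⟩ := R2 z m Φ ρ hcomp hflat (D + 1)
  refine ⟨∑ l, ∑ i, ∑ t ∈ (g l i).support, ((g l i).coeff t).natAbs, ?_⟩
  intro r hr b c hb hc hbc B hB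
  -- the complex relation
  have hrel : combC (ρ z) (fun i => Φ (m i))
      (fun i => (b i).map (Int.castRingHom ℂ) - c i) = 0 := by
    rw [combC_sub56, combC_map56 z m Φ ρ hcomp, hbc, sub_self]
  have hdeg : ∀ i, ((b i).map (Int.castRingHom ℂ) - c i).degree < r := by
    intro i
    refine lt_of_le_of_lt (degree_sub_le _ _) (max_lt ?_ (hc i))
    exact lt_of_le_of_lt degree_map_le (hb i)
  obtain ⟨e, hedeg, he0, hesum⟩ := R1 (ρ z) (fun i => Φ (m i)) D hD r (by omega) _ hdeg hrel
  have hy : ∀ s, ∃ y : Fin N → ℂ, ∀ i, e s i = ∑ l, y l • (g l i).map (Int.castRingHom ℂ) :=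
    fun s => hgen (e s) (hedeg s) (he0 s)
  choose y hy using hy
  -- the correction
  let q : Fin k → ℤ[X] := fun i =>
    ∑ s ∈ Finset.range (r - D), ∑ l, (C (round (y s l).re) * X ^ s) * g l i
  refine ⟨fun i => b i - q i, ?_, ?_, ?_⟩
  · intro i
    refine lt_of_le_of_lt (degree_sub_le _ _) (max_lt (hb i) ?_)
    have h1 : q i ∈ degreeLT ℤ r := by
      apply Submodule.sum_mem
      intro s hs
      rw [Finset.mem_range] at hs
      apply Submodule.sum_mem
      intro l _
      rw [mem_degreeLT]
      have h2 : (g l i).degree < (D + 1 : ℕ) := hgdeg l i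
      by_cases h0 : (C (round (y s l).re) * X ^ s) * g l i = 0
      · rw [h0, degree_zero]
        exact WithBot.bot_lt_coe r
      · have h3 : g l i ≠ 0 := right_ne_zero_of_mul h0
        rw [degree_eq_natDegree h3] at h2
        have h4 : (g l i).natDegree < D + 1 := by exact_mod_cast h2
        have h5 : ((C (round (y s l).re) * X ^ s) * g l i).degree ≤
            ((s + (g l i).natDegree : ℕ) : WithBot ℕ) := by
          refine le_trans (degree_mul_le _ _) ?_
          push_cast
          apply add_le_add (degree_C_mul_X_pow_le s _)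
          exact degree_le_natDegree
        refine lt_of_le_of_lt h5 ?_
        exact_mod_cast (by omega : s + (g l i).natDegree < r)
    exact mem_degreeLT.1 h1
  · intro i j
    have hcoefR : (((b i - q i).coeff j : ℤ) : ℝ) = ((c i).coeff j).re +
        ∑ s ∈ Finset.range (r - D), ∑ l, ((y s l).re - (round (y s l).re : ℝ)) *
          (((X ^ s * g l i).coeff j : ℤ) : ℝ) := by
      have h1 : (((b i).coeff j : ℤ) : ℂ) = (c i).coeff j +
          ∑ s ∈ Finset.range (r - D), ∑ l, y s l * (((X ^ s * g l i).coeff j : ℤ) : ℂ) := by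
        have h2 := hesum i
        have h3 : ((b i).map (Int.castRingHom ℂ) - c i).coeff j =
            ∑ s ∈ Finset.range (r - D), ∑ l, y s l * (((X ^ s * g l i).coeff j : ℤ) : ℂ) := by
          rw [h2, finsetSum_coeff]
          apply Finset.sum_congr rfl
          intro s _
          rw [hy s i, Finset.mul_sum, finsetSum_coeff]
          apply Finset.sum_congr rfl
          intro l _
          have h4 : X ^ s * (y s l • (g l i).map (Int.castRingHom ℂ)) =
              y s l • ((X ^ s * g l i).map (Int.castRingHom ℂ)) := by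
            rw [Polynomial.map_mul, Polynomial.map_pow, map_X, mul_smul_comm]
          rw [h4, coeff_smul, coeff_map, smul_eq_mul]
          rfl
        rw [coeff_sub, coeff_map] at h3
        have h5 : (Int.castRingHom ℂ) ((b i).coeff j) = (((b i).coeff j : ℤ) : ℂ) := rfl
        rw [h5] at h3
        rw [← h3]
        ring
      have h6 : ((b i).coeff j : ℝ) = ((c i).coeff j).re +
          ∑ s ∈ Finset.range (r - D), ∑ l, (y s l).re * (((X ^ s * g l i).coeff j : ℤ) : ℝ) := by
        have h7 := congrArg Complex.re h1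
        rw [Complex.intCast_re, Complex.add_re, Complex.re_sum] at h7
        rw [h7]
        congr 1
        apply Finset.sum_congr rfl
        intro s _
        rw [Complex.re_sum]
        apply Finset.sum_congr rfl
        intro l _
        rw [Complex.mul_re, Complex.intCast_re, Complex.intCast_im, mul_zero, sub_zero]
      have h8 : ((q i).coeff j : ℤ) = ∑ s ∈ Finset.range (r - D), ∑ l,
          round (y s l).re * (X ^ s * g l i).coeff j := by
        show (∑ s ∈ Finset.range (r - D), ∑ l, (C (round (y s l).re) * X ^ s) * g l i).coeff j = _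
        rw [finsetSum_coeff]
        apply Finset.sum_congr rfl
        intro s _
        rw [finsetSum_coeff]
        apply Finset.sum_congr rfl
        intro l _
        rw [mul_assoc, coeff_C_mul]
      rw [coeff_sub, Int.cast_sub, h6, h8]
      push_cast
      rw [add_sub_assoc, ← Finset.sum_sub_distrib]
      congr 1
      apply Finset.sum_congr rfl
      intro s _
      rw [← Finset.sum_sub_distrib]
      apply Finset.sum_congr rfl
      intro l _
      ring
    have hbd : |(((b i - q i).coeff j : ℤ) : ℝ)| ≤ (B : ℝ) +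
        ((∑ l, ∑ i, ∑ t ∈ (g l i).support, ((g l i).coeff t).natAbs : ℕ) : ℝ) := by
      rw [hcoefR]
      refine le_trans (abs_add_le _ _) (add_le_add ?_ ?_)
      · exact le_trans (Complex.abs_re_le_norm _) (hB i j)
      · have h1 : |∑ s ∈ Finset.range (r - D), ∑ l, ((y s l).re - (round (y s l).re : ℝ)) *
            (((X ^ s * g l i).coeff j : ℤ) : ℝ)| ≤
            ∑ s ∈ Finset.range (r - D), ∑ l, ((((X ^ s * g l i).coeff j).natAbs : ℕ) : ℝ) := by
          refine le_trans (Finset.abs_sum_le_sum_abs _ _) (Finset.sum_le_sum fun s _ => ?_)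
          refine le_trans (Finset.abs_sum_le_sum_abs _ _) (Finset.sum_le_sum fun l _ => ?_)
          rw [abs_mul, Nat.cast_natAbs, Int.cast_abs]
          have h2 : |(y s l).re - (round (y s l).re : ℝ)| ≤ 1 := by
            have h3 := abs_sub_round (y s l).re
            linarith
          have h4 : (0 : ℝ) ≤ |(((X ^ s * g l i).coeff j : ℤ) : ℝ)| := abs_nonneg _
          nlinarith
        refine le_trans h1 ?_
        rw [Finset.sum_comm]
        have h5 : ∀ l : Fin N, (∑ s ∈ Finset.range (r - D), ((((X ^ s * g l i).coeff j).natAbs : ℕ) : ℝ)) ≤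
            ((∑ i, ∑ t ∈ (g l i).support, ((g l i).coeff t).natAbs : ℕ) : ℝ) := by
          intro l
          have h6 := shift56 (g l i) (r - D) j
          have h7 : ∑ t ∈ (g l i).support, ((g l i).coeff t).natAbs ≤
              ∑ i, ∑ t ∈ (g l i).support, ((g l i).coeff t).natAbs :=
            Finset.single_le_sum (f := fun i => ∑ t ∈ (g l i).support, ((g l i).coeff t).natAbs)
              (fun _ _ => Nat.zero_le _) (Finset.mem_univ i)
          exact_mod_cast h6.trans h7
        refine le_trans (Finset.sum_le_sum fun l _ => h5 l) ?_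
        rw [Nat.cast_sum]
    have hfin : |((b i - q i).coeff j : ℤ)| ≤
        ((B + ∑ l, ∑ i, ∑ t ∈ (g l i).support, ((g l i).coeff t).natAbs : ℕ) : ℤ) := by
      have h1 : ((|((b i - q i).coeff j : ℤ)| : ℤ) : ℝ) ≤
          (((B + ∑ l, ∑ i, ∑ t ∈ (g l i).support, ((g l i).coeff t).natAbs : ℕ) : ℤ) : ℝ) := by
        rw [Int.cast_abs, Int.cast_natCast, Nat.cast_add]
        exact hbd
      exact_mod_cast h1
    exact hfin
  · rw [comb_sub56]
    have h1 : comb z m q = 0 := by
      show comb z m (fun i => ∑ s ∈ Finset.range (r - D), ∑ l, (C (round (y s l).re) * X ^ s) * g l i) = 0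
      rw [comb_sum56]
      apply Finset.sum_eq_zero
      intro s _
      rw [comb_sum56]
      apply Finset.sum_eq_zero
      intro l _
      rw [comb_mul56, hg0 l, smul_zero]
    rw [h1, sub_zero]

end Pool.Agent.Helper74.MU
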