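import Pool.Agent.Helper74.MU.V2

set_option autoImplicit false

namespace Pool.Agent.Helper74.MU

open Polynomial

private theorem v3_comm {A V : Type} [CommRing A] [AddCommGroup V] [Module ℂ V]
    (ρ : A →+* Module.End ℂ V) (z b : A) (f : ℂ[X]) (v : V) :
    aeval (ρ z) f (ρ b v) = ρ b (aeval (ρ z) f v) := by
  have h1 : Commute (aeval (ρ z) f) (ρ b) := by
    induction f using Polynomial.induction_on' with
    | add p q hp hq =>
      rw [map_add]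
      exact hp.add_left hq
    | monomial n c =>
      rw [Polynomial.aeval_monomial]
      apply Commute.mul_left
      · exact Algebra.commutes _ _
      · apply Commute.pow_left
        show ρ z * ρ b = ρ b * ρ z
        rw [← map_mul, ← map_mul, mul_comm]
  exact LinearMap.congr_fun h1.eq v

private theorem v3_inv {A V : Type} [CommRing A] [AddCommGroup V] [Module ℂ V]
    (ρ : A →+* Module.End ℂ V) (u : Aˣ) (w : V) (c : ℂ) (hw : w ≠ 0) (h : ρ (u : A) w = c • w) :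
    c ≠ 0 ∧ ρ ((u⁻¹ : Aˣ) : A) w = c⁻¹ • w := by
  have h1 : ρ ((u⁻¹ : Aˣ) : A) (ρ (u : A) w) = w := by
    have : ρ ((u⁻¹ : Aˣ) : A) * ρ (u : A) = 1 := by
      rw [← map_mul, Units.inv_mul, map_one]
    exact LinearMap.congr_fun this w
  rw [h, map_smul] at h1
  have hc : c ≠ 0 := by
    rintro rfl
    rw [zero_smul] at h1
    exact hw h1.symm
  refine ⟨hc, ?_⟩
  rw [eq_inv_smul_iff₀ hc]
  exact h1

private theorem v3_pow {A V : Type} [CommRing A] [AddCommGroup V] [Module ℂ V]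
    (ρ : A →+* Module.End ℂ V) (u : Aˣ) (w : V) (c : ℂ) (h : ρ (u : A) w = c • w) (n : ℕ) :
    ρ ((u ^ n : Aˣ) : A) w = c ^ n • w := by
  induction n with
  | zero =>
    rw [pow_zero, pow_zero, Units.val_one, map_one, one_smul]
    rfl
  | succ n ih =>
    rw [pow_succ, Units.val_mul, map_mul, pow_succ]
    show ρ ((u ^ n : Aˣ) : A) (ρ (u : A) w) = _
    rw [h, map_smul, ih, smul_smul, mul_comm]

private theorem v3_zpow {A V : Type} [CommRing A] [AddCommGroup V] [Module ℂ V]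
    (ρ : A →+* Module.End ℂ V) (u : Aˣ) (w : V) (c : ℂ) (hw : w ≠ 0) (h : ρ (u : A) w = c • w) (n : ℤ) :
    ρ ((u ^ n : Aˣ) : A) w = c ^ n • w := by
  cases n with
  | ofNat n =>
    rw [Int.ofNat_eq_natCast, zpow_natCast, zpow_natCast]
    exact v3_pow ρ u w c h n
  | negSucc n =>
    rw [zpow_negSucc, zpow_negSucc]
    exact (v3_inv ρ (u ^ (n + 1)) w (c ^ (n + 1)) hw (v3_pow ρ u w c h (n + 1))).2

private theorem v3_mono {ι A V : Type} [Fintype ι] [CommRing A] [AddCommGroup V] [Module ℂ V]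
    (ρ : A →+* Module.End ℂ V) (x : ι → Aˣ) (w : V) (χ : ι → ℂ) (hw : w ≠ 0)
    (h : ∀ i, ρ (x i : A) w = χ i • w) (q : ι → ℤ) :
    ρ ((mono x q : Aˣ) : A) w = (∏ i, χ i ^ q i) • w := by
  classical
  have key : ∀ s : Finset ι, ρ ((∏ i ∈ s, x i ^ q i : Aˣ) : A) w = (∏ i ∈ s, χ i ^ q i) • w := by
    intro s
    induction s using Finset.induction_on with
    | empty =>
      rw [Finset.prod_empty, Finset.prod_empty, Units.val_one, map_one, one_smul]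
      rfl
    | insert i s hi ih =>
      rw [Finset.prod_insert hi, Finset.prod_insert hi, Units.val_mul, map_mul]
      show ρ ((x i ^ q i : Aˣ) : A) (ρ ((∏ i ∈ s, x i ^ q i : Aˣ) : A) w) = _
      rw [ih, map_smul, v3_zpow ρ (x i) w (χ i) hw (h i), smul_smul, mul_comm]
  exact key Finset.univ

private theorem v3_prod {V : Type} [AddCommGroup V] [Module ℂ V] (T : Module.End ℂ V) (w : V) (c : ℂ)
    (h : T w = c • w) (s : List ℂ) :
    (s.map fun l => T - l • (1 : Module.End ℂ V)).prod w = (s.map fun l => c - l).prod • w := by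
  induction s with
  | nil =>
    simp
  | cons l s ih =>
    rw [List.map_cons, List.prod_cons, List.map_cons, List.prod_cons]
    show (T - l • (1 : Module.End ℂ V)) ((s.map fun l => T - l • (1 : Module.End ℂ V)).prod w) = _
    rw [ih, map_smul]
    show _ • (T w - l • w) = _
    rw [h, ← sub_smul, smul_smul, mul_comm]

/-- Block MU-V3. The projection `P` of the `Setup`. (`V2a` for `T = ρ z`, `W = range P`; on `W` the eigenvalues of `T` have modulus one, and a common eigenvector `w ∈ W` of the `x_i` has `T w = (∏ χ_i^(a_i)) w`.) -/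
theorem V3 {ι A V : Type} [Fintype ι] [CommRing A] [NormedAddCommGroup V] [NormedSpace ℂ V] [FiniteDimensional ℂ V] (x : ι → Aˣ)
    (ρ : A →+* Module.End ℂ V) (a : ι → ℤ)
    (hchar : ∀ χ : ι → ℂ, ∀ w : V, w ≠ 0 → (∀ i, ρ (x i : A) w = χ i • w) → ‖∏ i, χ i ^ a i‖ = 1 → ∀ i, ‖χ i‖ = 1) :
    ∃ (P : V →ₗ[ℂ] V) (C θ : ℝ) (e : ℕ), 0 < C ∧ 0 < θ ∧ θ < 1 ∧ (∀ b v, P (ρ b v) = ρ b (P v)) ∧
      (∀ (J : ℕ) (v : V), ∃ v₁ v₂ : V, v = P v + ρ (((mono x a : Aˣ) : A) ^ J) v₁ + ρ ((↑(mono x a)⁻¹ : A) ^ J) v₂ ∧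
        ‖v₁‖ ≤ C * θ ^ J * ‖v‖ ∧ ‖v₂‖ ≤ C * θ ^ J * ‖v‖) ∧
      ∀ (q : ι → ℤ) (v : V), ‖P (ρ ((mono x q : Aˣ) : A) v)‖ ≤ C * (1 + ∑ i, |(q i : ℝ)|) ^ e * ‖v‖ := by
  classical
  set z : Aˣ := mono x a with hz
  have h1 : ρ (z : A) * ρ ((z⁻¹ : Aˣ) : A) = 1 := by rw [← map_mul, Units.mul_inv, map_one]
  have h2 : ρ ((z⁻¹ : Aˣ) : A) * ρ (z : A) = 1 := by rw [← map_mul, Units.inv_mul, map_one]
  obtain ⟨f, C₁, θ, s, hC₁, hθ, hθ1, hs, hprod, hsplit⟩ := V2a (ρ (z : A)) (ρ ((z⁻¹ : Aˣ) : A)) h1 h2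
  let P : V →ₗ[ℂ] V := aeval (ρ (z : A)) f
  have hcomm : ∀ (b : A) (v : V), P (ρ b v) = ρ b (P v) := fun b v => v3_comm ρ (z : A) b f v
  obtain ⟨C₂, e, hC₂, hgrow⟩ := V2b x ρ (LinearMap.range P)
    (by
      rintro b _ ⟨u, rfl⟩
      exact ⟨ρ b u, hcomm b u⟩)
    (by
      rintro χ w ⟨u, rfl⟩ hw hχ
      apply hchar χ (P u) hw hχ
      have hT : ρ (z : A) (P u) = (∏ i, χ i ^ a i) • P u := v3_mono ρ x (P u) χ hw hχ a
      have h3 : (s.map fun l => ρ (z : A) - l • (1 : Module.End ℂ V)).prod (P u) = 0 :=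
        LinearMap.congr_fun hprod u
      rw [v3_prod _ _ _ hT] at h3
      have h4 := (smul_eq_zero.1 h3).resolve_right hw
      rw [List.prod_eq_zero_iff, List.mem_map] at h4
      obtain ⟨l, hl, hl2⟩ := h4
      rw [sub_eq_zero.1 hl2]
      exact hs l hl)
  let Pc : V →L[ℂ] V := LinearMap.toContinuousLinearMap P
  have hPc : ∀ v, ‖P v‖ ≤ ‖Pc‖ * ‖v‖ := fun v => Pc.le_opNorm v
  refine ⟨P, max C₁ (C₂ * ‖Pc‖), θ, e, lt_max_of_lt_left hC₁, hθ, hθ1, hcomm, ?_, ?_⟩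
  · intro J v
    obtain ⟨v₁, v₂, hv, hv₁, hv₂⟩ := hsplit J v
    have hJ : 0 ≤ θ ^ J * ‖v‖ := by positivity
    refine ⟨v₁, v₂, ?_, ?_, ?_⟩
    · rw [map_pow, map_pow]
      exact hv
    · refine hv₁.trans ?_
      rw [mul_assoc, mul_assoc]
      exact mul_le_mul_of_nonneg_right (le_max_left _ _) hJ
    · refine hv₂.trans ?_
      rw [mul_assoc, mul_assoc]
      exact mul_le_mul_of_nonneg_right (le_max_left _ _) hJ
  · intro q v
    rw [hcomm]
    have hq : 0 ≤ (1 + ∑ i, |(q i : ℝ)|) ^ e := by positivity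
    calc ‖ρ ((mono x q : Aˣ) : A) (P v)‖ ≤ C₂ * (1 + ∑ i, |(q i : ℝ)|) ^ e * ‖P v‖ :=
          hgrow q (P v) ⟨v, rfl⟩
      _ ≤ C₂ * (1 + ∑ i, |(q i : ℝ)|) ^ e * (‖Pc‖ * ‖v‖) := by
          apply mul_le_mul_of_nonneg_left (hPc v)
          exact mul_nonneg hC₂.le hq
      _ = (C₂ * ‖Pc‖) * (1 + ∑ i, |(q i : ℝ)|) ^ e * ‖v‖ := by ring
      _ ≤ max C₁ (C₂ * ‖Pc‖) * (1 + ∑ i, |(q i : ℝ)|) ^ e * ‖v‖ := by
          apply mul_le_mul_of_nonneg_right _ (norm_nonneg v)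
          apply mul_le_mul_of_nonneg_right _ hq
          exact le_max_right _ _

end Pool.Agent.Helper74.MU
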