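import Pool.Agent.Helper74.MU.E3
import Pool.Agent.Helper74.MU.E4
import Pool.Agent.Helper74.MU.V3
import Pool.Agent.Helper74.MU.B1
import Pool.Agent.Helper74.MU.K0
import Pool.Agent.Helper74.MU.R3

set_option autoImplicit false

namespace Pool.Agent.Helper74.MU

open Polynomial

private theorem mono_mem85 {ι A : Type} [Fintype ι] [CommRing A] (x : ι → Aˣ) (a : ι → ℤ) :
    mono x a ∈ Subgroup.closure (Set.range x) := by
  unfold mono
  refine Subgroup.prod_mem _ fun i _ => ?_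
  have h1 : x i ∈ Subgroup.closure (Set.range x) := Subgroup.subset_closure ⟨i, rfl⟩
  exact Subgroup.zpow_mem _ h1 _

/-- finitely many characters occur -/
private theorem chars85 {ι A : Type} [Fintype ι] [CommRing A] {n : ℕ} (x : ι → Aˣ)
    (ρ : A →+* Module.End ℂ (Fin n → ℂ)) :
    {χ : ι → ℂ | ∃ w : Fin n → ℂ, w ≠ 0 ∧ ∀ i, ρ (x i : A) w = χ i • w}.Finite := by
  refine (Set.Finite.pi' fun i : ι => (Module.End.finite_hasEigenvalue (ρ (x i : A)))).subset ?_
  rintro χ ⟨w, hw, hχ⟩ i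
  exact Module.End.hasEigenvalue_of_hasEigenvector ⟨Module.End.mem_eigenspace_iff.2 (hχ i), hw⟩

private theorem char_ne85 {ι A : Type} [CommRing A] {n : ℕ} (x : ι → Aˣ)
    (ρ : A →+* Module.End ℂ (Fin n → ℂ)) {χ : ι → ℂ} {w : Fin n → ℂ} (hw : w ≠ 0)
    (hχ : ∀ i, ρ (x i : A) w = χ i • w) (i : ι) : χ i ≠ 0 := by
  intro h0
  have h1 : ρ (↑(x i)⁻¹ : A) (ρ (x i : A) w) = w := by
    have : ρ (↑(x i)⁻¹ : A) * ρ (x i : A) = 1 := by
      rw [← map_mul, Units.inv_mul, map_one]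
    exact LinearMap.congr_fun this w
  rw [hχ, h0, zero_smul, map_zero] at h1
  exact hw h1.symm

/-- Glue MU-S0: the `Setup` exists. -/
theorem setup_exists {ι A M : Type} [Fintype ι] [CommRing A] [AddCommGroup M] [Module A M] [Module.Finite A M] (x : ι → Aˣ)
    (hgen : Algebra.adjoin ℤ (Set.range (fun i => (x i : A)) ∪ Set.range (fun i => (↑(x i)⁻¹ : A))) = ⊤)
    (hα : CondA x) (hβ : CondB x) : Nonempty (Setup x M) := by
  classical
  have hft : Algebra.FiniteType ℤ A := by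
    refine ⟨⟨((Set.finite_range (fun i => (x i : A))).union
      (Set.finite_range (fun i => (↑(x i)⁻¹ : A)))).toFinset, ?_⟩⟩
    rw [Set.Finite.coe_toFinset]
    exact hgen
  have hnoe : IsNoetherianRing A := Algebra.FiniteType.isNoetherianRing ℤ A
  obtain ⟨a₀, h₀, -⟩ := E3 x hα hβ ∅ (fun χ hχ => absurd hχ (Finset.notMem_empty _))
  obtain ⟨k₀, m₀, hm₀⟩ := E4 (M := M) x (mono x a₀) hgen h₀
  obtain ⟨F, hF, hF0⟩ := hα _ (mono_mem85 x a₀)
  have hfin := B0 (mono x a₀) m₀ hm₀ F hF hF0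
  obtain ⟨n, Φ, ρ, hcomp, hspan, hflat⟩ := B1 (A := A) (M := M) hfin
  have hSf := chars85 x ρ
  obtain ⟨a, ha1, ha2⟩ := E3 x hα hβ hSf.toFinset (by
    intro χ hχ
    rw [Set.Finite.mem_toFinset] at hχ
    obtain ⟨w, hw, hχw⟩ := hχ
    exact char_ne85 x ρ hw hχw)
  obtain ⟨k, m, hm⟩ := E4 (M := M) x (mono x a) hgen ha1
  obtain ⟨P, C₁, θ, e, hC₁, hθ, hθ1, hcomm, hhyp, hgrow⟩ := V3 x ρ a (by
    intro χ w hw hχw h1
    refine ha2 χ ?_ h1
    rw [Set.Finite.mem_toFinset]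
    exact ⟨w, hw, hχw⟩)
  obtain ⟨D, C₂, hC₂, hwin⟩ := K0 (mono x a) m hm Φ ρ hcomp hspan
  obtain ⟨B₀, hround⟩ := R3 ((mono x a : Aˣ) : A) m Φ ρ hcomp hflat D (fun v => by
    obtain ⟨c, hc1, -, hc3⟩ := hwin v
    exact ⟨c, hc1, hc3⟩)
  exact ⟨
    { a := a
      k := k
      m := m
      gen := hm
      n := n
      Φ := Φ
      ρ := ρ
      comp := hcomp
      P := P
      C := max C₁ C₂
      θ := θ
      e := e
      hC := lt_max_of_lt_left hC₁
      hθ := hθ
      hθ1 := hθ1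
      comm := hcomm
      hyp := by
        intro J v
        obtain ⟨v₁, v₂, h1, h2, h3⟩ := hhyp J v
        have h4 : C₁ * θ ^ J * ‖v‖ ≤ max C₁ C₂ * θ ^ J * ‖v‖ := by
          gcongr
          exact le_max_left _ _
        exact ⟨v₁, v₂, h1, h2.trans h4, h3.trans h4⟩
      growth := by
        intro q v
        refine (hgrow q v).trans ?_
        have h0 : (0 : ℝ) ≤ 1 + ∑ i, |(q i : ℝ)| := by positivity
        gcongr
        exact le_max_left _ _
      D := D
      window := by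
        intro v
        obtain ⟨c, hc1, hc2, hc3⟩ := hwin v
        refine ⟨c, hc1, fun i j => (hc2 i j).trans ?_, hc3⟩
        gcongr
        exact le_max_right _ _
      D' := D + 1
      B₀ := B₀
      round := hround }⟩

end Pool.Agent.Helper74.MU
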