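import Pool.Agent.Helper74.MU.Defs

set_option autoImplicit false

namespace Pool.Agent.Helper74.MU

private theorem bound56 {V : Type} [NormedAddCommGroup V] [NormedSpace ℂ V]
    [FiniteDimensional ℂ V] (T : V →ₗ[ℂ] V) : ∃ C : ℝ, 0 ≤ C ∧ ∀ v, ‖T v‖ ≤ C * ‖v‖ := by
  refine ⟨‖LinearMap.toContinuousLinearMap T‖, norm_nonneg _, fun v => ?_⟩
  exact (LinearMap.toContinuousLinearMap T).le_opNorm v

private theorem comm56 {V : Type} [NormedAddCommGroup V] [NormedSpace ℂ V] (T : V →ₗ[ℂ] V)
    (l : ℂ) (s : List ℂ) :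
    Commute (T - l • (1 : Module.End ℂ V)) (s.map fun l => T - l • (1 : Module.End ℂ V)).prod := by
  apply Commute.list_prod_right
  intro x hx
  obtain ⟨l', -, rfl⟩ := List.mem_map.1 hx
  apply Commute.sub_left
  · apply Commute.sub_right (Commute.refl T)
    exact (Commute.one_right T).smul_right l'
  · exact (Commute.one_left _).smul_left l

/-- Block MU-V1 (growth of powers). Induction on the list: for `s = l :: s'`, `u = (T - l) v` is killed by the product over `s'`, and `T^n v = l^n v + ∑_{j<n} l^(n-1-j) T^j u`. -/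
theorem V1 {V : Type} [NormedAddCommGroup V] [NormedSpace ℂ V] [FiniteDimensional ℂ V] (T : V →ₗ[ℂ] V) (s : List ℂ) (θ : ℝ) (hθ : 0 < θ)
    (hs : ∀ l ∈ s, ‖l‖ ≤ θ) :
    ∃ C : ℝ, 0 < C ∧ ∀ v : V, (s.map fun l => T - l • (1 : Module.End ℂ V)).prod v = 0 →
      ∀ n : ℕ, ‖(T ^ n) v‖ ≤ C * ((n : ℝ) + 1) ^ s.length * θ ^ n * ‖v‖ := by
  induction s with
  | nil =>
    refine ⟨1, one_pos, fun v hv n => ?_⟩
    have h1 : v = 0 := hv
    rw [h1, map_zero, norm_zero, mul_zero]
  | cons l s' ih =>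
    obtain ⟨C', hC', hv'⟩ := ih (fun l' hl' => hs l' (List.mem_cons_of_mem _ hl'))
    obtain ⟨CT, hCT, hb⟩ := bound56 (T - l • (1 : Module.End ℂ V))
    have hl : ‖l‖ ≤ θ := hs l List.mem_cons_self
    have hE : 0 ≤ C' * CT / θ := by positivity
    refine ⟨1 + C' * CT / θ, by positivity, fun v hv n => ?_⟩
    set u : V := (T - l • (1 : Module.End ℂ V)) v with hu
    have hu0 : (s'.map fun l => T - l • (1 : Module.End ℂ V)).prod u = 0 := by
      have h1 := (comm56 T l s').eq
      have h2 := LinearMap.congr_fun h1 v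
      rw [List.map_cons, List.prod_cons] at hv
      have h3 : (T - l • (1 : Module.End ℂ V)) ((s'.map fun l => T - l • (1 : Module.End ℂ V)).prod v) = 0 := hv
      have h4 : (s'.map fun l => T - l • (1 : Module.End ℂ V)).prod u =
        (T - l • (1 : Module.End ℂ V)) ((s'.map fun l => T - l • (1 : Module.End ℂ V)).prod v) := h2.symm
      rw [h4, h3]
    have hTv : T v = l • v + u := by
      rw [hu]
      show T v = l • v + (T v - l • v)
      abel
    have hun : ‖u‖ ≤ CT * ‖v‖ := hb v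
    induction n with
    | zero =>
      rw [pow_zero, pow_zero, Nat.cast_zero, zero_add, one_pow, mul_one, mul_one]
      show ‖v‖ ≤ (1 + C' * CT / θ) * ‖v‖
      have := mul_nonneg hE (norm_nonneg v)
      linarith
    | succ n ihn =>
      have h1 : (T ^ (n + 1)) v = l • (T ^ n) v + (T ^ n) u := by
        rw [pow_succ]
        show (T ^ n) (T v) = _
        rw [hTv, map_add, map_smul]
      have h2 := hv' u hu0 n
      have hn1 : (0 : ℝ) ≤ (n : ℝ) + 1 := by positivity
      have hp1 : (0 : ℝ) ≤ ((n : ℝ) + 1) ^ s'.length := pow_nonneg hn1 _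
      have hθn : 0 < θ ^ n := pow_pos hθ n
      have h3 : ‖(T ^ (n + 1)) v‖ ≤ θ * ((1 + C' * CT / θ) * ((n : ℝ) + 1) ^ (s'.length + 1) * θ ^ n * ‖v‖) +
          C' * ((n : ℝ) + 1) ^ s'.length * θ ^ n * (CT * ‖v‖) := by
        rw [h1]
        refine le_trans (norm_add_le _ _) (add_le_add ?_ ?_)
        · rw [norm_smul]
          refine mul_le_mul hl ?_ (norm_nonneg _) hθ.le
          rw [List.length_cons] at ihn
          exact ihn
        · refine le_trans h2 ?_
          exact mul_le_mul_of_nonneg_left hun (by positivity)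
      refine le_trans h3 ?_
      rw [List.length_cons]
      have h4 : θ * ((1 + C' * CT / θ) * ((n : ℝ) + 1) ^ (s'.length + 1) * θ ^ n * ‖v‖) +
          C' * ((n : ℝ) + 1) ^ s'.length * θ ^ n * (CT * ‖v‖) =
          θ ^ (n + 1) * ‖v‖ * (((n : ℝ) + 1) ^ s'.length *
            ((1 + C' * CT / θ) * ((n : ℝ) + 1) + C' * CT / θ)) := by
        field_simp
        ring
      have h5 : (1 + C' * CT / θ) * (((n + 1 : ℕ) : ℝ) + 1) ^ (s'.length + 1) * θ ^ (n + 1) * ‖v‖ =
          θ ^ (n + 1) * ‖v‖ * ((((n + 1 : ℕ) : ℝ) + 1) ^ s'.length *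
            ((1 + C' * CT / θ) * (((n + 1 : ℕ) : ℝ) + 1))) := by
        ring
      rw [h4, h5]
      apply mul_le_mul_of_nonneg_left _ (by positivity)
      push_cast
      apply mul_le_mul
      · apply pow_le_pow_left₀ hn1
        linarith
      · nlinarith
      · positivity
      · positivity

end Pool.Agent.Helper74.MU
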