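import Pool.Agent.Helper74.MU.V1

set_option autoImplicit false

namespace Pool.Agent.Helper74.MU

open Polynomial

section aux26

variable {V : Type} [NormedAddCommGroup V] [NormedSpace ℂ V]

private theorem comm26 (T : Module.End ℂ V) (l : ℂ) (s : List ℂ) :
    Commute (T - l • (1 : Module.End ℂ V)) (s.map fun l => T - l • (1 : Module.End ℂ V)).prod := by
  apply Commute.list_prod_right
  intro x hx
  obtain ⟨l', -, rfl⟩ := List.mem_map.1 hx
  apply Commute.sub_left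
  · apply Commute.sub_right (Commute.refl T)
    exact (Commute.one_right T).smul_right l'
  · exact (Commute.one_left _).smul_left l

private theorem commP26 (T S : Module.End ℂ V) (h : Commute S T) (s : List ℂ) :
    Commute S (s.map fun l => T - l • (1 : Module.End ℂ V)).prod := by
  apply Commute.list_prod_right
  intro x hx
  obtain ⟨l', -, rfl⟩ := List.mem_map.1 hx
  apply Commute.sub_right h
  exact (Commute.one_right S).smul_right l'

private theorem inv_kill26 (T T' : Module.End ℂ V) (h1 : T * T' = 1) (h2 : T' * T = 1) (s : List ℂ)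
    (hs : ∀ l ∈ s, l ≠ 0) (u : V) (hu : (s.map fun l => T - l • (1 : Module.End ℂ V)).prod u = 0) :
    ((s.map fun l => l⁻¹).map fun l => T' - l • (1 : Module.End ℂ V)).prod u = 0 := by
  induction s generalizing u with
  | nil => simpa using hu
  | cons l s' ih =>
    have hl : l ≠ 0 := hs l List.mem_cons_self
    have hu' : (s'.map fun l => T - l • (1 : Module.End ℂ V)).prod ((T - l • (1 : Module.End ℂ V)) u) = 0 := by
      have h3 := LinearMap.congr_fun (comm26 T l s').eq u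
      rw [List.map_cons, List.prod_cons] at hu
      exact h3.symm.trans hu
    have h4 := ih (fun l' hl' => hs l' (List.mem_cons_of_mem _ hl')) _ hu'
    rw [List.map_cons, List.map_cons, List.prod_cons]
    set Q := ((s'.map fun l => l⁻¹).map fun l => T' - l • (1 : Module.End ℂ V)).prod with hQ
    have hc : Commute T' Q := commP26 T' T' (Commute.refl _) _
    have h5 : (T' - l⁻¹ • (1 : Module.End ℂ V)) = -(l⁻¹ • (T' * (T - l • (1 : Module.End ℂ V)))) := by
      rw [mul_sub, h2, mul_smul_comm, mul_one, smul_sub, smul_smul, inv_mul_cancel₀ hl, one_smul]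
      abel
    have h6 : (T' - l⁻¹ • (1 : Module.End ℂ V)) * Q =
        -(l⁻¹ • (T' * (Q * (T - l • (1 : Module.End ℂ V))))) := by
      have hcT : Commute T Q := by
        apply commP26 T' T
        rw [commute_iff_eq, h1, h2]
      have h7 : (T - l • (1 : Module.End ℂ V)) * Q = Q * (T - l • (1 : Module.End ℂ V)) := by
        rw [sub_mul, mul_sub, hcT.eq, smul_mul_assoc, mul_smul_comm, one_mul, mul_one]
      rw [h5, neg_mul, smul_mul_assoc, mul_assoc, h7]
    show ((T' - l⁻¹ • (1 : Module.End ℂ V)) * Q) u = 0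
    rw [h6]
    show -(l⁻¹ • (T' (Q ((T - l • (1 : Module.End ℂ V)) u)))) = 0
    rw [h4, map_zero, smul_zero, neg_zero]

private theorem exists_lt26 (s : List ℂ) (hs : ∀ l ∈ s, ‖l‖ < 1) :
    ∃ θ : ℝ, 0 < θ ∧ θ < 1 ∧ ∀ l ∈ s, ‖l‖ ≤ θ := by
  induction s with
  | nil => exact ⟨1 / 2, by norm_num, by norm_num, by simp⟩
  | cons l s ih =>
    obtain ⟨θ, h0, h1, h2⟩ := ih fun l' hl' => hs l' (List.mem_cons_of_mem _ hl')
    refine ⟨max θ ‖l‖, lt_max_of_lt_left h0, max_lt h1 (hs l List.mem_cons_self), ?_⟩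
    intro l' hl'
    rcases List.mem_cons.1 hl' with rfl | h
    · exact le_max_right _ _
    · exact (h2 l' h).trans (le_max_left _ _)

private theorem bdd26 (k : ℕ) (θ' : ℝ) (h0 : 0 < θ') (h1 : θ' < 1) :
    ∃ C θ : ℝ, 0 < C ∧ 0 < θ ∧ θ < 1 ∧ ∀ n : ℕ, ((n : ℝ) + 1) ^ k * θ' ^ n ≤ C * θ ^ n := by
  set θ := (1 + θ') / 2 with hθ
  have hθ0 : 0 < θ := by rw [hθ]; linarith
  have hθ1 : θ < 1 := by rw [hθ]; linarith
  have hr : θ' / θ < 1 := by
    rw [div_lt_one hθ0, hθ]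
    linarith
  have hr0 : 0 < θ' / θ := by positivity
  have ht := tendsto_pow_const_mul_const_pow_of_lt_one k hr0.le hr
  have hb := ht.bddAbove_range
  obtain ⟨K, hK⟩ := hb
  have hK' : ∀ n : ℕ, (n : ℝ) ^ k * (θ' / θ) ^ n ≤ K := fun n => hK ⟨n, rfl⟩
  refine ⟨max 1 (K / (θ' / θ)), θ, by positivity, hθ0, hθ1, fun n => ?_⟩
  have h3 := hK' (n + 1)
  push_cast at h3
  have h4 : ((n : ℝ) + 1) ^ k * (θ' / θ) ^ n ≤ K / (θ' / θ) := by
    rw [le_div_iff₀ hr0]
    calc ((n : ℝ) + 1) ^ k * (θ' / θ) ^ n * (θ' / θ) = ((n : ℝ) + 1) ^ k * (θ' / θ) ^ (n + 1) := by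
          rw [pow_succ]; ring
      _ ≤ K := h3
  calc ((n : ℝ) + 1) ^ k * θ' ^ n = (((n : ℝ) + 1) ^ k * (θ' / θ) ^ n) * θ ^ n := by
        rw [div_pow]
        field_simp
    _ ≤ max 1 (K / (θ' / θ)) * θ ^ n := by
        apply mul_le_mul_of_nonneg_right _ (pow_pos hθ0 n).le
        exact h4.trans (le_max_right _ _)

private theorem boundE26 [FiniteDimensional ℂ V] (T : V →ₗ[ℂ] V) : ∃ C : ℝ, 0 ≤ C ∧ ∀ v, ‖T v‖ ≤ C * ‖v‖ := by
  refine ⟨‖LinearMap.toContinuousLinearMap T‖, norm_nonneg _, fun v => ?_⟩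
  exact (LinearMap.toContinuousLinearMap T).le_opNorm v

private theorem aeval_list26 (T : Module.End ℂ V) (s : List ℂ) :
    aeval T (s.map fun l => (X - C l : ℂ[X])).prod =
      (s.map fun l => T - l • (1 : Module.End ℂ V)).prod := by
  rw [map_list_prod, List.map_map]
  congr 1
  apply List.map_congr_left
  intro l _
  simp only [Function.comp, map_sub, aeval_X, aeval_C]
  rw [Algebra.algebraMap_eq_smul_one]

/-- exponential decay for one list of small eigenvalues -/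
private theorem decay26 [FiniteDimensional ℂ V] (T : Module.End ℂ V) (s : List ℂ) (hs : ∀ l ∈ s, ‖l‖ < 1)
    (E : Module.End ℂ V) (hE : (s.map fun l => T - l • (1 : Module.End ℂ V)).prod * E = 0) :
    ∃ C θ : ℝ, 0 < C ∧ 0 < θ ∧ θ < 1 ∧ ∀ (J : ℕ) (v : V), ‖(T ^ J) (E v)‖ ≤ C * θ ^ J * ‖v‖ := by
  obtain ⟨θ', h0, h1, h2⟩ := exists_lt26 s hs
  obtain ⟨C₁, hC₁, hV⟩ := V1 T s θ' h0 h2
  obtain ⟨C₂, θ, hC₂, hθ0, hθ1, hb⟩ := bdd26 s.length θ' h0 h1
  obtain ⟨C₃, hC₃, hb3⟩ := boundE26 E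
  refine ⟨C₁ * C₂ * (C₃ + 1), θ, by positivity, hθ0, hθ1, fun J v => ?_⟩
  have h3 : (s.map fun l => T - l • (1 : Module.End ℂ V)).prod (E v) = 0 := LinearMap.congr_fun hE v
  have h4 := hV (E v) h3 J
  have h5 := hb J
  have h6 := hb3 v
  calc ‖(T ^ J) (E v)‖ ≤ C₁ * ((J : ℝ) + 1) ^ s.length * θ' ^ J * ‖E v‖ := h4
    _ = C₁ * (((J : ℝ) + 1) ^ s.length * θ' ^ J) * ‖E v‖ := by ring
    _ ≤ C₁ * (C₂ * θ ^ J) * ((C₃ + 1) * ‖v‖) := by
        gcongr
        have := norm_nonneg v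
        linarith
    _ = C₁ * C₂ * (C₃ + 1) * θ ^ J * ‖v‖ := by ring

private theorem coprime26 (s₁ s₂ : List ℂ) (h : ∀ l₁ ∈ s₁, ∀ l₂ ∈ s₂, l₁ ≠ l₂) :
    IsCoprime (s₁.map fun l => (X - C l : ℂ[X])).prod (s₂.map fun l => (X - C l : ℂ[X])).prod := by
  induction s₁ with
  | nil => simpa using isCoprime_one_left
  | cons l s ih =>
    rw [List.map_cons, List.prod_cons]
    refine IsCoprime.mul_left ?_ (ih fun l₁ hl₁ => h l₁ (List.mem_cons_of_mem _ hl₁))
    have h' := h l List.mem_cons_self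
    clear ih h
    induction s₂ with
    | nil => simpa using isCoprime_one_right
    | cons l₂ s₂ ih₂ =>
      rw [List.map_cons, List.prod_cons]
      refine IsCoprime.mul_right ?_ (ih₂ fun l' hl' => h' l' (List.mem_cons_of_mem _ hl'))
      exact isCoprime_X_sub_C_of_isUnit_sub (sub_ne_zero.2 (h' l₂ List.mem_cons_self)).isUnit

private theorem split26 [FiniteDimensional ℂ V] (T : Module.End ℂ V) :
    ∃ s : List ℂ, (∀ l ∈ s, T.HasEigenvalue l) ∧ aeval T (s.map fun l => (X - C l : ℂ[X])).prod = 0 := by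
  have hsp : (minpoly ℂ T).Splits := IsAlgClosed.splits _
  refine ⟨(minpoly ℂ T).roots.toList, ?_, ?_⟩
  · intro l hl
    rw [Multiset.mem_toList] at hl
    apply Module.End.hasEigenvalue_of_isRoot
    exact (mem_roots'.1 hl).2
  · have h1 : ((minpoly ℂ T).roots.toList.map fun l => (X - C l : ℂ[X])).prod = minpoly ℂ T := by
      have h2 := hsp.eq_prod_roots_of_monic (minpoly.monic (Algebra.IsIntegral.isIntegral T))
      conv_rhs => rw [h2]
      rw [← Multiset.prod_coe, ← Multiset.map_coe, Multiset.coe_toList]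
    rw [h1]
    exact minpoly.aeval _ _

end aux26

/-- Block MU-V2a. Splitting of an invertible operator `T` (with inverse `T'`): `v = P v + T^J v₁ + T'^J v₂` with `v₁, v₂` exponentially small; `P` is a polynomial in `T`
and the image of `P` is killed by `∏ (T - l)`, `l` in a list of complex numbers of modulus one.
Proof: minimal polynomial `μ = μ₁ μ₂ μ₃`, roots of modulus `> 1`, `< 1`, `= 1`; pairwise coprime, so `1 = e₁ + e₂ + e₃` (as operators) with `μᵢ(T) eᵢ = 0`, `eᵢ` polynomials in `T`; `P = e₃`, `v₁ = T'^J e₁ v`, `v₂ = T^J e₂ v`;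
`V1` for `T'` (roots `l⁻¹`) and `T`, and `(J+1)^s θ'^J ≤ C θ^J` for `θ' < θ < 1`. -/
theorem V2a {V : Type} [NormedAddCommGroup V] [NormedSpace ℂ V] [FiniteDimensional ℂ V] (T T' : Module.End ℂ V)
    (h1 : T * T' = 1) (h2 : T' * T = 1) :
    ∃ (f : ℂ[X]) (C θ : ℝ) (s : List ℂ), 0 < C ∧ 0 < θ ∧ θ < 1 ∧ (∀ l ∈ s, ‖l‖ = 1) ∧
      (s.map fun l => T - l • (1 : Module.End ℂ V)).prod * aeval T f = 0 ∧
      ∀ (J : ℕ) (v : V), ∃ v₁ v₂ : V, v = aeval T f v + (T ^ J) v₁ + (T' ^ J) v₂ ∧ ‖v₁‖ ≤ C * θ ^ J * ‖v‖ ∧ ‖v₂‖ ≤ C * θ ^ J * ‖v‖ := by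
  classical
  obtain ⟨s, hs, hker⟩ := split26 T
  set s₁ := s.filter fun l => decide (1 < ‖l‖) with hs₁
  set s' := s.filter fun l => !decide (1 < ‖l‖) with hs'
  set s₂ := s'.filter fun l => decide (‖l‖ < 1) with hs₂
  set s₃ := s'.filter fun l => !decide (‖l‖ < 1) with hs₃
  have m₁ : ∀ l ∈ s₁, 1 < ‖l‖ := fun l hl => by
    have := (List.mem_filter.1 hl).2
    simpa using this
  have m' : ∀ l ∈ s', ‖l‖ ≤ 1 := fun l hl => by
    have := (List.mem_filter.1 hl).2
    simpa using this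
  have m₂ : ∀ l ∈ s₂, ‖l‖ < 1 := fun l hl => by
    have := (List.mem_filter.1 hl).2
    simpa using this
  have m₃ : ∀ l ∈ s₃, ‖l‖ = 1 := fun l hl => by
    have h3 := (List.mem_filter.1 hl).2
    have h4 := m' l (List.mem_filter.1 hl).1
    have h5 : 1 ≤ ‖l‖ := by simpa using h3
    exact le_antisymm h4 h5
  set p₁ := (s₁.map fun l => (X - C l : ℂ[X])).prod with hp₁
  set p₂ := (s₂.map fun l => (X - C l : ℂ[X])).prod with hp₂
  set p₃ := (s₃.map fun l => (X - C l : ℂ[X])).prod with hp₃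
  have hprod : p₁ * (p₂ * p₃) = (s.map fun l => (X - C l : ℂ[X])).prod := by
    have h3 : (s₂ ++ s₃).Perm s' := List.filter_append_perm _ _
    have h4 : (s₁ ++ s').Perm s := List.filter_append_perm _ _
    rw [hp₁, hp₂, hp₃, ← List.prod_append (l₂ := s₃.map _), ← List.map_append, (h3.map _).prod_eq,
      ← List.prod_append, ← List.map_append, (h4.map _).prod_eq]
  have hker' : aeval T (p₁ * (p₂ * p₃)) = 0 := by rw [hprod]; exact hker
  have c12 : IsCoprime p₁ p₂ := coprime26 _ _ fun l₁ h₁ l₂ h₂ h => by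
    have := m₁ l₁ h₁
    have := m₂ l₂ h₂
    rw [h] at *
    linarith
  have c13 : IsCoprime p₁ p₃ := coprime26 _ _ fun l₁ h₁ l₂ h₂ h => by
    have := m₁ l₁ h₁
    have := m₃ l₂ h₂
    rw [h] at *
    linarith
  have c23 : IsCoprime p₂ p₃ := coprime26 _ _ fun l₁ h₁ l₂ h₂ h => by
    have := m₂ l₁ h₁
    have := m₃ l₂ h₂
    rw [h] at *
    linarith
  obtain ⟨a, b, hab⟩ : IsCoprime p₃ (p₁ * p₂) := (IsCoprime.mul_left c13 c23).symm
  obtain ⟨c, d, hcd⟩ := c12
  set f : ℂ[X] := b * (p₁ * p₂) with hf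
  set e₁ : ℂ[X] := a * p₃ * (d * p₂) with he₁
  set e₂ : ℂ[X] := a * p₃ * (c * p₁) with he₂
  have hsum : f + e₁ + e₂ = 1 := by
    rw [hf, he₁, he₂]
    linear_combination hab + a * p₃ * hcd
  have k₁ : (s₁.map fun l => T - l • (1 : Module.End ℂ V)).prod * aeval T e₁ = 0 := by
    rw [← aeval_list26, ← map_mul]
    have : (s₁.map fun l => (X - C l : ℂ[X])).prod * e₁ = (p₁ * (p₂ * p₃)) * (a * d) := by
      rw [← hp₁, he₁]; ring
    rw [this, map_mul, hker', zero_mul]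
  have k₂ : (s₂.map fun l => T - l • (1 : Module.End ℂ V)).prod * aeval T e₂ = 0 := by
    rw [← aeval_list26, ← map_mul]
    have : (s₂.map fun l => (X - C l : ℂ[X])).prod * e₂ = (p₁ * (p₂ * p₃)) * (a * c) := by
      rw [← hp₂, he₂]; ring
    rw [this, map_mul, hker', zero_mul]
  have k₃ : (s₃.map fun l => T - l • (1 : Module.End ℂ V)).prod * aeval T f = 0 := by
    rw [← aeval_list26, ← map_mul]
    have : (s₃.map fun l => (X - C l : ℂ[X])).prod * f = (p₁ * (p₂ * p₃)) * b := by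
      rw [← hp₃, hf]; ring
    rw [this, map_mul, hker', zero_mul]
  have k₁' : ((s₁.map fun l => l⁻¹).map fun l => T' - l • (1 : Module.End ℂ V)).prod * aeval T e₁ = 0 := by
    ext v
    have := inv_kill26 T T' h1 h2 s₁ (fun l hl h0 => by
      have := m₁ l hl
      rw [h0, norm_zero] at this
      linarith) (aeval T e₁ v) (LinearMap.congr_fun k₁ v)
    exact this
  obtain ⟨C₁, θ₁, hC₁, hθ₁, hθ₁', hd₁⟩ := decay26 T' (s₁.map fun l => l⁻¹) (fun l hl => by
    obtain ⟨l', hl', rfl⟩ := List.mem_map.1 hl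
    rw [norm_inv]
    exact inv_lt_one_of_one_lt₀ (m₁ l' hl')) _ k₁'
  obtain ⟨C₂, θ₂, hC₂, hθ₂, hθ₂', hd₂⟩ := decay26 T s₂ m₂ _ k₂
  have hTT : ∀ J : ℕ, T ^ J * T' ^ J = 1 := fun J => by
    have hc : Commute T T' := by rw [commute_iff_eq, h1, h2]
    rw [← hc.mul_pow, h1, one_pow]
  have hTT' : ∀ J : ℕ, T' ^ J * T ^ J = 1 := fun J => by
    have hc : Commute T' T := by rw [commute_iff_eq, h1, h2]
    rw [← hc.mul_pow, h2, one_pow]
  refine ⟨f, max C₁ C₂, max θ₁ θ₂, s₃, lt_max_of_lt_left hC₁, lt_max_of_lt_left hθ₁, max_lt hθ₁' hθ₂', m₃, k₃, ?_⟩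
  intro J v
  refine ⟨(T' ^ J) (aeval T e₁ v), (T ^ J) (aeval T e₂ v), ?_, ?_, ?_⟩
  · have h3 : (T ^ J) ((T' ^ J) (aeval T e₁ v)) = aeval T e₁ v := LinearMap.congr_fun (hTT J) _
    have h4 : (T' ^ J) ((T ^ J) (aeval T e₂ v)) = aeval T e₂ v := LinearMap.congr_fun (hTT' J) _
    rw [h3, h4]
    have h5 : aeval T (f + e₁ + e₂) v = v := by rw [hsum, map_one]; rfl
    rw [map_add, map_add] at h5
    exact h5.symm
  · refine (hd₁ J v).trans ?_
    gcongr
    · exact le_max_left _ _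
    · exact le_max_left _ _
  · refine (hd₂ J v).trans ?_
    gcongr
    · exact le_max_right _ _
    · exact le_max_right _ _

section aux26b

variable {ι V : Type} [Fintype ι] [NormedAddCommGroup V] [NormedSpace ℂ V] [FiniteDimensional ℂ V]
  {A : Type} [CommRing A]

/-- common eigenvectors of a finite set of operators `ρ b` -/
private theorem common26 (ρ : A →+* Module.End ℂ V) (y : ι → A) (t : Finset ι) :
    ∀ E : Submodule ℂ V, (∀ b : A, ∀ w ∈ E, ρ b w ∈ E) → E ≠ ⊥ →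
      ∃ w ∈ E, w ≠ 0 ∧ ∃ χ : ι → ℂ, ∀ i ∈ t, ρ (y i) w = χ i • w := by
  classical
  induction t using Finset.induction_on with
  | empty =>
    intro E _ hne
    obtain ⟨w, hw, h0⟩ := Submodule.exists_mem_ne_zero_of_ne_bot hne
    exact ⟨w, hw, h0, 0, by simp⟩
  | insert j t hj ih =>
    intro E hE hne
    have : Nontrivial E := Submodule.nontrivial_iff_ne_bot.2 hne
    let S : Module.End ℂ E := (ρ (y j)).restrict (hE (y j))
    obtain ⟨l, hl⟩ := Module.End.exists_eigenvalue S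
    obtain ⟨v, hv⟩ := hl.exists_hasEigenvector
    let E' : Submodule ℂ V := E ⊓ LinearMap.ker (ρ (y j) - l • (1 : Module.End ℂ V))
    have hE' : ∀ b : A, ∀ w ∈ E', ρ b w ∈ E' := by
      intro b w hw
      refine ⟨hE b w hw.1, ?_⟩
      have h1 : (ρ (y j) - l • (1 : Module.End ℂ V)) w = 0 := hw.2
      have h2 : ρ (y j) (ρ b w) = ρ b (ρ (y j) w) := by
        have : ρ (y j) * ρ b = ρ b * ρ (y j) := by rw [← map_mul, ← map_mul, mul_comm]
        exact LinearMap.congr_fun this w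
      have h3 : ρ (y j) w = l • w := by
        have h4 : ρ (y j) w - l • w = 0 := h1
        exact sub_eq_zero.1 h4
      show ρ (y j) (ρ b w) - l • (ρ b w) = 0
      rw [h2, h3, map_smul, sub_self]
    have hne' : E' ≠ ⊥ := by
      intro h0
      have h1 : (v : V) ∈ E' := by
        refine ⟨v.2, ?_⟩
        have h2 : S v = l • v := hv.apply_eq_smul
        have h3 : ρ (y j) (v : V) = l • (v : V) := by
          have := congrArg Subtype.val h2
          simpa [S] using this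
        show ρ (y j) (v : V) - l • (v : V) = 0
        rw [h3, sub_self]
      rw [h0, Submodule.mem_bot] at h1
      exact hv.2 (Subtype.ext h1)
    obtain ⟨w, hw, hw0, χ, hχ⟩ := ih E' hE' hne'
    refine ⟨w, hw.1, hw0, Function.update χ j l, ?_⟩
    intro i hi
    by_cases hij : i = j
    · subst hij
      rw [Function.update_self]
      have h1 : (ρ (y i) - l • (1 : Module.End ℂ V)) w = 0 := hw.2
      have h4 : ρ (y i) w - l • w = 0 := h1
      exact sub_eq_zero.1 h4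
    · rw [Function.update_of_ne hij]
      exact hχ i ((Finset.mem_insert.1 hi).resolve_left hij)

/-- polynomial growth of the powers of one operator -/
private theorem one26 (x : ι → Aˣ)
    (ρ : A →+* Module.End ℂ V) (W : Submodule ℂ V) (hW : ∀ b : A, ∀ w ∈ W, ρ b w ∈ W)
    (hchar : ∀ χ : ι → ℂ, ∀ w ∈ W, w ≠ 0 → (∀ i, ρ (x i : A) w = χ i • w) → ∀ i, ‖χ i‖ = 1) (i : ι) :
    ∃ (C : ℝ) (e : ℕ), 0 < C ∧ ∀ (q : ℤ), ∀ w ∈ W, ‖ρ ((x i ^ q : Aˣ) : A) w‖ ≤ C * (|(q : ℝ)| + 1) ^ e * ‖w‖ := by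
  let T : Module.End ℂ W := (ρ (x i : A)).restrict (hW _)
  let T' : Module.End ℂ W := (ρ (↑(x i)⁻¹ : A)).restrict (hW _)
  have h1 : T * T' = 1 := by
    ext w
    show ρ (x i : A) (ρ (↑(x i)⁻¹ : A) (w : V)) = (w : V)
    have : ρ (x i : A) * ρ (↑(x i)⁻¹ : A) = 1 := by rw [← map_mul, Units.mul_inv, map_one]
    exact LinearMap.congr_fun this _
  have h2 : T' * T = 1 := by
    ext w
    show ρ (↑(x i)⁻¹ : A) (ρ (x i : A) (w : V)) = (w : V)
    have : ρ (↑(x i)⁻¹ : A) * ρ (x i : A) = 1 := by rw [← map_mul, Units.inv_mul, map_one]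
    exact LinearMap.congr_fun this _
  obtain ⟨s, hs, hker⟩ := split26 T
  have hs1 : ∀ l ∈ s, ‖l‖ = 1 := by
    intro l hl
    obtain ⟨v, hv⟩ := (hs l hl).exists_hasEigenvector
    let E' : Submodule ℂ V := W ⊓ LinearMap.ker (ρ (x i : A) - l • (1 : Module.End ℂ V))
    have hE' : ∀ b : A, ∀ w ∈ E', ρ b w ∈ E' := by
      intro b w hw
      refine ⟨hW b w hw.1, ?_⟩
      have h1 : (ρ (x i : A) - l • (1 : Module.End ℂ V)) w = 0 := hw.2
      have h2 : ρ (x i : A) (ρ b w) = ρ b (ρ (x i : A) w) := by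
        have : ρ (x i : A) * ρ b = ρ b * ρ (x i : A) := by rw [← map_mul, ← map_mul, mul_comm]
        exact LinearMap.congr_fun this w
      have h3 : ρ (x i : A) w = l • w := by
        have h4 : ρ (x i : A) w - l • w = 0 := h1
        exact sub_eq_zero.1 h4
      show ρ (x i : A) (ρ b w) - l • (ρ b w) = 0
      rw [h2, h3, map_smul, sub_self]
    have hne' : E' ≠ ⊥ := by
      intro h0
      have h1 : (v : V) ∈ E' := by
        refine ⟨v.2, ?_⟩
        have h2 : T v = l • v := hv.apply_eq_smul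
        have h3 : ρ (x i : A) (v : V) = l • (v : V) := by
          have := congrArg Subtype.val h2
          simpa [T] using this
        show ρ (x i : A) (v : V) - l • (v : V) = 0
        rw [h3, sub_self]
      rw [h0, Submodule.mem_bot] at h1
      exact hv.2 (Subtype.ext h1)
    obtain ⟨w, hw, hw0, χ, hχ⟩ := common26 ρ (fun j => (x j : A)) Finset.univ E' hE' hne'
    have h3 := hchar χ w hw.1 hw0 (fun j => hχ j (Finset.mem_univ j)) i
    have h4 : ρ (x i : A) w = l • w := by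
      have h1 : (ρ (x i : A) - l • (1 : Module.End ℂ V)) w = 0 := hw.2
      have h4 : ρ (x i : A) w - l • w = 0 := h1
      exact sub_eq_zero.1 h4
    have h5 : χ i • w = l • w := by rw [← h4]; exact (hχ i (Finset.mem_univ i)).symm
    have h6 : χ i = l := smul_left_injective ℂ hw0 h5
    rw [← h6]
    exact h3
  have hk : (s.map fun l => T - l • (1 : Module.End ℂ W)).prod = 0 := by
    rw [← aeval_list26]
    exact hker
  obtain ⟨C₁, hC₁, hV₁⟩ := V1 T s 1 one_pos fun l hl => (hs1 l hl).le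
  obtain ⟨C₂, hC₂, hV₂⟩ := V1 T' (s.map fun l => l⁻¹) 1 one_pos fun l hl => by
    obtain ⟨l', hl', rfl⟩ := List.mem_map.1 hl
    rw [norm_inv, hs1 l' hl', inv_one]
  refine ⟨max C₁ C₂, s.length, lt_max_of_lt_left hC₁, fun q w hw => ?_⟩
  have e1 : ∀ n : ℕ, ((T ^ n) ⟨w, hw⟩ : W) = (⟨ρ ((x i ^ n : Aˣ) : A) w, hW _ _ hw⟩ : W) := by
    intro n
    induction n with
    | zero =>
      apply Subtype.ext
      simp
    | succ n ih =>
      rw [pow_succ', Module.End.mul_apply, ih]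
      apply Subtype.ext
      show ρ (x i : A) (ρ ((x i ^ n : Aˣ) : A) w) = ρ ((x i ^ (n + 1) : Aˣ) : A) w
      rw [← Module.End.mul_apply, ← map_mul, ← Units.val_mul, ← pow_succ']
  have e2 : ∀ n : ℕ, ((T' ^ n) ⟨w, hw⟩ : W) = (⟨ρ (((x i)⁻¹ ^ n : Aˣ) : A) w, hW _ _ hw⟩ : W) := by
    intro n
    induction n with
    | zero =>
      apply Subtype.ext
      simp
    | succ n ih =>
      rw [pow_succ', Module.End.mul_apply, ih]
      apply Subtype.ext
      show ρ (↑(x i)⁻¹ : A) (ρ (((x i)⁻¹ ^ n : Aˣ) : A) w) = ρ (((x i)⁻¹ ^ (n + 1) : Aˣ) : A) w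
      rw [← Module.End.mul_apply, ← map_mul, ← Units.val_mul, ← pow_succ']
  rcases Int.eq_nat_or_neg q with ⟨n, rfl | rfl⟩
  · have h3 := hV₁ ⟨w, hw⟩ (by rw [hk]; rfl) n
    rw [e1 n] at h3
    rw [one_pow, mul_one] at h3
    have h4 : ‖ρ ((x i ^ n : Aˣ) : A) w‖ ≤ C₁ * ((n : ℝ) + 1) ^ s.length * ‖w‖ := h3
    rw [zpow_natCast]
    refine h4.trans ?_
    have h5 : |((n : ℤ) : ℝ)| = (n : ℝ) := by simp
    rw [h5]
    gcongr
    exact le_max_left _ _
  · have h3 := hV₂ ⟨w, hw⟩ (inv_kill26 T T' h1 h2 s (fun l hl h0 => by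
      have := hs1 l hl
      rw [h0, norm_zero] at this
      linarith) _ (by rw [hk]; rfl)) n
    rw [e2 n] at h3
    rw [one_pow, mul_one, List.length_map] at h3
    have h4 : ‖ρ (((x i)⁻¹ ^ n : Aˣ) : A) w‖ ≤ C₂ * ((n : ℝ) + 1) ^ s.length * ‖w‖ := h3
    rw [zpow_neg, zpow_natCast, ← inv_pow]
    refine h4.trans ?_
    have h5 : |((-(n : ℤ) : ℤ) : ℝ)| = (n : ℝ) := by simp
    rw [h5]
    gcongr
    exact le_max_right _ _

end aux26b

/-- Block MU-V2b. Let `W` be a subspace invariant under the commuting invertible operators `X i` (with inverses `X' i`) such that every common eigenvector in `W` has all eigenvalues of modulus one. Then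
`∏ X_i^(q_i)` grows polynomially on `W`. (For each `i` every eigenvalue `l` of `X i` on `W` has modulus one: the eigenspace in `W` is invariant under all `X j`, so it contains a common eigenvector. The minimal polynomial of the
restriction splits; use `V1` with `θ = 1` for `X i` and `X' i`.) -/
theorem V2b {ι V : Type} [Fintype ι] [NormedAddCommGroup V] [NormedSpace ℂ V] [FiniteDimensional ℂ V] {A : Type} [CommRing A] (x : ι → Aˣ)
    (ρ : A →+* Module.End ℂ V) (W : Submodule ℂ V) (hW : ∀ b : A, ∀ w ∈ W, ρ b w ∈ W)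
    (hchar : ∀ χ : ι → ℂ, ∀ w ∈ W, w ≠ 0 → (∀ i, ρ (x i : A) w = χ i • w) → ∀ i, ‖χ i‖ = 1) :
    ∃ (C : ℝ) (e : ℕ), 0 < C ∧ ∀ (q : ι → ℤ), ∀ w ∈ W, ‖ρ ((mono x q : Aˣ) : A) w‖ ≤ C * (1 + ∑ i, |(q i : ℝ)|) ^ e * ‖w‖ := by
  classical
  choose C e hC hb using one26 x ρ W hW hchar
  have key : ∀ t : Finset ι, ∀ (q : ι → ℤ), ∀ w ∈ W,
      ‖ρ ((∏ i ∈ t, x i ^ q i : Aˣ) : A) w‖ ≤ (∏ i ∈ t, C i * (|(q i : ℝ)| + 1) ^ e i) * ‖w‖ := by
    intro t
    induction t using Finset.induction_on with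
    | empty =>
      intro q w hw
      simp
    | insert j t hj ih =>
      intro q w hw
      rw [Finset.prod_insert hj, Finset.prod_insert hj, Units.val_mul, map_mul, Module.End.mul_apply]
      have h1 := hb j (q j) _ (hW ((∏ i ∈ t, x i ^ q i : Aˣ) : A) w hw)
      have h2 := ih q w hw
      have h3 : 0 ≤ C j * (|(q j : ℝ)| + 1) ^ e j := by
        have := hC j
        positivity
      calc _ ≤ C j * (|(q j : ℝ)| + 1) ^ e j * ‖ρ ((∏ i ∈ t, x i ^ q i : Aˣ) : A) w‖ := h1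
        _ ≤ C j * (|(q j : ℝ)| + 1) ^ e j * ((∏ i ∈ t, C i * (|(q i : ℝ)| + 1) ^ e i) * ‖w‖) :=
            mul_le_mul_of_nonneg_left h2 h3
        _ = _ := by ring
  refine ⟨∏ i, C i, ∑ i, e i, Finset.prod_pos fun i _ => hC i, fun q w hw => ?_⟩
  refine (key Finset.univ q w hw).trans ?_
  rw [Finset.prod_mul_distrib, ← Finset.prod_pow_eq_pow_sum]
  have h0 : 0 ≤ ∏ i, C i := Finset.prod_nonneg fun i _ => (hC i).le
  refine mul_le_mul_of_nonneg_right ?_ (norm_nonneg w)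
  refine mul_le_mul_of_nonneg_left ?_ h0
  refine Finset.prod_le_prod (fun i _ => by positivity) fun i _ => ?_
  refine pow_le_pow_left₀ (by positivity) ?_ _
  have : |(q i : ℝ)| ≤ ∑ i, |(q i : ℝ)| :=
    Finset.single_le_sum (f := fun i => |(q i : ℝ)|) (fun j _ => abs_nonneg _) (Finset.mem_univ i)
  linarith

end Pool.Agent.Helper74.MU
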