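import Pool.Agent.Helper74.MU.Defs

set_option autoImplicit false

namespace Pool.Agent.Helper74.MU

open Polynomial

/-- `V` contains the ring of integers -/
private theorem int_mem_h54 {K : Type} [Field K] [NumberField K] (V : ValuationSubring K)
    (x : NumberField.RingOfIntegers K) : algebraMap (NumberField.RingOfIntegers K) K x ∈ V := by
  have h1 : IsIntegral ℤ (algebraMap (NumberField.RingOfIntegers K) K x) :=
    NumberField.RingOfIntegers.isIntegral_coe x
  have h2 : IsIntegral V (algebraMap (NumberField.RingOfIntegers K) K x) := h1.tower_top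
  obtain ⟨y, hy⟩ := IsIntegrallyClosed.isIntegral_iff.1 h2
  rw [← hy]
  exact y.2

/-- the map to `V` -/
private noncomputable def toV_h54 {K : Type} [Field K] [NumberField K] (V : ValuationSubring K) :
    NumberField.RingOfIntegers K →+* V :=
  (algebraMap (NumberField.RingOfIntegers K) K).codRestrict V.toSubring (int_mem_h54 V)

/-- the prime of `V` -/
private noncomputable def pV_h54 {K : Type} [Field K] [NumberField K] (V : ValuationSubring K) :
    Ideal (NumberField.RingOfIntegers K) :=
  (IsLocalRing.maximalIdeal V).comap (toV_h54 V)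

private theorem mem_pV_h54 {K : Type} [Field K] [NumberField K] (V : ValuationSubring K)
    (x : NumberField.RingOfIntegers K) :
    x ∈ pV_h54 V ↔ algebraMap (NumberField.RingOfIntegers K) K x ∈ V.nonunits := by
  rw [pV_h54, Ideal.mem_comap, ← ValuationSubring.coe_mem_nonunits_iff]
  rfl

private theorem prime_pV_h54 {K : Type} [Field K] [NumberField K] (V : ValuationSubring K) :
    (pV_h54 V).IsPrime := by
  unfold pV_h54
  exact Ideal.comap_isPrime _ _

/-- Block MU-Vfin. A nonzero element of a number field is a nonunit in only finitely many valuation subrings.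
Proof: `V ⊇ 𝓞 K`; the prime `𝔭_V = {x ∈ 𝓞 K : x nonunit of V}` contains `α` where `w = α/β`, `α, β ∈ 𝓞 K` nonzero; `𝓞 K` has only finitely many primes containing `α`; `V` is determined by `𝔭_V`
because `V` dominates the localisation of `𝓞 K` at `𝔭_V ≠ 0`, which is a discrete valuation ring, hence a valuation ring of `K` (and valuation rings are maximal for domination:
`ValuationSubring.isMax_toLocalSubring`). -/
theorem Vfin (K : Type) [Field K] [NumberField K] (w : K) (hw : w ≠ 0) : {V : ValuationSubring K | w ∈ V.nonunits}.Finite := by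
  obtain ⟨α, β, hβ, hw'⟩ := IsFractionRing.div_surjective (NumberField.RingOfIntegers K) w
  have hα : α ≠ 0 := by
    rintro rfl
    apply hw
    rw [← hw', map_zero, zero_div]
  have hβ0 : algebraMap (NumberField.RingOfIntegers K) K β ≠ 0 := by
    intro h0
    apply hw
    rw [← hw', h0, div_zero]
  have hspan : Ideal.span {α} ≠ ⊥ := by
    rw [Ne, Ideal.span_singleton_eq_bot]
    exact hα
  refine ((Ideal.finite_factors hspan).image
    (fun v => IsDedekindDomain.HeightOneSpectrum.valuationSubringAtPrime K v)).subset ?_
  intro V hV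
  have hV : w ∈ V.nonunits := hV
  have hαV : algebraMap (NumberField.RingOfIntegers K) K α ∈ V.nonunits := by
    have h1 : algebraMap (NumberField.RingOfIntegers K) K α =
        w * algebraMap (NumberField.RingOfIntegers K) K β := by
      rw [← hw', div_mul_cancel₀ _ hβ0]
    rw [h1]
    have h2 : (⟨w, V.nonunits_subset hV⟩ : V) ∈ IsLocalRing.maximalIdeal V :=
      ValuationSubring.coe_mem_nonunits_iff.1 hV
    have h3 := Ideal.mul_mem_right (⟨_, int_mem_h54 V β⟩ : V) _ h2
    exact ValuationSubring.coe_mem_nonunits_iff.2 h3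
  have hαP : α ∈ pV_h54 V := (mem_pV_h54 V α).2 hαV
  have hne : pV_h54 V ≠ ⊥ := by
    intro h0
    rw [h0, Ideal.mem_bot] at hαP
    exact hα hαP
  have hTop : V ≠ ⊤ := by
    rintro rfl
    rcases (ValuationSubring.mem_nonunits_iff_or _).1 hV with h | h
    · exact hw h
    · exact h (ValuationSubring.mem_top _)
  let v : IsDedekindDomain.HeightOneSpectrum (NumberField.RingOfIntegers K) :=
    ⟨pV_h54 V, prime_pV_h54 V, hne⟩
  refine ⟨v, ?_, ?_⟩
  · show v.asIdeal ∣ Ideal.span {α}
    rw [Ideal.dvd_span_singleton]
    exact hαP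
  · show IsDedekindDomain.HeightOneSpectrum.valuationSubringAtPrime K v = V
    refine ValuationSubring.eq_of_le_of_ne_top _ ?_ hTop
    rintro x ⟨a, s, hs, rfl⟩
    have hs' : s ∉ pV_h54 V := hs
    rw [mem_pV_h54, ValuationSubring.mem_nonunits_iff_or, not_or, not_not] at hs'
    exact V.mul_mem _ _ (int_mem_h54 V a) hs'.2

end Pool.Agent.Helper74.MU
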